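import Mathlib

set_option autoImplicit false

open Complex Set Filter Topology MeasureTheory
open scoped Real ContDiff

namespace Pool.H110K

/-- `SL(2, ℝ)` -/
abbrev SL2 := Matrix.SpecialLinearGroup (Fin 2) ℝ

/-- the denominator `c z + d` -/
noncomputable def den (M : SL2) (z : ℂ) : ℂ := ((M 1 0 : ℝ) : ℂ) * z + ((M 1 1 : ℝ) : ℂ)

/-- the Möbius map `(a z + b) / (c z + d)` -/
noncomputable def mob (M : SL2) (z : ℂ) : ℂ :=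
  (((M 0 0 : ℝ) : ℂ) * z + ((M 0 1 : ℝ) : ℂ)) / den M z

/-- the upper half plane -/
def UH : Set ℂ := {z | 0 < z.im}

/-- the Laplacian `φ_xx + φ_yy` -/
noncomputable def lap (φ : ℂ → ℝ) (z : ℂ) : ℝ :=
  fderiv ℝ (fun w => fderiv ℝ φ w 1) z 1 + fderiv ℝ (fun w => fderiv ℝ φ w I) z I

/-- `z` is a complete unit speed geodesic, with velocity `v`, of the metric `e^{2φ} |dz|^2` on the
upper half plane.  The geodesic equation is `z'' = - (φ_x - i φ_y) z'^2`. -/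
structure IsGeo (φ : ℂ → ℝ) (z v : ℝ → ℂ) : Prop where
  mem : ∀ t, z t ∈ UH
  dz : ∀ t, HasDerivAt z (v t) t
  dv : ∀ t, HasDerivAt v (-(((fderiv ℝ φ (z t) (v t) : ℝ) : ℂ)
      - I * ((fderiv ℝ φ (z t) (I * v t) : ℝ) : ℂ)) * v t) t
  unit : ∀ t, Real.exp (φ (z t)) * ‖v t‖ = 1

/-- scale invariant bounds for the conformal factor -/
structure Good (φ : ℂ → ℝ) (B : ℝ) : Prop where
  one_le : 1 ≤ B
  smooth : ContDiffOn ℝ ∞ φ UH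
  g0 : ∀ p ∈ UH, |φ p + Real.log p.im| ≤ B
  g1 : ∀ p ∈ UH, ‖fderiv ℝ φ p‖ * p.im ≤ B
  g2 : ∀ p ∈ UH, ∀ q, ‖q - p‖ ≤ p.im / 2 →
    ‖fderiv ℝ φ q - fderiv ℝ φ p‖ * p.im ^ 2 ≤ B * ‖q - p‖
  g3 : ∀ p ∈ UH, lap φ p = 0 → ∀ q, ‖q - p‖ ≤ p.im / 2 → lap φ q * p.im ^ 4 ≤ B * ‖q - p‖ ^ 2
  g4 : ∀ p ∈ UH, 0 ≤ lap φ p

/-- the conformal factor in the coordinate `M⁻¹ z` -/
noncomputable def pull (φ : ℂ → ℝ) (M : SL2) (z : ℂ) : ℝ := φ (mob M z) - 2 * Real.log ‖den M z‖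

/-- the invariant conformal metric of nonpositive curvature on the closed surface `Γ \ UH` -/
structure Surf (Γ : Subgroup SL2) (φ : ℂ → ℝ) : Prop where
  cocompact : ∃ K : Set ℂ, IsCompact K ∧ K ⊆ UH ∧ ∀ z ∈ UH, ∃ h ∈ Γ, mob h z ∈ K
  proper : ∀ K : Set ℂ, IsCompact K → K ⊆ UH → {h : SL2 | h ∈ Γ ∧ (mob h '' K ∩ K).Nonempty}.Finite
  free : ∀ h ∈ Γ, ∀ z ∈ UH, mob h z = z → ∀ w ∈ UH, mob h w = w
  smooth : ContDiffOn ℝ ∞ φ UH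
  inv : ∀ h ∈ Γ, ∀ z ∈ UH, φ (mob h z) = φ z + 2 * Real.log ‖den h z‖
  curv : ∀ z ∈ UH, 0 ≤ lap φ z

/-- integral of the connection form along the segment from `p` to `p + V` -/
noncomputable def Lam (φ : ℂ → ℝ) (p V : ℂ) : ℝ :=
  ∫ σ in (0:ℝ)..1, fderiv ℝ φ (p + (σ : ℂ) * V) (I * V)

/-- `e^{iQ}`, `Q` = angle between `b` (at `r`) and the parallel transport of `a` (at `p`) along
the straight segment -/
noncomputable def qf (φ : ℂ → ℝ) (p r a b : ℂ) : ℂ :=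
  (b / a) * ((Real.exp (φ r - φ p) : ℝ) : ℂ) * Complex.exp (-(I * ((Lam φ p (r - p) : ℝ) : ℂ)))

/-- the derivative of the angle: curvature integral over the moving segment -/
noncomputable def Gf (φ : ℂ → ℝ) (p V a W : ℂ) : ℝ :=
  ∫ σ in (0:ℝ)..1, lap φ (p + (σ : ℂ) * V) * ((starRingEnd ℂ) (a + (σ : ℂ) * W) * V).im

/-- lift of a closed zero curvature geodesic of length `ℓ`, with period element `h` which acts
nontrivially -/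
structure CG (Γ : Subgroup SL2) (φ : ℂ → ℝ) (z v : ℝ → ℂ) (h : SL2) (ℓ : ℝ) : Prop where
  geo : IsGeo φ z v
  flat : ∀ t, lap φ (z t) = 0
  mem : h ∈ Γ
  pos : 0 < ℓ
  per : ∀ t, z (t + ℓ) = mob h (z t)
  nt : ∃ w ∈ UH, mob h w ≠ w

/-- `ℓ` generates all periods of `z` modulo `Γ` -/
def Prm (Γ : Subgroup SL2) (z : ℝ → ℂ) (ℓ : ℝ) : Prop :=
  ∀ k ∈ Γ, ∀ a : ℝ, (∀ t, z (t + a) = mob k (z t)) → ∃ n : ℤ, a = n * ℓ

/-- conjugate in `Γ`, as transformations of the upper half plane -/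
def Cnj (Γ : Subgroup SL2) (h h' : SL2) : Prop :=
  ∃ g ∈ Γ, ∀ z ∈ UH, mob h' (mob g z) = mob g (mob h z)

/-- reparametrised pair of geodesics: `w (τ t) = z t + i η(t) z'(t)` -/
structure RP (φ : ℂ → ℝ) (z v w u : ℝ → ℂ) (τ η τ' η' : ℝ → ℝ) (L : ℝ) : Prop where
  gz : IsGeo φ z v
  gw : IsGeo φ w u
  sm : ContDiffOn ℝ ∞ φ UH
  lapnn : ∀ p ∈ UH, 0 ≤ lap φ p
  dτ : ∀ t, HasDerivAt τ (τ' t) t
  dη : ∀ t, HasDerivAt η (η' t) t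
  cτ : Continuous τ'
  cη : Continuous η'
  eq : ∀ t, w (τ t) = z t + I * (η t : ℂ) * v t
  τpos : ∀ t, 0 < τ' t
  small : ∀ t, |η t * fderiv ℝ φ (z t) (I * v t)| ≤ 1 / 2
  qre : ∀ t, 0 < (qf φ (z t) (w (τ t)) (v t) (u (τ t))).re
  Lpos : 0 < L
  ηper : ∀ t, η (t + L) = η t
  τper : ∀ t, τ (t + L) = τ t + L

end Pool.H110K
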