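import Pool.Agent.H110K.Defs

set_option autoImplicit false

open Complex Set Filter Topology MeasureTheory
open scoped Real ContDiff

namespace Pool.H110K



theorem Gf_bound (φ : ℂ → ℝ) (B : ℝ) (hG : Good φ B) (p V a W : ℂ) (hp : p ∈ UH)
    (h0 : lap φ p = 0) (δ A : ℝ) (hδ : 0 ≤ δ) (hδ2 : δ ≤ 1 / 2) (hV : ‖V‖ ≤ δ * p.im)
    (ha : ‖a‖ ≤ A * p.im) (hW : ‖W‖ ≤ A * p.im) :
    |Gf φ p V a W| ≤ 2 * A * B * δ ^ 3 := by
  have hy : 0 < p.im := hp
  have hB : 1 ≤ B := hG.one_le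
  have hA : 0 ≤ A := by
    by_contra hcon
    push Not at hcon
    have h1 : A * p.im < 0 := mul_neg_of_neg_of_pos hcon hy
    have h2 := norm_nonneg a
    linarith
  have key : ∀ σ ∈ Set.uIoc (0 : ℝ) 1,
      ‖lap φ (p + (σ : ℂ) * V) * ((starRingEnd ℂ) (a + (σ : ℂ) * W) * V).im‖ ≤
        2 * A * B * δ ^ 3 := by
    intro σ hσ
    rw [Set.uIoc_of_le zero_le_one] at hσ
    obtain ⟨hσ0, hσ1⟩ := hσ
    have hd : ‖p + (σ : ℂ) * V - p‖ ≤ δ * p.im := by
      rw [add_sub_cancel_left, norm_mul, Complex.norm_real, Real.norm_of_nonneg hσ0.le]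
      calc σ * ‖V‖ ≤ 1 * ‖V‖ := mul_le_mul_of_nonneg_right hσ1 (norm_nonneg _)
        _ ≤ δ * p.im := by rw [one_mul]; exact hV
    have hd2 : ‖p + (σ : ℂ) * V - p‖ ≤ p.im / 2 := by
      refine hd.trans ?_
      have := mul_le_mul_of_nonneg_right hδ2 hy.le
      linarith
    have hR : p + (σ : ℂ) * V ∈ UH := by
      have h1 := Complex.abs_im_le_norm (p + (σ : ℂ) * V - p)
      rw [Complex.sub_im] at h1
      have h2 := (abs_le.1 (h1.trans hd2)).1
      show 0 < (p + (σ : ℂ) * V).im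
      linarith
    have hl0 := hG.g4 _ hR
    have hl1 := hG.g3 p hp h0 _ hd2
    have hl2 : lap φ (p + (σ : ℂ) * V) ≤ B * δ ^ 2 / p.im ^ 2 := by
      rw [le_div_iff₀ (by positivity)]
      have h3 : B * ‖p + (σ : ℂ) * V - p‖ ^ 2 ≤ B * (δ * p.im) ^ 2 :=
        mul_le_mul_of_nonneg_left (pow_le_pow_left₀ (norm_nonneg _) hd 2) (by linarith)
      have h4 : (lap φ (p + (σ : ℂ) * V) * p.im ^ 2) * p.im ^ 2 ≤ (B * δ ^ 2) * p.im ^ 2 := by
        calc (lap φ (p + (σ : ℂ) * V) * p.im ^ 2) * p.im ^ 2 =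
            lap φ (p + (σ : ℂ) * V) * p.im ^ 4 := by ring
          _ ≤ B * (δ * p.im) ^ 2 := hl1.trans h3
          _ = (B * δ ^ 2) * p.im ^ 2 := by ring
      exact le_of_mul_le_mul_right h4 (by positivity)
    have him : |((starRingEnd ℂ) (a + (σ : ℂ) * W) * V).im| ≤ 2 * A * δ * p.im ^ 2 := by
      refine (Complex.abs_im_le_norm _).trans ?_
      rw [norm_mul, RCLike.norm_conj]
      have h1 : ‖a + (σ : ℂ) * W‖ ≤ 2 * A * p.im := by
        refine (norm_add_le _ _).trans ?_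
        rw [norm_mul, Complex.norm_real, Real.norm_of_nonneg hσ0.le]
        have h2 : σ * ‖W‖ ≤ 1 * ‖W‖ := mul_le_mul_of_nonneg_right hσ1 (norm_nonneg _)
        linarith
      calc ‖a + (σ : ℂ) * W‖ * ‖V‖ ≤ (2 * A * p.im) * (δ * p.im) :=
            mul_le_mul h1 hV (norm_nonneg _) (by positivity)
        _ = 2 * A * δ * p.im ^ 2 := by ring
    rw [Real.norm_eq_abs, abs_mul, abs_of_nonneg hl0]
    calc lap φ (p + (σ : ℂ) * V) * |((starRingEnd ℂ) (a + (σ : ℂ) * W) * V).im| ≤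
        (B * δ ^ 2 / p.im ^ 2) * (2 * A * δ * p.im ^ 2) :=
          mul_le_mul hl2 him (abs_nonneg _) (by positivity)
      _ = 2 * A * B * δ ^ 3 := by field_simp
  have h1 := intervalIntegral.norm_integral_le_of_norm_le_const key
  rw [sub_zero, abs_one, mul_one] at h1
  exact h1

end Pool.H110K
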