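import Pool.Agent.H110K.Defs

set_option autoImplicit false

open Complex Set Filter Topology MeasureTheory
open scoped Real ContDiff

namespace Pool.H110K



theorem Gf_sign_im_j20711 (v : ℂ) (η η' α β σ : ℝ) :
    ((starRingEnd ℂ) (v + (σ : ℂ) * (I * (η' : ℂ) * v + I * (η : ℂ) *
      (-((α : ℂ) - I * (β : ℂ)) * v))) * (I * (η : ℂ) * v)).im =
      η * (1 - σ * (η * β)) * Complex.normSq v := by
  rw [Complex.normSq_apply]
  simp only [Complex.mul_im, Complex.mul_re, Complex.conj_re, Complex.conj_im, Complex.add_re,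
    Complex.add_im, Complex.I_re, Complex.I_im, Complex.ofReal_re, Complex.ofReal_im,
    Complex.neg_re, Complex.neg_im, Complex.sub_re, Complex.sub_im]
  ring

theorem Gf_sign (φ : ℂ → ℝ) (p v : ℂ) (η η' : ℝ)
    (hl : ∀ σ : ℝ, 0 ≤ σ → σ ≤ 1 → 0 ≤ lap φ (p + (σ : ℂ) * (I * (η : ℂ) * v)))
    (hs : |η * fderiv ℝ φ p (I * v)| ≤ 1 / 2) :
    (0 ≤ η → 0 ≤ Gf φ p (I * (η : ℂ) * v) v (I * (η' : ℂ) * v + I * (η : ℂ) *
      (-(((fderiv ℝ φ p v : ℝ) : ℂ) - I * ((fderiv ℝ φ p (I * v) : ℝ) : ℂ)) * v))) ∧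
    (η ≤ 0 → Gf φ p (I * (η : ℂ) * v) v (I * (η' : ℂ) * v + I * (η : ℂ) *
      (-(((fderiv ℝ φ p v : ℝ) : ℂ) - I * ((fderiv ℝ φ p (I * v) : ℝ) : ℂ)) * v)) ≤ 0) := by
  obtain ⟨α, hα⟩ : ∃ α : ℝ, α = fderiv ℝ φ p v := ⟨_, rfl⟩
  obtain ⟨β, hβ⟩ : ∃ β : ℝ, β = fderiv ℝ φ p (I * v) := ⟨_, rfl⟩
  rw [← hβ] at hs
  rw [← hα, ← hβ]
  have hpos : ∀ σ : ℝ, 0 ≤ σ → σ ≤ 1 → 0 ≤ 1 - σ * (η * β) := by
    intro σ h0 h1
    have h2 := (abs_le.1 hs).2
    have h3 := (abs_le.1 hs).1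
    nlinarith
  have hG : Gf φ p (I * (η : ℂ) * v) v (I * (η' : ℂ) * v + I * (η : ℂ) *
      (-((α : ℂ) - I * (β : ℂ)) * v)) = ∫ σ in (0:ℝ)..1,
      lap φ (p + (σ : ℂ) * (I * (η : ℂ) * v)) * (η * (1 - σ * (η * β)) * Complex.normSq v) := by
    unfold Gf
    refine intervalIntegral.integral_congr fun σ _ => ?_
    rw [Gf_sign_im_j20711]
  rw [hG]
  constructor
  · intro hη
    refine intervalIntegral.integral_nonneg zero_le_one fun σ hσ => ?_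
    exact mul_nonneg (hl σ hσ.1 hσ.2) (mul_nonneg (mul_nonneg hη (hpos σ hσ.1 hσ.2))
      (Complex.normSq_nonneg v))
  · intro hη
    have h1 : 0 ≤ ∫ σ in (0:ℝ)..1,
      lap φ (p + (σ : ℂ) * (I * (η : ℂ) * v)) * ((-η) * (1 - σ * (η * β)) * Complex.normSq v) := by
      refine intervalIntegral.integral_nonneg zero_le_one fun σ hσ => ?_
      exact mul_nonneg (hl σ hσ.1 hσ.2) (mul_nonneg (mul_nonneg (by linarith)
        (hpos σ hσ.1 hσ.2)) (Complex.normSq_nonneg v))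
    have h2 : (∫ σ in (0:ℝ)..1,
      lap φ (p + (σ : ℂ) * (I * (η : ℂ) * v)) * ((-η) * (1 - σ * (η * β)) * Complex.normSq v)) =
      -∫ σ in (0:ℝ)..1,
      lap φ (p + (σ : ℂ) * (I * (η : ℂ) * v)) * (η * (1 - σ * (η * β)) * Complex.normSq v) := by
      rw [← intervalIntegral.integral_neg]
      refine intervalIntegral.integral_congr fun σ _ => ?_
      ring
    rw [h2] at h1
    linarith

end Pool.H110K
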