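import Pool.Agent.H110K.Defs

set_option autoImplicit false

open Complex Set Filter Topology MeasureTheory
open scoped Real ContDiff

namespace Pool.H110K



theorem mb_det (M : SL2) : (M 0 0 : ℝ) * M 1 1 - M 0 1 * M 1 0 = 1 := by
  have h := M.det_coe
  rw [Matrix.det_fin_two] at h
  exact h

theorem mb_den (M : SL2) (z : ℂ) (hz : z ∈ UH) : den M z ≠ 0 := by
  intro h
  have hz0 : 0 < z.im := hz
  have h1 := congrArg Complex.im h
  have h2 := congrArg Complex.re h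
  simp only [den, Complex.add_im, Complex.mul_im, Complex.ofReal_re, Complex.ofReal_im, zero_mul,
    add_zero, Complex.zero_im, Complex.add_re, Complex.mul_re, sub_zero, Complex.zero_re] at h1 h2
  have hc : (M 1 0 : ℝ) = 0 := by
    rcases mul_eq_zero.1 h1 with h3 | h3
    · exact h3
    · exact absurd h3 hz0.ne'
  rw [hc] at h2
  have hd : (M 1 1 : ℝ) = 0 := by linarith
  have h4 := mb_det M
  rw [hc, hd] at h4
  norm_num at h4

theorem mb_im (M : SL2) (z : ℂ) (hz : z ∈ UH) : (mob M z).im = z.im / ‖den M z‖ ^ 2 := by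
  have h0 : Complex.normSq (den M z) ≠ 0 := by
    intro h
    exact mb_den M z hz (Complex.normSq_eq_zero.1 h)
  rw [← Complex.normSq_eq_norm_sq]
  unfold mob
  rw [Complex.div_im, ← sub_div]
  congr 1
  simp only [den, Complex.add_im, Complex.mul_im, Complex.ofReal_re, Complex.ofReal_im, zero_mul,
    add_zero, Complex.add_re, Complex.mul_re, sub_zero]
  have h4 := mb_det M
  linear_combination z.im * h4

theorem mb_mem (M : SL2) (z : ℂ) (hz : z ∈ UH) : mob M z ∈ UH := by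
  have hz0 : 0 < z.im := hz
  show 0 < (mob M z).im
  rw [mb_im M z hz]
  have h1 : 0 < ‖den M z‖ := norm_pos_iff.2 (mb_den M z hz)
  positivity

theorem mb_e00 (M N : SL2) : ((M * N) 0 0 : ℝ) = M 0 0 * N 0 0 + M 0 1 * N 1 0 := by
  rw [Matrix.SpecialLinearGroup.coe_mul, Matrix.mul_apply, Fin.sum_univ_two]
theorem mb_e01 (M N : SL2) : ((M * N) 0 1 : ℝ) = M 0 0 * N 0 1 + M 0 1 * N 1 1 := by
  rw [Matrix.SpecialLinearGroup.coe_mul, Matrix.mul_apply, Fin.sum_univ_two]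
theorem mb_e10 (M N : SL2) : ((M * N) 1 0 : ℝ) = M 1 0 * N 0 0 + M 1 1 * N 1 0 := by
  rw [Matrix.SpecialLinearGroup.coe_mul, Matrix.mul_apply, Fin.sum_univ_two]
theorem mb_e11 (M N : SL2) : ((M * N) 1 1 : ℝ) = M 1 0 * N 0 1 + M 1 1 * N 1 1 := by
  rw [Matrix.SpecialLinearGroup.coe_mul, Matrix.mul_apply, Fin.sum_univ_two]

theorem mb_denmul (M N : SL2) (z : ℂ) (hz : z ∈ UH) :
    den (M * N) z = den M (mob N z) * den N z := by
  have h1 := mb_den N z hz
  have h2 : mob N z * den N z = ((N 0 0 : ℝ) : ℂ) * z + ((N 0 1 : ℝ) : ℂ) := by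
    unfold mob
    field_simp
  have h3 : den M (mob N z) * den N z = ((M 1 0 : ℝ) : ℂ) * (mob N z * den N z)
      + ((M 1 1 : ℝ) : ℂ) * den N z := by
    unfold den
    ring
  rw [h3, h2]
  unfold den
  rw [mb_e10, mb_e11]
  push_cast
  ring

theorem mb_mul (M N : SL2) (z : ℂ) (hz : z ∈ UH) : mob (M * N) z = mob M (mob N z) := by
  have h1 := mb_den N z hz
  have h0 := mb_den M _ (mb_mem N z hz)
  have h2 : mob N z * den N z = ((N 0 0 : ℝ) : ℂ) * z + ((N 0 1 : ℝ) : ℂ) := by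
    unfold mob
    field_simp
  have h4 : (((M * N) 0 0 : ℝ) : ℂ) * z + (((M * N) 0 1 : ℝ) : ℂ) =
      (((M 0 0 : ℝ) : ℂ) * mob N z + ((M 0 1 : ℝ) : ℂ)) * den N z := by
    have h3 : (((M 0 0 : ℝ) : ℂ) * mob N z + ((M 0 1 : ℝ) : ℂ)) * den N z =
        ((M 0 0 : ℝ) : ℂ) * (mob N z * den N z) + ((M 0 1 : ℝ) : ℂ) * den N z := by ring
    rw [h3, h2, mb_e00, mb_e01]
    unfold den
    push_cast
    ring
  have e1 : mob (M * N) z = ((((M * N) 0 0 : ℝ) : ℂ) * z + (((M * N) 0 1 : ℝ) : ℂ)) /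
      den (M * N) z := rfl
  have e2 : mob M (mob N z) = (((M 0 0 : ℝ) : ℂ) * mob N z + ((M 0 1 : ℝ) : ℂ)) /
      den M (mob N z) := rfl
  rw [e1, e2, h4, mb_denmul M N z hz, mul_div_mul_right _ _ h1]

theorem mb_one (z : ℂ) : mob (1 : SL2) z = z ∧ den (1 : SL2) z = 1 := by
  have e0 : ((1 : SL2) 0 0 : ℝ) = 1 := by simp
  have e1 : ((1 : SL2) 0 1 : ℝ) = 0 := by simp
  have e2 : ((1 : SL2) 1 0 : ℝ) = 0 := by simp
  have e3 : ((1 : SL2) 1 1 : ℝ) = 1 := by simp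
  have h : den (1 : SL2) z = 1 := by
    unfold den
    rw [e2, e3]
    simp
  refine ⟨?_, h⟩
  unfold mob
  rw [h, e0, e1]
  simp

theorem mobius_basic (M N : SL2) (z : ℂ) (hz : z ∈ UH) :
    den M z ≠ 0 ∧ (mob M z).im = z.im / ‖den M z‖ ^ 2 ∧ mob M z ∈ UH ∧
    mob (M * N) z = mob M (mob N z) ∧ den (M * N) z = den M (mob N z) * den N z ∧
    mob (1 : SL2) z = z ∧ den (1 : SL2) z = 1 ∧ mob M⁻¹ (mob M z) = z ∧ mob M (mob M⁻¹ z) = z := by
  refine ⟨mb_den M z hz, mb_im M z hz, mb_mem M z hz, mb_mul M N z hz, mb_denmul M N z hz,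
    (mb_one z).1, (mb_one z).2, ?_, ?_⟩
  · rw [← mb_mul M⁻¹ M z hz, inv_mul_cancel]
    exact (mb_one z).1
  · rw [← mb_mul M M⁻¹ z hz, mul_inv_cancel]
    exact (mb_one z).1

end Pool.H110K
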