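import Pool.Agent.H110K.Defs
import Pool.Agent.H110K.P_mobius_basic

set_option autoImplicit false

open Complex Set Filter Topology MeasureTheory
open scoped Real ContDiff

namespace Pool.H110K



theorem comm_scal_aux (k : SL2) (lam : ℝ) (hl : 0 < lam) (hl1 : lam ≠ 1)
    (hden : ∀ z ∈ UH, den k z ≠ 0)
    (hk : ∀ z ∈ UH, mob k ((lam : ℂ) * z) = (lam : ℂ) * mob k z) :
    ∃ mu : ℝ, 0 < mu ∧ ∀ z ∈ UH, mob k z = (mu : ℂ) * z := by
  have hdet : k 0 0 * k 1 1 - k 0 1 * k 1 0 = 1 := by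
    have h1 := k.det_coe
    rw [Matrix.det_fin_two] at h1
    exact h1
  obtain ⟨a, ha⟩ : ∃ a : ℝ, a = k 0 0 := ⟨_, rfl⟩
  obtain ⟨b, hb⟩ : ∃ b : ℝ, b = k 0 1 := ⟨_, rfl⟩
  obtain ⟨c, hc⟩ : ∃ c : ℝ, c = k 1 0 := ⟨_, rfl⟩
  obtain ⟨d, hd⟩ : ∃ d : ℝ, d = k 1 1 := ⟨_, rfl⟩
  rw [← ha, ← hb, ← hc, ← hd] at hdet
  have hmob : ∀ z, mob k z = ((a : ℂ) * z + b) / ((c : ℂ) * z + d) := by
    intro z
    unfold mob den
    rw [ha, hb, hc, hd]
  have hden' : ∀ z ∈ UH, (c : ℂ) * z + d ≠ 0 := by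
    intro z hz
    have h1 := hden z hz
    unfold den at h1
    rw [← hc, ← hd] at h1
    exact h1
  have hUH : ∀ z ∈ UH, (lam : ℂ) * z ∈ UH := by
    intro z hz
    show 0 < ((lam : ℂ) * z).im
    rw [Complex.im_ofReal_mul lam z]
    exact mul_pos hl hz
  have hpoly : ∀ z ∈ UH, ((a : ℂ) * (lam * z) + b) * (c * z + d) =
      lam * (a * z + b) * (c * (lam * z) + d) := by
    intro z hz
    have h1 := hk z hz
    rw [hmob, hmob, ← mul_div_assoc, div_eq_div_iff (hden' _ (hUH z hz)) (hden' z hz)] at h1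
    exact h1
  have hI : ∀ t : ℝ, 0 < t → -(a * c * (lam - lam ^ 2)) * t ^ 2 + b * d * (1 - lam) = 0 ∧
      b * c * (1 - lam ^ 2) * t = 0 := by
    intro t ht
    have h1 := hpoly ((t : ℂ) * I) (by
      show 0 < ((t : ℂ) * I).im
      simpa using ht)
    have hre := congrArg Complex.re h1
    have him := congrArg Complex.im h1
    simp at hre him
    constructor
    · linear_combination hre
    · linear_combination him
  obtain ⟨r1, i1⟩ := hI 1 one_pos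
  obtain ⟨r2, i2⟩ := hI 2 two_pos
  have hlam1 : 1 - lam ≠ 0 := sub_ne_zero.2 (Ne.symm hl1)
  have hlam2 : 1 - lam ^ 2 ≠ 0 := by
    have h1 : 1 - lam ^ 2 = (1 - lam) * (1 + lam) := by ring
    rw [h1]
    exact mul_ne_zero hlam1 (by positivity)
  have hbc : b * c = 0 := by
    have h1 : b * c * (1 - lam ^ 2) = 0 := by linarith
    exact (mul_eq_zero.1 h1).resolve_right hlam2
  have hac : a * c = 0 := by
    have h1 : a * c * (lam * (1 - lam)) = 0 := by linarith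
    exact (mul_eq_zero.1 h1).resolve_right (mul_ne_zero hl.ne' hlam1)
  have hbd : b * d = 0 := by
    have h1 : b * d * (1 - lam) = 0 := by
      rw [hac] at r1
      linarith
    exact (mul_eq_zero.1 h1).resolve_right hlam1
  have had : a * d = 1 := by linarith
  have ha0 : a ≠ 0 := left_ne_zero_of_mul (had.trans_ne one_ne_zero)
  have hd0 : d ≠ 0 := right_ne_zero_of_mul (had.trans_ne one_ne_zero)
  have hc0 : c = 0 := (mul_eq_zero.1 hac).resolve_left ha0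
  have hb0 : b = 0 := (mul_eq_zero.1 hbd).resolve_right hd0
  refine ⟨a ^ 2, by positivity, ?_⟩
  intro z _
  rw [hmob, hc0, hb0]
  have hdc : (d : ℂ) ≠ 0 := Complex.ofReal_ne_zero.2 hd0
  have hadc : (a : ℂ) * d = 1 := by exact_mod_cast had
  push_cast
  rw [add_zero, zero_mul, zero_add, div_eq_iff hdc]
  linear_combination (-(a : ℂ) * z) * hadc

theorem comm_scal (h P g : SL2) (lam : ℝ) (hl : 0 < lam) (hl1 : lam ≠ 1)
    (hP : ∀ z ∈ UH, mob h (mob P z) = mob P ((lam : ℂ) * z))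
    (hc : ∀ z ∈ UH, mob g (mob h z) = mob h (mob g z)) :
    ∃ mu : ℝ, 0 < mu ∧ ∀ z ∈ UH, mob g (mob P z) = mob P ((mu : ℂ) * z) := by
  obtain ⟨k, hk⟩ : ∃ k : SL2, k = P⁻¹ * (g * P) := ⟨_, rfl⟩
  have hmem : ∀ (M : SL2) (z : ℂ), z ∈ UH → mob M z ∈ UH := fun M z hz =>
    (mobius_basic M 1 z hz).2.2.1
  have hmul : ∀ (M N : SL2) (z : ℂ), z ∈ UH → mob (M * N) z = mob M (mob N z) := fun M N z hz =>
    (mobius_basic M N z hz).2.2.2.1
  have hinv1 : ∀ (M : SL2) (z : ℂ), z ∈ UH → mob M⁻¹ (mob M z) = z := fun M z hz =>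
    (mobius_basic M 1 z hz).2.2.2.2.2.2.2.1
  have hinv2 : ∀ (M : SL2) (z : ℂ), z ∈ UH → mob M (mob M⁻¹ z) = z := fun M z hz =>
    (mobius_basic M 1 z hz).2.2.2.2.2.2.2.2
  have hlam : ∀ z ∈ UH, (lam : ℂ) * z ∈ UH := by
    intro z hz
    show 0 < ((lam : ℂ) * z).im
    rw [Complex.im_ofReal_mul lam z]
    exact mul_pos hl hz
  have hkz : ∀ z ∈ UH, mob k z = mob P⁻¹ (mob g (mob P z)) := by
    intro z hz
    rw [hk, hmul _ _ z hz, hmul _ _ z hz]
  have hPk : ∀ z ∈ UH, mob P (mob k z) = mob g (mob P z) := by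
    intro z hz
    rw [hkz z hz, hinv2 _ _ (hmem _ _ (hmem _ _ hz))]
  obtain ⟨mu, hmu, hmuz⟩ := comm_scal_aux k lam hl hl1
    (fun z hz => (mobius_basic k 1 z hz).1) (by
      intro z hz
      rw [hkz _ (hlam z hz), ← hP z hz, hc _ (hmem _ _ hz), ← hPk z hz, hP _ (hmem _ _ hz),
        hinv1 _ _ (hlam _ (hmem _ _ hz))])
  refine ⟨mu, hmu, ?_⟩
  intro z hz
  rw [← hPk z hz, hmuz z hz]

end Pool.H110K
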