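import Pool.Agent.H110K.Defs

set_option autoImplicit false

open Complex Set Filter Topology MeasureTheory
open scoped Real ContDiff

namespace Pool.H110K



theorem geo_congr (φ ψ : ℂ → ℝ) (h : ∀ z ∈ UH, φ z = ψ z) (z v : ℝ → ℂ) :
    (IsGeo φ z v → IsGeo ψ z v) ∧ (∀ p ∈ UH, lap φ p = lap ψ p) ∧
    (∀ B, Good φ B → Good ψ B) := by
  have hopen : IsOpen UH := isOpen_lt continuous_const Complex.continuous_im
  have hev : ∀ p ∈ UH, φ =ᶠ[𝓝 p] ψ := fun p hp => by
    filter_upwards [hopen.mem_nhds hp] with w hw using h w hw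
  have hfd : ∀ p ∈ UH, fderiv ℝ φ p = fderiv ℝ ψ p := fun p hp => (hev p hp).fderiv_eq
  have hfe : ∀ (a : ℂ), ∀ p ∈ UH, fderiv ℝ (fun w => fderiv ℝ φ w a) p =
      fderiv ℝ (fun w => fderiv ℝ ψ w a) p := by
    intro a p hp
    apply Filter.EventuallyEq.fderiv_eq
    filter_upwards [hopen.mem_nhds hp] with w hw
    rw [hfd w hw]
  have hlap : ∀ p ∈ UH, lap φ p = lap ψ p := by
    intro p hp
    simp only [lap]
    rw [hfe 1 p hp, hfe I p hp]
  have hq : ∀ p ∈ UH, ∀ q, ‖q - p‖ ≤ p.im / 2 → q ∈ UH := by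
    intro p hp q hqp
    have h1 := Complex.abs_im_le_norm (q - p)
    rw [Complex.sub_im] at h1
    have h2 : 0 < p.im := hp
    have h3 := (abs_le.1 (h1.trans hqp)).1
    show 0 < q.im
    linarith
  refine ⟨fun hg => ⟨hg.mem, hg.dz, fun t => ?_, fun t => ?_⟩, hlap, fun B hB => ?_⟩
  · have := hg.dv t
    rwa [hfd _ (hg.mem t)] at this
  · rw [← h _ (hg.mem t)]
    exact hg.unit t
  · refine ⟨hB.one_le, hB.smooth.congr fun z hz => (h z hz).symm, ?_, ?_, ?_, ?_, ?_⟩
    · intro p hp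
      rw [← h p hp]; exact hB.g0 p hp
    · intro p hp
      rw [← hfd p hp]; exact hB.g1 p hp
    · intro p hp q hqp
      rw [← hfd p hp, ← hfd q (hq p hp q hqp)]
      exact hB.g2 p hp q hqp
    · intro p hp h0 q hqp
      rw [← hlap p hp] at h0
      rw [← hlap q (hq p hp q hqp)]
      exact hB.g3 p hp h0 q hqp
    · intro p hp
      rw [← hlap p hp]; exact hB.g4 p hp

end Pool.H110K
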