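import Pool.Agent.H110K.Defs
import Pool.Agent.H110K.P_mobius_basic

set_option autoImplicit false

open Complex Set Filter Topology MeasureTheory
open scoped Real ContDiff

namespace Pool.H110K



theorem hasDerivAt_mob (M : SL2) (z : ℂ) (hz : z ∈ UH) :
    HasDerivAt (mob M) (1 / (den M z) ^ 2) z := by
  have hden : den M z ≠ 0 := (mobius_basic M M z hz).1
  have h1 : HasDerivAt (fun w : ℂ => ((M 0 0 : ℝ) : ℂ) * w + ((M 0 1 : ℝ) : ℂ))
      (((M 0 0 : ℝ) : ℂ)) z := by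
    simpa using ((hasDerivAt_id z).const_mul ((M 0 0 : ℝ) : ℂ)).add_const ((M 0 1 : ℝ) : ℂ)
  have h2 : HasDerivAt (den M) (((M 1 0 : ℝ) : ℂ)) z := by
    unfold den
    simpa using ((hasDerivAt_id z).const_mul ((M 1 0 : ℝ) : ℂ)).add_const ((M 1 1 : ℝ) : ℂ)
  have h3 := h1.div h2 hden
  have hdet : ((M 0 0 : ℝ) : ℂ) * ((M 1 1 : ℝ) : ℂ) - ((M 0 1 : ℝ) : ℂ) * ((M 1 0 : ℝ) : ℂ) = 1 := by
    have := M.det_coe
    rw [Matrix.det_fin_two] at this
    exact_mod_cast this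
  have h4 : (((M 0 0 : ℝ) : ℂ) * den M z - (((M 0 0 : ℝ) : ℂ) * z + ((M 0 1 : ℝ) : ℂ)) *
      ((M 1 0 : ℝ) : ℂ)) / den M z ^ 2 = 1 / (den M z) ^ 2 := by
    congr 1
    unfold den
    linear_combination hdet
  rw [← h4]
  exact h3

end Pool.H110K
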