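import Pool.Agent.H110K.Defs
import Pool.Agent.H110K.P_mobius_basic
import Pool.Agent.H110K.P_hasDerivAt_mob

set_option autoImplicit false

open Complex Set Filter Topology MeasureTheory
open scoped Real ContDiff

namespace Pool.H110K



theorem pb_open : IsOpen UH := isOpen_lt continuous_const Complex.continuous_im

theorem pb_den_cd (M : SL2) : ContDiff ℝ ∞ (den M) := by
  unfold den
  exact (contDiff_const.mul contDiff_id).add contDiff_const

theorem pb_mob_cd (M : SL2) (z : ℂ) (hz : z ∈ UH) : ContDiffAt ℝ ∞ (mob M) z := by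
  have h1 : ContDiffAt ℝ ∞ (fun z : ℂ => ((M 0 0 : ℝ) : ℂ) * z + ((M 0 1 : ℝ) : ℂ)) z :=
    ((contDiff_const.mul contDiff_id).add contDiff_const).contDiffAt
  have h2 : ContDiffAt ℝ ∞ (fun z : ℂ => (den M z)⁻¹) z :=
    (pb_den_cd M).contDiffAt.inv (mobius_basic M 1 z hz).1
  have h3 := h1.mul h2
  have h4 : mob M = fun z : ℂ => (((M 0 0 : ℝ) : ℂ) * z + ((M 0 1 : ℝ) : ℂ)) * (den M z)⁻¹ := by
    funext w
    unfold mob
    rw [div_eq_mul_inv]
  rw [h4]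
  exact h3

theorem pb_cd (φ : ℂ → ℝ) (M : SL2) (hφ : ContDiffOn ℝ ∞ φ UH) (z : ℂ) (hz : z ∈ UH) :
    ContDiffAt ℝ ∞ (pull φ M) z := by
  have hb := mobius_basic M 1 z hz
  have h1 : ContDiffAt ℝ ∞ φ (mob M z) := hφ.contDiffAt (pb_open.mem_nhds hb.2.2.1)
  have h2 : ContDiffAt ℝ ∞ (fun w => φ (mob M w)) z := ContDiffAt.comp z h1 (pb_mob_cd M z hz)
  have h3 : ContDiffAt ℝ ∞ (fun w => ‖den M w‖) z := (pb_den_cd M).contDiffAt.norm ℝ hb.1
  have h4 : ContDiffAt ℝ ∞ (fun w => Real.log ‖den M w‖) z :=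
    h3.log (norm_ne_zero_iff.mpr hb.1)
  exact h2.sub (contDiffAt_const.mul h4)

theorem pb_re (g g' : ℂ) (hg : g ≠ 0) : (inner ℝ g g' : ℝ) / ‖g‖ ^ 2 = (g' / g).re := by
  have h1 : g' / g = ((starRingEnd ℂ) g * g') / ((‖g‖ ^ 2 : ℝ) : ℂ) := by
    have h2 : ((‖g‖ ^ 2 : ℝ) : ℂ) = (starRingEnd ℂ) g * g := by
      rw [← Complex.normSq_eq_norm_sq, Complex.normSq_eq_conj_mul_self]
    rw [h2]
    have h3 : (starRingEnd ℂ) g ≠ 0 := (map_ne_zero _).mpr hg
    field_simp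
  rw [h1, Complex.div_ofReal_re, Complex.inner, mul_comm]

theorem pb_log (M : SL2) (z V : ℂ) (hz : z ∈ UH) :
    HasDerivAt (fun t : ℝ => Real.log ‖den M (z + t * V)‖)
      ((((M 1 0 : ℝ) : ℂ) * V / den M z).re) 0 := by
  have hne := (mobius_basic M 1 z hz).1
  have h0 : HasDerivAt (fun t : ℝ => den M (z + t * V)) (((M 1 0 : ℝ) : ℂ) * V) 0 := by
    unfold den
    have h1 : HasDerivAt (fun t : ℝ => (t : ℂ)) 1 0 := Complex.ofRealCLM.hasDerivAt
    have h2 := (((h1.mul_const V).const_add z).const_mul ((M 1 0 : ℝ) : ℂ)).add_const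
      ((M 1 1 : ℝ) : ℂ)
    simpa using h2
  have h3 := h0.norm_sq
  have e0 : den M (z + ((0 : ℝ) : ℂ) * V) = den M z := by simp
  have h4 : ‖den M (z + ((0 : ℝ) : ℂ) * V)‖ ^ 2 ≠ 0 := by
    rw [e0]
    exact pow_ne_zero 2 (norm_ne_zero_iff.mpr hne)
  have h5 := (h3.log h4).const_mul (1 / 2 : ℝ)
  rw [e0] at h5
  have h6 : (fun t : ℝ => Real.log ‖den M (z + t * V)‖) =
      fun t : ℝ => 1 / 2 * Real.log (‖den M (z + t * V)‖ ^ 2) := by
    funext t
    rw [Real.log_pow]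
    push_cast
    ring
  rw [h6, ← pb_re (den M z) _ hne]
  have h7 : 1 / 2 * (2 * (inner ℝ (den M z) (((M 1 0 : ℝ) : ℂ) * V) : ℝ) / ‖den M z‖ ^ 2) =
      (inner ℝ (den M z) (((M 1 0 : ℝ) : ℂ) * V) : ℝ) / ‖den M z‖ ^ 2 := by ring
  rw [← h7]
  exact h5

theorem pull_basic (φ : ℂ → ℝ) (M N : SL2) :
    (ContDiffOn ℝ ∞ φ UH → ContDiffOn ℝ ∞ (pull φ M) UH) ∧
    (∀ z ∈ UH, pull (pull φ M) N z = pull φ (M * N) z) ∧
    (∀ z ∈ UH, ∀ V : ℂ, ContDiffOn ℝ ∞ φ UH → fderiv ℝ (pull φ M) z V =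
      fderiv ℝ φ (mob M z) (V / (den M z) ^ 2) - 2 * (((M 1 0 : ℝ) : ℂ) * V / den M z).re) := by
  refine ⟨fun hφ z hz => (pb_cd φ M hφ z hz).contDiffWithinAt, ?_, ?_⟩
  · intro z hz
    have hb := mobius_basic M N z hz
    have hN := mobius_basic N 1 z hz
    have hM := mobius_basic M 1 (mob N z) hN.2.2.1
    unfold pull
    rw [hb.2.2.2.1, hb.2.2.2.2.1, norm_mul,
      Real.log_mul (norm_ne_zero_iff.mpr hM.1) (norm_ne_zero_iff.mpr hN.1)]
    ring
  · intro z hz V hφ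
    have hb := mobius_basic M 1 z hz
    have h1 : HasFDerivAt (pull φ M) (fderiv ℝ (pull φ M) z) z :=
      ((pb_cd φ M hφ z hz).differentiableAt (by simp)).hasFDerivAt
    have hp : HasDerivAt (fun t : ℝ => z + t * V) V 0 := by
      have h1 : HasDerivAt (fun t : ℝ => (t : ℂ)) 1 0 := Complex.ofRealCLM.hasDerivAt
      have h2 := (h1.mul_const V).const_add z
      simpa using h2
    have e0 : z + ((0 : ℝ) : ℂ) * V = z := by simp
    have h1' : HasFDerivAt (pull φ M) (fderiv ℝ (pull φ M) z) (z + ((0 : ℝ) : ℂ) * V) := by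
      rw [e0]; exact h1
    have h2 := HasFDerivAt.comp_hasDerivAt (0 : ℝ) (f := fun t : ℝ => z + t * V) h1' hp
    -- mob along the path
    have h3 : HasFDerivAt (mob M)
        ((ContinuousLinearMap.toSpanSingleton ℂ (1 / (den M z) ^ 2)).restrictScalars ℝ)
        (z + ((0 : ℝ) : ℂ) * V) := by
      rw [e0]
      exact (hasDerivAt_mob M z hz).hasFDerivAt.restrictScalars ℝ
    have h4 := HasFDerivAt.comp_hasDerivAt (0 : ℝ) (f := fun t : ℝ => z + t * V) h3 hp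
    have h5 : HasFDerivAt φ (fderiv ℝ φ (mob M z)) (mob M z) :=
      ((hφ.contDiffAt (pb_open.mem_nhds hb.2.2.1)).differentiableAt (by simp)).hasFDerivAt
    have h5' : HasFDerivAt φ (fderiv ℝ φ (mob M z))
        ((mob M ∘ fun t : ℝ => z + t * V) 0) := by
      simp only [Function.comp_apply]
      rw [e0]; exact h5
    have h6 := HasFDerivAt.comp_hasDerivAt (0 : ℝ) (f := mob M ∘ fun t : ℝ => z + t * V) h5' h4
    have h7 := h6.sub ((pb_log M z V hz).const_mul 2)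
    have h8 := h2.unique h7
    rw [h8]
    congr 2
    simp [ContinuousLinearMap.toSpanSingleton_apply, div_eq_mul_inv]

end Pool.H110K
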