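import Pool.Agent.H110K.Defs
import Pool.Agent.H110K.P_mobius_basic
import Pool.Agent.H110K.P_hasDerivAt_mob
import Pool.Agent.H110K.P_pull_basic

set_option autoImplicit false

open Complex Set Filter Topology MeasureTheory
open scoped Real ContDiff

namespace Pool.H110K



theorem geo_pull_inv10 (M : SL2) : (M⁻¹ : SL2) 1 0 = -(M 1 0) := by
  rw [Matrix.SpecialLinearGroup.coe_inv, Matrix.adjugate_fin_two]
  simp

theorem geo_pull_den (M : SL2) (w : ℂ) (hw : w ∈ UH) :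
    den M (mob M⁻¹ w) * den M⁻¹ w = 1 := by
  have h1 := (mobius_basic M M⁻¹ w hw).2.2.2.2.1
  rw [mul_inv_cancel] at h1
  rw [← h1]
  exact (mobius_basic M M⁻¹ w hw).2.2.2.2.2.2.1

theorem geo_pull_alg (x : ℂ) (d1 d2 : ℝ) :
    (((d1 - 2 * x.re : ℝ) : ℂ) - I * ((d2 - 2 * (I * x).re : ℝ) : ℂ)) =
      ((d1 : ℂ) - I * (d2 : ℂ)) - 2 * x := by
  apply Complex.ext <;> simp <;> ring

theorem geo_pull (φ : ℂ → ℝ) (hφ : ContDiffOn ℝ ∞ φ UH) (M : SL2) (z v : ℝ → ℂ) (h : IsGeo φ z v) :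
    IsGeo (pull φ M) (fun t => mob M⁻¹ (z t)) (fun t => v t / (den M⁻¹ (z t)) ^ 2) := by
  have hmem : ∀ t, mob M⁻¹ (z t) ∈ UH := fun t => (mobius_basic M⁻¹ 1 (z t) (h.mem t)).2.2.1
  have hden : ∀ t, den M⁻¹ (z t) ≠ 0 := fun t => (mobius_basic M⁻¹ 1 (z t) (h.mem t)).1
  have hback : ∀ t, mob M (mob M⁻¹ (z t)) = z t := fun t =>
    (mobius_basic M 1 (z t) (h.mem t)).2.2.2.2.2.2.2.2
  have hdd : ∀ t, den M (mob M⁻¹ (z t)) = (den M⁻¹ (z t))⁻¹ := fun t =>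
    eq_inv_of_mul_eq_one_left (geo_pull_den M (z t) (h.mem t))
  refine ⟨hmem, ?_, ?_, ?_⟩
  · intro t
    have h1 := (hasDerivAt_mob M⁻¹ (z t) (h.mem t)).comp t (h.dz t)
    refine h1.congr_deriv ?_
    ring
  · intro t
    have hd : HasDerivAt (fun t => den M⁻¹ (z t)) ((((M⁻¹ : SL2) 1 0 : ℝ) : ℂ) * v t) t := by
      have h1 := ((h.dz t).const_mul (((M⁻¹ : SL2) 1 0 : ℝ) : ℂ)).add_const
        ((((M⁻¹ : SL2) 1 1 : ℝ) : ℂ))
      exact h1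
    have hq := (h.dv t).div (hd.pow 2) (pow_ne_zero 2 (hden t))
    refine hq.congr_deriv ?_
    have hp := (pull_basic φ M M).2.2 _ (hmem t)
    rw [hp _ hφ, hp _ hφ, hdd t, hback t]
    have hn := hden t
    have e1 : v t / den M⁻¹ (z t) ^ 2 / (den M⁻¹ (z t))⁻¹ ^ 2 = v t := by
      field_simp
    have e2 : I * (v t / den M⁻¹ (z t) ^ 2) / (den M⁻¹ (z t))⁻¹ ^ 2 = I * v t := by
      field_simp
    have e3 : ((M 1 0 : ℝ) : ℂ) * (v t / den M⁻¹ (z t) ^ 2) / (den M⁻¹ (z t))⁻¹ =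
        ((M 1 0 : ℝ) : ℂ) * v t / den M⁻¹ (z t) := by
      field_simp
    have e4 : ((M 1 0 : ℝ) : ℂ) * (I * (v t / den M⁻¹ (z t) ^ 2)) / (den M⁻¹ (z t))⁻¹ =
        I * (((M 1 0 : ℝ) : ℂ) * v t / den M⁻¹ (z t)) := by
      field_simp
    rw [e1, e2, e3, e4, geo_pull_alg, geo_pull_inv10]
    simp only [Pi.pow_apply]
    push_cast
    field_simp
    ring
  · intro t
    have hnn : 0 < ‖den M⁻¹ (z t)‖ := norm_pos_iff.mpr (hden t)
    have hu := h.unit t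
    have e1 : pull φ M (mob M⁻¹ (z t)) = φ (z t) + 2 * Real.log ‖den M⁻¹ (z t)‖ := by
      unfold pull
      rw [hback t, hdd t, norm_inv, Real.log_inv]
      ring
    rw [e1, Real.exp_add, norm_div, norm_pow]
    have e2 : Real.exp (2 * Real.log ‖den M⁻¹ (z t)‖) = ‖den M⁻¹ (z t)‖ ^ 2 := by
      rw [two_mul, Real.exp_add, Real.exp_log hnn]
      ring
    rw [e2]
    field_simp
    exact hu

end Pool.H110K
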