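import Pool.Agent.H110K.Defs
import Pool.Agent.H110K.P_mobius_basic
import Pool.Agent.H110K.P_hasDerivAt_mob
import Pool.Agent.H110K.P_pull_basic

set_option autoImplicit false

open Complex Set Filter Topology MeasureTheory
open scoped Real ContDiff

namespace Pool.H110K



theorem lp_isOpen : IsOpen UH := isOpen_lt continuous_const Complex.continuous_im

theorem lp_diff2 (φ : ℂ → ℝ) (hφ : ContDiffOn ℝ ∞ φ UH) (p : ℂ) (hp : p ∈ UH) :
    DifferentiableAt ℝ (fderiv ℝ φ) p := by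
  have h1 : ContDiffAt ℝ ∞ φ p := hφ.contDiffAt (lp_isOpen.mem_nhds hp)
  have h2 : ContDiffAt ℝ 1 (fderiv ℝ φ) p := h1.fderiv_right (m := 1) (by norm_cast)
  exact h2.differentiableAt (by norm_num)

theorem lp_lap (φ : ℂ → ℝ) (hφ : ContDiffOn ℝ ∞ φ UH) (p : ℂ) (hp : p ∈ UH) :
    lap φ p = fderiv ℝ (fderiv ℝ φ) p 1 1 + fderiv ℝ (fderiv ℝ φ) p I I := by
  have h := (lp_diff2 φ hφ p hp).hasFDerivAt
  have h1 : ∀ V : ℂ, fderiv ℝ (fun w => fderiv ℝ φ w V) p V =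
      fderiv ℝ (fderiv ℝ φ) p V V := by
    intro V
    have h2 := h.clm_apply (hasFDerivAt_const V p)
    rw [h2.fderiv]
    simp
  unfold lap
  rw [h1, h1]

theorem lp_gV (φ : ℂ → ℝ) (hφ : ContDiffOn ℝ ∞ φ UH) (M : SL2) (z : ℂ) (hz : z ∈ UH) (V V' : ℂ) :
    fderiv ℝ (fun w => fderiv ℝ (pull φ M) w V) z V' =
      fderiv ℝ (fderiv ℝ φ) (mob M z) (V' / (den M z) ^ 2) (V / (den M z) ^ 2) +
      fderiv ℝ φ (mob M z) (-(2 * ((M 1 0 : ℝ) : ℂ) * (V * V')) / (den M z) ^ 3) +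
      2 * ((((M 1 0 : ℝ) : ℂ) ^ 2 * (V * V')) / (den M z) ^ 2).re := by
  have hD := (mobius_basic M 1 z hz).1
  have hm := (mobius_basic M 1 z hz).2.2.1
  have hden : HasDerivAt (den M) ((M 1 0 : ℝ) : ℂ) z := by
    unfold den
    simpa using ((hasDerivAt_id z).const_mul ((M 1 0 : ℝ) : ℂ)).add_const ((M 1 1 : ℝ) : ℂ)
  -- the formula near z
  have hev : (fun w => fderiv ℝ (pull φ M) w V) =ᶠ[𝓝 z] (fun w =>
      fderiv ℝ φ (mob M w) (V / (den M w) ^ 2) - 2 * (((M 1 0 : ℝ) : ℂ) * V / den M w).re) := by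
    filter_upwards [lp_isOpen.mem_nhds hz] with w hw
    exact (pull_basic φ M 1).2.2 w hw V hφ
  rw [hev.fderiv_eq]
  have hmd : HasFDerivAt (mob M)
      ((ContinuousLinearMap.toSpanSingleton ℂ (1 / (den M z) ^ 2)).restrictScalars ℝ) z :=
    (hasDerivAt_mob M z hz).hasFDerivAt.restrictScalars ℝ
  have h1 : HasFDerivAt (fun w => fderiv ℝ φ (mob M w))
      ((fderiv ℝ (fderiv ℝ φ) (mob M z)).comp
        ((ContinuousLinearMap.toSpanSingleton ℂ (1 / (den M z) ^ 2)).restrictScalars ℝ)) z :=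
    (lp_diff2 φ hφ (mob M z) hm).hasFDerivAt.comp z hmd
  have h2c : HasDerivAt (fun w => V / (den M w) ^ 2)
      (-(2 * ((M 1 0 : ℝ) : ℂ) * V) / (den M z) ^ 3) z := by
    have e := (hasDerivAt_const z V).fun_div (hden.fun_pow 2) (pow_ne_zero 2 hD)
    refine e.congr_deriv ?_
    field_simp
    ring
  have h2 : HasFDerivAt (fun w => V / (den M w) ^ 2)
      ((ContinuousLinearMap.toSpanSingleton ℂ
        (-(2 * ((M 1 0 : ℝ) : ℂ) * V) / (den M z) ^ 3)).restrictScalars ℝ) z :=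
    h2c.hasFDerivAt.restrictScalars ℝ
  have h3c : HasDerivAt (fun w => ((M 1 0 : ℝ) : ℂ) * V / den M w)
      (-(((M 1 0 : ℝ) : ℂ) ^ 2 * V) / (den M z) ^ 2) z := by
    have e := (hasDerivAt_const z (((M 1 0 : ℝ) : ℂ) * V)).fun_div hden hD
    refine e.congr_deriv ?_
    field_simp
    ring
  have h3 : HasFDerivAt (fun w => (((M 1 0 : ℝ) : ℂ) * V / den M w).re)
      (Complex.reCLM.comp ((ContinuousLinearMap.toSpanSingleton ℂ
        (-(((M 1 0 : ℝ) : ℂ) ^ 2 * V) / (den M z) ^ 2)).restrictScalars ℝ)) z :=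
    Complex.reCLM.hasFDerivAt.comp z (h3c.hasFDerivAt.restrictScalars ℝ)
  have h4 := (h1.clm_apply h2).fun_sub (h3.const_mul 2)
  rw [h4.fderiv]
  simp only [ContinuousLinearMap.sub_apply, ContinuousLinearMap.add_apply,
    ContinuousLinearMap.comp_apply, ContinuousLinearMap.flip_apply,
    ContinuousLinearMap.smul_apply, ContinuousLinearMap.coe_restrictScalars',
    ContinuousLinearMap.toSpanSingleton_apply, smul_eq_mul, Complex.reCLM_apply]
  have e1 : V' * (1 / (den M z) ^ 2) = V' / (den M z) ^ 2 := by ring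
  have e2 : V' * (-(2 * ((M 1 0 : ℝ) : ℂ) * V) / (den M z) ^ 3) =
      -(2 * ((M 1 0 : ℝ) : ℂ) * (V * V')) / (den M z) ^ 3 := by ring
  have e3 : V' * (-(((M 1 0 : ℝ) : ℂ) ^ 2 * V) / (den M z) ^ 2) =
      -((((M 1 0 : ℝ) : ℂ) ^ 2 * (V * V')) / (den M z) ^ 2) := by ring
  rw [e1, e2, e3, Complex.neg_re]
  ring

theorem lap_pull (φ : ℂ → ℝ) (hφ : ContDiffOn ℝ ∞ φ UH) (M : SL2) (z : ℂ) (hz : z ∈ UH) :
    lap (pull φ M) z = lap φ (mob M z) / ‖den M z‖ ^ 4 := by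
  have hD := (mobius_basic M 1 z hz).1
  have hm := (mobius_basic M 1 z hz).2.2.1
  have hL : lap (pull φ M) z = fderiv ℝ (fun w => fderiv ℝ (pull φ M) w 1) z 1 +
      fderiv ℝ (fun w => fderiv ℝ (pull φ M) w I) z I := rfl
  rw [hL, lp_gV φ hφ M z hz 1 1, lp_gV φ hφ M z hz I I, lp_lap φ hφ (mob M z) hm]
  set Q := fderiv ℝ (fderiv ℝ φ) (mob M z) with hQ
  set α : ℂ := 1 / (den M z) ^ 2 with hα
  have e1 : I / (den M z) ^ 2 = I * α := by rw [hα]; ring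
  have e2 : fderiv ℝ φ (mob M z) (-(2 * ((M 1 0 : ℝ) : ℂ) * (I * I)) / (den M z) ^ 3) =
      -fderiv ℝ φ (mob M z) (-(2 * ((M 1 0 : ℝ) : ℂ) * (1 * 1)) / (den M z) ^ 3) := by
    rw [← map_neg]
    congr 1
    rw [Complex.I_mul_I]
    ring
  have e3 : ((((M 1 0 : ℝ) : ℂ) ^ 2 * (I * I)) / (den M z) ^ 2).re =
      -((((M 1 0 : ℝ) : ℂ) ^ 2 * (1 * 1)) / (den M z) ^ 2).re := by
    rw [← Complex.neg_re]
    congr 1
    rw [Complex.I_mul_I]
    ring
  rw [e1, e2, e3]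
  have hα1 : α = α.re • (1 : ℂ) + α.im • I := by
    apply Complex.ext <;> simp
  have hα2 : I * α = (-α.im) • (1 : ℂ) + α.re • I := by
    apply Complex.ext <;> simp
  have hn : α.re ^ 2 + α.im ^ 2 = 1 / ‖den M z‖ ^ 4 := by
    have h1 : ‖α‖ ^ 2 = α.re ^ 2 + α.im ^ 2 := by
      rw [Complex.sq_norm, Complex.normSq_apply]
      ring
    rw [← h1, hα, norm_div, norm_pow, norm_one]
    ring
  have q1 : Q α α = α.re ^ 2 * Q 1 1 + α.re * α.im * (Q 1 I + Q I 1) + α.im ^ 2 * Q I I := by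
    conv_lhs => rw [hα1]
    simp only [map_add, map_smul, ContinuousLinearMap.add_apply, ContinuousLinearMap.smul_apply,
      smul_eq_mul]
    ring
  have q2 : Q (I * α) (I * α) =
      α.im ^ 2 * Q 1 1 - α.re * α.im * (Q 1 I + Q I 1) + α.re ^ 2 * Q I I := by
    rw [hα2]
    simp only [map_add, map_smul, ContinuousLinearMap.add_apply, ContinuousLinearMap.smul_apply,
      smul_eq_mul]
    ring
  rw [q1, q2, div_eq_mul_one_div (Q 1 1 + Q I I), ← hn]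
  ring

end Pool.H110K
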