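import Pool.Agent.H110K.Defs
import Pool.Agent.H110K.P_mobius_basic
import Pool.Agent.H110K.P_pull_basic

set_option autoImplicit false

open Complex Set Filter Topology MeasureTheory
open scoped Real ContDiff

namespace Pool.H110K



theorem surf_pull (Γ : Subgroup SL2) (φ : ℂ → ℝ) (S : Surf Γ φ) (g : SL2) (hg : g ∈ Γ) (M : SL2)
    (z : ℂ) (hz : z ∈ UH) : pull φ g z = φ z ∧ pull φ (g * M) z = pull φ M z := by
  have h1 : ∀ w ∈ UH, pull φ g w = φ w := by
    intro w hw
    unfold pull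
    rw [S.inv g hg w hw]
    ring
  refine ⟨h1 z hz, ?_⟩
  rw [← (pull_basic φ g M).2.1 z hz]
  have h2 := h1 (mob M z) (mobius_basic M M z hz).2.2.1
  show pull φ g (mob M z) - 2 * Real.log ‖den M z‖ = φ (mob M z) - 2 * Real.log ‖den M z‖
  rw [h2]

end Pool.H110K
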