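import Pool.Agent.H110K.Defs
import Pool.Agent.H110K.P_mobius_basic
import Pool.Agent.H110K.P_hasDerivAt_mob
import Pool.Agent.H110K.P_pull_basic
import Pool.Agent.H110K.P_lap_pull
import Pool.Agent.H110K.P_geo_pull
import Pool.Agent.H110K.P_surf_pull
import Pool.Agent.H110K.P_geo_congr

set_option autoImplicit false

open Complex Set Filter Topology MeasureTheory
open scoped Real ContDiff

namespace Pool.H110K



theorem geo_move (Γ : Subgroup SL2) (φ : ℂ → ℝ) (S : Surf Γ φ) (g : SL2) (hg : g ∈ Γ)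
    (z v : ℝ → ℂ) (h : IsGeo φ z v) :
    IsGeo φ (fun t => mob g (z t)) (fun t => v t / (den g (z t)) ^ 2) ∧
    (∀ p ∈ UH, lap φ p = 0 → lap φ (mob g p) = 0) := by
  refine ⟨?_, ?_⟩
  · have h1 := geo_pull φ S.smooth g⁻¹ z v h
    rw [inv_inv] at h1
    exact (geo_congr (pull φ g⁻¹) φ
      (fun z hz => (surf_pull Γ φ S g⁻¹ (inv_mem hg) 1 z hz).1) _ _).1 h1
  · intro p hp h0
    have h1 := lap_pull φ S.smooth g p hp
    have h2 : lap (pull φ g) p = lap φ p :=
      (geo_congr (pull φ g) φ (fun z hz => (surf_pull Γ φ S g hg 1 z hz).1) z v).2.1 p hp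
    rw [h2, h0] at h1
    have h3 : ‖den g p‖ ^ 4 ≠ 0 := pow_ne_zero _ (norm_ne_zero_iff.2 (mobius_basic g g p hp).1)
    rw [eq_comm, div_eq_zero_iff, or_iff_left h3] at h1
    exact h1

end Pool.H110K
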