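import Pool.Agent.H110K.Defs

set_option autoImplicit false

open Complex Set Filter Topology MeasureTheory
open scoped Real ContDiff

namespace Pool.H110K



theorem geo_shift (φ : ℂ → ℝ) (z v : ℝ → ℂ) (h : IsGeo φ z v) (b : ℝ) :
    IsGeo φ (fun t => z (t + b)) (fun t => v (t + b)) := by
  exact
    { mem := fun t => h.mem (t + b)
      dz := fun t => (h.dz (t + b)).comp_add_const t b
      dv := fun t => (h.dv (t + b)).comp_add_const t b
      unit := fun t => h.unit (t + b) }

end Pool.H110K
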