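import Pool.Agent.H110K.Defs
import Pool.Agent.H110K.P_mobius_basic

set_option autoImplicit false

open Complex Set Filter Topology MeasureTheory
open scoped Real ContDiff

namespace Pool.H110K



theorem compact_repr (Γ : Subgroup SL2) (φ : ℂ → ℝ) (S : Surf Γ φ) :
    ∃ C : Set SL2, IsCompact C ∧ ∀ M : SL2, ∃ h ∈ Γ, h * M ∈ C := by
  obtain ⟨K, hK, hKU, hcov⟩ := S.cocompact
  have hI : I ∈ UH := by
    show 0 < I.im
    simp
  refine ⟨{M : SL2 | mob M I ∈ K}, ?_, ?_⟩
  swap
  · intro M
    have h1 := (mobius_basic M 1 I hI).2.2.1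
    obtain ⟨h, hh, hk⟩ := hcov _ h1
    refine ⟨h, hh, ?_⟩
    show mob (h * M) I ∈ K
    rw [(mobius_basic h M I hI).2.2.2.1]
    exact hk
  · -- continuity of `M ↦ mob M I`
    have hent : ∀ i j, Continuous (fun M : SL2 => (M i j : ℝ)) := by
      intro i j
      exact (continuous_apply_apply i j).comp continuous_subtype_val
    have hden : Continuous (fun M : SL2 => den M I) := by
      unfold den
      exact ((Complex.continuous_ofReal.comp (hent 1 0)).mul continuous_const).add
        (Complex.continuous_ofReal.comp (hent 1 1))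
    have hmob : Continuous (fun M : SL2 => mob M I) := by
      unfold mob
      exact (((Complex.continuous_ofReal.comp (hent 0 0)).mul continuous_const).add
        (Complex.continuous_ofReal.comp (hent 0 1))).div hden
        fun M => (mobius_basic M 1 I hI).1
    have hclosed : IsClosed {M : SL2 | mob M I ∈ K} := hK.isClosed.preimage hmob
    -- bounds
    obtain ⟨R, hR⟩ := hK.isBounded.exists_norm_le
    obtain ⟨B, hB⟩ := hK.exists_bound_of_continuousOn (f := fun z : ℂ => (z.im)⁻¹)
      (Complex.continuous_im.continuousOn.inv₀ fun z hz => (hKU hz).ne')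
    have hbd : ∀ M : SL2, mob M I ∈ K → ∀ i j, |(M i j : ℝ)| ≤ 1 + (B + R ^ 2 * B) := by
      intro M hM
      have hd0 := (mobius_basic M 1 I hI).1
      have him := (mobius_basic M 1 I hI).2.1
      have hd : ‖den M I‖ ^ 2 ≤ B := by
        have h2 := hB _ hM
        rw [him, I_im, one_div, inv_inv, Real.norm_of_nonneg (by positivity)] at h2
        exact h2
      have hB0 : 0 ≤ B := le_trans (by positivity) hd
      have hn : ‖((M 0 0 : ℝ) : ℂ) * I + ((M 0 1 : ℝ) : ℂ)‖ ^ 2 ≤ R ^ 2 * B := by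
        have h3 : ((M 0 0 : ℝ) : ℂ) * I + ((M 0 1 : ℝ) : ℂ) = mob M I * den M I := by
          unfold mob
          rw [div_mul_cancel₀ _ hd0]
        rw [h3, norm_mul, mul_pow]
        exact mul_le_mul (pow_le_pow_left₀ (norm_nonneg _) (hR _ hM) 2) hd (by positivity)
          (by positivity)
      have e1 : ‖den M I‖ ^ 2 = (M 1 0 : ℝ) ^ 2 + (M 1 1 : ℝ) ^ 2 := by
        unfold den
        rw [Complex.sq_norm, Complex.normSq_apply]
        simp
        ring
      have e2 : ‖((M 0 0 : ℝ) : ℂ) * I + ((M 0 1 : ℝ) : ℂ)‖ ^ 2 =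
          (M 0 0 : ℝ) ^ 2 + (M 0 1 : ℝ) ^ 2 := by
        rw [Complex.sq_norm, Complex.normSq_apply]
        simp
        ring
      rw [e1] at hd
      rw [e2] at hn
      have hRB : 0 ≤ R ^ 2 * B := by positivity
      have key : ∀ x : ℝ, x ^ 2 ≤ B + R ^ 2 * B → |x| ≤ 1 + (B + R ^ 2 * B) := by
        intro x hx
        rw [← sq_abs] at hx
        nlinarith [abs_nonneg x, sq_nonneg (|x| - 1)]
      intro i j
      apply key
      fin_cases i <;> fin_cases j
      · show (M 0 0 : ℝ) ^ 2 ≤ _
        nlinarith [sq_nonneg (M 0 1 : ℝ)]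
      · show (M 0 1 : ℝ) ^ 2 ≤ _
        nlinarith [sq_nonneg (M 0 0 : ℝ)]
      · show (M 1 0 : ℝ) ^ 2 ≤ _
        nlinarith [sq_nonneg (M 1 1 : ℝ)]
      · show (M 1 1 : ℝ) ^ 2 ≤ _
        nlinarith [sq_nonneg (M 1 0 : ℝ)]
    -- the compact box
    set T : ℝ := 1 + (B + R ^ 2 * B) with hT
    have hbox : IsCompact (Set.univ.pi fun _ : Fin 2 => Set.univ.pi fun _ : Fin 2 =>
        Icc (-T) T : Set (Matrix (Fin 2) (Fin 2) ℝ)) :=
      isCompact_univ_pi fun _ => isCompact_univ_pi fun _ => isCompact_Icc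
    have hemb : IsClosedEmbedding (Subtype.val : SL2 → Matrix (Fin 2) (Fin 2) ℝ) := by
      refine IsClosed.isClosedEmbedding_subtypeVal ?_
      exact isClosed_eq (Continuous.matrix_det continuous_id) continuous_const
    refine (hemb.isCompact_preimage hbox).of_isClosed_subset hclosed ?_
    intro M hM
    intro i _ j _
    exact abs_le.1 (hbd M hM i j)

end Pool.H110K
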