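import Pool.Agent.H110K.Defs

set_option autoImplicit false

open Complex Set Filter Topology MeasureTheory
open scoped Real ContDiff

namespace Pool.H110K



/-- partial derivative in the second variable -/
noncomputable def pbD {E F : Type*} [NormedAddCommGroup E] [NormedSpace ℝ E]
    [NormedAddCommGroup F] [NormedSpace ℝ F] (Ψ1 : E × ℂ → F) (p : E × ℂ) : ℂ →L[ℝ] F :=
  fderiv ℝ (fun x => Ψ1 (p.1, x)) p.2

theorem pbD_has {E F : Type*} [NormedAddCommGroup E] [NormedSpace ℝ E]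
    [NormedAddCommGroup F] [NormedSpace ℝ F] {Ψ1 : E × ℂ → F} {O : Set (E × ℂ)} (hO : IsOpen O)
    (hΨ : ContDiffOn ℝ ∞ Ψ1 O) {M : E} {x : ℂ} (hp : (M, x) ∈ O) :
    HasFDerivAt (fun x => Ψ1 (M, x))
      ((fderiv ℝ Ψ1 (M, x)).comp (ContinuousLinearMap.inr ℝ E ℂ)) x := by
  have h1 : HasFDerivAt Ψ1 (fderiv ℝ Ψ1 (M, x)) (M, x) :=
    ((hΨ.contDiffAt (hO.mem_nhds hp)).differentiableAt (by simp)).hasFDerivAt
  exact h1.comp x (hasFDerivAt_prodMk_right M x)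

theorem pbD_smooth {E F : Type*} [NormedAddCommGroup E] [NormedSpace ℝ E]
    [NormedAddCommGroup F] [NormedSpace ℝ F] {Ψ1 : E × ℂ → F} {O : Set (E × ℂ)} (hO : IsOpen O)
    (hΨ : ContDiffOn ℝ ∞ Ψ1 O) : ContDiffOn ℝ ∞ (pbD Ψ1) O := by
  have h1 : ContDiffOn ℝ ∞ (fderiv ℝ Ψ1) O := hΨ.fderiv_of_isOpen hO (by simp)
  have h2 : ContDiffOn ℝ ∞ (fun p => (fderiv ℝ Ψ1 p).comp (ContinuousLinearMap.inr ℝ E ℂ)) O :=
    h1.clm_comp contDiffOn_const
  refine h2.congr fun p hp => ?_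
  exact (pbD_has hO hΨ (M := p.1) (x := p.2) hp).fderiv

theorem pbD_diff {E F : Type*} [NormedAddCommGroup E] [NormedSpace ℝ E]
    [NormedAddCommGroup F] [NormedSpace ℝ F] {Ψ1 : E × ℂ → F} {O : Set (E × ℂ)} (hO : IsOpen O)
    (hΨ : ContDiffOn ℝ ∞ Ψ1 O) {M : E} {x : ℂ} (hp : (M, x) ∈ O) :
    DifferentiableAt ℝ (fun x => Ψ1 (M, x)) x := (pbD_has hO hΨ hp).differentiableAt

theorem param_bounds {E : Type} [NormedAddCommGroup E] [NormedSpace ℝ E] (Ψ : E × ℂ → ℝ)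
    (O : Set (E × ℂ)) (hO : IsOpen O) (hΨ : ContDiffOn ℝ ∞ Ψ O) (C : Set E) (hC : IsCompact C)
    (hsub : C ×ˢ Metric.closedBall I (1 / 2) ⊆ O) : ∃ B : ℝ, 1 ≤ B ∧ ∀ M ∈ C,
      |Ψ (M, I)| ≤ B ∧ ‖fderiv ℝ (fun x => Ψ (M, x)) I‖ ≤ B ∧
      (∀ q, ‖q - I‖ ≤ 1 / 2 →
        ‖fderiv ℝ (fun x => Ψ (M, x)) q - fderiv ℝ (fun x => Ψ (M, x)) I‖ ≤ B * ‖q - I‖) ∧
      (lap (fun x => Ψ (M, x)) I = 0 → (∀ q, ‖q - I‖ ≤ 1 / 2 → 0 ≤ lap (fun x => Ψ (M, x)) q) →
        ∀ q, ‖q - I‖ ≤ 1 / 2 → lap (fun x => Ψ (M, x)) q ≤ B * ‖q - I‖ ^ 2) := by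
  have hS : IsCompact (C ×ˢ Metric.closedBall I (1 / 2)) := hC.prod (isCompact_closedBall I (1 / 2))
  have hD1 : ContDiffOn ℝ ∞ (pbD Ψ) O := pbD_smooth hO hΨ
  have hD2 : ContDiffOn ℝ ∞ (pbD (pbD Ψ)) O := pbD_smooth hO hD1
  set L : E × ℂ → ℝ := fun p => lap (fun x => Ψ (p.1, x)) p.2 with hL
  have hG : ∀ c : ℂ, ContDiffOn ℝ ∞ (fun p => pbD Ψ p c) O := fun c =>
    hD1.clm_apply contDiffOn_const
  have hLs : ContDiffOn ℝ ∞ L O := by
    have e : L = fun p => pbD (fun p => pbD Ψ p 1) p 1 + pbD (fun p => pbD Ψ p I) p I := rfl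
    rw [e]
    exact ((pbD_smooth hO (hG 1)).clm_apply contDiffOn_const).add
      ((pbD_smooth hO (hG I)).clm_apply contDiffOn_const)
  have hL1 : ContDiffOn ℝ ∞ (pbD L) O := pbD_smooth hO hLs
  have hL2 : ContDiffOn ℝ ∞ (pbD (pbD L)) O := pbD_smooth hO hL1
  obtain ⟨B0, h0⟩ := hS.exists_bound_of_continuousOn (hΨ.continuousOn.mono hsub)
  obtain ⟨B1, h1⟩ := hS.exists_bound_of_continuousOn (hD1.continuousOn.mono hsub)
  obtain ⟨B2, h2⟩ := hS.exists_bound_of_continuousOn (hD2.continuousOn.mono hsub)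
  obtain ⟨B3, h3⟩ := hS.exists_bound_of_continuousOn (hL2.continuousOn.mono hsub)
  have hB0 : B0 ≤ 1 + |B0| + |B1| + |B2| + |B3| := by
    have := le_abs_self B0; have := abs_nonneg B1; have := abs_nonneg B2
    have := abs_nonneg B3; linarith
  have hB1 : B1 ≤ 1 + |B0| + |B1| + |B2| + |B3| := by
    have := le_abs_self B1; have := abs_nonneg B0; have := abs_nonneg B2
    have := abs_nonneg B3; linarith
  have hB2 : B2 ≤ 1 + |B0| + |B1| + |B2| + |B3| := by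
    have := le_abs_self B2; have := abs_nonneg B0; have := abs_nonneg B1
    have := abs_nonneg B3; linarith
  have hB3 : B3 ≤ 1 + |B0| + |B1| + |B2| + |B3| := by
    have := le_abs_self B3; have := abs_nonneg B0; have := abs_nonneg B2
    have := abs_nonneg B1; linarith
  have hone : 1 ≤ 1 + |B0| + |B1| + |B2| + |B3| := by
    have := abs_nonneg B0; have := abs_nonneg B1; have := abs_nonneg B2
    have := abs_nonneg B3; linarith
  refine ⟨1 + |B0| + |B1| + |B2| + |B3|, hone, fun M hM => ?_⟩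
  have hI : I ∈ Metric.closedBall I (1 / 2 : ℝ) := Metric.mem_closedBall_self (by norm_num)
  have hmem : ∀ q : ℂ, q ∈ Metric.closedBall I (1 / 2 : ℝ) →
      (M, q) ∈ C ×ˢ Metric.closedBall I (1 / 2 : ℝ) := fun q hq => ⟨hM, hq⟩
  have hball : ∀ q : ℂ, ‖q - I‖ ≤ 1 / 2 → q ∈ Metric.closedBall I (1 / 2 : ℝ) := fun q hq => by
    rw [Metric.mem_closedBall, dist_eq_norm]; exact hq
  refine ⟨?_, ?_, ?_, ?_⟩
  · have := h0 (M, I) (hmem I hI)
    rw [Real.norm_eq_abs] at this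
    exact this.trans hB0
  · exact (h1 (M, I) (hmem I hI)).trans hB1
  · intro q hq
    have h5 : ‖pbD Ψ (M, q) - pbD Ψ (M, I)‖ ≤ B2 * ‖q - I‖ :=
      Convex.norm_image_sub_le_of_norm_fderiv_le (𝕜 := ℝ) (f := fun x => pbD Ψ (M, x))
        (s := Metric.closedBall I (1 / 2 : ℝ))
        (fun x hx => pbD_diff hO hD1 (hsub (hmem x hx)))
        (fun x hx => h2 (M, x) (hmem x hx)) (convex_closedBall I (1 / 2)) hI (hball q hq)
    exact h5.trans (mul_le_mul_of_nonneg_right hB2 (norm_nonneg _))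
  · intro hz hnn q hq
    have hz' : L (M, I) = 0 := hz
    have hnn' : ∀ q, ‖q - I‖ ≤ 1 / 2 → 0 ≤ L (M, q) := hnn
    have hmin : IsLocalMin (fun x => L (M, x)) I := by
      have : Metric.closedBall I (1 / 2 : ℝ) ∈ nhds I := Metric.closedBall_mem_nhds I (by norm_num)
      filter_upwards [this] with x hx
      rw [hz']
      rw [Metric.mem_closedBall, dist_eq_norm] at hx
      exact hnn' x hx
    have hd0 : pbD L (M, I) = 0 := hmin.fderiv_eq_zero
    have hder : ∀ x ∈ Metric.closedBall I (1 / 2 : ℝ), ‖pbD L (M, x)‖ ≤ B3 * ‖x - I‖ := by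
      intro x hx
      have h5 : ‖pbD L (M, x) - pbD L (M, I)‖ ≤ B3 * ‖x - I‖ :=
        Convex.norm_image_sub_le_of_norm_fderiv_le (𝕜 := ℝ) (f := fun x => pbD L (M, x))
          (s := Metric.closedBall I (1 / 2 : ℝ))
          (fun x hx => pbD_diff hO hL1 (hsub (hmem x hx)))
          (fun x hx => h3 (M, x) (hmem x hx)) (convex_closedBall I (1 / 2)) hI hx
      rw [hd0, sub_zero] at h5
      exact h5
    have hB3n : 0 ≤ B3 := (norm_nonneg _).trans (h3 (M, I) (hmem I hI))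
    have hsubset : Metric.closedBall I ‖q - I‖ ⊆ Metric.closedBall I (1 / 2 : ℝ) :=
      Metric.closedBall_subset_closedBall hq
    have h6 : ‖L (M, q) - L (M, I)‖ ≤ (B3 * ‖q - I‖) * ‖q - I‖ :=
      Convex.norm_image_sub_le_of_norm_fderiv_le (𝕜 := ℝ) (f := fun x => L (M, x))
        (s := Metric.closedBall I ‖q - I‖)
        (fun x hx => pbD_diff hO hLs (hsub (hmem x (hsubset hx))))
        (fun x hx => (hder x (hsubset hx)).trans (mul_le_mul_of_nonneg_left (by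
          rw [Metric.mem_closedBall, dist_eq_norm] at hx; exact hx) hB3n))
        (convex_closedBall I _) (Metric.mem_closedBall_self (norm_nonneg _))
        (by rw [Metric.mem_closedBall, dist_eq_norm])
    rw [hz', sub_zero, Real.norm_eq_abs] at h6
    have h7 : L (M, q) ≤ B3 * ‖q - I‖ * ‖q - I‖ := (le_abs_self _).trans h6
    show L (M, q) ≤ _
    have h8 : B3 * ‖q - I‖ * ‖q - I‖ ≤ (1 + |B0| + |B1| + |B2| + |B3|) * ‖q - I‖ ^ 2 := by
      rw [mul_assoc, ← sq]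
      exact mul_le_mul_of_nonneg_right hB3 (sq_nonneg _)
    exact h7.trans h8

end Pool.H110K
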