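import Pool.Agent.H110K.Defs

set_option autoImplicit false

open Complex Set Filter Topology MeasureTheory
open scoped Real ContDiff

namespace Pool.H110K



theorem psi_joint (φ : ℂ → ℝ) (hφ : ContDiffOn ℝ ∞ φ UH) :
    IsOpen {x : (Fin 2 → Fin 2 → ℝ) × ℂ | 0 < x.2.im ∧ 0 < x.1 0 0 * x.1 1 1 - x.1 0 1 * x.1 1 0} ∧
    ContDiffOn ℝ ∞ (fun x : (Fin 2 → Fin 2 → ℝ) × ℂ =>
      φ ((((x.1 0 0 : ℝ) : ℂ) * x.2 + ((x.1 0 1 : ℝ) : ℂ)) /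
          (((x.1 1 0 : ℝ) : ℂ) * x.2 + ((x.1 1 1 : ℝ) : ℂ)))
        - 2 * Real.log ‖((x.1 1 0 : ℝ) : ℂ) * x.2 + ((x.1 1 1 : ℝ) : ℂ)‖)
      {x | 0 < x.2.im ∧ 0 < x.1 0 0 * x.1 1 1 - x.1 0 1 * x.1 1 0} := by
  have hco : ∀ i j : Fin 2, ContDiff ℝ ∞ (fun x : (Fin 2 → Fin 2 → ℝ) × ℂ => x.1 i j) := by
    intro i j
    have h1 : ContDiff ℝ ∞ (fun x : (Fin 2 → Fin 2 → ℝ) × ℂ => x.1) := contDiff_fst
    exact (contDiff_pi.mp ((contDiff_pi.mp h1) i)) j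
  have hcc : ∀ i j : Fin 2, ContDiff ℝ ∞ (fun x : (Fin 2 → Fin 2 → ℝ) × ℂ => ((x.1 i j : ℝ) : ℂ)) := by
    intro i j
    exact Complex.ofRealCLM.contDiff.comp (hco i j)
  have hq : ContDiff ℝ ∞ (fun x : (Fin 2 → Fin 2 → ℝ) × ℂ => x.2) := contDiff_snd
  have hnum : ContDiff ℝ ∞ (fun x : (Fin 2 → Fin 2 → ℝ) × ℂ =>
      ((x.1 0 0 : ℝ) : ℂ) * x.2 + ((x.1 0 1 : ℝ) : ℂ)) := ((hcc 0 0).mul hq).add (hcc 0 1)
  have hden : ContDiff ℝ ∞ (fun x : (Fin 2 → Fin 2 → ℝ) × ℂ =>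
      ((x.1 1 0 : ℝ) : ℂ) * x.2 + ((x.1 1 1 : ℝ) : ℂ)) := ((hcc 1 0).mul hq).add (hcc 1 1)
  refine ⟨?_, ?_⟩
  · have h1 : IsOpen {x : (Fin 2 → Fin 2 → ℝ) × ℂ | 0 < x.2.im} :=
      isOpen_lt continuous_const (Complex.continuous_im.comp continuous_snd)
    have h2 : IsOpen {x : (Fin 2 → Fin 2 → ℝ) × ℂ | 0 < x.1 0 0 * x.1 1 1 - x.1 0 1 * x.1 1 0} :=
      isOpen_lt continuous_const
        ((((hco 0 0).continuous).mul ((hco 1 1).continuous)).sub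
          (((hco 0 1).continuous).mul ((hco 1 0).continuous)))
    exact h1.inter h2
  · intro x hx
    obtain ⟨hx1, hx2⟩ := hx
    apply ContDiffAt.contDiffWithinAt
    have hne : ((x.1 1 0 : ℝ) : ℂ) * x.2 + ((x.1 1 1 : ℝ) : ℂ) ≠ 0 := by
      intro h0
      have hre := congrArg Complex.re h0
      have him := congrArg Complex.im h0
      simp at hre him
      rcases him with h | h
      · rw [h] at hre hx2
        simp at hre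
        rw [hre] at hx2
        simp at hx2
      · linarith
    have hopenUH : IsOpen UH := isOpen_lt continuous_const Complex.continuous_im
    have hmem : (((x.1 0 0 : ℝ) : ℂ) * x.2 + ((x.1 0 1 : ℝ) : ℂ)) /
          (((x.1 1 0 : ℝ) : ℂ) * x.2 + ((x.1 1 1 : ℝ) : ℂ)) ∈ UH := by
      show 0 < ((((x.1 0 0 : ℝ) : ℂ) * x.2 + ((x.1 0 1 : ℝ) : ℂ)) /
          (((x.1 1 0 : ℝ) : ℂ) * x.2 + ((x.1 1 1 : ℝ) : ℂ))).im
      have hns : 0 < Complex.normSq (((x.1 1 0 : ℝ) : ℂ) * x.2 + ((x.1 1 1 : ℝ) : ℂ)) :=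
        Complex.normSq_pos.mpr hne
      rw [Complex.div_im, ← sub_div]
      apply div_pos _ hns
      simp
      nlinarith [mul_pos hx1 hx2]
    have hφat : ContDiffAt ℝ ∞ φ ((((x.1 0 0 : ℝ) : ℂ) * x.2 + ((x.1 0 1 : ℝ) : ℂ)) /
          (((x.1 1 0 : ℝ) : ℂ) * x.2 + ((x.1 1 1 : ℝ) : ℂ))) :=
      hφ.contDiffAt (hopenUH.mem_nhds hmem)
    have hquot : ContDiffAt ℝ ∞ (fun x : (Fin 2 → Fin 2 → ℝ) × ℂ =>
        (((x.1 0 0 : ℝ) : ℂ) * x.2 + ((x.1 0 1 : ℝ) : ℂ)) /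
          (((x.1 1 0 : ℝ) : ℂ) * x.2 + ((x.1 1 1 : ℝ) : ℂ))) x := by
      have h0 : ContDiffAt ℝ ∞ (fun x : (Fin 2 → Fin 2 → ℝ) × ℂ =>
          (((x.1 1 0 : ℝ) : ℂ) * x.2 + ((x.1 1 1 : ℝ) : ℂ))⁻¹) x := hden.contDiffAt.inv hne
      have h1 := ContDiffAt.mul (hnum.contDiffAt (x := x)) h0
      exact h1
    have hA := ContDiffAt.comp x hφat hquot
    have hB : ContDiffAt ℝ ∞ (fun x : (Fin 2 → Fin 2 → ℝ) × ℂ =>
        Real.log ‖((x.1 1 0 : ℝ) : ℂ) * x.2 + ((x.1 1 1 : ℝ) : ℂ)‖) x := by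
      have h1 := (hden.contDiffAt (x := x)).norm ℂ hne
      exact h1.log (norm_ne_zero_iff.mpr hne)
    exact hA.sub (contDiffAt_const.mul hB)

end Pool.H110K
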