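import Pool.Agent.H110K.Defs
import Pool.Agent.H110K.P_mobius_basic
import Pool.Agent.H110K.P_hasDerivAt_mob
import Pool.Agent.H110K.P_pull_basic
import Pool.Agent.H110K.P_lap_pull
import Pool.Agent.H110K.P_param_bounds
import Pool.Agent.H110K.P_psi_joint

set_option autoImplicit false

open Complex Set Filter Topology MeasureTheory
open scoped Real ContDiff

namespace Pool.H110K



theorem unif_compact (φ : ℂ → ℝ) (hφ : ContDiffOn ℝ ∞ φ UH) (hnn : ∀ p ∈ UH, 0 ≤ lap φ p)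
    (C : Set SL2) (hC : IsCompact C) : ∃ B : ℝ, 1 ≤ B ∧ ∀ M ∈ C,
      |pull φ M I| ≤ B ∧ ‖fderiv ℝ (pull φ M) I‖ ≤ B ∧
      (∀ q, ‖q - I‖ ≤ 1 / 2 → ‖fderiv ℝ (pull φ M) q - fderiv ℝ (pull φ M) I‖ ≤ B * ‖q - I‖) ∧
      (lap (pull φ M) I = 0 → ∀ q, ‖q - I‖ ≤ 1 / 2 → lap (pull φ M) q ≤ B * ‖q - I‖ ^ 2) := by
  classical
  obtain ⟨hO, hΨ⟩ := psi_joint φ hφ
  have hcont : Continuous (fun M : SL2 => (fun i j => M i j : Fin 2 → Fin 2 → ℝ)) := by
    refine continuous_pi fun i => continuous_pi fun j => ?_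
    have h1 : Continuous (fun M : SL2 => (M : Matrix (Fin 2) (Fin 2) ℝ)) := continuous_subtype_val
    exact (continuous_apply j).comp ((continuous_apply i).comp h1)
  have hC' := hC.image hcont
  obtain ⟨B, hB1, hB⟩ := param_bounds _ _ hO hΨ _ hC' (by
    rintro ⟨N, z⟩ ⟨hN, hz⟩
    obtain ⟨M, hM, rfl⟩ := hN
    have hz' : ‖z - I‖ ≤ 1 / 2 := by
      have := Metric.mem_closedBall.1 hz
      rwa [dist_eq_norm] at this
    have him := (Complex.abs_im_le_norm (z - I)).trans hz'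
    rw [abs_le] at him
    simp only [Complex.sub_im, Complex.I_im] at him
    have hdet := M.det_coe
    rw [Matrix.det_fin_two] at hdet
    refine ⟨by show 0 < z.im; linarith [him.1], ?_⟩
    show 0 < M 0 0 * M 1 1 - M 0 1 * M 1 0
    rw [hdet]; norm_num)
  refine ⟨B, hB1, fun M hM => ?_⟩
  obtain ⟨h1, h2, h3, h4⟩ := hB _ ⟨M, hM, rfl⟩
  refine ⟨h1, h2, h3, fun h0 q hq => ?_⟩
  refine h4 h0 (fun q hq => ?_) q hq
  have him := (Complex.abs_im_le_norm (q - I)).trans hq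
  rw [abs_le] at him
  simp only [Complex.sub_im, Complex.I_im] at him
  have hqU : q ∈ UH := by show 0 < q.im; linarith [him.1]
  have hl := lap_pull φ hφ M q hqU
  have hm := (mobius_basic M 1 q hqU).2.2.1
  show 0 ≤ lap (pull φ M) q
  rw [hl]
  exact div_nonneg (hnn _ hm) (by positivity)

end Pool.H110K
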