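import Pool.Agent.H110K.Defs
import Pool.Agent.H110K.P_mobius_basic
import Pool.Agent.H110K.P_pull_basic
import Pool.Agent.H110K.P_lap_pull
import Pool.Agent.H110K.P_surf_pull
import Pool.Agent.H110K.P_geo_congr
import Pool.Agent.H110K.P_unif_compact
import Pool.Agent.H110K.P_compact_repr

set_option autoImplicit false

open Complex Set Filter Topology MeasureTheory
open scoped Real ContDiff

namespace Pool.H110K



theorem aff_exists (x y : ℝ) (hy : 0 < y) : ∃ A : SL2, (A 1 0 = 0) ∧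
    (∀ ζ, den A ζ = (((Real.sqrt y)⁻¹ : ℝ) : ℂ)) ∧
    (∀ ζ : ℂ, mob A ζ = (y : ℂ) * ζ + (x : ℂ)) := by
  have hs : 0 < Real.sqrt y := Real.sqrt_pos.2 hy
  have hsq : Real.sqrt y * Real.sqrt y = y := Real.mul_self_sqrt hy.le
  let A : SL2 := ⟨!![Real.sqrt y, x / Real.sqrt y; 0, (Real.sqrt y)⁻¹], by
    rw [Matrix.det_fin_two_of]
    field_simp
    ring⟩
  have h00 : A 0 0 = Real.sqrt y := rfl
  have h01 : A 0 1 = x / Real.sqrt y := rfl
  have h10 : A 1 0 = 0 := rfl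
  have h11 : A 1 1 = (Real.sqrt y)⁻¹ := rfl
  have hden : ∀ ζ, den A ζ = (((Real.sqrt y)⁻¹ : ℝ) : ℂ) := by
    intro ζ
    unfold den
    rw [h10, h11]
    simp
  refine ⟨A, h10, hden, ?_⟩
  intro ζ
  unfold mob
  rw [hden, h00, h01]
  have hsc : ((Real.sqrt y : ℝ) : ℂ) ≠ 0 := by exact_mod_cast hs.ne'
  have hsqc : ((Real.sqrt y : ℝ) : ℂ) * ((Real.sqrt y : ℝ) : ℂ) = (y : ℂ) := by exact_mod_cast hsq
  push_cast
  field_simp
  rw [← hsqc]
  ring

theorem UH_open : IsOpen UH := isOpen_lt continuous_const Complex.continuous_im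

theorem fderiv_eq_on {f g : ℂ → ℝ} (h : ∀ z ∈ UH, f z = g z) {z : ℂ} (hz : z ∈ UH) :
    fderiv ℝ f z = fderiv ℝ g z := by
  apply Filter.EventuallyEq.fderiv_eq
  filter_upwards [UH_open.mem_nhds hz] with w hw
  exact h w hw

theorem near_I {q : ℂ} (hq : ‖q - I‖ ≤ 1 / 2) : q ∈ UH := by
  have h1 : |(q - I).im| ≤ ‖q - I‖ := Complex.abs_im_le_norm _
  have h2 : (q - I).im = q.im - 1 := by simp
  rw [h2] at h1
  have h3 := (abs_le.1 (h1.trans hq)).1
  show 0 < q.im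
  linarith

theorem good_of_surf (Γ : Subgroup SL2) (φ : ℂ → ℝ) (S : Surf Γ φ) :
    ∃ B : ℝ, ∀ M : SL2, Good (pull φ M) B := by
  obtain ⟨C, hC, hrep⟩ := compact_repr Γ φ S
  obtain ⟨B, hB1, hB⟩ := unif_compact φ S.smooth S.curv C hC
  have hI : I ∈ UH := by show 0 < I.im; rw [Complex.I_im]; exact one_pos
  have hall : ∀ N : SL2, |pull φ N I| ≤ B ∧ ‖fderiv ℝ (pull φ N) I‖ ≤ B ∧
      (∀ q, ‖q - I‖ ≤ 1 / 2 → ‖fderiv ℝ (pull φ N) q - fderiv ℝ (pull φ N) I‖ ≤ B * ‖q - I‖) ∧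
      (lap (pull φ N) I = 0 → ∀ q, ‖q - I‖ ≤ 1 / 2 → lap (pull φ N) q ≤ B * ‖q - I‖ ^ 2) := by
    intro N
    obtain ⟨h, hh, hN⟩ := hrep N
    obtain ⟨b1, b2, b3, b4⟩ := hB _ hN
    have heq : ∀ z ∈ UH, pull φ (h * N) z = pull φ N z := fun z hz =>
      (surf_pull Γ φ S h hh N z hz).2
    have hlap := (geo_congr (pull φ (h * N)) (pull φ N) heq (fun _ => 0) (fun _ => 0)).2.1
    have hfd : ∀ z ∈ UH, fderiv ℝ (pull φ (h * N)) z = fderiv ℝ (pull φ N) z :=
      fun z hz => fderiv_eq_on heq hz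
    refine ⟨?_, ?_, ?_, ?_⟩
    · rw [← heq I hI]; exact b1
    · rw [← hfd I hI]; exact b2
    · intro q hq
      rw [← hfd q (near_I hq), ← hfd I hI]
      exact b3 q hq
    · intro h0 q hq
      rw [← hlap q (near_I hq)]
      exact b4 (by rw [hlap I hI]; exact h0) q hq
  refine ⟨B, ?_⟩
  intro M
  have hfs : ContDiffOn ℝ ∞ (pull φ M) UH := (pull_basic φ M 1).1 S.smooth
  set f := pull φ M with hf
  -- the affine chart
  have chart : ∀ p ∈ UH, ∃ F : ℂ → ℂ, (F I = p) ∧ (∀ q, F ((q - (p.re : ℂ)) / (p.im : ℂ)) = q) ∧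
      |f p + Real.log p.im| ≤ B ∧ ‖fderiv ℝ f p‖ * p.im ≤ B ∧
      (∀ ζ, ‖ζ - I‖ ≤ 1 / 2 → ‖fderiv ℝ f (F ζ) - fderiv ℝ f p‖ * p.im ≤ B * ‖ζ - I‖) ∧
      (lap f p = 0 → ∀ ζ, ‖ζ - I‖ ≤ 1 / 2 → lap f (F ζ) * p.im ^ 2 ≤ B * ‖ζ - I‖ ^ 2) := by
    intro p hp
    have hy : 0 < p.im := hp
    have hs : 0 < Real.sqrt p.im := Real.sqrt_pos.2 hy
    have hsq : Real.sqrt p.im * Real.sqrt p.im = p.im := Real.mul_self_sqrt hy.le
    obtain ⟨A, hA0, hAd, hAm⟩ := aff_exists p.re p.im hy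
    have hAI : mob A I = p := by
      rw [hAm]
      apply Complex.ext <;> simp
    have hpull : ∀ z ∈ UH, pull f A z = pull φ (M * A) z := (pull_basic φ M A).2.1
    obtain ⟨b1, b2, b3, b4⟩ := hall (M * A)
    have hfd : ∀ z ∈ UH, fderiv ℝ (pull φ (M * A)) z = p.im • fderiv ℝ f (mob A z) := by
      intro z hz
      rw [← fderiv_eq_on hpull hz]
      ext V
      rw [(pull_basic f A 1).2.2 z hz V hfs, hA0, hAd]
      have e1 : V / (((Real.sqrt p.im)⁻¹ : ℝ) : ℂ) ^ 2 = p.im • V := by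
        rw [Complex.real_smul]
        have hsc : ((Real.sqrt p.im : ℝ) : ℂ) ≠ 0 := by exact_mod_cast hs.ne'
        have hsqc : ((Real.sqrt p.im : ℝ) : ℂ) * ((Real.sqrt p.im : ℝ) : ℂ) = (p.im : ℂ) := by
          exact_mod_cast hsq
        push_cast
        field_simp
        rw [← hsqc]
        ring
      rw [e1, map_smul]
      simp
    have hlp : ∀ z ∈ UH, lap (pull φ (M * A)) z = lap f (mob A z) * p.im ^ 2 := by
      intro z hz
      rw [← (geo_congr (pull f A) (pull φ (M * A)) hpull (fun _ => 0) (fun _ => 0)).2.1 z hz,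
        lap_pull f hfs A z hz, hAd]
      have e1 : ‖(((Real.sqrt p.im)⁻¹ : ℝ) : ℂ)‖ = (Real.sqrt p.im)⁻¹ := by
        rw [Complex.norm_real, Real.norm_eq_abs, abs_of_pos (by positivity)]
      rw [e1]
      have e2 : (Real.sqrt p.im)⁻¹ ^ 4 = (p.im ^ 2)⁻¹ := by
        rw [inv_pow]
        congr 1
        calc Real.sqrt p.im ^ 4 = (Real.sqrt p.im * Real.sqrt p.im) ^ 2 := by ring
          _ = p.im ^ 2 := by rw [hsq]
      rw [e2, div_inv_eq_mul]
    refine ⟨mob A, hAI, ?_, ?_, ?_, ?_, ?_⟩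
    · intro q
      rw [hAm]
      have : (p.im : ℂ) ≠ 0 := by exact_mod_cast hy.ne'
      field_simp
      ring
    · have e3 : pull φ (M * A) I = f p + Real.log p.im := by
        rw [← hpull I hI]
        unfold pull
        rw [hAI, hAd, Complex.norm_real, Real.norm_eq_abs, abs_of_pos (by positivity),
          Real.log_inv, Real.log_sqrt hy.le]
        ring
      rw [← e3]; exact b1
    · rw [hfd I hI, hAI, norm_smul, Real.norm_eq_abs, abs_of_pos hy, mul_comm] at b2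
      exact b2
    · intro ζ hζ
      have := b3 ζ hζ
      rw [hfd ζ (near_I hζ), hfd I hI, hAI, ← smul_sub, norm_smul, Real.norm_eq_abs,
        abs_of_pos hy, mul_comm] at this
      exact this
    · intro h0 ζ hζ
      have h1 : lap (pull φ (M * A)) I = 0 := by
        rw [hlp I hI, hAI, h0, zero_mul]
      have := b4 h1 ζ hζ
      rw [hlp ζ (near_I hζ)] at this
      exact this
  have hζ : ∀ p ∈ UH, ∀ q : ℂ, ‖(q - (p.re : ℂ)) / (p.im : ℂ) - I‖ = ‖q - p‖ / p.im := by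
    intro p hp q
    have hy : 0 < p.im := hp
    have hyc : (p.im : ℂ) ≠ 0 := by exact_mod_cast hy.ne'
    have : (q - (p.re : ℂ)) / (p.im : ℂ) - I = (q - p) / (p.im : ℂ) := by
      rw [div_sub' hyc]
      congr 1
      have := Complex.re_add_im p
      linear_combination -this
    rw [this, norm_div, Complex.norm_real, Real.norm_eq_abs, abs_of_pos hy]
  refine ⟨hB1, hfs, ?_, ?_, ?_, ?_, ?_⟩
  · intro p hp
    obtain ⟨F, _, _, h, _⟩ := chart p hp
    exact h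
  · intro p hp
    obtain ⟨F, _, _, _, h, _⟩ := chart p hp
    exact h
  · intro p hp q hq
    have hy : 0 < p.im := hp
    obtain ⟨F, _, hF, _, _, h, _⟩ := chart p hp
    have h1 : ‖(q - (p.re : ℂ)) / (p.im : ℂ) - I‖ ≤ 1 / 2 := by
      rw [hζ p hp q, div_le_iff₀ hy]
      linarith
    have h2 := h _ h1
    rw [hF, hζ p hp q] at h2
    have h3 := mul_le_mul_of_nonneg_right h2 hy.le
    calc ‖fderiv ℝ f q - fderiv ℝ f p‖ * p.im ^ 2 = ‖fderiv ℝ f q - fderiv ℝ f p‖ * p.im * p.im := by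
          ring
      _ ≤ B * (‖q - p‖ / p.im) * p.im := h3
      _ = B * ‖q - p‖ := by field_simp
  · intro p hp h0 q hq
    have hy : 0 < p.im := hp
    obtain ⟨F, _, hF, _, _, _, h⟩ := chart p hp
    have h1 : ‖(q - (p.re : ℂ)) / (p.im : ℂ) - I‖ ≤ 1 / 2 := by
      rw [hζ p hp q, div_le_iff₀ hy]
      linarith
    have h2 := h h0 _ h1
    rw [hF, hζ p hp q] at h2
    have h3 := mul_le_mul_of_nonneg_right h2 (sq_nonneg p.im)
    calc lap f q * p.im ^ 4 = lap f q * p.im ^ 2 * p.im ^ 2 := by ring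
      _ ≤ B * (‖q - p‖ / p.im) ^ 2 * p.im ^ 2 := h3
      _ = B * ‖q - p‖ ^ 2 := by field_simp
  · intro p hp
    rw [hf, lap_pull φ S.smooth M p hp]
    have h1 : mob M p ∈ UH := (mobius_basic M 1 p hp).2.2.1
    exact div_nonneg (S.curv _ h1) (by positivity)

end Pool.H110K
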