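import Pool.Agent.H110K.Defs
import Pool.Agent.H110K.P_mobius_basic

set_option autoImplicit false

open Complex Set Filter Topology MeasureTheory
open scoped Real ContDiff

namespace Pool.H110K



theorem mob_sub (M : SL2) (z w : ℂ) (hz : z ∈ UH) (hw : w ∈ UH) :
    mob M z - mob M w = (z - w) / (den M z * den M w) := by
  have h1 := (mobius_basic M M z hz).1
  have h2 := (mobius_basic M M w hw).1
  have hdet : (M 0 0) * (M 1 1) - (M 0 1) * (M 1 0) = 1 := by
    have := M.det_coe
    rw [Matrix.det_fin_two] at this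
    exact this
  have hdetC : ((M 0 0 : ℝ) : ℂ) * ((M 1 1 : ℝ) : ℂ) - ((M 0 1 : ℝ) : ℂ) * ((M 1 0 : ℝ) : ℂ) = 1 := by
    exact_mod_cast hdet
  unfold mob
  rw [div_sub_div _ _ h1 h2]
  congr 1
  unfold den
  linear_combination (z - w) * hdetC

end Pool.H110K
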