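import Pool.Agent.H110K.Defs
import Pool.Agent.H110K.P_mobius_basic
import Pool.Agent.H110K.P_mob_sub

set_option autoImplicit false

open Complex Set Filter Topology MeasureTheory
open scoped Real ContDiff

namespace Pool.H110K



theorem near_tools :
    (∀ (M : SL2) (z w : ℂ) (ε : ℝ), z ∈ UH → w ∈ UH → 0 ≤ ε → ε ≤ 1 / 4 → ‖w - z‖ ≤ ε * z.im →
      ‖mob M w - mob M z‖ ≤ 4 * ε * (mob M z).im) ∧
    (∀ (z w : ℂ) (ε : ℝ), z ∈ UH → w ∈ UH → 0 ≤ ε → ε ≤ 1 / 2 → ‖w - z‖ ≤ ε * z.im →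
      ‖z - w‖ ≤ 2 * ε * w.im) ∧
    (∀ (z w x : ℂ) (ε δ : ℝ), z ∈ UH → w ∈ UH → x ∈ UH → 0 ≤ ε → ε ≤ 1 → 0 ≤ δ →
      ‖w - z‖ ≤ ε * z.im → ‖x - w‖ ≤ δ * w.im → ‖x - z‖ ≤ (ε + 2 * δ) * z.im) := by
  have him : ∀ z w : ℂ, |w.im - z.im| ≤ ‖w - z‖ := by
    intro z w
    have := Complex.abs_im_le_norm (w - z)
    rwa [Complex.sub_im] at this
  refine ⟨?_, ?_, ?_⟩
  · intro M z w ε hz hw hε hε4 hzw
    have hzi : 0 < z.im := hz
    rw [mob_sub M w z hw hz, (mobius_basic M 1 z hz).2.1]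
    have hD := (mobius_basic M 1 z hz).1
    have hE := (mobius_basic M 1 w hw).1
    have hDp : 0 < ‖den M z‖ := norm_pos_iff.mpr hD
    have hEp : 0 < ‖den M w‖ := norm_pos_iff.mpr hE
    have hdiff : den M z - den M w = ((M 1 0 : ℝ) : ℂ) * (z - w) := by
      unfold den; ring
    have hDim : |M 1 0| * z.im ≤ ‖den M z‖ := by
      have h1 := Complex.abs_im_le_norm (den M z)
      have h2 : (den M z).im = M 1 0 * z.im := by
        unfold den; simp
      rw [h2, abs_mul, abs_of_pos hzi] at h1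
      exact h1
    have hn : ‖den M z - den M w‖ ≤ ε * ‖den M z‖ := by
      rw [hdiff, norm_mul, Complex.norm_real, Real.norm_eq_abs, norm_sub_rev]
      calc |M 1 0| * ‖w - z‖ ≤ |M 1 0| * (ε * z.im) := mul_le_mul_of_nonneg_left hzw (abs_nonneg _)
        _ = ε * (|M 1 0| * z.im) := by ring
        _ ≤ ε * ‖den M z‖ := mul_le_mul_of_nonneg_left hDim hε
    have hDE : ‖den M z‖ ≤ 4 * ‖den M w‖ := by
      have h1 : ‖den M z‖ ≤ ‖den M z - den M w‖ + ‖den M w‖ := by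
        have := norm_add_le (den M z - den M w) (den M w)
        rwa [sub_add_cancel] at this
      nlinarith
    rw [norm_div, norm_mul, div_le_iff₀ (mul_pos hEp hDp)]
    have e : 4 * ε * (z.im / ‖den M z‖ ^ 2) * (‖den M w‖ * ‖den M z‖) = (ε * z.im) * ((4 * ‖den M w‖) / ‖den M z‖) := by
      field_simp
    rw [e]
    have h1 : 1 ≤ (4 * ‖den M w‖) / ‖den M z‖ := by
      rw [le_div_iff₀ hDp, one_mul]; exact hDE
    have h2 : 0 ≤ ε * z.im := mul_nonneg hε hzi.le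
    nlinarith
  · intro z w ε hz hw hε hε2 hzw
    have hzi : 0 < z.im := hz
    have h1 := abs_le.mp (him z w)
    rw [norm_sub_rev]
    nlinarith
  · intro z w x ε δ hz hw hx hε hε1 hδ h1 h2
    have hzi : 0 < z.im := hz
    have h3 := abs_le.mp (him z w)
    have h4 : ‖x - z‖ ≤ ‖x - w‖ + ‖w - z‖ := by
      have := norm_add_le (x - w) (w - z)
      rwa [sub_add_sub_cancel] at this
    have h5 : w.im ≤ 2 * z.im := by nlinarith
    nlinarith

end Pool.H110K
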