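import Pool.Agent.H110K.Defs
import Pool.Agent.H110K.P_mobius_basic
import Pool.Agent.H110K.P_mob_sub
import Pool.Agent.H110K.P_near_tools

set_option autoImplicit false

open Complex Set Filter Topology MeasureTheory
open scoped Real ContDiff

namespace Pool.H110K



theorem disc_mob_cont (h : SL2) : ContinuousOn (mob h) UH := by
  unfold mob
  refine ContinuousOn.div (by fun_prop) ?_ ?_
  · unfold den; fun_prop
  · intro z hz
    exact (mobius_basic h 1 z hz).1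

theorem disc_e (Γ : Subgroup SL2) (φ : ℂ → ℝ) (S : Surf Γ φ) (K : Set ℂ) (hK : IsCompact K)
    (hKU : K ⊆ UH) (h : SL2) (hh : h ∈ Γ) :
    ∃ e : ℝ, 0 < e ∧ ∀ k ∈ K, ‖mob h k - k‖ < e * k.im → ∀ w ∈ UH, mob h w = w := by
  by_cases ht : ∀ w ∈ UH, mob h w = w
  · exact ⟨1, one_pos, fun _ _ _ => ht⟩
  rcases K.eq_empty_or_nonempty with hKe | hKn
  · subst hKe
    exact ⟨1, one_pos, fun k hk => absurd hk (Set.notMem_empty k)⟩
  have hc : ContinuousOn (fun k : ℂ => ‖mob h k - k‖ / k.im) K := by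
    refine ContinuousOn.div ?_ (by fun_prop) ?_
    · exact (((disc_mob_cont h).mono hKU).sub continuousOn_id).norm
    · intro k hk
      exact (show 0 < k.im from hKU hk).ne'
  obtain ⟨k₀, hk₀, hmin⟩ := hK.exists_isMinOn hKn hc
  refine ⟨‖mob h k₀ - k₀‖ / k₀.im, ?_, ?_⟩
  · refine div_pos ?_ (hKU hk₀)
    rw [norm_pos_iff, sub_ne_zero]
    intro h0
    exact ht (S.free h hh k₀ (hKU hk₀) h0)
  · intro k hk hlt
    exfalso
    have h1 : ‖mob h k₀ - k₀‖ / k₀.im ≤ ‖mob h k - k‖ / k.im := hmin hk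
    have hkim : 0 < k.im := hKU hk
    rw [le_div_iff₀ hkim] at h1
    linarith

theorem disc_fat (K : Set ℂ) (hK : IsCompact K) (hKU : K ⊆ UH) :
    ∃ K' : Set ℂ, IsCompact K' ∧ K' ⊆ UH ∧
      ∀ k ∈ K, ∀ w : ℂ, ‖w - k‖ ≤ k.im / 2 → w ∈ K' := by
  refine ⟨(fun q : ℂ × ℂ => q.1 + ((q.1.im / 2 : ℝ) : ℂ) * q.2) '' (K ×ˢ Metric.closedBall 0 1),
    (hK.prod (isCompact_closedBall 0 1)).image (by fun_prop), ?_, ?_⟩
  · rintro _ ⟨⟨k, b⟩, ⟨hk, hb⟩, rfl⟩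
    have hkim : 0 < k.im := hKU hk
    rw [mem_closedBall_zero_iff] at hb
    show 0 < (k + ((k.im / 2 : ℝ) : ℂ) * b).im
    rw [Complex.add_im, Complex.im_ofReal_mul]
    have h1 : |b.im| ≤ 1 := (Complex.abs_im_le_norm b).trans hb
    have h2 := (abs_le.1 h1).1
    nlinarith
  · intro k hk w hw
    have hkim : 0 < k.im := hKU hk
    have hne : ((k.im / 2 : ℝ) : ℂ) ≠ 0 := by
      rw [Complex.ofReal_ne_zero]; positivity
    refine ⟨(k, (w - k) / ((k.im / 2 : ℝ) : ℂ)), ⟨hk, ?_⟩, ?_⟩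
    · rw [mem_closedBall_zero_iff, norm_div, Complex.norm_real, Real.norm_of_nonneg (by positivity),
        div_le_one (by positivity)]
      exact hw
    · show k + ((k.im / 2 : ℝ) : ℂ) * ((w - k) / ((k.im / 2 : ℝ) : ℂ)) = w
      rw [mul_div_cancel₀ _ hne]
      ring

theorem disc (Γ : Subgroup SL2) (φ : ℂ → ℝ) (S : Surf Γ φ) :
    ∃ ε0 : ℝ, 0 < ε0 ∧ ∀ h ∈ Γ, ∀ z ∈ UH, ‖mob h z - z‖ ≤ ε0 * z.im → ∀ w ∈ UH, mob h w = w := by
  obtain ⟨K, hK, hKU, hcov⟩ := S.cocompact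
  obtain ⟨K', hK', hKU', hfat⟩ := disc_fat K hK hKU
  have hF := S.proper K' hK' hKU'
  choose! e he0 he using disc_e Γ φ S K' hK' hKU'
  obtain ⟨e₀, he₀, hle⟩ : ∃ e₀ : ℝ, 0 < e₀ ∧
      ∀ h ∈ {h : SL2 | h ∈ Γ ∧ (mob h '' K' ∩ K').Nonempty}, e₀ ≤ e h := by
    rcases Set.eq_empty_or_nonempty {h : SL2 | h ∈ Γ ∧ (mob h '' K' ∩ K').Nonempty} with h0 | h0
    · rw [h0]
      exact ⟨1, one_pos, fun h hh => absurd hh (Set.notMem_empty h)⟩
    · obtain ⟨a, ha, hmin⟩ := Set.exists_min_image _ e hF h0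
      exact ⟨e a, he0 a ha.1, hmin⟩
  refine ⟨min (1 / 16) (e₀ / 8), lt_min (by norm_num) (by positivity), ?_⟩
  intro h hh z hz hsm
  obtain ⟨g, hg, hgK⟩ := hcov z hz
  have hε0 : 0 ≤ min (1 / 16 : ℝ) (e₀ / 8) := (lt_min (by norm_num) (by positivity)).le
  have hε1 : min (1 / 16 : ℝ) (e₀ / 8) ≤ 1 / 16 := min_le_left _ _
  have hε2 : min (1 / 16 : ℝ) (e₀ / 8) ≤ e₀ / 8 := min_le_right _ _
  generalize min (1 / 16 : ℝ) (e₀ / 8) = ε at *
  have hhz : mob h z ∈ UH := (mobius_basic h 1 z hz).2.2.1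
  have hn := near_tools.1 g z (mob h z) ε hz hhz hε0 (by linarith) hsm
  have hkim : 0 < (mob g z).im := hKU hgK
  have hconj : ∀ w ∈ UH, mob (g * h * g⁻¹) (mob g w) = mob g (mob h w) := by
    intro w hw
    have hgw : mob g w ∈ UH := (mobius_basic g 1 w hw).2.2.1
    have h1 := (mobius_basic (g * h) g⁻¹ (mob g w) hgw).2.2.2.1
    have h2 := (mobius_basic g 1 w hw).2.2.2.2.2.2.2.1
    have h3 := (mobius_basic g h w hw).2.2.2.1
    rw [h1, h2, h3]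
  have hK'1 : mob g (mob h z) ∈ K' := by
    refine hfat _ hgK _ (hn.trans ?_)
    nlinarith
  have hK'2 : mob g z ∈ K' := by
    refine hfat _ hgK _ ?_
    rw [sub_self, norm_zero]
    positivity
  have hmem : g * h * g⁻¹ ∈ {h : SL2 | h ∈ Γ ∧ (mob h '' K' ∩ K').Nonempty} :=
    ⟨Γ.mul_mem (Γ.mul_mem hg hh) (Γ.inv_mem hg),
      ⟨mob g (mob h z), ⟨mob g z, hK'2, hconj z hz⟩, hK'1⟩⟩
  have htriv := he _ hmem.1 (mob g z) hK'2 (by
    rw [hconj z hz]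
    have := hle _ hmem
    nlinarith)
  intro w hw
  have hgw : mob g w ∈ UH := (mobius_basic g 1 w hw).2.2.1
  have h1 := htriv (mob g w) hgw
  rw [hconj w hw] at h1
  have hhw : mob h w ∈ UH := (mobius_basic h 1 w hw).2.2.1
  have h2 := (mobius_basic g 1 (mob h w) hhw).2.2.2.2.2.2.2.1
  have h3 := (mobius_basic g 1 w hw).2.2.2.2.2.2.2.1
  rw [← h2, h1, h3]

end Pool.H110K
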