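import Pool.Agent.H110K.Defs
import Pool.Agent.H110K.P_mobius_basic

set_option autoImplicit false

open Complex Set Filter Topology MeasureTheory
open scoped Real ContDiff

namespace Pool.H110K



theorem nft_key (h P : SL2) (α β δ : ℝ) (hδ : δ ≠ 0)
    (h00 : h 0 0 * P 0 0 + h 0 1 * P 1 0 = α * P 0 0)
    (h10 : h 1 0 * P 0 0 + h 1 1 * P 1 0 = α * P 1 0)
    (h01 : h 0 0 * P 0 1 + h 0 1 * P 1 1 = β * P 0 0 + δ * P 0 1)
    (h11 : h 1 0 * P 0 1 + h 1 1 * P 1 1 = β * P 1 0 + δ * P 1 1)
    (z : ℂ) (hz : z ∈ UH) : mob h (mob P z) = mob P (((α : ℂ) * z + (β : ℂ)) / (δ : ℂ)) := by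
  have hδ' : (δ : ℂ) ≠ 0 := by exact_mod_cast hδ
  have h1 := (mobius_basic h P z hz).2.2.2.1
  rw [← h1]
  have e00 : (h * P) 0 0 = α * P 0 0 := by
    rw [Matrix.SpecialLinearGroup.coe_mul, Matrix.mul_apply, Fin.sum_univ_two]; exact h00
  have e10 : (h * P) 1 0 = α * P 1 0 := by
    rw [Matrix.SpecialLinearGroup.coe_mul, Matrix.mul_apply, Fin.sum_univ_two]; exact h10
  have e01 : (h * P) 0 1 = β * P 0 0 + δ * P 0 1 := by
    rw [Matrix.SpecialLinearGroup.coe_mul, Matrix.mul_apply, Fin.sum_univ_two]; exact h01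
  have e11 : (h * P) 1 1 = β * P 1 0 + δ * P 1 1 := by
    rw [Matrix.SpecialLinearGroup.coe_mul, Matrix.mul_apply, Fin.sum_univ_two]; exact h11
  unfold mob den
  rw [e00, e10, e01, e11]
  push_cast
  set w : ℂ := ((α : ℂ) * z + (β : ℂ)) / (δ : ℂ) with hw
  have hw' : (δ : ℂ) * w = (α : ℂ) * z + (β : ℂ) := by
    rw [hw]; field_simp
  clear_value w
  refine Eq.trans ?_ (mul_div_mul_left _ _ hδ')
  congr 1
  · linear_combination (-(((P 0 0 : ℝ) : ℂ))) * hw'
  · linear_combination (-(((P 1 0 : ℝ) : ℂ))) * hw'

theorem nft_fix (h : SL2) (z : ℂ) (hz : z ∈ UH)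
    (he : ((h 0 0 : ℝ) : ℂ) * z + ((h 0 1 : ℝ) : ℂ) = z * (((h 1 0 : ℝ) : ℂ) * z + ((h 1 1 : ℝ) : ℂ))) :
    mob h z = z := by
  have h1 := (mobius_basic h 1 z hz).1
  unfold mob
  rw [he]
  exact mul_div_cancel_right₀ _ h1

theorem no_fix_trace (h : SL2) (hf : ∀ z ∈ UH, mob h z ≠ z) :
    (∃ P : SL2, ∃ b : ℝ, b ≠ 0 ∧ ∀ z ∈ UH, mob h (mob P z) = mob P (z + (b : ℂ))) ∨
    (∃ P : SL2, ∃ lam : ℝ, 0 < lam ∧ lam ≠ 1 ∧ ∀ z ∈ UH, mob h (mob P z) = mob P ((lam : ℂ) * z)) := by
  have hdet : h 0 0 * h 1 1 - h 0 1 * h 1 0 = 1 := by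
    have := h.det_coe
    rw [Matrix.det_fin_two] at this
    exact this
  set a := h 0 0 with ha
  set b := h 0 1 with hb
  set c := h 1 0 with hc
  set d := h 1 1 with hd
  rcases lt_trichotomy ((a + d) ^ 2) 4 with hlt | heq | hgt
  · -- elliptic
    exfalso
    have hc0 : c ≠ 0 := by
      intro h0
      rw [h0] at hdet
      nlinarith [sq_nonneg (a - d)]
    have hpos : 0 < 4 - (a + d) ^ 2 := by linarith
    set y : ℝ := Real.sqrt (4 - (a + d) ^ 2) / (2 * |c|) with hy
    have hy0 : 0 < y := by
      have : 0 < |c| := abs_pos.2 hc0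
      have : 0 < Real.sqrt (4 - (a + d) ^ 2) := Real.sqrt_pos.2 hpos
      positivity
    have hy2 : y ^ 2 = (4 - (a + d) ^ 2) / (4 * c ^ 2) := by
      rw [hy, div_pow, Real.sq_sqrt hpos.le, mul_pow, sq_abs]
      norm_num
    set x : ℝ := (a - d) / (2 * c) with hx
    have hx1 : 2 * c * x = a - d := by rw [hx]; field_simp
    have hy3 : 4 * c ^ 2 * y ^ 2 = 4 - (a + d) ^ 2 := by rw [hy2]; field_simp
    have hre : c * (x ^ 2 - y ^ 2) + (d - a) * x - b = 0 := by
      have : 4 * c * (c * (x ^ 2 - y ^ 2) + (d - a) * x - b) = 0 := by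
        have e1 : (2 * c * x) ^ 2 = (a - d) ^ 2 := by rw [hx1]
        have e2 : (2 * c * x) * (d - a) = (a - d) * (d - a) := by rw [hx1]
        linear_combination e1 - hy3 + 2 * e2 + 4 * hdet
      rcases mul_eq_zero.1 this with h1 | h1
      · exact absurd h1 (by simpa using hc0)
      · exact h1
    have him : 2 * c * x * y + (d - a) * y = 0 := by rw [hx1]; ring
    have hzU : (⟨x, y⟩ : ℂ) ∈ UH := hy0
    apply hf ⟨x, y⟩ hzU
    apply nft_fix h _ hzU
    rw [← ha, ← hb, ← hc, ← hd]
    apply Complex.ext
    · simp [Complex.add_re, Complex.mul_re, Complex.add_im, Complex.mul_im]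
      linear_combination -hre
    · simp [Complex.add_re, Complex.mul_re, Complex.add_im, Complex.mul_im]
      linear_combination -him
  · -- parabolic
    left
    have hτ : a + d ≠ 0 := by
      intro h0
      rw [h0] at heq
      norm_num at heq
    by_cases hc0 : c = 0
    · have had : a = d := by
        rw [hc0] at hdet
        have : (a - d) ^ 2 = 0 := by nlinarith
        have := pow_eq_zero_iff (two_ne_zero) |>.1 this
        linarith
      have hd0 : d ≠ 0 := by
        intro h0
        rw [had, h0] at hτ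
        simp at hτ
      have hb0 : b ≠ 0 := by
        intro h0
        have hI : I ∈ UH := by simp [UH]
        apply hf I hI
        apply nft_fix h _ hI
        rw [← ha, ← hb, ← hc, ← hd, h0, hc0, had]
        push_cast
        ring
      refine ⟨1, b / d, div_ne_zero hb0 hd0, fun z hz => ?_⟩
      have := nft_key h 1 a b d hd0 (by simp [← ha]) (by simp [← hc, hc0])
        (by simp [← hb]) (by simp [← hd]) z hz
      rw [this, had]
      congr 1
      have : (d : ℂ) ≠ 0 := by exact_mod_cast hd0
      push_cast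
      field_simp
    · have hP : (!![(a - d) / (2 * c), -1; 1, 0] : Matrix (Fin 2) (Fin 2) ℝ).det = 1 := by
        rw [Matrix.det_fin_two_of]; ring
      set P : SL2 := ⟨!![(a - d) / (2 * c), -1; 1, 0], hP⟩ with hPd
      have p00 : P 0 0 = (a - d) / (2 * c) := rfl
      have p01 : P 0 1 = -1 := rfl
      have p10 : P 1 0 = 1 := rfl
      have p11 : P 1 1 = 0 := rfl
      refine ⟨P, -2 * c / (a + d), div_ne_zero (mul_ne_zero (by norm_num) hc0) hτ, fun z hz => ?_⟩
      have := nft_key h P ((a + d) / 2) (-c) ((a + d) / 2) (by simpa using hτ)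
        (by
          rw [← ha, ← hb, p00, p10]
          field_simp
          linear_combination heq - 4 * hdet)
        (by
          rw [← hc, ← hd, p00, p10]
          field_simp
          ring)
        (by
          rw [← ha, ← hb, p00, p01, p11]
          field_simp
          ring)
        (by
          rw [← hc, ← hd, p01, p10, p11]
          ring) z hz
      rw [this]
      congr 1
      have : (a : ℂ) + (d : ℂ) ≠ 0 := by exact_mod_cast hτ
      push_cast
      field_simp
      try ring
  · -- hyperbolic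
    right
    set s : ℝ := Real.sqrt ((a + d) ^ 2 - 4) with hs
    have hs0 : 0 < s := Real.sqrt_pos.2 (by linarith)
    have hs2 : s ^ 2 = (a + d) ^ 2 - 4 := Real.sq_sqrt (by linarith)
    set t : ℝ := (a + d + s) / 2 with ht
    set r : ℝ := (a + d - s) / 2 with hr
    have htr : t * r = 1 := by
      rw [ht, hr]
      linear_combination (-1 / 4) * hs2
    have htr2 : t + r = a + d := by rw [ht, hr]; ring
    have htr3 : t - r = s := by rw [ht, hr]; ring
    have ht0 : t ≠ 0 := left_ne_zero_of_mul_eq_one htr
    have hr0 : r ≠ 0 := right_ne_zero_of_mul_eq_one htr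
    have hne : t - r ≠ 0 := by rw [htr3]; exact hs0.ne'
    by_cases hc0 : c = 0
    · rw [hc0] at hdet
      have had : a * d = 1 := by linarith
      have hda : d - a ≠ 0 := by
        intro h0
        have : d = a := by linarith
        rw [this] at had hgt
        nlinarith
      have ha0 : a ≠ 0 := left_ne_zero_of_mul_eq_one had
      have hd0 : d ≠ 0 := right_ne_zero_of_mul_eq_one had
      have hP : (!![1, b / (d - a); 0, 1] : Matrix (Fin 2) (Fin 2) ℝ).det = 1 := by
        rw [Matrix.det_fin_two_of]; ring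
      set P : SL2 := ⟨!![1, b / (d - a); 0, 1], hP⟩ with hPd
      have p00 : P 0 0 = 1 := rfl
      have p01 : P 0 1 = b / (d - a) := rfl
      have p10 : P 1 0 = 0 := rfl
      have p11 : P 1 1 = 1 := rfl
      refine ⟨P, a / d, ?_, ?_, fun z hz => ?_⟩
      · have : a / d = a ^ 2 := by
          rw [div_eq_iff hd0]
          linear_combination (-a) * had
        rw [this]
        positivity
      · intro h1
        rw [div_eq_one_iff_eq hd0] at h1
        exact hda (by linarith)
      · have := nft_key h P a 0 d hd0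
          (by rw [← ha, ← hb, p00, p10]; ring)
          (by rw [← hc, ← hd, p00, p10, hc0]; ring)
          (by rw [← ha, ← hb, p00, p01, p11]; field_simp; ring)
          (by rw [← hc, ← hd, p01, p10, p11, hc0]; ring) z hz
        rw [this]
        congr 1
        have : (d : ℂ) ≠ 0 := by exact_mod_cast hd0
        push_cast
        field_simp
        try ring
    · have hP : (!![t - d, (r - d) / (c * (t - r)); c, 1 / (t - r)] : Matrix (Fin 2) (Fin 2) ℝ).det = 1 := by
        rw [Matrix.det_fin_two_of]
        field_simp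
        ring
      set P : SL2 := ⟨!![t - d, (r - d) / (c * (t - r)); c, 1 / (t - r)], hP⟩ with hPd
      have p00 : P 0 0 = t - d := rfl
      have p01 : P 0 1 = (r - d) / (c * (t - r)) := rfl
      have p10 : P 1 0 = c := rfl
      have p11 : P 1 1 = 1 / (t - r) := rfl
      have het : t ^ 2 = (a + d) * t - 1 := by rw [← htr2]; linear_combination -htr
      have her : r ^ 2 = (a + d) * r - 1 := by rw [← htr2]; linear_combination -htr
      refine ⟨P, t / r, ?_, ?_, fun z hz => ?_⟩
      · have : t / r = t ^ 2 := by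
          rw [div_eq_iff hr0]
          linear_combination (-t) * htr
        rw [this]
        positivity
      · intro h1
        rw [div_eq_one_iff_eq hr0] at h1
        exact hne (by linarith)
      · have := nft_key h P t 0 r hr0
          (by rw [← ha, ← hb, p00, p10]; linear_combination -het - hdet)
          (by rw [← hc, ← hd, p00, p10]; ring)
          (by
            rw [← ha, ← hb, p00, p01, p11]
            field_simp
            linear_combination -her - hdet)
          (by
            rw [← hc, ← hd, p01, p10, p11]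
            field_simp
            ring) z hz
        rw [this]
        congr 1
        have : (r : ℂ) ≠ 0 := by exact_mod_cast hr0
        push_cast
        field_simp
        try ring

end Pool.H110K
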