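import Pool.Agent.H110K.Defs
import Pool.Agent.H110K.P_mobius_basic
import Pool.Agent.H110K.P_mob_sub
import Pool.Agent.H110K.P_near_tools
import Pool.Agent.H110K.P_disc
import Pool.Agent.H110K.P_no_fix_trace

set_option autoImplicit false

open Complex Set Filter Topology MeasureTheory
open scoped Real ContDiff

namespace Pool.H110K



theorem hyperbolic (Γ : Subgroup SL2) (φ : ℂ → ℝ) (S : Surf Γ φ) (h : SL2) (hh : h ∈ Γ)
    (hne : ∃ w ∈ UH, mob h w ≠ w) :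
    ∃ P : SL2, ∃ lam : ℝ, 0 < lam ∧ lam ≠ 1 ∧ ∀ z ∈ UH, mob h (mob P z) = mob P ((lam : ℂ) * z) := by
  have hf : ∀ z ∈ UH, mob h z ≠ z := by
    intro z hz heq
    obtain ⟨w, hw, hw'⟩ := hne
    exact hw' (S.free h hh z hz heq w hw)
  rcases no_fix_trace h hf with ⟨P, b, hb, hP⟩ | h2
  · exfalso
    obtain ⟨ε0, hε0, hdisc⟩ := disc Γ φ S
    obtain ⟨ε, hεd⟩ : ∃ ε, ε = min (1 / 4) (ε0 / 4) := ⟨_, rfl⟩
    have hε : 0 < ε := by rw [hεd]; exact lt_min (by norm_num) (by linarith)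
    have hε1 : ε ≤ 1 / 4 := by rw [hεd]; exact min_le_left _ _
    have hε2 : ε ≤ ε0 / 4 := by rw [hεd]; exact min_le_right _ _
    have hy : 0 < |b| / ε := div_pos (abs_pos.2 hb) hε
    obtain ⟨z0, hz0⟩ : ∃ z0 : ℂ, z0 = I * ((|b| / ε : ℝ) : ℂ) := ⟨_, rfl⟩
    have him : z0.im = |b| / ε := by rw [hz0]; simp
    have hz0U : z0 ∈ UH := by
      show 0 < z0.im
      rw [him]; exact hy
    have hz1U : z0 + (b : ℂ) ∈ UH := by
      show 0 < (z0 + (b : ℂ)).im
      rw [add_im, him, ofReal_im, add_zero]; exact hy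
    have hd : ‖z0 + (b : ℂ) - z0‖ ≤ ε * z0.im := by
      rw [add_sub_cancel_left, him, norm_real, Real.norm_eq_abs]
      rw [mul_div_cancel₀ _ hε.ne']
    have h3 := near_tools.1 P z0 (z0 + (b : ℂ)) ε hz0U hz1U hε.le hε1 hd
    rw [← hP z0 hz0U] at h3
    have hPU : mob P z0 ∈ UH := (mobius_basic P 1 z0 hz0U).2.2.1
    have hPim : 0 < (mob P z0).im := hPU
    have h4 : ‖mob h (mob P z0) - mob P z0‖ ≤ ε0 * (mob P z0).im := by
      refine le_trans h3 ?_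
      exact mul_le_mul_of_nonneg_right (by linarith) hPim.le
    obtain ⟨w, hw, hw'⟩ := hne
    exact hw' (hdisc h hh _ hPU h4 w hw)
  · exact h2

end Pool.H110K
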