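import Pool.Agent.H110K.Defs

set_option autoImplicit false

open Complex Set Filter Topology MeasureTheory
open scoped Real ContDiff

namespace Pool.H110K



theorem area_form :
    ∃ β : ℂ → (ℂ →L[ℝ] ℝ), (∀ p v, β p v = v.re / p.im) ∧ ContDiffOn ℝ 1 β UH ∧
      ∀ p ∈ UH, ∀ a b : ℂ, (fderiv ℝ β p a) b - (fderiv ℝ β p b) a
        = ((starRingEnd ℂ) a * b).im / p.im ^ 2 := by
  have hd : ∀ p ∈ UH, HasFDerivAt (fun p : ℂ => (p.im)⁻¹ • Complex.reCLM)
      (((-(p.im ^ 2)⁻¹) • Complex.imCLM).smulRight Complex.reCLM) p := by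
    intro p hp
    have hp' : p.im ≠ 0 := ne_of_gt hp
    have h1 : HasFDerivAt (fun p : ℂ => p.im) Complex.imCLM p := Complex.imCLM.hasFDerivAt
    have h2 := (hasDerivAt_inv hp').comp_hasFDerivAt p h1
    exact h2.smul_const Complex.reCLM
  refine ⟨fun p => (p.im)⁻¹ • Complex.reCLM, ?_, ?_, ?_⟩
  · intro p v
    show (p.im)⁻¹ • v.re = v.re / p.im
    rw [smul_eq_mul, div_eq_inv_mul]
  · have h1 : ContDiffOn ℝ 1 (fun p : ℂ => p.im) UH := Complex.imCLM.contDiff.contDiffOn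
    exact (h1.inv fun p hp => ne_of_gt hp).smul contDiffOn_const
  · intro p hp a b
    have hp' : p.im ≠ 0 := ne_of_gt hp
    rw [(hd p hp).fderiv]
    show (-(p.im ^ 2)⁻¹ * a.im) * b.re - (-(p.im ^ 2)⁻¹ * b.im) * a.re = _
    rw [Complex.mul_im, Complex.conj_re, Complex.conj_im]
    field_simp
    ring

end Pool.H110K
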