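import Pool.Agent.H110K.Defs

set_option autoImplicit false

open Complex Set Filter Topology MeasureTheory
open scoped Real ContDiff

namespace Pool.H110K



theorem seg_transport (β : ℂ → (ℂ →L[ℝ] ℝ)) (hβ : ContDiffOn ℝ 1 β UH) (Z V Z' V' : ℝ → ℂ)
    (hZ : ∀ s, HasDerivAt Z (Z' s) s) (hV : ∀ s, HasDerivAt V (V' s) s)
    (hZc : Continuous Z') (hVc : Continuous V') (hm : ∀ s, Z s ∈ UH) (hm' : ∀ s, Z s + V s ∈ UH)
    (t : ℝ) :
    HasDerivAt (fun s => ∫ σ in (0:ℝ)..1, β (Z s + (σ : ℂ) * V s) (V s))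
      (β (Z t + V t) (Z' t + V' t) - β (Z t) (Z' t) +
        ∫ σ in (0:ℝ)..1,
          ((fderiv ℝ β (Z t + (σ : ℂ) * V t) (Z' t + (σ : ℂ) * V' t)) (V t)
            - (fderiv ℝ β (Z t + (σ : ℂ) * V t) (V t)) (Z' t + (σ : ℂ) * V' t))) t := by
  have hUo : IsOpen UH := isOpen_lt continuous_const Complex.continuous_im
  have hZ0 : Continuous Z := continuous_iff_continuousAt.2 fun s => (hZ s).continuousAt
  have hV0 : Continuous V := continuous_iff_continuousAt.2 fun s => (hV s).continuousAt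
  have hβ0 : ContinuousOn β UH := hβ.continuousOn
  have hβ1 : ContinuousOn (fderiv ℝ β) UH := hβ.continuousOn_fderiv_of_isOpen hUo le_rfl
  have hβd : ∀ p ∈ UH, HasFDerivAt β (fderiv ℝ β p) p := fun p hp =>
    ((hβ.contDiffAt (hUo.mem_nhds hp)).differentiableAt one_ne_zero).hasFDerivAt
  -- the segment stays in the upper half plane
  have hR : ∀ s : ℝ, ∀ σ ∈ Icc (0:ℝ) 1, Z s + (σ : ℂ) * V s ∈ UH := by
    intro s σ hσ
    have h0 : 0 < (Z s).im := hm s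
    have h1 : 0 < (Z s).im + (V s).im := by
      have : 0 < (Z s + V s).im := hm' s
      rwa [Complex.add_im] at this
    change 0 < (Z s + (σ : ℂ) * V s).im
    rw [Complex.add_im, Complex.im_ofReal_mul]
    rcases hσ.2.lt_or_eq with h | h
    · have h2 : 0 < (1 - σ) * (Z s).im := mul_pos (by linarith) h0
      have h3 : 0 ≤ σ * ((Z s).im + (V s).im) := mul_nonneg hσ.1 h1.le
      nlinarith
    · rw [h]
      linarith
  have hRc : Continuous fun q : ℝ × ℝ => Z q.1 + (q.2 : ℂ) * V q.1 := by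
    have h1 : Continuous fun q : ℝ × ℝ => Z q.1 := hZ0.comp continuous_fst
    have h2 : Continuous fun q : ℝ × ℝ => V q.1 := hV0.comp continuous_fst
    have h3 : Continuous fun q : ℝ × ℝ => (q.2 : ℂ) :=
      Complex.continuous_ofReal.comp continuous_snd
    exact h1.add (h3.mul h2)
  have hRm : MapsTo (fun q : ℝ × ℝ => Z q.1 + (q.2 : ℂ) * V q.1) (univ ×ˢ Icc (0:ℝ) 1) UH :=
    fun q hq => hR q.1 q.2 hq.2
  have hc0 : ContinuousOn (fun q : ℝ × ℝ => β (Z q.1 + (q.2 : ℂ) * V q.1))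
      (univ ×ˢ Icc (0:ℝ) 1) := hβ0.comp hRc.continuousOn hRm
  have hc1 : ContinuousOn (fun q : ℝ × ℝ => fderiv ℝ β (Z q.1 + (q.2 : ℂ) * V q.1))
      (univ ×ˢ Icc (0:ℝ) 1) := hβ1.comp hRc.continuousOn hRm
  have hVc1 : Continuous fun q : ℝ × ℝ => V q.1 := hV0.comp continuous_fst
  have hV'c1 : Continuous fun q : ℝ × ℝ => V' q.1 := hVc.comp continuous_fst
  have hRtc : Continuous fun q : ℝ × ℝ => Z' q.1 + (q.2 : ℂ) * V' q.1 := by
    have h1 : Continuous fun q : ℝ × ℝ => Z' q.1 := hZc.comp continuous_fst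
    have h3 : Continuous fun q : ℝ × ℝ => (q.2 : ℂ) :=
      Complex.continuous_ofReal.comp continuous_snd
    exact h1.add (h3.mul hV'c1)
  have hFc : ContinuousOn (fun q : ℝ × ℝ => β (Z q.1 + (q.2 : ℂ) * V q.1) (V q.1))
      (univ ×ˢ Icc (0:ℝ) 1) := hc0.clm_apply hVc1.continuousOn
  have hA1 : ContinuousOn (fun q : ℝ × ℝ =>
      (fderiv ℝ β (Z q.1 + (q.2 : ℂ) * V q.1) (Z' q.1 + (q.2 : ℂ) * V' q.1)) (V q.1))
      (univ ×ˢ Icc (0:ℝ) 1) :=
    (hc1.clm_apply hRtc.continuousOn).clm_apply hVc1.continuousOn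
  have hA2 : ContinuousOn (fun q : ℝ × ℝ =>
      (fderiv ℝ β (Z q.1 + (q.2 : ℂ) * V q.1) (V q.1)) (Z' q.1 + (q.2 : ℂ) * V' q.1))
      (univ ×ˢ Icc (0:ℝ) 1) :=
    (hc1.clm_apply hVc1.continuousOn).clm_apply hRtc.continuousOn
  have hA3 : ContinuousOn (fun q : ℝ × ℝ => β (Z q.1 + (q.2 : ℂ) * V q.1) (V' q.1))
      (univ ×ˢ Icc (0:ℝ) 1) := hc0.clm_apply hV'c1.continuousOn
  have hF'c : ContinuousOn (fun q : ℝ × ℝ =>
      (fderiv ℝ β (Z q.1 + (q.2 : ℂ) * V q.1) (Z' q.1 + (q.2 : ℂ) * V' q.1)) (V q.1) +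
        β (Z q.1 + (q.2 : ℂ) * V q.1) (V' q.1)) (univ ×ˢ Icc (0:ℝ) 1) := hA1.add hA3
  -- slices
  have hsl : ∀ (H : ℝ × ℝ → ℝ), ContinuousOn H (univ ×ˢ Icc (0:ℝ) 1) → ∀ s : ℝ,
      ContinuousOn (fun σ => H (s, σ)) (Icc 0 1) := by
    intro H hH s
    exact hH.comp (continuous_const.prodMk continuous_id).continuousOn
      fun σ hσ => ⟨mem_univ _, hσ⟩
  have hu : uIcc (0:ℝ) 1 = Icc 0 1 := uIcc_of_le zero_le_one
  have hint : ∀ (H : ℝ × ℝ → ℝ), ContinuousOn H (univ ×ˢ Icc (0:ℝ) 1) → ∀ s : ℝ,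
      IntervalIntegrable (fun σ => H (s, σ)) volume 0 1 := by
    intro H hH s
    apply ContinuousOn.intervalIntegrable
    rw [hu]
    exact hsl H hH s
  have hmeas : ∀ (H : ℝ × ℝ → ℝ), ContinuousOn H (univ ×ˢ Icc (0:ℝ) 1) → ∀ s : ℝ,
      AEStronglyMeasurable (fun σ => H (s, σ)) (volume.restrict (uIoc (0:ℝ) 1)) := by
    intro H hH s
    rw [uIoc_of_le zero_le_one]
    exact ((hsl H hH s).mono Ioc_subset_Icc_self).aestronglyMeasurable measurableSet_Ioc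
  -- derivative of the integrand in `s`
  have hder : ∀ s : ℝ, ∀ σ ∈ Icc (0:ℝ) 1,
      HasDerivAt (fun s => β (Z s + (σ : ℂ) * V s) (V s))
        ((fderiv ℝ β (Z s + (σ : ℂ) * V s) (Z' s + (σ : ℂ) * V' s)) (V s) +
          β (Z s + (σ : ℂ) * V s) (V' s)) s := by
    intro s σ hσ
    have h1 : HasDerivAt (fun s => Z s + (σ : ℂ) * V s) (Z' s + (σ : ℂ) * V' s) s :=
      (hZ s).add ((hV s).const_mul _)
    have h2 : HasDerivAt (fun s => β (Z s + (σ : ℂ) * V s))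
        (fderiv ℝ β (Z s + (σ : ℂ) * V s) (Z' s + (σ : ℂ) * V' s)) s :=
      HasFDerivAt.comp_hasDerivAt s (hβd _ (hR s σ hσ)) h1
    exact h2.clm_apply (hV s)
  -- bound
  obtain ⟨C, hC⟩ : ∃ C : ℝ, ∀ q ∈ Icc (t - 1) (t + 1) ×ˢ Icc (0:ℝ) 1,
      ‖(fderiv ℝ β (Z q.1 + (q.2 : ℂ) * V q.1) (Z' q.1 + (q.2 : ℂ) * V' q.1)) (V q.1) +
        β (Z q.1 + (q.2 : ℂ) * V q.1) (V' q.1)‖ ≤ C := by
    have h1 : IsCompact (Icc (t - 1) (t + 1) ×ˢ Icc (0:ℝ) 1) := isCompact_Icc.prod isCompact_Icc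
    exact h1.exists_bound_of_continuousOn (hF'c.mono (prod_mono (subset_univ _) le_rfl))
  have hmain := (intervalIntegral.hasDerivAt_integral_of_dominated_loc_of_deriv_le
    (μ := volume) (a := 0) (b := 1)
    (F := fun s σ => β (Z s + (σ : ℂ) * V s) (V s))
    (F' := fun s σ => (fderiv ℝ β (Z s + (σ : ℂ) * V s) (Z' s + (σ : ℂ) * V' s)) (V s) +
          β (Z s + (σ : ℂ) * V s) (V' s))
    (x₀ := t) (s := Icc (t - 1) (t + 1)) (bound := fun _ => C)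
    (Icc_mem_nhds (by linarith) (by linarith))
    (Eventually.of_forall fun s => hmeas _ hFc s) (hint _ hFc t) (hmeas _ hF'c t)
    (Eventually.of_forall fun σ hσ s hs => ?_) intervalIntegrable_const
    (Eventually.of_forall fun σ hσ s hs => ?_)).2
  rotate_left
  · rw [uIoc_of_le zero_le_one] at hσ
    exact hC (s, σ) ⟨hs, ⟨hσ.1.le, hσ.2⟩⟩
  · rw [uIoc_of_le zero_le_one] at hσ
    exact hder s σ ⟨hσ.1.le, hσ.2⟩
  -- fundamental theorem of calculus in `σ`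
  have hftc : ∫ σ in (0:ℝ)..1, ((fderiv ℝ β (Z t + (σ : ℂ) * V t) (V t)) (Z' t + (σ : ℂ) * V' t) +
      β (Z t + (σ : ℂ) * V t) (V' t)) = β (Z t + V t) (Z' t + V' t) - β (Z t) (Z' t) := by
    have h1 : ∀ σ ∈ uIcc (0:ℝ) 1, HasDerivAt
        (fun σ : ℝ => β (Z t + (σ : ℂ) * V t) (Z' t + (σ : ℂ) * V' t))
        ((fderiv ℝ β (Z t + (σ : ℂ) * V t) (V t)) (Z' t + (σ : ℂ) * V' t) +
          β (Z t + (σ : ℂ) * V t) (V' t)) σ := by
      intro σ hσ
      rw [hu] at hσ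
      have e0 : HasDerivAt (fun σ : ℝ => (σ : ℂ)) 1 σ := by
        have := (hasDerivAt_id σ).ofReal_comp
        simpa using this
      have e1 : HasDerivAt (fun σ : ℝ => Z t + (σ : ℂ) * V t) (V t) σ := by
        have := (e0.mul_const (V t)).const_add (Z t)
        simpa using this
      have e2 : HasDerivAt (fun σ : ℝ => Z' t + (σ : ℂ) * V' t) (V' t) σ := by
        have := (e0.mul_const (V' t)).const_add (Z' t)
        simpa using this
      have e3 : HasDerivAt (fun σ : ℝ => β (Z t + (σ : ℂ) * V t))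
          (fderiv ℝ β (Z t + (σ : ℂ) * V t) (V t)) σ :=
        HasFDerivAt.comp_hasDerivAt σ (hβd _ (hR t σ hσ)) e1
      exact e3.clm_apply e2
    rw [intervalIntegral.integral_eq_sub_of_hasDerivAt h1 (hint _ (hA2.add hA3) t)]
    simp
  have hval : ∫ σ in (0:ℝ)..1, ((fderiv ℝ β (Z t + (σ : ℂ) * V t) (Z' t + (σ : ℂ) * V' t)) (V t) +
      β (Z t + (σ : ℂ) * V t) (V' t)) = β (Z t + V t) (Z' t + V' t) - β (Z t) (Z' t) +
        ∫ σ in (0:ℝ)..1,
          ((fderiv ℝ β (Z t + (σ : ℂ) * V t) (Z' t + (σ : ℂ) * V' t)) (V t)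
            - (fderiv ℝ β (Z t + (σ : ℂ) * V t) (V t)) (Z' t + (σ : ℂ) * V' t)) := by
    have i1 : IntervalIntegrable (fun σ : ℝ => (fderiv ℝ β (Z t + (σ : ℂ) * V t) (V t))
        (Z' t + (σ : ℂ) * V' t) + β (Z t + (σ : ℂ) * V t) (V' t)) volume 0 1 :=
      hint _ (hA2.add hA3) t
    have i2 : IntervalIntegrable (fun σ : ℝ =>
        (fderiv ℝ β (Z t + (σ : ℂ) * V t) (Z' t + (σ : ℂ) * V' t)) (V t)
          - (fderiv ℝ β (Z t + (σ : ℂ) * V t) (V t)) (Z' t + (σ : ℂ) * V' t)) volume 0 1 :=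
      hint _ (hA1.sub hA2) t
    rw [← hftc, ← intervalIntegral.integral_add i1 i2]
    refine intervalIntegral.integral_congr fun σ _ => ?_
    ring
  rw [← hval]
  exact hmain

end Pool.H110K
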