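import Pool.Agent.H110K.Defs
import Pool.Agent.H110K.P_seg_transport
import Pool.Agent.H110K.P_area_form

set_option autoImplicit false

open Complex Set Filter Topology MeasureTheory
open scoped Real ContDiff

namespace Pool.H110K



theorem area_UH_open : IsOpen UH := isOpen_lt continuous_const Complex.continuous_im

theorem area_seg {p V : ℂ} (hp : p ∈ UH) (hpV : p + V ∈ UH) {σ : ℝ} (h0 : 0 ≤ σ) (h1 : σ ≤ 1) :
    0 < (p + (σ : ℂ) * V).im := by
  have h2 : 0 < p.im := hp
  have h3 : 0 < (p + V).im := hpV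
  rw [Complex.add_im] at h3
  have e0 : ((σ : ℂ) * V).im = σ * V.im := by simp
  rw [Complex.add_im, e0]
  have h4 : p.im + σ * V.im = (1 - σ) * p.im + σ * (p.im + V.im) := by ring
  rw [h4]
  rcases h1.lt_or_eq with h | h
  · have : 0 < (1 - σ) * p.im := mul_pos (by linarith) h2
    have : 0 ≤ σ * (p.im + V.im) := mul_nonneg h0 h3.le
    linarith
  · rw [h]; linarith

theorem area_alg (v : ℂ) (η η' A C σ : ℝ) :
    ((starRingEnd ℂ) (v + (σ : ℂ) * (I * (η' : ℂ) * v + I * (η : ℂ) *
      (-((A : ℂ) - I * (C : ℂ)) * v))) * (I * (η : ℂ) * v)).im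
      = η * (‖v‖ ^ 2 * (1 - σ * (η * C))) := by
  rw [Complex.sq_norm, Complex.normSq_apply]
  simp only [Complex.mul_im, Complex.mul_re, Complex.add_re, Complex.add_im, Complex.conj_re,
    Complex.conj_im, Complex.ofReal_re, Complex.ofReal_im, Complex.I_re, Complex.I_im,
    Complex.neg_re, Complex.neg_im, Complex.sub_re, Complex.sub_im]
  ring

theorem area (φ : ℂ → ℝ) (z v w u : ℝ → ℂ) (τ η τ' η' : ℝ → ℝ) (L : ℝ)
    (H : RP φ z v w u τ η τ' η' L) (lam mu b : ℝ) (hl : 0 < lam) (hmu : 0 < mu)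
    (hz : ∀ t, z (t + L) = (lam : ℂ) * z t) (hw : ∀ t, w t = (mu : ℂ) * z (t + b))
    (h0 : ∀ t, η t ≠ 0) : False := by
  obtain ⟨β, hβ, hβC, hβd⟩ := area_form
  have hzd := H.gz.dz
  have hvd := H.gz.dv
  have hzc : Continuous z := continuous_iff_continuousAt.2 fun t => (hzd t).continuousAt
  have hvc : Continuous v := continuous_iff_continuousAt.2 fun t => (hvd t).continuousAt
  have hηc : Continuous η := continuous_iff_continuousAt.2 fun t => (H.dη t).continuousAt
  have hφc : Continuous fun t => fderiv ℝ φ (z t) := by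
    have h1 : ContinuousOn (fderiv ℝ φ) UH :=
      H.sm.continuousOn_fderiv_of_isOpen area_UH_open (by simp)
    exact h1.comp_continuous hzc H.gz.mem
  -- V and its derivative
  set V : ℝ → ℂ := fun t => I * (η t : ℂ) * v t with hVdef
  set V' : ℝ → ℂ := fun t => I * (η' t : ℂ) * v t + I * (η t : ℂ) *
    (-(((fderiv ℝ φ (z t) (v t) : ℝ) : ℂ) - I * ((fderiv ℝ φ (z t) (I * v t) : ℝ) : ℂ)) * v t)
    with hV'def
  have hV : ∀ s, HasDerivAt V (V' s) s := by
    intro s
    have h1 := (((H.dη s).ofReal_comp).const_mul I).mul (hvd s)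
    exact h1
  have hV'c : Continuous V' := by
    have h1 : Continuous fun t => fderiv ℝ φ (z t) (v t) := hφc.clm_apply hvc
    have h2 : Continuous fun t => fderiv ℝ φ (z t) (I * v t) :=
      hφc.clm_apply (continuous_const.mul hvc)
    have h3 : Continuous fun t => ((fderiv ℝ φ (z t) (v t) : ℝ) : ℂ) :=
      Complex.continuous_ofReal.comp h1
    have h4 : Continuous fun t => ((fderiv ℝ φ (z t) (I * v t) : ℝ) : ℂ) :=
      Complex.continuous_ofReal.comp h2
    have h5 : Continuous fun t => (η t : ℂ) := Complex.continuous_ofReal.comp hηc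
    have h6 : Continuous fun t => (η' t : ℂ) := Complex.continuous_ofReal.comp H.cη
    exact ((continuous_const.mul h6).mul hvc).add ((continuous_const.mul h5).mul
      (((h3.sub (continuous_const.mul h4)).neg).mul hvc))
  have hmV : ∀ s, z s + V s ∈ UH := by
    intro s
    have := H.gw.mem (τ s)
    rw [H.eq s] at this
    exact this
  have hzV : ∀ s, v s + V' s = (τ' s : ℂ) * u (τ s) := by
    intro s
    have h1 : HasDerivAt (fun s => w (τ s)) (τ' s • u (τ s)) s :=
      (H.gw.dz (τ s)).scomp s (H.dτ s)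
    have h2 : HasDerivAt (fun s => z s + V s) (v s + V' s) s := (hzd s).add (hV s)
    have h3 : (fun s => w (τ s)) = fun s => z s + V s := by
      funext s; rw [H.eq s]
    rw [h3] at h1
    rw [h2.unique h1, Complex.real_smul]
  -- scale invariance
  have hβs : ∀ (c : ℝ), 0 < c → ∀ p q : ℂ, β ((c : ℂ) * p) ((c : ℂ) * q) = β p q := by
    intro c hc p q
    rw [hβ, hβ]
    have e1 : ((c : ℂ) * q).re = c * q.re := by simp
    have e2 : ((c : ℂ) * p).im = c * p.im := by simp
    rw [e1, e2, mul_div_mul_left _ _ hc.ne']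
  -- periodicity
  have hvper : ∀ s, v (s + L) = (lam : ℂ) * v s := by
    intro s
    have h1 : HasDerivAt (fun s => z (s + L)) (v (s + L)) s := (hzd (s + L)).comp_add_const s L
    have h2 : HasDerivAt (fun s => (lam : ℂ) * z s) ((lam : ℂ) * v s) s := (hzd s).const_mul _
    have h3 : (fun s => z (s + L)) = fun s => (lam : ℂ) * z s := by funext s; exact hz s
    rw [h3] at h1
    exact h1.unique h2
  have huv : ∀ s, u s = (mu : ℂ) * v (s + b) := by
    intro s
    have h1 : HasDerivAt (fun s => (mu : ℂ) * z (s + b)) ((mu : ℂ) * v (s + b)) s :=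
      ((hzd (s + b)).comp_add_const s b).const_mul _
    have h2 : w = fun s => (mu : ℂ) * z (s + b) := by funext s; exact hw s
    have h3 := H.gw.dz s
    rw [h2] at h3
    exact h3.unique h1
  set f : ℝ → ℝ := fun s => β (z s) (v s) with hfdef
  have hfe : ∀ s, f s = (v s).re / (z s).im := fun s => hβ _ _
  have hfc : Continuous f := by
    have : f = fun s => (v s).re / (z s).im := funext hfe
    rw [this]
    exact (Complex.continuous_re.comp hvc).div (Complex.continuous_im.comp hzc)
      fun s => (ne_of_gt (H.gz.mem s))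
  have hfper : Function.Periodic f L := by
    intro s
    simp only [hfdef]
    rw [hz, hvper, hβs lam hl]
  have hwu : ∀ s, β (w s) (u s) = f (s + b) := by
    intro s
    rw [hw, huv, hβs mu hmu]
  -- the function W
  set W : ℝ → ℝ := fun s => ∫ σ in (0:ℝ)..1, β (z s + (σ : ℂ) * V s) (V s) with hWdef
  set D : ℝ → ℝ := fun t => ∫ σ in (0:ℝ)..1,
          ((fderiv ℝ β (z t + (σ : ℂ) * V t) (v t + (σ : ℂ) * V' t)) (V t)
            - (fderiv ℝ β (z t + (σ : ℂ) * V t) (V t)) (v t + (σ : ℂ) * V' t)) with hDdef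
  have hW : ∀ t, HasDerivAt W (τ' t * f (τ t + b) - f t + D t) t := by
    intro t
    have h1 := seg_transport β hβC z V v V' hzd hV hvc hV'c H.gz.mem hmV t
    rw [hzV t] at h1
    have h2 : β (z t + V t) ((τ' t : ℂ) * u (τ t)) = τ' t * f (τ t + b) := by
      rw [← hwu, ← Complex.real_smul, map_smul, smul_eq_mul, H.eq t]
    rw [h2] at h1
    exact h1
  have hWL : W L = W 0 := by
    simp only [hWdef]
    refine intervalIntegral.integral_congr fun σ _ => ?_
    have e1 : z L = (lam : ℂ) * z 0 := by rw [← hz 0, zero_add]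
    have e2 : V L = (lam : ℂ) * V 0 := by
      simp only [hVdef]
      have e3 : v L = (lam : ℂ) * v 0 := by rw [← hvper 0, zero_add]
      have e4 : η L = η 0 := by rw [← H.ηper 0, zero_add]
      rw [e3, e4]; ring
    change β (z L + (σ : ℂ) * V L) (V L) = β (z 0 + (σ : ℂ) * V 0) (V 0)
    rw [e1, e2]
    have e5 : (lam : ℂ) * z 0 + (σ : ℂ) * ((lam : ℂ) * V 0)
        = (lam : ℂ) * (z 0 + (σ : ℂ) * V 0) := by ring
    rw [e5, hβs lam hl]
  set F : ℝ → ℝ := fun x => ∫ y in (0:ℝ)..x, f y with hFdef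
  have hF : ∀ x, HasDerivAt F (f x) x := fun x => (hfc.integral_hasStrictDerivAt 0 x).hasDerivAt
  have hFL : F (τ L + b) - F (τ 0 + b) = F L - F 0 := by
    have hint : ∀ a c : ℝ, IntervalIntegrable f volume a c := fun a c =>
      hfc.intervalIntegrable a c
    have e1 : F (τ L + b) - F (τ 0 + b) = ∫ y in (τ 0 + b)..(τ L + b), f y := by
      simp only [hFdef]
      exact intervalIntegral.integral_interval_sub_left (hint _ _) (hint _ _)
    have e2 : F L - F 0 = ∫ y in (0:ℝ)..L, f y := by
      simp only [hFdef]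
      exact intervalIntegral.integral_interval_sub_left (hint _ _) (hint _ _)
    have e3 : τ L + b = τ 0 + b + L := by
      have := H.τper 0
      rw [zero_add] at this
      rw [this]; ring
    have e4 := hfper.intervalIntegral_add_eq (τ 0 + b) 0
    rw [zero_add] at e4
    rw [e1, e2, e3, e4]
  set Ps : ℝ → ℝ := fun s => W s - F (τ s + b) + F s with hPdef
  have hPs : ∀ t, HasDerivAt Ps (D t) t := by
    intro t
    have h1 : HasDerivAt (fun s => F (τ s + b)) (f (τ t + b) * τ' t) t :=
      HasDerivAt.comp (h₂ := F) (h := fun s => τ s + b) t (hF (τ t + b)) ((H.dτ t).add_const b)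
    have h2 := ((hW t).sub h1).add (hF t)
    have h3 : τ' t * f (τ t + b) - f t + D t - f (τ t + b) * τ' t + f t = D t := by ring
    rw [h3] at h2
    exact h2
  have hPL : Ps 0 = Ps L := by
    simp only [hPdef]
    rw [hWL]
    linarith
  have hPc : Continuous Ps := continuous_iff_continuousAt.2 fun t => (hPs t).continuousAt
  obtain ⟨t, -, ht⟩ := exists_hasDerivAt_eq_zero H.Lpos hPc.continuousOn hPL (fun x _ => hPs x)
  -- positivity
  set C : ℝ := fderiv ℝ φ (z t) (I * v t) with hC
  have hseg : ∀ σ ∈ Icc (0:ℝ) 1, 0 < (z t + (σ : ℂ) * V t).im := fun σ hσ =>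
    area_seg (H.gz.mem t) (hmV t) hσ.1 hσ.2
  have hDt : D t = ∫ σ in (0:ℝ)..1,
      η t * (‖v t‖ ^ 2 * (1 - σ * (η t * C))) / (z t + (σ : ℂ) * V t).im ^ 2 := by
    simp only [hDdef]
    refine intervalIntegral.integral_congr fun σ hσ => ?_
    rw [uIcc_of_le zero_le_one] at hσ
    change (fderiv ℝ β (z t + (σ : ℂ) * V t) (v t + (σ : ℂ) * V' t)) (V t)
            - (fderiv ℝ β (z t + (σ : ℂ) * V t) (V t)) (v t + (σ : ℂ) * V' t) = _
    rw [hβd _ (hseg σ hσ)]
    congr 1
    exact area_alg (v t) (η t) (η' t) (fderiv ℝ φ (z t) (v t)) C σ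
  have hv0 : 0 < ‖v t‖ := by
    have h1 := H.gz.unit t
    rcases (norm_nonneg (v t)).lt_or_eq with h | h
    · exact h
    · rw [← h, mul_zero] at h1; norm_num at h1
  have hpos : 0 < ∫ σ in (0:ℝ)..1, η t *
      (η t * (‖v t‖ ^ 2 * (1 - σ * (η t * C))) / (z t + (σ : ℂ) * V t).im ^ 2) := by
    refine intervalIntegral.intervalIntegral_pos_of_pos_on ?_ ?_ zero_lt_one
    · refine ContinuousOn.intervalIntegrable ?_
      rw [uIcc_of_le zero_le_one]
      refine ContinuousOn.mul continuousOn_const (ContinuousOn.div ?_ ?_ ?_)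
      · fun_prop
      · have : Continuous fun σ : ℝ => (z t + (σ : ℂ) * V t).im ^ 2 :=
          (Complex.continuous_im.comp (continuous_const.add
            (Complex.continuous_ofReal.mul continuous_const))).pow 2
        exact this.continuousOn
      · intro σ hσ
        exact pow_ne_zero _ (hseg σ hσ).ne'
    · intro σ hσ
      have h1 := H.small t
      rw [← hC] at h1
      have h2 : σ * (η t * C) ≤ 1 / 2 := by
        have h3 : σ * (η t * C) ≤ |σ * (η t * C)| := le_abs_self _
        rw [abs_mul, abs_of_pos hσ.1] at h3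
        have h4 : σ * |η t * C| ≤ 1 * (1 / 2) :=
          mul_le_mul hσ.2.le h1 (abs_nonneg _) zero_le_one
        linarith
      have h5 : 0 < (z t + (σ : ℂ) * V t).im ^ 2 := pow_pos (hseg σ ⟨hσ.1.le, hσ.2.le⟩) 2
      have h6 : 0 < η t ^ 2 := by
        have := h0 t
        positivity
      have h7 : η t * (η t * (‖v t‖ ^ 2 * (1 - σ * (η t * C))) / (z t + (σ : ℂ) * V t).im ^ 2)
          = (η t ^ 2 * (‖v t‖ ^ 2 * (1 - σ * (η t * C)))) / (z t + (σ : ℂ) * V t).im ^ 2 := by
        ring
      rw [h7]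
      refine div_pos (mul_pos h6 (mul_pos (by positivity) (by linarith))) h5
  rw [intervalIntegral.integral_const_mul, ← hDt, ht, mul_zero] at hpos
  exact lt_irrefl _ hpos

end Pool.H110K
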