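import Pool.Agent.H110K.Defs

set_option autoImplicit false

open Complex Set Filter Topology MeasureTheory
open scoped Real ContDiff

namespace Pool.H110K



theorem lap_form (φ : ℂ → ℝ) (hφ : ContDiffOn ℝ ∞ φ UH) :
    ∃ β : ℂ → (ℂ →L[ℝ] ℝ), (∀ p v, β p v = fderiv ℝ φ p (I * v)) ∧ ContDiffOn ℝ 1 β UH ∧
      ∀ p ∈ UH, ∀ a b : ℂ, (fderiv ℝ β p a) b - (fderiv ℝ β p b) a
        = - (lap φ p * ((starRingEnd ℂ) a * b).im) := by
  have hopen : IsOpen UH := isOpen_lt continuous_const Complex.continuous_im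
  let T : ℂ →L[ℝ] ℂ := ContinuousLinearMap.mul ℝ ℂ I
  let Λ : (ℂ →L[ℝ] ℝ) →L[ℝ] (ℂ →L[ℝ] ℝ) := (ContinuousLinearMap.compL ℝ ℂ ℂ ℝ).flip T
  have hΛ : ∀ (A : ℂ →L[ℝ] ℝ) (v : ℂ), Λ A v = A (I * v) := fun A v => rfl
  have hd : ContDiffOn ℝ 1 (fderiv ℝ φ) UH :=
    hφ.fderiv_of_isOpen hopen (by norm_cast)
  refine ⟨fun p => Λ (fderiv ℝ φ p), fun p v => hΛ _ _, Λ.contDiff.comp_contDiffOn hd, ?_⟩
  intro p hp a b
  have hdp : DifferentiableAt ℝ (fderiv ℝ φ) p :=
    (hd.contDiffAt (hopen.mem_nhds hp)).differentiableAt (by norm_num)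
  have hD := hdp.hasFDerivAt
  set D := fderiv ℝ (fderiv ℝ φ) p with hDdef
  have hβ : HasFDerivAt (fun p => Λ (fderiv ℝ φ p)) (Λ.comp D) p := Λ.hasFDerivAt.comp p hD
  have hsym : ∀ v w : ℂ, D v w = D w v := by
    have h1 : ContDiffAt ℝ ∞ φ p := hφ.contDiffAt (hopen.mem_nhds hp)
    have h2 : IsSymmSndFDerivAt ℝ φ p := h1.isSymmSndFDerivAt (by
      rw [minSmoothness_of_isRCLikeNormedField]
      norm_cast)
    intro v w
    exact h2 v w
  have e1 : fderiv ℝ (fun w => fderiv ℝ φ w 1) p 1 = D 1 1 := by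
    have h := (ContinuousLinearMap.apply ℝ ℝ (1 : ℂ)).hasFDerivAt.comp p hD
    have h' : HasFDerivAt (fun w => fderiv ℝ φ w 1)
      ((ContinuousLinearMap.apply ℝ ℝ (1 : ℂ)).comp D) p := h
    rw [h'.fderiv]
    rfl
  have e2 : fderiv ℝ (fun w => fderiv ℝ φ w I) p I = D I I := by
    have h := (ContinuousLinearMap.apply ℝ ℝ (I : ℂ)).hasFDerivAt.comp p hD
    have h' : HasFDerivAt (fun w => fderiv ℝ φ w I)
      ((ContinuousLinearMap.apply ℝ ℝ (I : ℂ)).comp D) p := h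
    rw [h'.fderiv]
    rfl
  have e3 : ∀ u w : ℂ, fderiv ℝ (fun p => Λ (fderiv ℝ φ p)) p u w = D u (I * w) := by
    intro u w
    rw [hβ.fderiv]
    rfl
  rw [e3, e3, lap, e1, e2]
  have ha : a = a.re • (1 : ℂ) + a.im • I := by
    apply Complex.ext <;> simp
  have hb : b = b.re • (1 : ℂ) + b.im • I := by
    apply Complex.ext <;> simp
  have hIa : I * a = a.re • I + (-a.im) • (1 : ℂ) := by
    apply Complex.ext <;> simp
  have hIb : I * b = b.re • I + (-b.im) • (1 : ℂ) := by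
    apply Complex.ext <;> simp
  have k1 : D a (I * b) = a.re * (b.re * D 1 I + (-b.im) * D 1 1)
      + a.im * (b.re * D I I + (-b.im) * D I 1) := by
    rw [hIb]
    conv_lhs => rw [ha]
    simp only [map_add, map_smul, ContinuousLinearMap.add_apply, ContinuousLinearMap.smul_apply,
      smul_eq_mul]
    ring
  have k2 : D b (I * a) = b.re * (a.re * D 1 I + (-a.im) * D 1 1)
      + b.im * (a.re * D I I + (-a.im) * D I 1) := by
    rw [hIa]
    conv_lhs => rw [hb]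
    simp only [map_add, map_smul, ContinuousLinearMap.add_apply, ContinuousLinearMap.smul_apply,
      smul_eq_mul]
    ring
  rw [k1, k2, hsym I 1]
  simp only [Complex.mul_im, Complex.conj_re, Complex.conj_im]
  ring

end Pool.H110K
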