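import Pool.Agent.H110K.Defs
import Pool.Agent.H110K.P_seg_transport
import Pool.Agent.H110K.P_lap_form

set_option autoImplicit false

open Complex Set Filter Topology MeasureTheory
open scoped Real ContDiff

namespace Pool.H110K



theorem qder (φ : ℂ → ℝ) (hφ : ContDiffOn ℝ ∞ φ UH) (z v w u : ℝ → ℂ) (hz : IsGeo φ z v)
    (hw : IsGeo φ w u) (τ τ' : ℝ → ℝ) (hτ : ∀ t, HasDerivAt τ (τ' t) t) (hτc : Continuous τ')
    (t : ℝ) :
    HasDerivAt (fun s => qf φ (z s) (w (τ s)) (v s) (u (τ s)))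
      (I * ((Gf φ (z t) (w (τ t) - z t) (v t) ((τ' t : ℂ) * u (τ t) - v t) : ℝ) : ℂ)
        * qf φ (z t) (w (τ t)) (v t) (u (τ t))) t := by
  have hUo : IsOpen UH := isOpen_lt continuous_const Complex.continuous_im
  have hd : ∀ p ∈ UH, DifferentiableAt ℝ φ p := fun p hp =>
    (hφ.contDiffAt (hUo.mem_nhds hp)).differentiableAt (by simp)
  obtain ⟨β, hβ1, hβ2, hβ3⟩ := lap_form φ hφ
  have hwτ : ∀ s, HasDerivAt (fun s => w (τ s)) ((τ' s : ℂ) * u (τ s)) s := by
    intro s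
    have h := (hw.dz (τ s)).scomp s (hτ s)
    rw [Complex.real_smul] at h
    exact h
  have huτ : ∀ s, HasDerivAt (fun s => u (τ s)) ((τ' s : ℂ) *
      (-(((fderiv ℝ φ (w (τ s)) (u (τ s)) : ℝ) : ℂ)
      - I * ((fderiv ℝ φ (w (τ s)) (I * u (τ s)) : ℝ) : ℂ)) * u (τ s))) s := by
    intro s
    have h := (hw.dv (τ s)).scomp s (hτ s)
    rw [Complex.real_smul] at h
    exact h
  have hV : ∀ s, HasDerivAt (fun s => w (τ s) - z s) ((τ' s : ℂ) * u (τ s) - v s) s :=
    fun s => (hwτ s).sub (hz.dz s)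
  have hvc : Continuous v := continuous_iff_continuousAt.2 fun s => (hz.dv s).continuousAt
  have huc : Continuous u := continuous_iff_continuousAt.2 fun s => (hw.dv s).continuousAt
  have hτcont : Continuous τ := continuous_iff_continuousAt.2 fun s => (hτ s).continuousAt
  have hVc : Continuous (fun s => (τ' s : ℂ) * u (τ s) - v s) :=
    ((Complex.continuous_ofReal.comp hτc).mul (huc.comp hτcont)).sub hvc
  have hL := seg_transport β hβ2 z (fun s => w (τ s) - z s) v
    (fun s => (τ' s : ℂ) * u (τ s) - v s) hz.dz hV hvc hVc hz.mem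
    (by intro s; rw [add_sub_cancel]; exact hw.mem _) t
  have hfun : (fun s => ∫ σ in (0:ℝ)..1, β (z s + (σ : ℂ) * (w (τ s) - z s)) (w (τ s) - z s)) =
      fun s => Lam φ (z s) (w (τ s) - z s) := by
    funext s
    unfold Lam
    refine intervalIntegral.integral_congr (fun σ _ => ?_)
    simp only [hβ1]
  have hint : ∫ σ in (0:ℝ)..1,
      ((fderiv ℝ β (z t + (σ : ℂ) * (w (τ t) - z t)) (v t + (σ : ℂ) *
          ((τ' t : ℂ) * u (τ t) - v t))) (w (τ t) - z t)
        - (fderiv ℝ β (z t + (σ : ℂ) * (w (τ t) - z t)) (w (τ t) - z t)) (v t + (σ : ℂ) *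
          ((τ' t : ℂ) * u (τ t) - v t))) =
      - Gf φ (z t) (w (τ t) - z t) (v t) ((τ' t : ℂ) * u (τ t) - v t) := by
    unfold Gf
    rw [← intervalIntegral.integral_neg]
    refine intervalIntegral.integral_congr (fun σ hσ => ?_)
    rw [uIcc_of_le zero_le_one] at hσ
    have hp : z t + (σ : ℂ) * (w (τ t) - z t) ∈ UH := by
      have h1 := hz.mem t
      have h2 := hw.mem (τ t)
      simp only [UH, mem_setOf_eq] at h1 h2 ⊢
      have : (z t + (σ : ℂ) * (w (τ t) - z t)).im = (1 - σ) * (z t).im + σ * (w (τ t)).im := by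
        simp; ring
      rw [this]
      rcases eq_or_lt_of_le hσ.1 with h | h
      · rw [← h]; simpa using h1
      · have := mul_pos h h2
        have := mul_nonneg (sub_nonneg.2 hσ.2) h1.le
        linarith
    exact hβ3 _ hp _ _
  rw [hint] at hL
  rw [hfun] at hL
  have hβw : β (z t + (w (τ t) - z t)) (v t + ((τ' t : ℂ) * u (τ t) - v t)) =
      τ' t * fderiv ℝ φ (w (τ t)) (I * u (τ t)) := by
    rw [hβ1, add_sub_cancel, add_sub_cancel]
    have : I * ((τ' t : ℂ) * u (τ t)) = (τ' t) • (I * u (τ t)) := by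
      rw [Complex.real_smul]; ring
    rw [this, map_smul, smul_eq_mul]
  have hβz : β (z t) (v t) = fderiv ℝ φ (z t) (I * v t) := hβ1 _ _
  have hL2 : HasDerivAt (fun s => Lam φ (z s) (w (τ s) - z s))
      (τ' t * fderiv ℝ φ (w (τ t)) (I * u (τ t)) - fderiv ℝ φ (z t) (I * v t) -
        Gf φ (z t) (w (τ t) - z t) (v t) ((τ' t : ℂ) * u (τ t) - v t)) t := by
    rw [← hβw, ← hβz]
    exact hL
  -- the scalar functions
  have hφz : HasDerivAt (fun s => φ (z s)) (fderiv ℝ φ (z t) (v t)) t :=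
    (hd (z t) (hz.mem t)).hasFDerivAt.comp_hasDerivAt t (hz.dz t)
  have hφw : HasDerivAt (fun s => φ (w (τ s))) (τ' t * fderiv ℝ φ (w (τ t)) (u (τ t))) t := by
    have h := (hd (w (τ t)) (hw.mem (τ t))).hasFDerivAt.comp_hasDerivAt t (hwτ t)
    have h2 : fderiv ℝ φ (w (τ t)) ((τ' t : ℂ) * u (τ t)) =
        τ' t * fderiv ℝ φ (w (τ t)) (u (τ t)) := by
      rw [← Complex.real_smul, map_smul, smul_eq_mul]
    rw [h2] at h
    exact h
  have hv0 : v t ≠ 0 := by
    intro h0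
    have := hz.unit t
    rw [h0, norm_zero, mul_zero] at this
    norm_num at this
  have hexp : HasDerivAt (fun s => ((Real.exp (φ (w (τ s)) - φ (z s)) : ℝ) : ℂ))
      ((Real.exp (φ (w (τ t)) - φ (z t)) * (τ' t * fderiv ℝ φ (w (τ t)) (u (τ t)) -
        fderiv ℝ φ (z t) (v t)) : ℝ) : ℂ) t :=
    ((hφw.sub hφz).exp).ofReal_comp
  have hcexp : HasDerivAt (fun s => Complex.exp (-(I * ((Lam φ (z s) (w (τ s) - z s) : ℝ) : ℂ))))
      (Complex.exp (-(I * ((Lam φ (z t) (w (τ t) - z t) : ℝ) : ℂ))) *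
        (-(I * ((τ' t * fderiv ℝ φ (w (τ t)) (I * u (τ t)) - fderiv ℝ φ (z t) (I * v t) -
        Gf φ (z t) (w (τ t) - z t) (v t) ((τ' t : ℂ) * u (τ t) - v t) : ℝ) : ℂ)))) t :=
    ((hL2.ofReal_comp.const_mul I).neg).cexp
  have hquot := (huτ t).div (hz.dv t) hv0
  have hprod := (hquot.mul hexp).mul hcexp
  unfold qf
  refine hprod.congr_deriv ?_
  simp only [Pi.mul_apply, Pi.div_apply]
  push_cast
  field_simp
  ring

end Pool.H110K
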