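import Pool.Agent.H110K.Defs

set_option autoImplicit false

open Complex Set Filter Topology MeasureTheory
open scoped Real ContDiff

namespace Pool.H110K



theorem qf_norm (φ : ℂ → ℝ) (p r a b : ℂ) (ha : Real.exp (φ p) * ‖a‖ = 1)
    (hb : Real.exp (φ r) * ‖b‖ = 1) : ‖qf φ p r a b‖ = 1 := by
  unfold qf
  have h1 : ‖Complex.exp (-(I * ((Lam φ p (r - p) : ℝ) : ℂ)))‖ = 1 := by
    have : -(I * ((Lam φ p (r - p) : ℝ) : ℂ)) = (((-(Lam φ p (r - p)) : ℝ)) : ℂ) * I := by
      push_cast; ring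
    rw [this, Complex.norm_exp_ofReal_mul_I]
  have ha0 : ‖a‖ ≠ 0 := by
    intro h
    rw [h, mul_zero] at ha
    exact zero_ne_one ha
  have e1 := (Real.exp_pos (φ p)).ne'
  have e2 := (Real.exp_pos (φ r)).ne'
  rw [norm_mul, norm_mul, h1, mul_one, norm_div, Complex.norm_real, Real.norm_eq_abs,
    abs_of_pos (Real.exp_pos _), Real.exp_sub]
  have hb' : ‖b‖ = 1 / Real.exp (φ r) := by
    field_simp
    linarith
  have ha' : ‖a‖ = 1 / Real.exp (φ p) := by
    field_simp
    linarith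
  rw [hb', ha']
  field_simp

end Pool.H110K
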