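import Pool.Agent.H110K.Defs
import Pool.Agent.H110K.P_qder
import Pool.Agent.H110K.P_Gf_sign

set_option autoImplicit false

open Complex Set Filter Topology MeasureTheory
open scoped Real ContDiff

namespace Pool.H110K



theorem rp_deriv (φ : ℂ → ℝ) (z v w u : ℝ → ℂ) (τ η τ' η' : ℝ → ℝ) (L : ℝ)
    (H : RP φ z v w u τ η τ' η' L) (t : ℝ) :
    ∃ G : ℝ, HasDerivAt (fun s => qf φ (z s) (w (τ s)) (v s) (u (τ s)))
        (I * (G : ℂ) * qf φ (z t) (w (τ t)) (v t) (u (τ t))) t ∧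
      (0 ≤ η t → 0 ≤ G) ∧ (η t ≤ 0 → G ≤ 0) := by
  have hq := qder φ H.sm z v w u H.gz H.gw τ τ' H.dτ H.cτ t
  have hV : w (τ t) - z t = I * (η t : ℂ) * v t := by
    rw [H.eq t]
    ring
  have hL : HasDerivAt (fun s => w (τ s)) (τ' t • u (τ t)) t :=
    (H.gw.dz (τ t)).scomp t (H.dτ t)
  have hη : HasDerivAt (fun s => ((η s : ℝ) : ℂ)) ((η' t : ℝ) : ℂ) t := (H.dη t).ofReal_comp
  have hR : HasDerivAt (fun s => z s + I * (η s : ℂ) * v s)
      (v t + ((I * ((η' t : ℝ) : ℂ)) * v t + (I * (η t : ℂ)) *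
        (-(((fderiv ℝ φ (z t) (v t) : ℝ) : ℂ) - I * ((fderiv ℝ φ (z t) (I * v t) : ℝ) : ℂ)) *
          v t))) t :=
    (H.gz.dz t).add ((hη.const_mul I).mul (H.gz.dv t))
  have hfun : (fun s => w (τ s)) = fun s => z s + I * (η s : ℂ) * v s := funext H.eq
  rw [hfun] at hL
  have huniq := hL.unique hR
  rw [Complex.real_smul] at huniq
  have hW : (τ' t : ℂ) * u (τ t) - v t = I * (η' t : ℂ) * v t + I * (η t : ℂ) *
      (-(((fderiv ℝ φ (z t) (v t) : ℝ) : ℂ) - I * ((fderiv ℝ φ (z t) (I * v t) : ℝ) : ℂ)) *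
        v t) := by
    rw [huniq]
    ring
  rw [hW, hV] at hq
  have hsign := Gf_sign φ (z t) (v t) (η t) (η' t) (by
    intro σ h0 h1
    apply H.lapnn
    have h2 : 0 < (z t).im := H.gz.mem t
    have h3 : 0 < (w (τ t)).im := H.gw.mem (τ t)
    show 0 < (z t + (σ : ℂ) * (I * (η t : ℂ) * v t)).im
    rw [← hV]
    have e : (z t + (σ : ℂ) * (w (τ t) - z t)).im = (1 - σ) * (z t).im + σ * (w (τ t)).im := by
      simp
      ring
    rw [e]
    rcases eq_or_lt_of_le h0 with h4 | h4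
    · rw [← h4]
      simpa using h2
    · have h5 : 0 ≤ (1 - σ) * (z t).im := mul_nonneg (by linarith) h2.le
      have h6 : 0 < σ * (w (τ t)).im := mul_pos h4 h3
      linarith) (H.small t)
  exact ⟨_, hq, hsign.1, hsign.2⟩

end Pool.H110K
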