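import Pool.Agent.H110K.Defs

set_option autoImplicit false

open Complex Set Filter Topology MeasureTheory
open scoped Real ContDiff

namespace Pool.H110K



theorem rp_zero (φ : ℂ → ℝ) (z v w u : ℝ → ℂ) (τ η τ' η' : ℝ → ℝ) (L : ℝ)
    (H : RP φ z v w u τ η τ' η' L) (t : ℝ) (h0 : η t = 0) :
    (qf φ (z t) (w (τ t)) (v t) (u (τ t))).im * τ' t = η' t ∧
      w (τ t) = z t ∧ qf φ (z t) (w (τ t)) (v t) (u (τ t)) = u (τ t) / v t := by
  have hw : w (τ t) = z t := by
    rw [H.eq t, h0]; simp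
  have hq : qf φ (z t) (w (τ t)) (v t) (u (τ t)) = u (τ t) / v t := by
    rw [hw]
    simp [qf, Lam]
  have hv : v t ≠ 0 := by
    intro h
    have := H.gz.unit t
    rw [h] at this
    simp at this
  have hd1 : HasDerivAt (fun t => w (τ t)) (τ' t • u (τ t)) t :=
    (H.gw.dz (τ t)).scomp t (H.dτ t)
  have hd2 : HasDerivAt (fun t => z t + I * (η t : ℂ) * v t)
      (v t + (I * (η' t : ℂ) * v t + I * (η t : ℂ) * (-(((fderiv ℝ φ (z t) (v t) : ℝ) : ℂ)
      - I * ((fderiv ℝ φ (z t) (I * v t) : ℝ) : ℂ)) * v t))) t := by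
    have h1 : HasDerivAt (fun t => (η t : ℂ)) (η' t : ℂ) t := (H.dη t).ofReal_comp
    exact (H.gz.dz t).add ((h1.const_mul I).mul (H.gz.dv t))
  have he : (fun t => w (τ t)) = (fun t => z t + I * (η t : ℂ) * v t) := funext H.eq
  rw [he] at hd1
  have hu := hd1.unique hd2
  rw [h0] at hu
  have hk : u (τ t) / v t * (τ' t : ℂ) = 1 + I * (η' t : ℂ) := by
    rw [Complex.real_smul] at hu
    field_simp
    rw [mul_comm] at hu
    rw [mul_comm (v t), ← sub_eq_zero]
    have := hu
    simp only [Complex.ofReal_zero, mul_zero, zero_mul, add_zero] at this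
    linear_combination this
  refine ⟨?_, hw, hq⟩
  rw [hq]
  have := congrArg Complex.im hk
  simpa using this

end Pool.H110K
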