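import Pool.Agent.H110K.Defs
import Pool.Agent.H110K.P_qder
import Pool.Agent.H110K.P_qf_norm
import Pool.Agent.H110K.P_rp_deriv
import Pool.Agent.H110K.P_rp_zero

set_option autoImplicit false

open Complex Set Filter Topology MeasureTheory
open scoped Real ContDiff

namespace Pool.H110K



theorem dich_loc (f : ℝ → ℝ) (f' a : ℝ) (hf : HasDerivAt f f' a) (h0 : f a = 0) (hf' : 0 < f') :
    ∃ δ : ℝ, 0 < δ ∧ (∀ r, a < r → r < a + δ → 0 < f r) ∧ (∀ r, a - δ < r → r < a → f r < 0) := by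
  have h1 := hasDerivAt_iff_tendsto_slope.1 hf
  have h2 : ∀ᶠ r in 𝓝[≠] a, 0 < slope f a r := h1.eventually (lt_mem_nhds hf')
  rw [eventually_nhdsWithin_iff, Metric.eventually_nhds_iff] at h2
  obtain ⟨δ, hδ, h⟩ := h2
  refine ⟨δ, hδ, ?_, ?_⟩
  · intro r hr1 hr2
    have h3 := h (y := r) (by rw [Real.dist_eq, abs_of_pos (by linarith)]; linarith)
      (show r ≠ a from hr1.ne')
    rw [slope_def_field, h0, sub_zero] at h3
    have h4 : 0 < r - a := by linarith
    have h5 : f r = f r / (r - a) * (r - a) := by field_simp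
    rw [h5]
    exact mul_pos h3 h4
  · intro r hr1 hr2
    have h3 := h (y := r) (by rw [Real.dist_eq, abs_of_neg (by linarith)]; linarith)
      (show r ≠ a from hr2.ne)
    rw [slope_def_field, h0, sub_zero] at h3
    have h4 : r - a < 0 := by linarith
    have h5 : f r = f r / (r - a) * (r - a) := by
      have : r - a ≠ 0 := h4.ne
      field_simp
    rw [h5]
    exact mul_neg_of_pos_of_neg h3 h4

theorem dich_aux (η η' y g τ' : ℝ → ℝ) (L t0 : ℝ) (hL : 0 < L)
    (dη : ∀ t, HasDerivAt η (η' t) t) (dy : ∀ t, HasDerivAt y (g t) t)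
    (hg : ∀ t, 0 ≤ η t → 0 ≤ g t) (hz : ∀ t, η t = 0 → y t * τ' t = η' t)
    (hτ : ∀ t, 0 < τ' t) (h0 : η t0 = 0) (h1 : η (t0 + L) = 0) (hy : 0 < y t0) : False := by
  have hcη : Continuous η := continuous_iff_continuousAt.2 (fun t => (dη t).continuousAt)
  obtain ⟨δ, hδ, hr, -⟩ := dich_loc η _ t0 (dη t0) h0 (by
    rw [← hz t0 h0]; exact mul_pos hy (hτ t0))
  obtain ⟨d, hd⟩ : ∃ d : ℝ, d = min (δ / 2) (L / 2) := ⟨_, rfl⟩
  have hd0 : 0 < d := by rw [hd]; exact lt_min (by linarith) (by linarith)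
  have hd1 : d < δ := by
    have := min_le_left (δ / 2) (L / 2)
    rw [← hd] at this; linarith
  have hd2 : d < L := by
    have := min_le_right (δ / 2) (L / 2)
    rw [← hd] at this; linarith
  have hcomp : IsCompact (Icc (t0 + d) (t0 + L) ∩ η ⁻¹' {0}) :=
    isCompact_Icc.inter_right (isClosed_singleton.preimage hcη)
  obtain ⟨t2, ht2, hmin⟩ := hcomp.exists_isLeast ⟨t0 + L, ⟨by linarith, le_rfl⟩, h1⟩
  obtain ⟨⟨ht21, ht22⟩, ht23⟩ := ht2
  have ht23' : η t2 = 0 := ht23
  have hηd : 0 < η (t0 + d) := hr _ (by linarith) (by linarith)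
  have hpos : ∀ r, t0 < r → r < t2 → 0 < η r := by
    intro r hr1 hr2
    by_cases hrd : r < t0 + δ
    · exact hr r hr1 hrd
    · push Not at hrd
      by_contra hneg
      push Not at hneg
      have hIVT : (0:ℝ) ∈ η '' Icc (t0 + d) r := by
        apply intermediate_value_Icc' (by linarith) hcη.continuousOn
        exact ⟨hneg, hηd.le⟩
      obtain ⟨c, hc1, hc2⟩ := hIVT
      have := hmin ⟨⟨hc1.1, by linarith [hc1.2]⟩, hc2⟩
      linarith [hc1.2]
  have ht02 : t0 < t2 := by linarith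
  have hmono : MonotoneOn y (Icc t0 t2) := by
    apply monotoneOn_of_deriv_nonneg (convex_Icc t0 t2)
    · exact fun t _ => (dy t).continuousAt.continuousWithinAt
    · exact fun t _ => (dy t).differentiableAt.differentiableWithinAt
    · intro t ht
      rw [interior_Icc] at ht
      rw [(dy t).deriv]
      exact hg t (hpos t ht.1 ht.2).le
  have hy2 : 0 < y t2 := lt_of_lt_of_le hy
    (hmono ⟨le_rfl, ht02.le⟩ ⟨ht02.le, le_rfl⟩ ht02.le)
  obtain ⟨δ', hδ', -, hl⟩ := dich_loc η _ t2 (dη t2) ht23' (by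
    rw [← hz t2 ht23']; exact mul_pos hy2 (hτ t2))
  obtain ⟨r, hr1⟩ : ∃ r : ℝ, r = max (t2 - δ' / 2) ((t0 + t2) / 2) := ⟨_, rfl⟩
  have hr2 : t2 - δ' / 2 ≤ r := hr1 ▸ le_max_left _ _
  have hr3 : (t0 + t2) / 2 ≤ r := hr1 ▸ le_max_right _ _
  have hr4 : r < t2 := by rw [hr1]; exact max_lt (by linarith) (by linarith)
  have h5 := hl r (by linarith) hr4
  have h6 := hpos r (by linarith) hr4
  linarith

theorem dichotomy (φ : ℂ → ℝ) (z v w u : ℝ → ℂ) (τ η τ' η' : ℝ → ℝ) (L : ℝ)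
    (H : RP φ z v w u τ η τ' η' L) (h0 : ∃ t, η t = 0) :
    ∃ t, w (τ t) = z t ∧ u (τ t) = v t := by
  obtain ⟨t0, ht0⟩ := h0
  choose G hG1 hG2 hG3 using rp_deriv φ z v w u τ η τ' η' L H
  have dy : ∀ t, HasDerivAt (fun s => (qf φ (z s) (w (τ s)) (v s) (u (τ s))).im)
      (G t * (qf φ (z t) (w (τ t)) (v t) (u (τ t))).re) t := by
    intro t
    have h1 := (Complex.imCLM.hasFDerivAt (x := qf φ (z t) (w (τ t)) (v t) (u (τ t)))).comp_hasDerivAt
      t (hG1 t)
    have h2 : Complex.imCLM (I * (G t : ℂ) * qf φ (z t) (w (τ t)) (v t) (u (τ t))) =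
        G t * (qf φ (z t) (w (τ t)) (v t) (u (τ t))).re := by
      simp
    rw [h2] at h1
    exact h1
  have hL : η (t0 + L) = 0 := by rw [H.ηper, ht0]
  have hzero := fun t h => rp_zero φ z v w u τ η τ' η' L H t h
  rcases lt_trichotomy (qf φ (z t0) (w (τ t0)) (v t0) (u (τ t0))).im 0 with hneg | heq | hpos
  · exfalso
    refine dich_aux (fun t => -η t) (fun t => -η' t)
      (fun t => -(qf φ (z t) (w (τ t)) (v t) (u (τ t))).im)
      (fun t => -(G t * (qf φ (z t) (w (τ t)) (v t) (u (τ t))).re)) τ' L t0 H.Lpos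
      (fun t => (H.dη t).neg) (fun t => (dy t).neg) ?_ ?_ H.τpos (by simp [ht0]) (by simp [hL])
      (by simpa using hneg)
    · intro t ht
      have h1 := hG3 t (by simpa using ht)
      have h2 := H.qre t
      nlinarith
    · intro t ht
      have h1 := (hzero t (by simpa using ht)).1
      linarith
  · refine ⟨t0, (hzero t0 ht0).2.1, ?_⟩
    have h3 := (hzero t0 ht0).2.2
    have hn := qf_norm φ (z t0) (w (τ t0)) (v t0) (u (τ t0)) (H.gz.unit t0) (H.gw.unit (τ t0))
    have hre := H.qre t0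
    have hq1 : qf φ (z t0) (w (τ t0)) (v t0) (u (τ t0)) = 1 := by
      obtain ⟨q, hq⟩ : ∃ q, q = qf φ (z t0) (w (τ t0)) (v t0) (u (τ t0)) := ⟨_, rfl⟩
      rw [← hq] at hn hre heq ⊢
      have h5 : q = (q.re : ℂ) := by
        apply Complex.ext
        · simp
        · simp [heq]
      rw [h5, Complex.norm_real, Real.norm_of_nonneg hre.le] at hn
      rw [h5, hn]
      simp
    rw [hq1] at h3
    have hv : v t0 ≠ 0 := by
      intro hv
      have := H.gz.unit t0
      rw [hv, norm_zero, mul_zero] at this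
      exact zero_ne_one this
    rw [eq_div_iff hv, one_mul] at h3
    exact h3.symm
  · exfalso
    refine dich_aux η η'
      (fun t => (qf φ (z t) (w (τ t)) (v t) (u (τ t))).im)
      (fun t => (G t * (qf φ (z t) (w (τ t)) (v t) (u (τ t))).re)) τ' L t0 H.Lpos
      H.dη dy ?_ ?_ H.τpos ht0 hL hpos
    · intro t ht
      exact mul_nonneg (hG2 t ht) (H.qre t).le
    · intro t ht
      exact (hzero t ht).1

end Pool.H110K
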