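import Pool.Agent.H110K.Defs

set_option autoImplicit false

open Complex Set Filter Topology MeasureTheory
open scoped Real ContDiff

namespace Pool.H110K



/-- the geodesic vector field -/
noncomputable def guX (φ : ℂ → ℝ) (p : ℂ × ℂ) : ℂ × ℂ :=
  (p.2, -(((fderiv ℝ φ p.1 p.2 : ℝ) : ℂ) - I * ((fderiv ℝ φ p.1 (I * p.2) : ℝ) : ℂ)) * p.2)

theorem gu_smooth (φ : ℂ → ℝ) (hφ : ContDiffOn ℝ ∞ φ UH) (p : ℂ × ℂ) (hp : p.1 ∈ UH) :
    ContDiffAt ℝ 1 (guX φ) p := by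
  have hopen : IsOpen UH := isOpen_lt continuous_const Complex.continuous_im
  have h1 : ContDiffAt ℝ 1 (fderiv ℝ φ) p.1 :=
    (hφ.fderiv_of_isOpen (m := 1) hopen (by norm_cast)).contDiffAt (hopen.mem_nhds hp)
  have h2 : ContDiffAt ℝ 1 (fun q : ℂ × ℂ => fderiv ℝ φ q.1) p := h1.comp p contDiffAt_fst
  have h3 : ContDiffAt ℝ 1 (fun q : ℂ × ℂ => fderiv ℝ φ q.1 q.2) p := h2.clm_apply contDiffAt_snd
  have h4 : ContDiffAt ℝ 1 (fun q : ℂ × ℂ => fderiv ℝ φ q.1 (I * q.2)) p :=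
    h2.clm_apply (contDiffAt_const.mul contDiffAt_snd)
  have h5 : ContDiffAt ℝ 1 (fun q : ℂ × ℂ => ((fderiv ℝ φ q.1 q.2 : ℝ) : ℂ)) p :=
    Complex.ofRealCLM.contDiff.contDiffAt.comp p h3
  have h6 : ContDiffAt ℝ 1 (fun q : ℂ × ℂ => ((fderiv ℝ φ q.1 (I * q.2) : ℝ) : ℂ)) p :=
    Complex.ofRealCLM.contDiff.contDiffAt.comp p h4
  exact contDiffAt_snd.prodMk (((h5.sub (contDiffAt_const.mul h6)).neg).mul contDiffAt_snd)

theorem geo_unique (φ : ℂ → ℝ) (hφ : ContDiffOn ℝ ∞ φ UH) (z v w u : ℝ → ℂ) (hz : IsGeo φ z v)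
    (hw : IsGeo φ w u) (t0 s0 : ℝ) (h1 : w s0 = z t0) (h2 : u s0 = v t0) :
    ∀ t, w (s0 + t) = z (t0 + t) := by
  set x : ℝ → ℂ × ℂ := fun t => (z (t0 + t), v (t0 + t)) with hx
  set y : ℝ → ℂ × ℂ := fun t => (w (s0 + t), u (s0 + t)) with hy
  have hxd : ∀ t, HasDerivAt x (guX φ (x t)) t := fun t =>
    (HasDerivAt.comp_const_add t0 t (hz.dz (t0 + t))).prodMk
      (HasDerivAt.comp_const_add t0 t (hz.dv (t0 + t)))
  have hyd : ∀ t, HasDerivAt y (guX φ (y t)) t := fun t =>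
    (HasDerivAt.comp_const_add s0 t (hw.dz (s0 + t))).prodMk
      (HasDerivAt.comp_const_add s0 t (hw.dv (s0 + t)))
  have hxc : Continuous x := continuous_iff_continuousAt.2 fun t => (hxd t).continuousAt
  have hyc : Continuous y := continuous_iff_continuousAt.2 fun t => (hyd t).continuousAt
  have hclosed : IsClosed {t | x t = y t} := isClosed_eq hxc hyc
  have hop : IsOpen {t | x t = y t} := by
    rw [isOpen_iff_mem_nhds]
    intro t ht
    obtain ⟨K, s, hs, hL⟩ := (gu_smooth φ hφ (x t) (hz.mem (t0 + t))).exists_lipschitzOnWith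
    have hs' : s ∈ 𝓝 (y t) := by
      have : x t = y t := ht
      rw [← this]; exact hs
    have e := ODE_solution_unique_of_eventually (v := fun _ => guX φ) (s := fun _ => s) (K := K)
      (f := x) (g := y) (t₀ := t) (Filter.Eventually.of_forall fun _ => hL)
      ((hxc.continuousAt.eventually_mem hs).mono fun t' h => ⟨hxd t', h⟩)
      ((hyc.continuousAt.eventually_mem hs').mono fun t' h => ⟨hyd t', h⟩) ht
    exact e
  have hne : {t | x t = y t}.Nonempty := ⟨0, by simp [hx, hy, h1, h2]⟩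
  have huniv : {t | x t = y t} = Set.univ := IsClopen.eq_univ ⟨hclosed, hop⟩ hne
  intro t
  have : t ∈ {t | x t = y t} := by rw [huniv]; trivial
  have h3 : x t = y t := this
  exact (congrArg Prod.fst h3).symm

end Pool.H110K
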