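import Pool.Agent.H110K.Defs

set_option autoImplicit false

open Complex Set Filter Topology MeasureTheory
open scoped Real ContDiff

namespace Pool.H110K



lemma j20702_bound {φ : ℂ → ℝ} {B : ℝ} (hφ : Good φ B) {p q : ℂ} (hp : p ∈ UH)
    (hq : q ∈ Metric.closedBall p (p.im / 2)) :
    DifferentiableAt ℝ φ q ∧ ‖fderiv ℝ φ q‖ ≤ 2 * B / p.im := by
  have hy : 0 < p.im := hp
  have h1 : ‖q - p‖ ≤ p.im / 2 := by
    rw [← dist_eq_norm]
    exact hq
  have h2 : |q.im - p.im| ≤ p.im / 2 := by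
    rw [← Complex.sub_im]
    exact (Complex.abs_im_le_norm _).trans h1
  have h3 : p.im / 2 ≤ q.im := by
    have := (abs_le.mp h2).1
    linarith
  have hqU : q ∈ UH := lt_of_lt_of_le (half_pos hy) h3
  have hopen : IsOpen UH := isOpen_lt continuous_const Complex.continuous_im
  refine ⟨?_, ?_⟩
  · have h4 := hφ.smooth.contDiffAt (hopen.mem_nhds hqU)
    exact h4.differentiableAt (by simp)
  · have h4 := hφ.g1 q hqU
    have h5 : ‖fderiv ℝ φ q‖ * (p.im / 2) ≤ B :=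
      (mul_le_mul_of_nonneg_left h3 (norm_nonneg _)).trans h4
    rw [le_div_iff₀ hy]
    linarith

lemma j20702_alg (u v w : ℂ) (α β γ : ℝ) (hu : ‖u - 1‖ ≤ α) (hv : ‖v - 1‖ ≤ β)
    (hw : ‖w - 1‖ ≤ γ) (hβ : β ≤ 2) (hγ : γ ≤ 2) :
    ‖u * v * w - 1‖ ≤ 9 * α + 3 * β + γ := by
  have hα0 : 0 ≤ α := (norm_nonneg _).trans hu
  have hβ0 : 0 ≤ β := (norm_nonneg _).trans hv
  have hv3 : ‖v‖ ≤ 3 := by
    have : v = (v - 1) + 1 := by ring
    rw [this]
    refine (norm_add_le _ _).trans ?_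
    rw [norm_one]
    linarith
  have hw3 : ‖w‖ ≤ 3 := by
    have : w = (w - 1) + 1 := by ring
    rw [this]
    refine (norm_add_le _ _).trans ?_
    rw [norm_one]
    linarith
  have h1 : u * v * w - 1 = (u - 1) * (v * w) + (v - 1) * w + (w - 1) := by ring
  rw [h1]
  have h2 : ‖(u - 1) * (v * w)‖ ≤ 9 * α := by
    rw [norm_mul, norm_mul]
    have h3 : ‖v‖ * ‖w‖ ≤ 9 := by
      nlinarith [norm_nonneg v, norm_nonneg w]
    calc ‖u - 1‖ * (‖v‖ * ‖w‖) ≤ α * 9 :=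
          mul_le_mul hu h3 (mul_nonneg (norm_nonneg _) (norm_nonneg _)) hα0
      _ = 9 * α := by ring
  have h4 : ‖(v - 1) * w‖ ≤ 3 * β := by
    rw [norm_mul]
    calc ‖v - 1‖ * ‖w‖ ≤ β * 3 := mul_le_mul hv hw3 (norm_nonneg _) hβ0
      _ = 3 * β := by ring
  calc ‖(u - 1) * (v * w) + (v - 1) * w + (w - 1)‖
      ≤ ‖(u - 1) * (v * w)‖ + ‖(v - 1) * w‖ + ‖w - 1‖ := norm_add₃_le
    _ ≤ _ := by linarith

theorem qf_near (B : ℝ) : ∃ C : ℝ, 1 ≤ C ∧ ∃ e1 : ℝ, 0 < e1 ∧ ∀ φ : ℂ → ℝ, Good φ B →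
    ∀ p r a b : ℂ, p ∈ UH → Real.exp (φ p) * ‖a‖ = 1 → Real.exp (φ r) * ‖b‖ = 1 →
    ∀ ε : ℝ, 0 < ε → ε ≤ e1 → ‖r - p‖ ≤ ε * p.im → ‖b - a‖ ≤ ε * p.im →
      ‖qf φ p r a b - 1‖ ≤ C * ε := by
  refine ⟨9 * Real.exp B + 16 * |B| + 1, ?_, 1 / (2 * (|B| + 1)), by positivity, ?_⟩
  · have h1 := Real.exp_pos B
    have h2 := abs_nonneg B
    linarith
  intro φ hφ p r a b hp ha hb ε hε hε1 hrp hba
  have hB1 := hφ.one_le
  have hB0 : 0 < B := by linarith
  have habs : |B| = B := abs_of_pos hB0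
  rw [habs] at hε1 ⊢
  have hy : 0 < p.im := hp
  have hεh : ε ≤ 1 / 2 := by
    refine hε1.trans ?_
    rw [div_le_div_iff₀ (by positivity) (by norm_num)]
    linarith
  have hεB : 2 * B * ε ≤ 1 := by
    have h1 : ε * (2 * (B + 1)) ≤ 1 := by
      rwa [le_div_iff₀ (by positivity)] at hε1
    nlinarith
  -- `b / a`
  have ha0 : a ≠ 0 := by
    rintro rfl
    simp at ha
  have hna : Real.exp (-B) * p.im ≤ ‖a‖ := by
    have h1 := (abs_le.mp (hφ.g0 p hp)).2
    have h2 : Real.exp (φ p) ≤ Real.exp B / p.im := by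
      have h3 : φ p ≤ B - Real.log p.im := by linarith
      calc Real.exp (φ p) ≤ Real.exp (B - Real.log p.im) := Real.exp_le_exp.mpr h3
        _ = Real.exp B / p.im := by rw [Real.exp_sub, Real.exp_log hy]
    have h4 : 1 ≤ Real.exp B / p.im * ‖a‖ := by
      rw [← ha]
      exact mul_le_mul_of_nonneg_right h2 (norm_nonneg _)
    have h5 : p.im ≤ Real.exp B * ‖a‖ := by
      have h6 : Real.exp B / p.im * ‖a‖ = Real.exp B * ‖a‖ / p.im := by ring
      rw [h6, le_div_iff₀ hy] at h4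
      linarith
    calc Real.exp (-B) * p.im ≤ Real.exp (-B) * (Real.exp B * ‖a‖) :=
          mul_le_mul_of_nonneg_left h5 (Real.exp_pos _).le
      _ = ‖a‖ := by rw [← mul_assoc, ← Real.exp_add]; simp
  have hu : ‖b / a - 1‖ ≤ Real.exp B * ε := by
    have h1 : b / a - 1 = (b - a) / a := by field_simp
    rw [h1, norm_div, div_le_iff₀ (norm_pos_iff.mpr ha0)]
    calc ‖b - a‖ ≤ ε * p.im := hba
      _ = Real.exp B * ε * (Real.exp (-B) * p.im) := by
          have : Real.exp B * Real.exp (-B) = 1 := by rw [← Real.exp_add]; simp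
          linear_combination (-(ε * p.im)) * this
      _ ≤ Real.exp B * ε * ‖a‖ :=
          mul_le_mul_of_nonneg_left hna (mul_nonneg (Real.exp_pos _).le hε.le)
  -- the segment
  have hrp2 : ‖r - p‖ ≤ p.im / 2 := by
    refine hrp.trans ?_
    nlinarith
  have hball : ∀ σ : ℝ, 0 ≤ σ → σ ≤ 1 → p + (σ : ℂ) * (r - p) ∈ Metric.closedBall p (p.im / 2) := by
    intro σ h0 h1
    rw [Metric.mem_closedBall, dist_eq_norm, add_sub_cancel_left, norm_mul, Complex.norm_real,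
      Real.norm_of_nonneg h0]
    calc σ * ‖r - p‖ ≤ 1 * ‖r - p‖ := mul_le_mul_of_nonneg_right h1 (norm_nonneg _)
      _ = ‖r - p‖ := one_mul _
      _ ≤ p.im / 2 := hrp2
  have hprod : 2 * B / p.im * (ε * p.im) = 2 * B * ε := by
    field_simp
  -- variation of `φ`
  have hδ : |φ r - φ p| ≤ 2 * B * ε := by
    have h1 := Convex.norm_image_sub_le_of_norm_fderiv_le (𝕜 := ℝ) (f := φ)
      (s := Metric.closedBall p (p.im / 2)) (x := p) (y := r)
      (fun q hq => (j20702_bound hφ hp hq).1) (fun q hq => (j20702_bound hφ hp hq).2)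
      (convex_closedBall _ _) (Metric.mem_closedBall_self (half_pos hy).le)
      (by rw [Metric.mem_closedBall, dist_eq_norm]; exact hrp2)
    rw [Real.norm_eq_abs] at h1
    refine h1.trans ?_
    rw [← hprod]
    exact mul_le_mul_of_nonneg_left hrp (by positivity)
  have hΛ : |Lam φ p (r - p)| ≤ 2 * B * ε := by
    unfold Lam
    have h1 := intervalIntegral.norm_integral_le_of_norm_le_const (a := (0:ℝ)) (b := 1)
      (f := fun σ : ℝ => fderiv ℝ φ (p + (σ : ℂ) * (r - p)) (I * (r - p)))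
      (C := 2 * B * ε) (by
        intro σ hσ
        rw [Set.uIoc_of_le zero_le_one] at hσ
        refine (ContinuousLinearMap.le_opNorm _ _).trans ?_
        rw [norm_mul, Complex.norm_I, one_mul, ← hprod]
        exact mul_le_mul (j20702_bound hφ hp (hball σ hσ.1.le hσ.2)).2 hrp (norm_nonneg _)
          (by positivity))
    simpa using h1
  have hv : ‖((Real.exp (φ r - φ p) : ℝ) : ℂ) - 1‖ ≤ 4 * B * ε := by
    have h1 : ((Real.exp (φ r - φ p) : ℝ) : ℂ) - 1 = ((Real.exp (φ r - φ p) - 1 : ℝ) : ℂ) := by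
      push_cast
      ring
    rw [h1, Complex.norm_real, Real.norm_eq_abs]
    have h2 := Real.abs_exp_sub_one_le (hδ.trans hεB)
    linarith
  have hw : ‖Complex.exp (-(I * ((Lam φ p (r - p) : ℝ) : ℂ))) - 1‖ ≤ 4 * B * ε := by
    have h0 : ‖-(I * ((Lam φ p (r - p) : ℝ) : ℂ))‖ = |Lam φ p (r - p)| := by
      rw [norm_neg, norm_mul, Complex.norm_I, one_mul, Complex.norm_real, Real.norm_eq_abs]
    have h2 := Complex.norm_exp_sub_one_le (x := -(I * ((Lam φ p (r - p) : ℝ) : ℂ)))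
      (by rw [h0]; exact hΛ.trans hεB)
    rw [h0] at h2
    linarith
  have h4 : 4 * B * ε ≤ 2 := by linarith
  have hfin := j20702_alg _ _ _ _ _ _ hu hv hw h4 h4
  have hE := Real.exp_pos B
  unfold qf
  refine hfin.trans ?_
  nlinarith

end Pool.H110K
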