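import Pool.Agent.H110K.Defs

set_option autoImplicit false

open Complex Set Filter Topology MeasureTheory
open scoped Real ContDiff

namespace Pool.H110K



theorem dcl_vle {φ : ℂ → ℝ} {B : ℝ} (hφ : Good φ B) {z v : ℝ → ℂ} (hg : IsGeo φ z v) (t : ℝ) :
    ‖v t‖ ≤ Real.exp B * (z t).im := by
  have hy : 0 < (z t).im := hg.mem t
  have h0 := hφ.g0 (z t) (hg.mem t)
  have hu := hg.unit t
  have h1 : -B - Real.log (z t).im ≤ φ (z t) := by
    have := (abs_le.mp h0).1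
    linarith
  have h2 : Real.exp (-B - Real.log (z t).im) ≤ Real.exp (φ (z t)) := Real.exp_le_exp.mpr h1
  have h3 : Real.exp (-B - Real.log (z t).im) * (Real.exp B * (z t).im) = 1 := by
    rw [Real.exp_sub, Real.exp_log hy, Real.exp_neg]
    field_simp
  by_contra hc
  push Not at hc
  have h4 : 0 < Real.exp (-B - Real.log (z t).im) := Real.exp_pos _
  have h5 : 0 < Real.exp B * (z t).im := by positivity
  have : Real.exp (-B - Real.log (z t).im) * (Real.exp B * (z t).im)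
      < Real.exp (φ (z t)) * ‖v t‖ := by
    calc Real.exp (-B - Real.log (z t).im) * (Real.exp B * (z t).im)
        < Real.exp (-B - Real.log (z t).im) * ‖v t‖ := by
          exact mul_lt_mul_of_pos_left hc h4
      _ ≤ Real.exp (φ (z t)) * ‖v t‖ := by
          exact mul_le_mul_of_nonneg_right h2 (norm_nonneg _)
  linarith

theorem dcl_acc {φ : ℂ → ℝ} {B : ℝ} (hφ : Good φ B) {z v : ℝ → ℂ} (hg : IsGeo φ z v) (t : ℝ) :
    ‖-(((fderiv ℝ φ (z t) (v t) : ℝ) : ℂ)
      - I * ((fderiv ℝ φ (z t) (I * v t) : ℝ) : ℂ)) * v t‖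
      ≤ 2 * B * Real.exp B ^ 2 * (z t).im := by
  have hy : 0 < (z t).im := hg.mem t
  have hv := dcl_vle hφ hg t
  have h1 := hφ.g1 (z t) (hg.mem t)
  have ha : ‖((fderiv ℝ φ (z t) (v t) : ℝ) : ℂ)‖ ≤ ‖fderiv ℝ φ (z t)‖ * ‖v t‖ := by
    rw [Complex.norm_real]
    exact ContinuousLinearMap.le_opNorm _ _
  have hb : ‖I * ((fderiv ℝ φ (z t) (I * v t) : ℝ) : ℂ)‖ ≤ ‖fderiv ℝ φ (z t)‖ * ‖v t‖ := by
    rw [norm_mul, Complex.norm_I, one_mul, Complex.norm_real]
    refine (ContinuousLinearMap.le_opNorm _ _).trans ?_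
    rw [norm_mul, Complex.norm_I, one_mul]
  have hn : 0 ≤ ‖fderiv ℝ φ (z t)‖ := norm_nonneg _
  have hvn : 0 ≤ ‖v t‖ := norm_nonneg _
  calc ‖-(((fderiv ℝ φ (z t) (v t) : ℝ) : ℂ)
      - I * ((fderiv ℝ φ (z t) (I * v t) : ℝ) : ℂ)) * v t‖
      = ‖((fderiv ℝ φ (z t) (v t) : ℝ) : ℂ)
      - I * ((fderiv ℝ φ (z t) (I * v t) : ℝ) : ℂ)‖ * ‖v t‖ := by
        rw [norm_mul, norm_neg]
    _ ≤ (‖fderiv ℝ φ (z t)‖ * ‖v t‖ + ‖fderiv ℝ φ (z t)‖ * ‖v t‖) * ‖v t‖ := by
        refine mul_le_mul_of_nonneg_right ?_ hvn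
        exact (norm_sub_le _ _).trans (add_le_add ha hb)
    _ = 2 * ‖fderiv ℝ φ (z t)‖ * ‖v t‖ ^ 2 := by ring
    _ ≤ 2 * ‖fderiv ℝ φ (z t)‖ * (Real.exp B * (z t).im) ^ 2 := by
        gcongr
    _ = 2 * (‖fderiv ℝ φ (z t)‖ * (z t).im) * Real.exp B ^ 2 * (z t).im := by ring
    _ ≤ 2 * B * Real.exp B ^ 2 * (z t).im := by
        gcongr

theorem dcl_im {φ : ℂ → ℝ} {B : ℝ} (hφ : Good φ B) {z v : ℝ → ℂ} (hg : IsGeo φ z v) (t s : ℝ)
    (hts : t ≤ s) (hs : s ≤ t + 1) :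
    (z s).im ≤ Real.exp (Real.exp B) * (z t).im := by
  have hd : ∀ r, HasDerivAt (fun r => (z r).im) (v r).im r := by
    intro r
    exact (Complex.imCLM.hasFDerivAt.comp_hasDerivAt r (hg.dz r))
  have hd2 : ∀ r, HasDerivAt (fun r => (z r).im * Real.exp (-(Real.exp B) * r))
      ((v r).im * Real.exp (-(Real.exp B) * r)
        + (z r).im * (Real.exp (-(Real.exp B) * r) * (-(Real.exp B)))) r := by
    intro r
    refine (hd r).mul ?_
    have : HasDerivAt (fun r : ℝ => -(Real.exp B) * r) (-(Real.exp B)) r := by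
      simpa using (hasDerivAt_id r).const_mul (-(Real.exp B))
    exact this.exp
  have hanti : Antitone (fun r => (z r).im * Real.exp (-(Real.exp B) * r)) := by
    refine antitone_of_deriv_nonpos (fun r => (hd2 r).differentiableAt) ?_
    intro r
    rw [(hd2 r).deriv]
    have h1 : (v r).im ≤ Real.exp B * (z r).im :=
      (Complex.im_le_norm _).trans (dcl_vle hφ hg r)
    have h2 : 0 < Real.exp (-(Real.exp B) * r) := Real.exp_pos _
    nlinarith
  have h := hanti hts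
  simp only at h
  have hy : 0 < (z t).im := hg.mem t
  have e1 : Real.exp (-(Real.exp B) * t) = Real.exp (-(Real.exp B) * s) * Real.exp (Real.exp B * (s - t)) := by
    rw [← Real.exp_add]; congr 1; ring
  rw [e1] at h
  have h3 : 0 < Real.exp (-(Real.exp B) * s) := Real.exp_pos _
  have h4 : (z s).im ≤ (z t).im * Real.exp (Real.exp B * (s - t)) := by
    have : (z s).im * Real.exp (-(Real.exp B) * s)
        ≤ ((z t).im * Real.exp (Real.exp B * (s - t))) * Real.exp (-(Real.exp B) * s) := by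
      linarith
    exact le_of_mul_le_mul_right this h3
  have h5 : Real.exp (Real.exp B * (s - t)) ≤ Real.exp (Real.exp B) := by
    apply Real.exp_le_exp.mpr
    have := Real.exp_pos B
    nlinarith
  calc (z s).im ≤ (z t).im * Real.exp (Real.exp B * (s - t)) := h4
    _ ≤ (z t).im * Real.exp (Real.exp B) := by gcongr
    _ = _ := by ring

theorem dcl_taylor {φ : ℂ → ℝ} {B : ℝ} (hφ : Good φ B) {z v : ℝ → ℂ} (hg : IsGeo φ z v) (t h : ℝ)
    (hh : 0 ≤ h) (hh1 : h ≤ 1) :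
    ‖z (t + h) - z t - (h : ℂ) * v t‖
      ≤ (2 * B * Real.exp B ^ 2 * Real.exp (Real.exp B) * (z t).im) * h ^ 2 := by
  have hy : 0 < (z t).im := hg.mem t
  have hB : 0 ≤ B := zero_le_one.trans hφ.one_le
  set M : ℝ := 2 * B * Real.exp B ^ 2 * Real.exp (Real.exp B) * (z t).im with hM
  have hM0 : 0 ≤ M := by positivity
  have hv : ∀ s ∈ Icc t (t + h), ‖v s - v t‖ ≤ M * (s - t) := by
    refine norm_image_sub_le_of_norm_deriv_le_segment' (f' := fun s =>
      (-(((fderiv ℝ φ (z s) (v s) : ℝ) : ℂ)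
      - I * ((fderiv ℝ φ (z s) (I * v s) : ℝ) : ℂ)) * v s)) ?_ ?_
    · intro s _
      exact (hg.dv s).hasDerivWithinAt
    · intro s hs
      refine (dcl_acc hφ hg s).trans ?_
      have := dcl_im hφ hg t s hs.1 (by linarith [hs.2])
      calc 2 * B * Real.exp B ^ 2 * (z s).im
          ≤ 2 * B * Real.exp B ^ 2 * (Real.exp (Real.exp B) * (z t).im) := by gcongr
        _ = M := by rw [hM]; ring
  have hz : ∀ s ∈ Icc t (t + h), ‖(z s - (((s - t : ℝ)) : ℂ) * v t) - (z t - (((t - t : ℝ)) : ℂ) * v t)‖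
      ≤ (M * h) * (s - t) := by
    refine norm_image_sub_le_of_norm_deriv_le_segment' (f := fun s => z s - (((s - t : ℝ)) : ℂ) * v t)
      (f' := fun s => v s - 1 * v t) ?_ ?_
    · intro s _
      refine HasDerivAt.hasDerivWithinAt ?_
      refine (hg.dz s).sub ?_
      have h1 : HasDerivAt (fun s : ℝ => (((s - t : ℝ)) : ℂ)) 1 s := by
        have := ((hasDerivAt_id s).sub_const t).ofReal_comp
        simpa using this
      exact h1.mul_const (v t)
    · intro s hs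
      rw [one_mul]
      refine (hv s ⟨hs.1, hs.2.le⟩).trans ?_
      have : s - t ≤ h := by linarith [hs.2]
      gcongr
  have h1 := hz (t + h) ⟨by linarith, le_refl _⟩
  have e1 : (z (t + h) - (((t + h - t : ℝ)) : ℂ) * v t) - (z t - (((t - t : ℝ)) : ℂ) * v t)
      = z (t + h) - z t - (h : ℂ) * v t := by
    have : t + h - t = h := by ring
    rw [this]
    simp
    ring
  rw [e1] at h1
  calc _ ≤ _ := h1
    _ = _ := by ring

theorem dir_close (B : ℝ) : ∃ C : ℝ, 1 ≤ C ∧ ∃ e1 : ℝ, 0 < e1 ∧ ∀ φ : ℂ → ℝ, Good φ B →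
    ∀ z v w u : ℝ → ℂ, IsGeo φ z v → IsGeo φ w u → ∀ ε : ℝ, 0 < ε → ε ≤ e1 →
      (∀ t, ‖w t - z t‖ ≤ ε * (z t).im) → ∀ t, ‖u t - v t‖ ≤ C * Real.sqrt ε * (z t).im := by
  by_cases hB : 1 ≤ B
  swap
  · exact ⟨1, le_refl _, 1, one_pos, fun φ hφ => absurd hφ.one_le hB⟩
  have hB0 : 0 ≤ B := zero_le_one.trans hB
  refine ⟨Real.exp (Real.exp B) + 1 + 6 * B * Real.exp B ^ 2 * Real.exp (Real.exp B), ?_, 1, one_pos, ?_⟩
  · have h1 : 0 ≤ Real.exp (Real.exp B) := (Real.exp_pos _).le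
    have h2 : 0 ≤ 6 * B * Real.exp B ^ 2 * Real.exp (Real.exp B) := by positivity
    linarith
  intro φ hφ z v w u hz hw ε hε hε1 hwz t
  set h := Real.sqrt ε with hh
  have hpos : 0 < h := Real.sqrt_pos.mpr hε
  have hsq : h ^ 2 = ε := Real.sq_sqrt hε.le
  have hle : h ≤ 1 := by
    rw [hh]
    exact Real.sqrt_le_one.mpr hε1
  have hy : 0 < (z t).im := hz.mem t
  have T1 := dcl_taylor hφ hz t h hpos.le hle
  have T2 := dcl_taylor hφ hw t h hpos.le hle
  have hi := dcl_im hφ hz t (t + h) (by linarith) (by linarith)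
  have hw1 := hwz (t + h)
  have hw0 := hwz t
  have him : (w t).im ≤ 2 * (z t).im := by
    have h1 : (w t - z t).im ≤ ‖w t - z t‖ := Complex.im_le_norm _
    rw [Complex.sub_im] at h1
    nlinarith
  have key : (h : ℂ) * (u t - v t) = (w (t + h) - z (t + h)) - (w t - z t)
      - (w (t + h) - w t - (h : ℂ) * u t) + (z (t + h) - z t - (h : ℂ) * v t) := by ring
  have hn : h * ‖u t - v t‖ = ‖(h : ℂ) * (u t - v t)‖ := by
    rw [norm_mul, Complex.norm_real, Real.norm_eq_abs, abs_of_pos hpos]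
  have h6 : h * ‖u t - v t‖ ≤ ‖w (t + h) - z (t + h)‖ + ‖w t - z t‖
      + ‖w (t + h) - w t - (h : ℂ) * u t‖ + ‖z (t + h) - z t - (h : ℂ) * v t‖ := by
    rw [hn, key]
    refine (norm_add_le _ _).trans ?_
    gcongr
    refine (norm_sub_le _ _).trans ?_
    gcongr
    exact norm_sub_le _ _
  set K := Real.exp (Real.exp B) with hK
  have hK0 : 0 < K := Real.exp_pos _
  have hA : 0 ≤ 2 * B * Real.exp B ^ 2 * K := by positivity
  have h7 : ‖w (t + h) - w t - (h : ℂ) * u t‖ ≤ (2 * B * Real.exp B ^ 2 * K) * (2 * (z t).im) * h ^ 2 := by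
    refine T2.trans ?_
    have : 2 * B * Real.exp B ^ 2 * K * (w t).im ≤ 2 * B * Real.exp B ^ 2 * K * (2 * (z t).im) :=
      mul_le_mul_of_nonneg_left him hA
    exact mul_le_mul_of_nonneg_right this (by positivity)
  have h8 : ‖w (t + h) - z (t + h)‖ ≤ ε * (K * (z t).im) :=
    hw1.trans (mul_le_mul_of_nonneg_left hi hε.le)
  have h9 : h * ‖u t - v t‖ ≤ h * ((K + 1 + 6 * B * Real.exp B ^ 2 * K) * h * (z t).im) := by
    calc h * ‖u t - v t‖ ≤ ε * (K * (z t).im) + ε * (z t).im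
        + (2 * B * Real.exp B ^ 2 * K) * (2 * (z t).im) * h ^ 2
        + (2 * B * Real.exp B ^ 2 * K * (z t).im) * h ^ 2 := by linarith
      _ = h * ((K + 1 + 6 * B * Real.exp B ^ 2 * K) * h * (z t).im) := by
        rw [← hsq]; ring
  exact le_of_mul_le_mul_left h9 hpos

end Pool.H110K

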