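import Pool.Agent.H110K.Defs

set_option autoImplicit false

open Complex Set Filter Topology MeasureTheory
open scoped Real ContDiff

namespace Pool.H110K



theorem implicit_real_mvt (F Fs : ℝ → ℝ → ℝ)
    (hFs : ∀ t s, HasDerivAt (fun y => F t y) (Fs t s) s) (t x y : ℝ) :
    ∃ c, |c - x| ≤ |y - x| ∧ |c - y| ≤ |y - x| ∧ F t y - F t x = Fs t c * (y - x) := by
  rcases lt_trichotomy x y with h | h | h
  · obtain ⟨c, hc, e⟩ := exists_hasDerivAt_eq_slope (fun y => F t y) (fun s => Fs t s) h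
      (fun z _ => (hFs t z).continuousAt.continuousWithinAt) (fun z _ => hFs t z)
    refine ⟨c, ?_, ?_, ?_⟩
    · rw [abs_of_pos (sub_pos.2 hc.1), abs_of_pos (sub_pos.2 h)]
      linarith [hc.2]
    · rw [abs_of_neg (sub_neg.2 hc.2), abs_of_pos (sub_pos.2 h)]
      linarith [hc.1]
    · rw [e]
      have : y - x ≠ 0 := (sub_pos.2 h).ne'
      field_simp
  · subst h
    exact ⟨x, by simp, by simp, by simp⟩
  · obtain ⟨c, hc, e⟩ := exists_hasDerivAt_eq_slope (fun y => F t y) (fun s => Fs t s) h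
      (fun z _ => (hFs t z).continuousAt.continuousWithinAt) (fun z _ => hFs t z)
    refine ⟨c, ?_, ?_, ?_⟩
    · rw [abs_of_neg (sub_neg.2 hc.2), abs_of_neg (sub_neg.2 h)]
      linarith [hc.1]
    · rw [abs_of_pos (sub_pos.2 hc.1), abs_of_neg (sub_neg.2 h)]
      linarith [hc.2]
    · rw [e]
      have : x - y ≠ 0 := (sub_pos.2 h).ne'
      field_simp
      ring

theorem implicit_real (F : ℝ → ℝ → ℝ) (Ft Fs : ℝ → ℝ → ℝ)
    (hFt : ∀ t s, HasDerivAt (fun x => F x s) (Ft t s) t)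
    (hFs : ∀ t s, HasDerivAt (fun y => F t y) (Fs t s) s)
    (hc1 : Continuous (fun p : ℝ × ℝ => Ft p.1 p.2)) (hc2 : Continuous (fun p : ℝ × ℝ => Fs p.1 p.2))
    (r : ℝ) (hr : 0 < r) (hpos : ∀ t s, |s - t| ≤ r → 1 / 2 ≤ Fs t s)
    (h0 : ∀ t, |F t t| < r / 2) :
    ∃ τ : ℝ → ℝ, (∀ t, F t (τ t) = 0) ∧ (∀ t, |τ t - t| ≤ 2 * |F t t|) ∧
      (∀ t, HasDerivAt τ (- Ft t (τ t) / Fs t (τ t)) t) ∧
      (∀ t s, |s - t| ≤ r → F t s = 0 → s = τ t) := by
  have mvt := implicit_real_mvt F Fs hFs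
  -- lower bound for the increments
  have slp : ∀ t s1 s2, |s1 - t| ≤ r → |s2 - t| ≤ r → |s2 - s1| / 2 ≤ |F t s2 - F t s1| := by
    intro t s1 s2 h1 h2
    obtain ⟨c, c1, c2, c3⟩ := mvt t s1 s2
    have hc : |c - t| ≤ r := by
      rcases le_total s1 s2 with h | h
      · rw [abs_of_nonneg (sub_nonneg.2 h)] at c1 c2
        rw [abs_le] at c1 c2 h1 h2 ⊢
        constructor <;> linarith [c1.1, c1.2, c2.1, c2.2, h1.1, h1.2, h2.1, h2.2]
      · rw [abs_of_nonpos (sub_nonpos.2 h)] at c1 c2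
        rw [abs_le] at c1 c2 h1 h2 ⊢
        constructor <;> linarith [c1.1, c1.2, c2.1, c2.2, h1.1, h1.2, h2.1, h2.2]
    have hp := hpos t c hc
    rw [c3, abs_mul, abs_of_pos (by linarith : (0 : ℝ) < Fs t c)]
    nlinarith [abs_nonneg (s2 - s1)]
  have slp' : ∀ t s1 s2, |s1 - t| ≤ r → |s2 - t| ≤ r → s1 ≤ s2 →
      (s2 - s1) / 2 ≤ F t s2 - F t s1 := by
    intro t s1 s2 h1 h2 h12
    obtain ⟨c, c1, c2, c3⟩ := mvt t s1 s2
    have hc : |c - t| ≤ r := by
      rw [abs_of_nonneg (sub_nonneg.2 h12)] at c1 c2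
      rw [abs_le] at c1 c2 h1 h2 ⊢
      constructor <;> linarith [c1.1, c1.2, c2.1, c2.2, h1.1, h1.2, h2.1, h2.2]
    have hp := hpos t c hc
    rw [c3]
    nlinarith [sub_nonneg.2 h12]
  have hex : ∀ t, ∃ s, |s - t| ≤ r ∧ F t s = 0 := by
    intro t
    have hcont : ContinuousOn (fun y => F t y) (Set.Icc (t - r) (t + r)) :=
      fun z _ => (hFs t z).continuousAt.continuousWithinAt
    have hivt := intermediate_value_Icc (by linarith : t - r ≤ t + r) hcont
    have h1 := slp' t (t - r) t (by rw [abs_le]; constructor <;> linarith)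
      (by simp [hr.le]) (by linarith)
    have h2 := slp' t t (t + r) (by simp [hr.le]) (by rw [abs_le]; constructor <;> linarith)
      (by linarith)
    have h3 := abs_lt.1 (h0 t)
    have hmem : (0 : ℝ) ∈ Set.Icc (F t (t - r)) (F t (t + r)) := by
      constructor <;> linarith [h3.1, h3.2]
    obtain ⟨s, hs, hs0⟩ := hivt hmem
    exact ⟨s, by rw [abs_le]; constructor <;> linarith [hs.1, hs.2], hs0⟩
  choose τ hτ1 hτ2 using hex
  have hself : ∀ t : ℝ, |t - t| ≤ r := fun t => by simp [hr.le]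
  have hb : ∀ t, |τ t - t| ≤ 2 * |F t t| := by
    intro t
    have h := slp t t (τ t) (hself t) (hτ1 t)
    rw [hτ2 t, zero_sub, abs_neg] at h
    linarith
  have hlt : ∀ t, |τ t - t| < r := fun t => by
    have := hb t
    have := h0 t
    linarith
  have huniq : ∀ t s, |s - t| ≤ r → F t s = 0 → s = τ t := by
    intro t s hs hs0
    have h := slp t (τ t) s (hτ1 t) hs
    rw [hτ2 t, hs0, sub_zero, abs_zero] at h
    have h2 : |s - τ t| = 0 := le_antisymm (by linarith) (abs_nonneg _)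
    linarith [abs_eq_zero.1 h2]
  refine ⟨τ, hτ2, hb, ?_, huniq⟩
  intro t
  set s0 := τ t with hs0
  have hbpos : 1 / 2 ≤ Fs t s0 := hpos t s0 (hτ1 t)
  -- continuity of τ at t
  have hFc : Filter.Tendsto (fun x => F x s0) (nhds t) (nhds 0) := by
    have h := (hFt t s0).continuousAt.tendsto
    rwa [hτ2 t] at h
  have hτc : Filter.Tendsto (fun x => |τ x - s0|) (nhds t) (nhds 0) := by
    have h1 : Filter.Tendsto (fun x => 2 * |F x s0|) (nhds t) (nhds 0) := by
      have := (hFc.abs).const_mul 2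
      simpa using this
    refine tendsto_of_tendsto_of_tendsto_of_le_of_le' tendsto_const_nhds h1
      (Filter.Eventually.of_forall fun x => abs_nonneg _) ?_
    have h2 : ∀ᶠ x in nhds t, |s0 - x| < r := by
      have h3 : Filter.Tendsto (fun x => |s0 - x|) (nhds t) (nhds |s0 - t|) :=
        (Continuous.tendsto (by fun_prop) t)
      exact h3.eventually (gt_mem_nhds (hlt t))
    filter_upwards [h2] with x hx
    have h3 := slp x s0 (τ x) hx.le (hτ1 x)
    rw [hτ2 x, zero_sub, abs_neg] at h3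
    linarith
  have hη : ∀ x, ∃ c, |c - s0| ≤ |τ x - s0| ∧ - F x s0 = Fs x c * (τ x - s0) := by
    intro x
    obtain ⟨c, c1, _, c3⟩ := mvt x s0 (τ x)
    rw [hτ2 x, zero_sub] at c3
    exact ⟨c, c1, c3⟩
  choose η hη1 hη2 using hη
  have hηt : Filter.Tendsto η (nhds t) (nhds s0) := by
    rw [tendsto_iff_norm_sub_tendsto_zero]
    exact tendsto_of_tendsto_of_tendsto_of_le_of_le tendsto_const_nhds hτc
      (fun x => norm_nonneg _) (fun x => hη1 x)
  have hFsη : Filter.Tendsto (fun x => Fs x (η x)) (nhds t) (nhds (Fs t s0)) := by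
    have h1 : Filter.Tendsto (fun x => (x, η x)) (nhds t) (nhds (t, s0)) :=
      Filter.Tendsto.prodMk_nhds Filter.tendsto_id hηt
    exact (hc2.tendsto (t, s0)).comp h1
  rw [hasDerivAt_iff_tendsto_slope]
  have hsl := hasDerivAt_iff_tendsto_slope.1 (hFt t s0)
  have hbne : Fs t s0 ≠ 0 := by
    intro h
    rw [h] at hbpos
    norm_num at hbpos
  have hlim : Filter.Tendsto (fun x => - slope (fun x => F x s0) t x / Fs x (η x))
      (nhdsWithin t {t}ᶜ) (nhds (- Ft t s0 / Fs t s0)) :=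
    hsl.neg.div (hFsη.mono_left nhdsWithin_le_nhds) hbne
  refine hlim.congr' ?_
  have hev : ∀ᶠ x in nhdsWithin t {t}ᶜ, Fs x (η x) ≠ 0 :=
    (hFsη.mono_left nhdsWithin_le_nhds).eventually_ne hbne
  filter_upwards [hev, self_mem_nhdsWithin] with x hx hxt
  have hxt' : x - t ≠ 0 := sub_ne_zero.2 hxt
  rw [slope_def_field, slope_def_field, hτ2 t, sub_zero]
  have h5 := hη2 x
  have h6 : F x s0 = -(Fs x (η x) * (τ x - s0)) := by linarith
  rw [h6]
  field_simp
  rfl

end Pool.H110K
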