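import Pool.Agent.H110K.Defs
import Pool.Agent.H110K.P_dir_close
import Pool.Agent.H110K.P_implicit_real

set_option autoImplicit false

open Complex Set Filter Topology MeasureTheory
open scoped Real ContDiff

namespace Pool.H110K



theorem rp_vel {φ : ℂ → ℝ} {B : ℝ} (hG : Good φ B) {w u : ℝ → ℂ} (hw : IsGeo φ w u) (t : ℝ) :
    ‖u t‖ ≤ Real.exp B * (w t).im ∧ (w t).im ≤ Real.exp B * ‖u t‖ := by
  have him : 0 < (w t).im := hw.mem t
  have h1 : ‖u t‖ = Real.exp (-φ (w t)) := by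
    have h := hw.unit t
    rw [Real.exp_neg]
    exact eq_inv_of_mul_eq_one_right h
  have h2 := abs_le.1 (hG.g0 (w t) him)
  constructor
  · rw [h1]
    calc Real.exp (-φ (w t)) ≤ Real.exp (B + Real.log (w t).im) :=
          Real.exp_le_exp.2 (by linarith [h2.1])
      _ = _ := by rw [Real.exp_add, Real.exp_log him]
  · rw [h1, ← Real.exp_add]
    calc (w t).im = Real.exp (Real.log (w t).im) := (Real.exp_log him).symm
      _ ≤ _ := Real.exp_le_exp.2 (by linarith [h2.2])

/-- connection coefficient along the curve -/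
noncomputable def Aof (φ : ℂ → ℝ) (z v : ℝ → ℂ) (t : ℝ) : ℂ :=
  (((fderiv ℝ φ (z t) (v t) : ℝ) : ℂ) - I * ((fderiv ℝ φ (z t) (I * v t) : ℝ) : ℂ))

theorem rp_A {φ : ℂ → ℝ} {B : ℝ} (hG : Good φ B) {w u : ℝ → ℂ} (hw : IsGeo φ w u) (t : ℝ) :
    ‖Aof φ w u t‖ ≤ 2 * B * Real.exp B := by
  have him : 0 < (w t).im := hw.mem t
  have h1 : ‖((fderiv ℝ φ (w t) (u t) : ℝ) : ℂ)‖ ≤ ‖fderiv ℝ φ (w t)‖ * ‖u t‖ := by
    rw [Complex.norm_real]
    exact (fderiv ℝ φ (w t)).le_opNorm _
  have h2 : ‖I * ((fderiv ℝ φ (w t) (I * u t) : ℝ) : ℂ)‖ ≤ ‖fderiv ℝ φ (w t)‖ * ‖u t‖ := by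
    rw [norm_mul, Complex.norm_I, one_mul, Complex.norm_real]
    refine le_trans ((fderiv ℝ φ (w t)).le_opNorm _) ?_
    rw [norm_mul, Complex.norm_I, one_mul]
  have h3 := (rp_vel hG hw t).1
  have h4 := hG.g1 (w t) him
  have h5 : ‖fderiv ℝ φ (w t)‖ * ‖u t‖ ≤ B * Real.exp B := by
    calc ‖fderiv ℝ φ (w t)‖ * ‖u t‖ ≤ ‖fderiv ℝ φ (w t)‖ * (Real.exp B * (w t).im) :=
          mul_le_mul_of_nonneg_left h3 (norm_nonneg _)
      _ = (‖fderiv ℝ φ (w t)‖ * (w t).im) * Real.exp B := by ring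
      _ ≤ _ := mul_le_mul_of_nonneg_right h4 (Real.exp_pos _).le
  calc ‖Aof φ w u t‖ ≤ _ := norm_sub_le _ _
    _ ≤ B * Real.exp B + B * Real.exp B := add_le_add (h1.trans h5) (h2.trans h5)
    _ = _ := by ring

theorem rp_acc {φ : ℂ → ℝ} {B : ℝ} (hG : Good φ B) {w u : ℝ → ℂ} (hw : IsGeo φ w u) (t : ℝ) :
    ‖-(Aof φ w u t) * u t‖ ≤ 2 * B * Real.exp B ^ 2 * (w t).im := by
  rw [norm_mul, norm_neg]
  have hB := hG.one_le
  calc ‖Aof φ w u t‖ * ‖u t‖ ≤ (2 * B * Real.exp B) * (Real.exp B * (w t).im) :=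
        mul_le_mul (rp_A hG hw t) (rp_vel hG hw t).1 (norm_nonneg _) (by positivity)
    _ = _ := by ring

theorem rp_im {φ : ℂ → ℝ} {B : ℝ} (hG : Good φ B) {w u : ℝ → ℂ} (hw : IsGeo φ w u) (s t : ℝ)
    (hst : Real.exp B * |s - t| ≤ 1) : (w s).im ≤ 3 * (w t).im := by
  have him : ∀ x, 0 < (w x).im := hw.mem
  have hd : ∀ x, HasDerivAt (fun x => Real.log (w x).im) ((u x).im / (w x).im) x := by
    intro x
    have h1 : HasDerivAt (fun x => (w x).im) ((u x).im) x := by
      exact Complex.imCLM.hasFDerivAt.comp_hasDerivAt x (hw.dz x)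
    exact h1.log (him x).ne'
  have hb : ∀ x, ‖(u x).im / (w x).im‖ ≤ Real.exp B := by
    intro x
    rw [norm_div, Real.norm_eq_abs, Real.norm_eq_abs, abs_of_pos (him x), div_le_iff₀ (him x)]
    exact (Complex.abs_im_le_norm _).trans (rp_vel hG hw x).1
  have h := Convex.norm_image_sub_le_of_norm_hasDerivWithin_le
    (f := fun x => Real.log (w x).im) (f' := fun x => (u x).im / (w x).im) (s := Set.univ)
    (C := Real.exp B) (x := t) (y := s) (fun x _ => (hd x).hasDerivWithinAt) (fun x _ => hb x)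
    convex_univ trivial trivial
  simp only [Real.norm_eq_abs] at h
  have h2 : Real.log (w s).im ≤ Real.log (w t).im + 1 := by
    have := (abs_le.1 (h.trans hst)).2
    linarith
  have h3 : (w s).im ≤ Real.exp 1 * (w t).im := by
    calc (w s).im = Real.exp (Real.log (w s).im) := (Real.exp_log (him s)).symm
      _ ≤ Real.exp (Real.log (w t).im + 1) := Real.exp_le_exp.2 h2
      _ = _ := by rw [Real.exp_add, Real.exp_log (him t), mul_comm]
  have h4 := Real.exp_one_lt_d9
  nlinarith [him t]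

theorem rp_lip {φ : ℂ → ℝ} {B : ℝ} (hG : Good φ B) {w u : ℝ → ℂ} (hw : IsGeo φ w u) (s t : ℝ)
    (hst : Real.exp B * |s - t| ≤ 1) :
    ‖w s - w t‖ ≤ 3 * Real.exp B * (w t).im * |s - t| ∧
    ‖u s - u t‖ ≤ 6 * B * Real.exp B ^ 2 * (w t).im * |s - t| := by
  have hB := hG.one_le
  have hx : ∀ x ∈ Metric.closedBall t |s - t|, (w x).im ≤ 3 * (w t).im := by
    intro x hx
    apply rp_im hG hw
    have h1 : |x - t| ≤ |s - t| := by
      have := Metric.mem_closedBall.1 hx
      rwa [Real.dist_eq] at this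
    exact le_trans (mul_le_mul_of_nonneg_left h1 (Real.exp_pos _).le) hst
  have ht : t ∈ Metric.closedBall t |s - t| := Metric.mem_closedBall_self (abs_nonneg _)
  have hs : s ∈ Metric.closedBall t |s - t| := by
    rw [Metric.mem_closedBall, Real.dist_eq]
  constructor
  · have h := Convex.norm_image_sub_le_of_norm_hasDerivWithin_le
      (f := w) (f' := u) (s := Metric.closedBall t |s - t|)
      (C := 3 * Real.exp B * (w t).im) (x := t) (y := s)
      (fun x _ => (hw.dz x).hasDerivWithinAt) (fun x hx' => by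
        have h1 := (rp_vel hG hw x).1
        have h2 := hx x hx'
        calc ‖u x‖ ≤ Real.exp B * (w x).im := h1
          _ ≤ Real.exp B * (3 * (w t).im) := mul_le_mul_of_nonneg_left h2 (Real.exp_pos _).le
          _ = _ := by ring)
      (convex_closedBall _ _) ht hs
    simpa [Real.norm_eq_abs] using h
  · have h := Convex.norm_image_sub_le_of_norm_hasDerivWithin_le
      (f := u) (f' := fun x => -(Aof φ w u x) * u x) (s := Metric.closedBall t |s - t|)
      (C := 6 * B * Real.exp B ^ 2 * (w t).im) (x := t) (y := s)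
      (fun x _ => (hw.dv x).hasDerivWithinAt) (fun x hx' => by
        have h1 := rp_acc hG hw x
        have h2 := hx x hx'
        calc ‖-(Aof φ w u x) * u x‖ ≤ 2 * B * Real.exp B ^ 2 * (w x).im := h1
          _ ≤ 2 * B * Real.exp B ^ 2 * (3 * (w t).im) :=
            mul_le_mul_of_nonneg_left h2 (by positivity)
          _ = _ := by ring)
      (convex_closedBall _ _) ht hs
    simpa [Real.norm_eq_abs] using h

theorem rp_Acont {φ : ℂ → ℝ} {B : ℝ} (hG : Good φ B) {w u : ℝ → ℂ} (hw : IsGeo φ w u) :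
    Continuous (Aof φ w u) := by
  have hzc : Continuous w := continuous_iff_continuousAt.2 fun t => (hw.dz t).continuousAt
  have hvc : Continuous u := continuous_iff_continuousAt.2 fun t => (hw.dv t).continuousAt
  have hUH : IsOpen UH := isOpen_lt continuous_const Complex.continuous_im
  have hf : ContinuousOn (fderiv ℝ φ) UH :=
    hG.smooth.continuousOn_fderiv_of_isOpen hUH (by simp)
  have hfc : Continuous (fun t => fderiv ℝ φ (w t)) :=
    hf.comp_continuous hzc hw.mem
  unfold Aof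
  exact (Complex.continuous_ofReal.comp (hfc.clm_apply hvc)).sub
    (continuous_const.mul (Complex.continuous_ofReal.comp
      (hfc.clm_apply (continuous_const.mul hvc))))

theorem reparam (B : ℝ) : ∃ C : ℝ, 1 ≤ C ∧ ∃ e1 : ℝ, 0 < e1 ∧ ∀ φ : ℂ → ℝ, Good φ B →
    ∀ z v w u : ℝ → ℂ, IsGeo φ z v → IsGeo φ w u → ∀ ε : ℝ, 0 < ε → ε ≤ e1 →
      (∀ t, ‖w t - z t‖ ≤ ε * (z t).im) →
      ∃ τ η τ' η' : ℝ → ℝ, (∀ t, HasDerivAt τ (τ' t) t) ∧ (∀ t, HasDerivAt η (η' t) t) ∧
        Continuous τ' ∧ Continuous η' ∧ (∀ t, w (τ t) = z t + I * (η t : ℂ) * v t) ∧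
        (∀ t, |τ t - t| ≤ C * ε) ∧ (∀ t, |η t| ≤ C * ε) ∧ (∀ t, 0 < τ' t) ∧
        (∀ t, ‖u (τ t) - v t‖ ≤ C * Real.sqrt ε * (z t).im) ∧
        (∀ t s y : ℝ, |s - t| ≤ C * ε → w s = z t + I * (y : ℂ) * v t → s = τ t ∧ y = η t) := by
  obtain ⟨C0, hC0, e0, he0, hdir⟩ := dir_close B
  by_cases hB : 1 ≤ B
  swap
  · refine ⟨1, le_rfl, 1, one_pos, ?_⟩
    intro φ hG
    exact absurd hG.one_le hB
  obtain ⟨E, hE⟩ : ∃ E, E = Real.exp B := ⟨_, rfl⟩
  have hE1 : 1 ≤ E := by rw [hE]; exact Real.one_le_exp (by linarith)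
  have hE0 : 0 < E := by linarith
  obtain ⟨r, hr⟩ : ∃ r : ℝ, r = 1 / (100 * B * E ^ 3) := ⟨_, rfl⟩
  have hE3 : E ≤ E ^ 3 := by
    calc E = E * 1 := by ring
      _ ≤ E * E ^ 2 := mul_le_mul_of_nonneg_left (one_le_pow₀ hE1) hE0.le
      _ = _ := by ring
  have hr0 : 0 < r := by rw [hr]; positivity
  have hrE : r * (100 * B * E ^ 3) = 1 := by
    rw [hr]; field_simp
  have hEr : E * r ≤ 1 := by
    have h1 : E * r ≤ (100 * B * E ^ 3) * r := by
      apply mul_le_mul_of_nonneg_right _ hr0.le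
      nlinarith [mul_le_mul hB hE3 hE0.le (by linarith : (0:ℝ) ≤ B)]
    linarith
  obtain ⟨C, hC⟩ : ∃ C : ℝ, C = 24 * B * E ^ 3 + C0 + 13 * E ^ 3 + 2 * E + 1 := ⟨_, rfl⟩
  have hC0' : 0 < C0 := by linarith
  have hBE : 0 < B * E ^ 3 := by positivity
  have hCp : 0 < C := by rw [hC]; positivity
  obtain ⟨e1, he1⟩ : ∃ e1 : ℝ, e1 = min (min (min 1 e0) (min ((1 / (4 * E * C0)) ^ 2)
    (r / (4 * E)))) (min (1 / (52 * B * E ^ 4)) (r / C)) := ⟨_, rfl⟩
  refine ⟨C, by rw [hC]; nlinarith [hBE, pow_pos hE0 3], e1, ?_, ?_⟩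
  · rw [he1]
    have : 0 < B := by linarith
    refine lt_min (lt_min (lt_min one_pos he0) (lt_min (by positivity) (by positivity)))
      (lt_min (by positivity) (by positivity))
  intro φ hG z v w u hz hw ε hε hεe hclose
  rw [he1] at hεe
  simp only [le_min_iff] at hεe
  obtain ⟨⟨⟨l1, l2⟩, l3, l4⟩, l5, l6⟩ := hεe
  have hB0 : 0 < B := by linarith
  have m3 : E * (C0 * Real.sqrt ε) ≤ 1 / 4 := by
    have h1 : Real.sqrt ε ≤ 1 / (4 * E * C0) := by
      rw [Real.sqrt_le_left (by positivity)]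
      exact l3
    calc E * (C0 * Real.sqrt ε) ≤ E * (C0 * (1 / (4 * E * C0))) := by gcongr
      _ = 1 / 4 := by field_simp
  have m4 : 4 * E * ε ≤ r := by
    rw [le_div_iff₀ (by positivity)] at l4
    linarith
  have m5 : 52 * B * E ^ 4 * ε ≤ 1 := by
    rw [le_div_iff₀ (by positivity)] at l5
    linarith
  have m6 : C * ε ≤ r := by
    rw [le_div_iff₀ hCp] at l6
    linarith
  have hzim : ∀ t, 0 < (z t).im := hz.mem
  have hwim : ∀ t, 0 < (w t).im := hw.mem
  have hvne : ∀ t, v t ≠ 0 := by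
    intro t h0
    have := hz.unit t
    rw [h0] at this
    simp at this
  have hzc : Continuous z := continuous_iff_continuousAt.2 fun t => (hz.dz t).continuousAt
  have hvc : Continuous v := continuous_iff_continuousAt.2 fun t => (hz.dv t).continuousAt
  have hwc : Continuous w := continuous_iff_continuousAt.2 fun t => (hw.dz t).continuousAt
  have huc : Continuous u := continuous_iff_continuousAt.2 fun t => (hw.dv t).continuousAt
  have hAc : Continuous (Aof φ z v) := rp_Acont hG hz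
  have hvlow : ∀ t, (z t).im ≤ E * ‖v t‖ := fun t => by rw [hE]; exact (rp_vel hG hz t).2
  have hvpos : ∀ t, 0 < ‖v t‖ := fun t => norm_pos_iff.2 (hvne t)
  -- division by v
  have hdiv : ∀ t (x : ℂ) (k : ℝ), ‖x‖ ≤ k * (z t).im → 0 ≤ k → ‖x / v t‖ ≤ E * k := by
    intro t x k hx hk
    rw [norm_div, div_le_iff₀ (hvpos t)]
    calc ‖x‖ ≤ k * (z t).im := hx
      _ ≤ k * (E * ‖v t‖) := mul_le_mul_of_nonneg_left (hvlow t) hk
      _ = _ := by ring
  -- im w t ≤ 2 im z t
  have hwz : ∀ t, (w t).im ≤ 2 * (z t).im := by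
    intro t
    have h1 : (w t).im - (z t).im ≤ ‖w t - z t‖ := by
      rw [← Complex.sub_im]
      exact (le_abs_self _).trans (Complex.abs_im_le_norm _)
    have h2 := hclose t
    nlinarith [hzim t]
  have hws : ∀ t s, |s - t| ≤ r → ‖w s - w t‖ ≤ 6 * E * |s - t| * (z t).im := by
    intro t s hs
    have h1 := (rp_lip hG hw s t (by
      rw [← hE]
      exact (mul_le_mul_of_nonneg_left hs hE0.le).trans hEr)).1
    rw [← hE] at h1
    calc ‖w s - w t‖ ≤ 3 * E * (w t).im * |s - t| := h1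
      _ ≤ 3 * E * (2 * (z t).im) * |s - t| := by
        have := hwz t
        gcongr
      _ = _ := by ring
  have hus : ∀ t s, |s - t| ≤ r → ‖u s - u t‖ ≤ 12 * B * E ^ 2 * |s - t| * (z t).im := by
    intro t s hs
    have h1 := (rp_lip hG hw s t (by
      rw [← hE]
      exact (mul_le_mul_of_nonneg_left hs hE0.le).trans hEr)).2
    rw [← hE] at h1
    calc ‖u s - u t‖ ≤ 6 * B * E ^ 2 * (w t).im * |s - t| := h1
      _ ≤ 6 * B * E ^ 2 * (2 * (z t).im) * |s - t| := by
        have := hwz t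
        gcongr
      _ = _ := by ring
  have hdc : ∀ t, ‖u t - v t‖ ≤ C0 * Real.sqrt ε * (z t).im := hdir φ hG z v w u hz hw ε hε l2 hclose
  let F : ℝ → ℝ → ℝ := fun t s => ((w s - z t) / v t).re
  let Ft : ℝ → ℝ → ℝ := fun t s => (-1 + (w s - z t) * Aof φ z v t / v t).re
  let Fs : ℝ → ℝ → ℝ := fun t s => (u s / v t).re
  have hFt : ∀ t s, HasDerivAt (fun x => F x s) (Ft t s) t := by
    intro t s
    have h1 : HasDerivAt (fun x => (w s - z x) / v x)
        ((-(v t) * v t - (w s - z t) * (-(Aof φ z v t) * v t)) / (v t) ^ 2) t :=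
      HasDerivAt.fun_div ((hz.dz t).const_sub (w s)) (hz.dv t) (hvne t)
    have h2 := Complex.reCLM.hasFDerivAt.comp_hasDerivAt t h1
    refine h2.congr_deriv ?_
    show ((-(v t) * v t - (w s - z t) * (-(Aof φ z v t) * v t)) / (v t) ^ 2).re = _
    congr 1
    have := hvne t
    field_simp
    ring
  have hFs : ∀ t s, HasDerivAt (fun y => F t y) (Fs t s) s := by
    intro t s
    have h1 : HasDerivAt (fun y => (w y - z t) / v t) (u s / v t) s :=
      ((hw.dz s).sub_const (z t)).div_const (v t)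
    exact Complex.reCLM.hasFDerivAt.comp_hasDerivAt s h1
  have hc1 : Continuous (fun p : ℝ × ℝ => Ft p.1 p.2) := by
    refine Complex.continuous_re.comp (continuous_const.add (Continuous.div ?_ ?_ ?_))
    · exact ((hwc.comp continuous_snd).sub (hzc.comp continuous_fst)).mul
        (hAc.comp continuous_fst)
    · exact hvc.comp continuous_fst
    · exact fun p => hvne p.1
  have hc2 : Continuous (fun p : ℝ × ℝ => Fs p.1 p.2) := by
    refine Complex.continuous_re.comp (Continuous.div ?_ ?_ ?_)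
    · exact huc.comp continuous_snd
    · exact hvc.comp continuous_fst
    · exact fun p => hvne p.1
  have hpos : ∀ t s, |s - t| ≤ r → 1 / 2 ≤ Fs t s := by
    intro t s hs
    have h1 : u s / v t = 1 + ((u s - u t) / v t + (u t - v t) / v t) := by
      have := hvne t
      field_simp
      ring
    have h2 : ‖(u s - u t) / v t‖ ≤ 1 / 4 := by
      have h := hdiv t (u s - u t) (12 * B * E ^ 2 * |s - t|) (hus t s hs) (by positivity)
      refine h.trans ?_
      have h3 : E * (12 * B * E ^ 2 * |s - t|) ≤ E * (12 * B * E ^ 2 * r) := by gcongr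
      have h4 : E * (12 * B * E ^ 2 * r) = 12 / 100 * (r * (100 * B * E ^ 3)) := by ring
      rw [h4, hrE] at h3
      linarith
    have h3 : ‖(u t - v t) / v t‖ ≤ 1 / 4 :=
      (hdiv t (u t - v t) (C0 * Real.sqrt ε) (hdc t) (by positivity)).trans m3
    have h4 : -(1/2 : ℝ) ≤ ((u s - u t) / v t + (u t - v t) / v t).re := by
      have h5 := Complex.abs_re_le_norm ((u s - u t) / v t + (u t - v t) / v t)
      have h6 := norm_add_le ((u s - u t) / v t) ((u t - v t) / v t)
      have h7 := (abs_le.1 (h5.trans h6)).1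
      linarith
    show 1 / 2 ≤ (u s / v t).re
    rw [h1, Complex.add_re, Complex.one_re]
    linarith
  have hF0 : ∀ t, |F t t| ≤ E * ε := by
    intro t
    exact (Complex.abs_re_le_norm _).trans (hdiv t (w t - z t) ε (hclose t) hε.le)
  have h0 : ∀ t, |F t t| < r / 2 := by
    intro t
    have := hF0 t
    nlinarith [mul_pos hE0 hε]
  obtain ⟨τ, hτ1, hτ2, hτ3, hτ4⟩ := implicit_real F Ft Fs hFt hFs hc1 hc2 r hr0 hpos h0
  have hτc : ∀ t, |τ t - t| ≤ 2 * E * ε := by
    intro t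
    have h1 := hτ2 t
    have h2 := hF0 t
    linarith
  have hτr : ∀ t, |τ t - t| ≤ r := by
    intro t
    have h1 := hτc t
    nlinarith [mul_pos hE0 hε]
  have hτcont : Continuous τ := continuous_iff_continuousAt.2 fun t => (hτ3 t).continuousAt
  have hFsp : ∀ t, 0 < Fs t (τ t) := fun t => by
    have := hpos t (τ t) (hτr t)
    linarith
  have hτ'c : Continuous (fun t => - Ft t (τ t) / Fs t (τ t)) := by
    refine Continuous.div ?_ ?_ ?_
    · exact (hc1.comp (continuous_id.prodMk hτcont)).neg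
    · exact hc2.comp (continuous_id.prodMk hτcont)
    · exact fun t => (hFsp t).ne'
  have hwτ : ∀ t, ‖w (τ t) - z t‖ ≤ 13 * E ^ 2 * ε * (z t).im := by
    intro t
    have h1 := hws t (τ t) (hτr t)
    have h2 := hclose t
    have h3 : ‖w (τ t) - z t‖ ≤ ‖w (τ t) - w t‖ + ‖w t - z t‖ := by
      have : w (τ t) - z t = (w (τ t) - w t) + (w t - z t) := by ring
      rw [this]
      exact norm_add_le _ _
    have h4 : 6 * E * |τ t - t| * (z t).im ≤ 6 * E * (2 * E * ε) * (z t).im := by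
      have := hτc t
      have := hzim t
      gcongr
    have h5 : ε * (z t).im ≤ E ^ 2 * ε * (z t).im := by
      have : (1:ℝ) ≤ E ^ 2 := one_le_pow₀ hE1
      have h6 : 0 ≤ ε * (z t).im := (mul_pos hε (hzim t)).le
      nlinarith
    nlinarith
  have hdivw : ∀ t, ‖(w (τ t) - z t) / v t‖ ≤ 13 * E ^ 3 * ε := by
    intro t
    have h := hdiv t (w (τ t) - z t) (13 * E ^ 2 * ε) (hwτ t) (by positivity)
    refine h.trans (le_of_eq ?_)
    ring
  have hτpos : ∀ t, 0 < - Ft t (τ t) / Fs t (τ t) := by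
    intro t
    apply div_pos _ (hFsp t)
    have h1 : ‖(w (τ t) - z t) * Aof φ z v t / v t‖ ≤ 1 / 2 := by
      have h2 : (w (τ t) - z t) * Aof φ z v t / v t = (w (τ t) - z t) / v t * Aof φ z v t := by
        ring
      rw [h2, norm_mul]
      have h3 := rp_A hG hz t
      rw [← hE] at h3
      calc ‖(w (τ t) - z t) / v t‖ * ‖Aof φ z v t‖ ≤ (13 * E ^ 3 * ε) * (2 * B * E) :=
            mul_le_mul (hdivw t) h3 (norm_nonneg _) (by positivity)
        _ = (52 * B * E ^ 4 * ε) / 2 := by ring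
        _ ≤ 1 / 2 := by linarith
    have h4 := (abs_le.1 ((Complex.abs_re_le_norm _).trans h1)).2
    show 0 < -(-1 + (w (τ t) - z t) * Aof φ z v t / v t).re
    rw [Complex.add_re, Complex.neg_re, Complex.one_re]
    linarith
  have hηd : ∀ t, HasDerivAt (fun t => ((w (τ t) - z t) / v t).im)
      ((((u (τ t) * ((- Ft t (τ t) / Fs t (τ t) : ℝ) : ℂ) - v t) * v t -
        (w (τ t) - z t) * (-(Aof φ z v t) * v t)) / (v t) ^ 2).im) t := by
    intro t
    have h0 : HasDerivAt (fun t => w (τ t)) (u (τ t) * ((- Ft t (τ t) / Fs t (τ t) : ℝ) : ℂ)) t := by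
      have := HasDerivAt.scomp t (hw.dz (τ t)) (hτ3 t)
      refine this.congr_deriv ?_
      rw [Complex.real_smul, mul_comm]
    have h1 : HasDerivAt (fun t => (w (τ t) - z t) / v t)
        (((u (τ t) * ((- Ft t (τ t) / Fs t (τ t) : ℝ) : ℂ) - v t) * v t -
        (w (τ t) - z t) * (-(Aof φ z v t) * v t)) / (v t) ^ 2) t :=
      HasDerivAt.fun_div (h0.sub (hz.dz t)) (hz.dv t) (hvne t)
    exact Complex.imCLM.hasFDerivAt.comp_hasDerivAt t h1
  have heq : ∀ t, w (τ t) = z t + I * ((((w (τ t) - z t) / v t).im : ℝ) : ℂ) * v t := by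
    intro t
    have h1 : (w (τ t) - z t) / v t = I * ((((w (τ t) - z t) / v t).im : ℝ) : ℂ) := by
      apply Complex.ext
      · rw [show ((w (τ t) - z t) / v t).re = 0 from hτ1 t]
        simp
      · simp
    rw [← h1]
    have := hvne t
    field_simp
    ring
  refine ⟨τ, fun t => ((w (τ t) - z t) / v t).im, fun t => - Ft t (τ t) / Fs t (τ t),
    fun t => (((u (τ t) * ((- Ft t (τ t) / Fs t (τ t) : ℝ) : ℂ) - v t) * v t -
        (w (τ t) - z t) * (-(Aof φ z v t) * v t)) / (v t) ^ 2).im, hτ3, hηd, hτ'c, ?_, heq,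
        ?_, ?_, hτpos, ?_, ?_⟩
  · refine Complex.continuous_im.comp (Continuous.div ?_ (hvc.pow 2) ?_)
    · refine Continuous.sub (Continuous.mul (Continuous.sub ((huc.comp hτcont).mul
        (Complex.continuous_ofReal.comp hτ'c)) hvc) hvc) ?_
      exact ((hwc.comp hτcont).sub hzc).mul (hAc.neg.mul hvc)
    · exact fun t => pow_ne_zero _ (hvne t)
  · intro t
    refine (hτc t).trans ?_
    rw [hC]
    have : 0 ≤ (24 * B * E ^ 3 + C0 + 13 * E ^ 3 + 1) * ε := by positivity
    nlinarith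
  · intro t
    refine (Complex.abs_im_le_norm _).trans ((hdivw t).trans ?_)
    rw [hC]
    have : 0 ≤ (24 * B * E ^ 3 + C0 + 2 * E + 1) * ε := by positivity
    nlinarith
  · intro t
    have h1 := hus t (τ t) (hτr t)
    have h2 := hdc t
    have h3 : ‖u (τ t) - v t‖ ≤ ‖u (τ t) - u t‖ + ‖u t - v t‖ := by
      have : u (τ t) - v t = (u (τ t) - u t) + (u t - v t) := by ring
      rw [this]
      exact norm_add_le _ _
    have h4 : ε ≤ Real.sqrt ε := by
      have h5 : Real.sqrt ε ≤ 1 := Real.sqrt_le_iff.2 ⟨by norm_num, by simpa using l1⟩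
      have h6 : Real.sqrt ε * Real.sqrt ε = ε := Real.mul_self_sqrt hε.le
      nlinarith [Real.sqrt_nonneg ε]
    have h7 : 12 * B * E ^ 2 * |τ t - t| * (z t).im ≤
        24 * B * E ^ 3 * Real.sqrt ε * (z t).im := by
      have h8 := (hτc t).trans (mul_le_mul_of_nonneg_left h4 (by positivity : 0 ≤ 2 * E))
      calc 12 * B * E ^ 2 * |τ t - t| * (z t).im ≤
          12 * B * E ^ 2 * (2 * E * Real.sqrt ε) * (z t).im := by
            have := hzim t
            gcongr
        _ = _ := by ring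
    have h9 : 0 ≤ (13 * E ^ 3 + 2 * E + 1) * Real.sqrt ε * (z t).im := by
      have := hzim t
      positivity
    calc ‖u (τ t) - v t‖ ≤ 24 * B * E ^ 3 * Real.sqrt ε * (z t).im + C0 * Real.sqrt ε * (z t).im := by
          linarith
      _ ≤ 24 * B * E ^ 3 * Real.sqrt ε * (z t).im + C0 * Real.sqrt ε * (z t).im +
          (13 * E ^ 3 + 2 * E + 1) * Real.sqrt ε * (z t).im := by linarith
      _ = _ := by rw [hC]; ring
  · intro t s y hs hwy
    have h1 : (w s - z t) / v t = I * (y : ℂ) := by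
      rw [hwy]
      have := hvne t
      field_simp
      ring
    have h2 : F t s = 0 := by
      show ((w s - z t) / v t).re = 0
      rw [h1]
      simp
    have h3 := hτ4 t s (hs.trans m6) h2
    refine ⟨h3, ?_⟩
    show y = ((w (τ t) - z t) / v t).im
    rw [← h3, h1]
    simp

end Pool.H110K
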