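import Pool.Agent.H110K.Defs
import Pool.Agent.H110K.P_geo_unique
import Pool.Agent.H110K.P_reparam
import Pool.Agent.H110K.P_qf_near
import Pool.Agent.H110K.P_dichotomy
import Pool.Agent.H110K.P_area

set_option autoImplicit false

open Complex Set Filter Topology MeasureTheory
open scoped Real ContDiff

namespace Pool.H110K



theorem stepB_v (φ : ℂ → ℝ) (B : ℝ) (hφ : Good φ B) (z v : ℝ → ℂ) (hz : IsGeo φ z v) (t : ℝ) :
    ‖v t‖ ≤ Real.exp B * (z t).im := by
  have hpos : 0 < (z t).im := hz.mem t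
  have h1 := hz.unit t
  have h2 : ‖v t‖ = Real.exp (-φ (z t)) := by
    have h3 : Real.exp (φ (z t)) ≠ 0 := (Real.exp_pos _).ne'
    have h4 : ‖v t‖ = Real.exp (-φ (z t)) * (Real.exp (φ (z t)) * ‖v t‖) := by
      rw [← mul_assoc, ← Real.exp_add, neg_add_cancel, Real.exp_zero, one_mul]
    rw [h4, h1, mul_one]
  rw [h2]
  have h5 := (abs_le.1 (hφ.g0 (z t) (hz.mem t))).1
  calc Real.exp (-φ (z t)) ≤ Real.exp (B + Real.log (z t).im) := Real.exp_le_exp.2 (by linarith)
    _ = Real.exp B * (z t).im := by rw [Real.exp_add, Real.exp_log hpos]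

theorem stepB (B : ℝ) : ∃ C : ℝ, 1 ≤ C ∧ ∃ e1 : ℝ, 0 < e1 ∧ ∀ φ : ℂ → ℝ, Good φ B →
    ∀ z v w u : ℝ → ℂ, IsGeo φ z v → IsGeo φ w u → ∀ lam mu b L : ℝ, 0 < lam → 0 < mu → 0 < L →
      (∀ t, z (t + L) = (lam : ℂ) * z t) → (∀ t, w t = (mu : ℂ) * z (t + b)) →
      ∀ ε : ℝ, 0 < ε → ε ≤ e1 → (∀ t, ‖w t - z t‖ ≤ ε * (z t).im) →
        ∃ a : ℝ, |a| ≤ C * ε ∧ ∀ t, w (t + a) = z t := by
  by_cases hB1 : 1 ≤ B
  swap
  · exact ⟨1, le_rfl, 1, one_pos, fun φ hφ => absurd hφ.one_le hB1⟩
  obtain ⟨C1, hC1, e1, he1, hrep⟩ := reparam B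
  obtain ⟨C2, hC2, e2, he2, hqf⟩ := qf_near B
  have hC10 : 0 < C1 := by linarith
  have hC20 : 0 < C2 := by linarith
  have hB0 : 0 < B := by linarith
  have hEB : 0 < Real.exp B := Real.exp_pos _
  have hEB1 : 1 ≤ Real.exp B := Real.one_le_exp hB0.le
  set δ : ℝ := min e2 (1 / (2 * C2)) / (C1 * Real.exp B) with hδ
  have hδ0 : 0 < δ := by
    rw [hδ]
    positivity
  refine ⟨C1, hC1, min e1 (min 1 (min (1 / (2 * C1 * B * Real.exp B)) (δ ^ 2))), by positivity, ?_⟩
  intro φ hφ z v w u hz hw lam mu b L hl hmu hL hzL hwz ε hε hεe hclose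
  have hε1 : ε ≤ e1 := hεe.trans (min_le_left _ _)
  have hε2 : ε ≤ 1 := hεe.trans ((min_le_right _ _).trans (min_le_left _ _))
  have hε3 : ε ≤ 1 / (2 * C1 * B * Real.exp B) :=
    hεe.trans ((min_le_right _ _).trans ((min_le_right _ _).trans (min_le_left _ _)))
  have hε4 : ε ≤ δ ^ 2 :=
    hεe.trans ((min_le_right _ _).trans ((min_le_right _ _).trans (min_le_right _ _)))
  have hsq : √ε ≤ δ := by
    rw [Real.sqrt_le_iff]
    exact ⟨hδ0.le, hε4⟩
  have hsq0 : 0 < √ε := Real.sqrt_pos.2 hε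
  have hεsq : ε ≤ √ε := by
    have h1 : √ε * √ε = ε := Real.mul_self_sqrt hε.le
    have h2 : √ε ≤ 1 := by
      rw [Real.sqrt_le_iff]
      constructor
      · norm_num
      · linarith
    nlinarith
  obtain ⟨τ, η, τ', η', dτ, dη, cτ, cη, heq, hτt, hηt, τpos, huv, huniq⟩ :=
    hrep φ hφ z v w u hz hw ε hε hε1 hclose
  have hvL : ∀ t, v (t + L) = (lam : ℂ) * v t := by
    intro t
    have h1 : HasDerivAt (fun s => z (s + L)) (v (t + L)) t := by
      have := (hz.dz (t + L)).comp_add_const t L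
      exact this
    have h2 : HasDerivAt (fun s => (lam : ℂ) * z s) ((lam : ℂ) * v t) t := (hz.dz t).const_mul _
    have h3 : (fun s => z (s + L)) = fun s => (lam : ℂ) * z s := funext hzL
    rw [h3] at h1
    exact h1.unique h2
  have hwL : ∀ t, w (t + L) = (lam : ℂ) * w t := by
    intro t
    rw [hwz, hwz, show t + L + b = t + b + L by ring, hzL]
    ring
  have hlam : (lam : ℂ) ≠ 0 := by exact_mod_cast hl.ne'
  have hper : ∀ t, τ (t + L) - L = τ t ∧ η (t + L) = η t := by
    intro t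
    apply huniq t (τ (t + L) - L) (η (t + L))
    · have := hτt (t + L)
      rwa [show τ (t + L) - (t + L) = τ (t + L) - L - t by ring] at this
    · apply mul_left_cancel₀ hlam
      rw [← hwL, sub_add_cancel, heq, hzL, hvL]
      ring
  have hw1 : ∀ t, ‖w (τ t) - z t‖ ≤ C1 * Real.exp B * √ε * (z t).im := by
    intro t
    have him : 0 < (z t).im := hz.mem t
    rw [heq t, add_sub_cancel_left, norm_mul, norm_mul, Complex.norm_I, one_mul,
      Complex.norm_real, Real.norm_eq_abs]
    have h1 := stepB_v φ B hφ z v hz t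
    calc |η t| * ‖v t‖ ≤ (C1 * ε) * (Real.exp B * (z t).im) :=
          mul_le_mul (hηt t) h1 (norm_nonneg _) (by positivity)
      _ = C1 * Real.exp B * ε * (z t).im := by ring
      _ ≤ C1 * Real.exp B * √ε * (z t).im := by gcongr
  have hu1 : ∀ t, ‖u (τ t) - v t‖ ≤ C1 * Real.exp B * √ε * (z t).im := by
    intro t
    have him : 0 < (z t).im := hz.mem t
    refine (huv t).trans ?_
    apply mul_le_mul_of_nonneg_right _ him.le
    apply mul_le_mul_of_nonneg_right _ hsq0.le
    nlinarith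
  have hε'1 : C1 * Real.exp B * √ε ≤ min e2 (1 / (2 * C2)) := by
    have h1 : C1 * Real.exp B * √ε ≤ C1 * Real.exp B * δ :=
      mul_le_mul_of_nonneg_left hsq (by positivity)
    refine h1.trans ?_
    rw [hδ, mul_div_cancel₀ _ (by positivity)]
  have hRP : RP φ z v w u τ η τ' η' L :=
    { gz := hz
      gw := hw
      sm := hφ.smooth
      lapnn := hφ.g4
      dτ := dτ
      dη := dη
      cτ := cτ
      cη := cη
      eq := heq
      τpos := τpos
      small := by
        intro t
        have him : 0 < (z t).im := hz.mem t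
        have h1 := stepB_v φ B hφ z v hz t
        have h2 : ‖fderiv ℝ φ (z t)‖ ≤ B / (z t).im := by
          rw [le_div_iff₀ him]
          exact hφ.g1 _ (hz.mem t)
        have h3 : |fderiv ℝ φ (z t) (I * v t)| ≤ B / (z t).im * (Real.exp B * (z t).im) := by
          have h4 : ‖fderiv ℝ φ (z t) (I * v t)‖ ≤ ‖fderiv ℝ φ (z t)‖ * ‖I * v t‖ :=
            ContinuousLinearMap.le_opNorm _ _
          rw [norm_mul, Complex.norm_I, one_mul, Real.norm_eq_abs] at h4
          exact h4.trans (mul_le_mul h2 h1 (norm_nonneg _) (by positivity))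
        have h5 : B / (z t).im * (Real.exp B * (z t).im) = B * Real.exp B := by
          field_simp
        rw [h5] at h3
        rw [abs_mul]
        calc |η t| * |fderiv ℝ φ (z t) (I * v t)| ≤ (C1 * ε) * (B * Real.exp B) :=
              mul_le_mul (hηt t) h3 (abs_nonneg _) (by positivity)
          _ = ε * (C1 * B * Real.exp B) := by ring
          _ ≤ (1 / (2 * C1 * B * Real.exp B)) * (C1 * B * Real.exp B) :=
              mul_le_mul_of_nonneg_right hε3 (by positivity)
          _ = 1 / 2 := by field_simp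
      qre := by
        intro t
        have h1 := hqf φ hφ (z t) (w (τ t)) (v t) (u (τ t)) (hz.mem t) (hz.unit t) (hw.unit (τ t))
          (C1 * Real.exp B * √ε) (by positivity) (hε'1.trans (min_le_left _ _)) (hw1 t) (hu1 t)
        have h2 : C2 * (C1 * Real.exp B * √ε) ≤ 1 / 2 := by
          calc C2 * (C1 * Real.exp B * √ε) ≤ C2 * (1 / (2 * C2)) :=
                mul_le_mul_of_nonneg_left (hε'1.trans (min_le_right _ _)) hC20.le
            _ = 1 / 2 := by field_simp
        have h3 := (Complex.abs_re_le_norm (qf φ (z t) (w (τ t)) (v t) (u (τ t)) - 1)).trans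
          (h1.trans h2)
        rw [Complex.sub_re, Complex.one_re] at h3
        have h4 := (abs_le.1 h3).1
        linarith
      Lpos := hL
      ηper := fun t => (hper t).2
      τper := by
        intro t
        have := (hper t).1
        linarith }
  by_cases h0 : ∃ t, η t = 0
  · obtain ⟨t1, ht1, ht2⟩ := dichotomy φ z v w u τ η τ' η' L hRP h0
    have hg := geo_unique φ hφ.smooth z v w u hz hw t1 (τ t1) ht1 ht2
    refine ⟨τ t1 - t1, hτt t1, fun t => ?_⟩
    have := hg (t - t1)
    rw [show τ t1 + (t - t1) = t + (τ t1 - t1) by ring, show t1 + (t - t1) = t by ring] at this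
    exact this
  · exact (area φ z v w u τ η τ' η' L hRP lam mu b hl hmu hzL hwz
      (fun t ht => h0 ⟨t, ht⟩)).elim

end Pool.H110K
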