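import Pool.Agent.H110K.Defs
import Pool.Agent.H110K.P_mobius_basic
import Pool.Agent.H110K.P_near_tools
import Pool.Agent.H110K.P_pull_basic
import Pool.Agent.H110K.P_geo_pull
import Pool.Agent.H110K.P_geo_shift
import Pool.Agent.H110K.P_geo_move
import Pool.Agent.H110K.P_good_of_surf
import Pool.Agent.H110K.P_stepB
import Pool.Agent.H110K.P_hyperbolic
import Pool.Agent.H110K.P_comm_scal

set_option autoImplicit false

open Complex Set Filter Topology MeasureTheory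
open scoped Real ContDiff

namespace Pool.H110K



theorem K1 (Γ : Subgroup SL2) (φ : ℂ → ℝ) (S : Surf Γ φ) :
    ∃ C : ℝ, 1 ≤ C ∧ ∃ e2 : ℝ, 0 < e2 ∧ ∀ (z v : ℝ → ℂ) (h : SL2) (ℓ : ℝ), CG Γ φ z v h ℓ →
      ∀ g ∈ Γ, ∀ b : ℝ, (∀ p ∈ UH, mob g (mob h p) = mob h (mob g p)) →
      ∀ ε : ℝ, 0 < ε → ε ≤ e2 → (∀ t, ‖mob g (z (t + b)) - z t‖ ≤ ε * (z t).im) →
        ∃ a : ℝ, |a| ≤ C * ε ∧ ∀ t, mob g (z (t + b + a)) = z t := by
  obtain ⟨B, hB⟩ := good_of_surf Γ φ S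
  obtain ⟨C, hC1, e1, he1, hstep⟩ := stepB B
  have mem : ∀ (M : SL2) (x : ℂ), x ∈ UH → mob M x ∈ UH := fun M x hx =>
    (mobius_basic M 1 x hx).2.2.1
  have inv1 : ∀ (M : SL2) (x : ℂ), x ∈ UH → mob M⁻¹ (mob M x) = x := fun M x hx =>
    (mobius_basic M 1 x hx).2.2.2.2.2.2.2.1
  have inv2 : ∀ (M : SL2) (x : ℂ), x ∈ UH → mob M (mob M⁻¹ x) = x := fun M x hx =>
    (mobius_basic M 1 x hx).2.2.2.2.2.2.2.2
  have smem : ∀ (c : ℝ) (x : ℂ), 0 < c → x ∈ UH → (c : ℂ) * x ∈ UH := by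
    intro c x hc hx
    have hx' : 0 < x.im := hx
    show 0 < ((c : ℂ) * x).im
    simp only [Complex.mul_im, Complex.ofReal_re, Complex.ofReal_im, zero_mul, add_zero]
    exact mul_pos hc hx'
  refine ⟨4 * C, by linarith, min (e1 / 4) (1 / 4), lt_min (by linarith) (by norm_num), ?_⟩
  intro z v h ℓ hCG g hg b hcomm ε hε hε2 hclose
  obtain ⟨P, lam, hlam, hlam1, hP⟩ := hyperbolic Γ φ S h hCG.mem hCG.nt
  obtain ⟨mu, hmu, hgP⟩ := comm_scal h P g lam hlam hlam1 hP hcomm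
  have hz : ∀ t, z t ∈ UH := hCG.geo.mem
  have hζ : ∀ t, mob P⁻¹ (z t) ∈ UH := fun t => mem _ _ (hz t)
  have g1 := geo_pull φ S.smooth P z v hCG.geo
  have g2 := (geo_move Γ φ S g hg _ _ (geo_shift φ z v hCG.geo b)).1
  have g3 := geo_pull φ S.smooth P _ _ g2
  have hper : ∀ t, mob P⁻¹ (z (t + ℓ)) = (lam : ℂ) * mob P⁻¹ (z t) := by
    intro t
    rw [hCG.per]
    conv_lhs => rw [← inv2 P (z t) (hz t)]
    rw [hP _ (hζ t), inv1 P _ (smem lam _ hlam (hζ t))]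
  have hw : ∀ t, mob P⁻¹ (mob g (z (t + b))) = (mu : ℂ) * mob P⁻¹ (z (t + b)) := by
    intro t
    conv_lhs => rw [← inv2 P (z (t + b)) (hz (t + b))]
    rw [hgP _ (hζ (t + b)), inv1 P _ (smem mu _ hmu (hζ (t + b)))]
  have hε4 : ε ≤ 1 / 4 := hε2.trans (min_le_right _ _)
  have hεe : 4 * ε ≤ e1 := by
    have := hε2.trans (min_le_left _ _)
    linarith
  have hcl : ∀ t, ‖mob P⁻¹ (mob g (z (t + b))) - mob P⁻¹ (z t)‖ ≤
      4 * ε * (mob P⁻¹ (z t)).im := by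
    intro t
    exact near_tools.1 P⁻¹ (z t) (mob g (z (t + b))) ε (hz t) (mem g _ (hz (t + b))) hε.le hε4
      (hclose t)
  obtain ⟨a, ha, haz⟩ := hstep (pull φ P) (hB P) _ _ _ _ g1 g3 lam mu b ℓ hlam hmu hCG.pos hper hw
    (4 * ε) (by linarith) hεe hcl
  refine ⟨a, by linarith [ha], fun t => ?_⟩
  have h1 : mob P⁻¹ (mob g (z (t + a + b))) = mob P⁻¹ (z t) := haz t
  have h2 := congrArg (mob P) h1
  rw [inv2 P _ (mem g _ (hz _)), inv2 P _ (hz t)] at h2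
  rw [show t + b + a = t + a + b by ring]
  exact h2

end Pool.H110K
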