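import Pool.Agent.H110K.Defs
import Pool.Agent.H110K.P_mobius_basic
import Pool.Agent.H110K.P_near_tools
import Pool.Agent.H110K.P_disc
import Pool.Agent.H110K.P_K1

set_option autoImplicit false

open Complex Set Filter Topology MeasureTheory
open scoped Real ContDiff

namespace Pool.H110K



theorem K2_mem (M : SL2) {z : ℂ} (hz : z ∈ UH) : mob M z ∈ UH := (mobius_basic M 1 z hz).2.2.1

theorem K2_mul (M N : SL2) {z : ℂ} (hz : z ∈ UH) : mob (M * N) z = mob M (mob N z) :=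
  (mobius_basic M N z hz).2.2.2.1

theorem K2_one {z : ℂ} (hz : z ∈ UH) : mob (1 : SL2) z = z := (mobius_basic 1 1 z hz).2.2.2.2.2.1

theorem K2_inv (M : SL2) {z : ℂ} (hz : z ∈ UH) : mob M⁻¹ (mob M z) = z :=
  (mobius_basic M 1 z hz).2.2.2.2.2.2.2.1

theorem K2_inv' (M : SL2) {z : ℂ} (hz : z ∈ UH) : mob M (mob M⁻¹ z) = z :=
  (mobius_basic M 1 z hz).2.2.2.2.2.2.2.2

theorem K2_n1 (M : SL2) {z w : ℂ} {ε : ℝ} (hz : z ∈ UH) (hw : w ∈ UH) (h0 : 0 ≤ ε)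
    (h1 : ε ≤ 1 / 4) (h : ‖w - z‖ ≤ ε * z.im) : ‖mob M w - mob M z‖ ≤ 4 * ε * (mob M z).im :=
  near_tools.1 M z w ε hz hw h0 h1 h

theorem K2_n2 {z w : ℂ} {ε : ℝ} (hz : z ∈ UH) (hw : w ∈ UH) (h0 : 0 ≤ ε)
    (h1 : ε ≤ 1 / 2) (h : ‖w - z‖ ≤ ε * z.im) : ‖z - w‖ ≤ 2 * ε * w.im :=
  near_tools.2.1 z w ε hz hw h0 h1 h

theorem K2_n3 {z w x : ℂ} {ε δ : ℝ} (hz : z ∈ UH) (hw : w ∈ UH) (hx : x ∈ UH) (h0 : 0 ≤ ε)
    (h1 : ε ≤ 1) (hδ : 0 ≤ δ) (h : ‖w - z‖ ≤ ε * z.im) (h' : ‖x - w‖ ≤ δ * w.im) :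
    ‖x - z‖ ≤ (ε + 2 * δ) * z.im :=
  near_tools.2.2 z w x ε δ hz hw hx h0 h1 hδ h h'

theorem K2_zpow (h' : SL2) (ℓ' : ℝ) (F : ℝ → ℂ) (hF : ∀ t, F t ∈ UH)
    (hp : ∀ t, F (t + ℓ') = mob h' (F t)) (t : ℝ) (m : ℤ) :
    F (t + m * ℓ') = mob (h' ^ m) (F t) := by
  induction m using Int.induction_on with
  | zero => simp [K2_one (hF t)]
  | succ m ih =>
    have e1 : t + ((m : ℤ) + 1 : ℤ) * ℓ' = (t + (m : ℤ) * ℓ') + ℓ' := by push_cast; ring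
    rw [e1, hp, ih, ← K2_mul _ _ (hF t), add_comm (m : ℤ) 1, zpow_one_add]
  | pred m ih =>
    have e1 : t + (-(m : ℤ) : ℤ) * ℓ' = (t + (-(m : ℤ) - 1 : ℤ) * ℓ') + ℓ' := by push_cast; ring
    have e2 : F (t + (-(m : ℤ) - 1 : ℤ) * ℓ') = mob h'⁻¹ (F (t + (-(m : ℤ) : ℤ) * ℓ')) := by
      rw [e1, hp, K2_inv _ (hF _)]
    rw [e2, ih, ← K2_mul _ _ (hF t)]
    congr 1
    rw [sub_eq_add_neg, add_comm, zpow_add, zpow_neg_one]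

theorem K2_comm (Γ : Subgroup SL2) (φ : ℂ → ℝ) (z v : ℝ → ℂ) (h : SL2) (ℓ : ℝ)
    (z' v' : ℝ → ℂ) (h' : SL2) (ℓ' : ℝ) (A : CG Γ φ z v h ℓ) (A' : CG Γ φ z' v' h' ℓ') (T : ℝ)
    (hT : ℓ ≤ T) (hT' : ℓ' ≤ T) (ε : ℝ) (hε : 0 < ε) (hε1 : ε ≤ 1 / 1000)
    (hn : ∀ t, 0 ≤ t → t ≤ 2 * T → ‖z' t - z t‖ ≤ ε * (z t).im) (ε0 : ℝ) (hε0 : 170 * ε ≤ ε0)
    (hd : ∀ h ∈ Γ, ∀ z ∈ UH, ‖mob h z - z‖ ≤ ε0 * z.im → ∀ w ∈ UH, mob h w = w) :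
    ∀ p ∈ UH, mob h (mob h' p) = mob h' (mob h p) := by
  have p1 := A.pos
  have p2 := A'.pos
  have mz := A.geo.mem
  have mz' := A'.geo.mem
  have a1 : z' ℓ' = mob h' (z' 0) := by rw [← A'.per, zero_add]
  have a2 : z ℓ = mob h (z 0) := by rw [← A.per, zero_add]
  have a3 : z (ℓ + ℓ') = mob h (z ℓ') := by rw [← A.per, add_comm]
  have a4 : z' (ℓ + ℓ') = mob h' (z' ℓ) := by rw [← A'.per]
  -- y
  have b1 : ‖mob h (z' ℓ') - z (ℓ + ℓ')‖ ≤ 4 * ε * (z (ℓ + ℓ')).im := by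
    rw [a3]
    exact K2_n1 h (mz _) (mz' _) hε.le (by linarith) (hn ℓ' p2.le (by linarith))
  -- x
  have c1 : ‖mob h (z' 0) - z ℓ‖ ≤ 4 * ε * (z ℓ).im := by
    rw [a2]
    exact K2_n1 h (mz _) (mz' _) hε.le (by linarith) (hn 0 le_rfl (by linarith))
  have c2 : ‖z ℓ - z' ℓ‖ ≤ 2 * ε * (z' ℓ).im :=
    K2_n2 (mz _) (mz' _) hε.le (by linarith) (hn ℓ p1.le (by linarith))
  have c3 : ‖mob h (z' 0) - z' ℓ‖ ≤ (2 * ε + 2 * (4 * ε)) * (z' ℓ).im :=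
    K2_n3 (mz' _) (mz _) (K2_mem h (mz' 0)) (by linarith) (by linarith) (by linarith) c2 c1
  have c4 : ‖mob h' (mob h (z' 0)) - z' (ℓ + ℓ')‖ ≤
      4 * (2 * ε + 2 * (4 * ε)) * (z' (ℓ + ℓ')).im := by
    rw [a4]
    exact K2_n1 h' (mz' _) (K2_mem h (mz' 0)) (by linarith) (by linarith) c3
  have hX : mob h' (mob h (z' 0)) ∈ UH := K2_mem h' (K2_mem h (mz' 0))
  have c5 : ‖mob h' (mob h (z' 0)) - z (ℓ + ℓ')‖ ≤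
      (ε + 2 * (4 * (2 * ε + 2 * (4 * ε)))) * (z (ℓ + ℓ')).im :=
    K2_n3 (mz _) (mz' _) hX (by linarith) (by linarith) (by linarith)
      (hn (ℓ + ℓ') (by linarith) (by linarith)) c4
  have c6 : ‖z (ℓ + ℓ') - mob h' (mob h (z' 0))‖ ≤
      2 * (ε + 2 * (4 * (2 * ε + 2 * (4 * ε)))) * (mob h' (mob h (z' 0))).im :=
    K2_n2 (mz _) hX (by linarith) (by linarith) c5
  have hY : mob h (z' ℓ') ∈ UH := K2_mem h (mz' _)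
  have c7 : ‖mob h (z' ℓ') - mob h' (mob h (z' 0))‖ ≤
      (2 * (ε + 2 * (4 * (2 * ε + 2 * (4 * ε)))) + 2 * (4 * ε)) * (mob h' (mob h (z' 0))).im :=
    K2_n3 hX (mz _) hY (by linarith) (by linarith) (by linarith) c6 b1
  have hXim : 0 < (mob h' (mob h (z' 0))).im := hX
  have c8 : ‖mob h (z' ℓ') - mob h' (mob h (z' 0))‖ ≤ ε0 * (mob h' (mob h (z' 0))).im := by
    refine c7.trans (mul_le_mul_of_nonneg_right ?_ hXim.le)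
    linarith
  have hk : h * h' * (h' * h)⁻¹ ∈ Γ :=
    Γ.mul_mem (Γ.mul_mem A.mem A'.mem) (Γ.inv_mem (Γ.mul_mem A'.mem A.mem))
  have hact : ∀ p ∈ UH, mob (h * h' * (h' * h)⁻¹) (mob h' (mob h p)) = mob h (mob h' p) := by
    intro p hp
    have hp' : mob (h' * h) p ∈ UH := K2_mem _ hp
    rw [← K2_mul h' h hp, K2_mul (h * h') _ hp', K2_inv _ hp, K2_mul h h' hp]
  have hfix := hd _ hk (mob h' (mob h (z' 0))) hX (by rw [hact _ (mz' 0), ← a1]; exact c8)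
  intro p hp
  rw [← hact p hp]
  exact hfix _ (K2_mem h' (K2_mem h hp))

theorem K2_near (Γ : Subgroup SL2) (φ : ℂ → ℝ) (z v : ℝ → ℂ) (h : SL2) (ℓ : ℝ)
    (z' v' : ℝ → ℂ) (h' : SL2) (ℓ' : ℝ) (A : CG Γ φ z v h ℓ) (A' : CG Γ φ z' v' h' ℓ') (T : ℝ)
    (hT : ℓ ≤ T) (hT' : ℓ' ≤ T) (ε : ℝ) (hε : 0 < ε) (hε1 : ε ≤ 1 / 1000)
    (hn : ∀ t, 0 ≤ t → t ≤ 2 * T → ‖z' t - z t‖ ≤ ε * (z t).im)
    (hc : ∀ p ∈ UH, mob h⁻¹ (mob h' p) = mob h' (mob h⁻¹ p)) (t : ℝ) :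
    ‖mob h⁻¹ (z' (t + ℓ)) - z' t‖ ≤ (40 * ε) * (z' t).im := by
  have p1 := A.pos
  have p2 := A'.pos
  have mz := A.geo.mem
  have mz' := A'.geo.mem
  have hW : ∀ s, 0 ≤ s → s ≤ ℓ' →
      ‖mob h⁻¹ (z' (s + ℓ)) - z' s‖ ≤ (2 * ε + 2 * (4 * ε)) * (z' s).im := by
    intro s hs hs'
    have d1 : ‖mob h⁻¹ (z' (s + ℓ)) - z s‖ ≤ 4 * ε * (z s).im := by
      have := K2_n1 h⁻¹ (mz _) (mz' _) hε.le (by linarith)
        (hn (s + ℓ) (by linarith) (by linarith))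
      have e1 : mob h⁻¹ (z (s + ℓ)) = z s := by rw [A.per, K2_inv _ (mz s)]
      rw [e1] at this
      exact this
    have d2 : ‖z s - z' s‖ ≤ 2 * ε * (z' s).im :=
      K2_n2 (mz _) (mz' _) hε.le (by linarith) (hn s hs (by linarith))
    exact K2_n3 (mz' _) (mz _) (K2_mem _ (mz' _)) (by linarith) (by linarith) (by linarith) d2 d1
  obtain ⟨m, hm⟩ : ∃ m : ℤ, m = ⌊t / ℓ'⌋ := ⟨_, rfl⟩
  obtain ⟨s, hs⟩ : ∃ s : ℝ, s = t - m * ℓ' := ⟨_, rfl⟩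
  have ht : t = s + m * ℓ' := by rw [hs]; ring
  have hs0 : 0 ≤ s := by
    have := Int.floor_le (t / ℓ')
    rw [← hm, le_div_iff₀ p2] at this
    linarith
  have hs1 : s ≤ ℓ' := by
    have := (Int.lt_floor_add_one (t / ℓ')).le
    rw [← hm, div_le_iff₀ p2] at this
    linarith
  have f1 := K2_zpow h' ℓ' z' mz' A'.per s m
  have f2 := K2_zpow h' ℓ' (fun t => mob h⁻¹ (z' (t + ℓ))) (fun t => K2_mem _ (mz' _))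
    (fun t => by
      have e : t + ℓ' + ℓ = t + ℓ + ℓ' := by ring
      rw [e, A'.per, hc _ (mz' _)]) s m
  rw [ht, f1, f2]
  have := K2_n1 (h' ^ m) (mz' s) (K2_mem h⁻¹ (mz' (s + ℓ))) (by linarith) (by linarith)
    (hW s hs0 hs1)
  refine this.trans (le_of_eq ?_)
  ring

theorem K2 (Γ : Subgroup SL2) (φ : ℂ → ℝ) (S : Surf Γ φ) :
    ∃ C : ℝ, 1 ≤ C ∧ ∃ e3 : ℝ, 0 < e3 ∧
    ∀ (z v : ℝ → ℂ) (h : SL2) (ℓ : ℝ) (z' v' : ℝ → ℂ) (h' : SL2) (ℓ' : ℝ),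
      CG Γ φ z v h ℓ → CG Γ φ z' v' h' ℓ' → ∀ T : ℝ, ℓ ≤ T → ℓ' ≤ T → ∀ ε : ℝ, 0 < ε → ε ≤ e3 →
      (∀ t, 0 ≤ t → t ≤ 2 * T → ‖z' t - z t‖ ≤ ε * (z t).im) →
      (∀ p ∈ UH, mob h (mob h' p) = mob h' (mob h p)) ∧
        ∃ a : ℝ, |a| ≤ C * ε ∧ ∀ t, z' (t + ℓ + a) = mob h (z' t) := by
  obtain ⟨ε0, hε0, hd⟩ := disc Γ φ S
  obtain ⟨C, hC, e2, he2, hK⟩ := K1 Γ φ S
  refine ⟨40 * C, by linarith, min (ε0 / 170) (min (e2 / 40) (1 / 1000)), by positivity, ?_⟩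
  intro z v h ℓ z' v' h' ℓ' A A' T hT hT' ε hε hε3 hn
  have g1 : ε ≤ ε0 / 170 := hε3.trans (min_le_left _ _)
  have g2 : ε ≤ e2 / 40 := hε3.trans ((min_le_right _ _).trans (min_le_left _ _))
  have g3 : ε ≤ 1 / 1000 := hε3.trans ((min_le_right _ _).trans (min_le_right _ _))
  have hc := K2_comm Γ φ z v h ℓ z' v' h' ℓ' A A' T hT hT' ε hε g3 hn ε0 (by linarith) hd
  refine ⟨hc, ?_⟩
  have hc' : ∀ p ∈ UH, mob h⁻¹ (mob h' p) = mob h' (mob h⁻¹ p) := by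
    intro p hp
    have hq : mob h⁻¹ p ∈ UH := K2_mem _ hp
    have := hc _ hq
    rw [K2_inv' _ hp] at this
    rw [← this, K2_inv _ (K2_mem _ hq)]
  obtain ⟨a, ha, hat⟩ := hK z' v' h' ℓ' A' h⁻¹ (Γ.inv_mem A.mem) ℓ hc' (40 * ε) (by linarith)
    (by linarith) (K2_near Γ φ z v h ℓ z' v' h' ℓ' A A' T hT hT' ε hε g3 hn hc')
  refine ⟨a, ha.trans (le_of_eq (by ring)), fun t => ?_⟩
  rw [← hat t, K2_inv' _ (A'.geo.mem _)]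

end Pool.H110K
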