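import Pool.Agent.H110K.Defs
import Pool.Agent.H110K.P_mobius_basic
import Pool.Agent.H110K.P_disc

set_option autoImplicit false

open Complex Set Filter Topology MeasureTheory
open scoped Real ContDiff

namespace Pool.H110K



theorem mob_mem (M : SL2) (z : ℂ) (hz : z ∈ UH) : mob M z ∈ UH := (mobius_basic M 1 z hz).2.2.1

theorem mob_mul (M N : SL2) (z : ℂ) (hz : z ∈ UH) : mob (M * N) z = mob M (mob N z) :=
  (mobius_basic M N z hz).2.2.2.1

theorem mob_one (z : ℂ) (hz : z ∈ UH) : mob (1 : SL2) z = z := (mobius_basic 1 1 z hz).2.2.2.2.2.1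

theorem mob_inv_mob (M : SL2) (z : ℂ) (hz : z ∈ UH) : mob M⁻¹ (mob M z) = z :=
  (mobius_basic M 1 z hz).2.2.2.2.2.2.2.1

theorem mob_mob_inv (M : SL2) (z : ℂ) (hz : z ∈ UH) : mob M (mob M⁻¹ z) = z :=
  (mobius_basic M 1 z hz).2.2.2.2.2.2.2.2

/-- the group of periods -/
noncomputable def Per (Γ : Subgroup SL2) (z : ℝ → ℂ) (hz : ∀ t, z t ∈ UH) : AddSubgroup ℝ where
  carrier := {a | ∃ k ∈ Γ, ∀ t, z (t + a) = mob k (z t)}
  zero_mem' := by
    refine ⟨1, Γ.one_mem, fun t => ?_⟩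
    rw [add_zero, mob_one _ (hz t)]
  add_mem' := by
    rintro a b ⟨k, hk, hk'⟩ ⟨l, hl, hl'⟩
    refine ⟨l * k, Γ.mul_mem hl hk, fun t => ?_⟩
    rw [← add_assoc, hl', hk', mob_mul _ _ _ (hz t)]
  neg_mem' := by
    rintro a ⟨k, hk, hk'⟩
    refine ⟨k⁻¹, Γ.inv_mem hk, fun t => ?_⟩
    have h1 := hk' (t + -a)
    rw [neg_add_cancel_right] at h1
    rw [h1, mob_inv_mob _ _ (hz _)]

theorem exists_prime (Γ : Subgroup SL2) (φ : ℂ → ℝ) (S : Surf Γ φ) (z v : ℝ → ℂ) (h : SL2) (ℓ : ℝ)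
    (H : CG Γ φ z v h ℓ) :
    ∃ k : SL2, ∃ ℓ0 : ℝ, ∃ n : ℕ, 1 ≤ n ∧ CG Γ φ z v k ℓ0 ∧ Prm Γ z ℓ0 ∧ ℓ = n * ℓ0 ∧
      ∀ p ∈ UH, mob h p = mob (k ^ n) p := by
  have hz : ∀ t, z t ∈ UH := H.geo.mem
  have hcont : Continuous z :=
    continuous_iff_continuousAt.2 (fun t => (H.geo.dz t).continuousAt)
  have hℓ : ℓ ∈ Per Γ z hz := ⟨h, H.mem, H.per⟩
  have hnd : ¬ Dense ((Per Γ z hz : AddSubgroup ℝ) : Set ℝ) := by
    intro hd
    obtain ⟨ε0, hε0, hdisc⟩ := disc Γ φ S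
    have him : 0 < (z 0).im := hz 0
    have hpos : 0 < ε0 * (z 0).im := mul_pos hε0 him
    let U : Set ℝ := {a | ‖z a - z 0‖ < ε0 * (z 0).im}
    have hU : IsOpen U := isOpen_lt (hcont.sub continuous_const).norm continuous_const
    have h0U : (0 : ℝ) ∈ U := by
      show ‖z 0 - z 0‖ < _
      simpa using hpos
    have hper : ∀ a ∈ U ∩ ((Per Γ z hz : AddSubgroup ℝ) : Set ℝ), z a = z 0 := by
      rintro a ⟨haU, k, hk, hk'⟩
      have h1 := hk' 0
      rw [zero_add] at h1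
      have h2 : ‖mob k (z 0) - z 0‖ ≤ ε0 * (z 0).im := by
        rw [← h1]
        exact le_of_lt haU
      rw [h1]
      exact hdisc k hk (z 0) (hz 0) h2 (z 0) (hz 0)
    have hsub : U ⊆ {a | z a = z 0} := by
      have hcl : IsClosed {a | z a = z 0} := isClosed_eq hcont continuous_const
      have h3 : U ⊆ closure (U ∩ ((Per Γ z hz : AddSubgroup ℝ) : Set ℝ)) :=
        hd.open_subset_closure_inter hU
      exact h3.trans (hcl.closure_subset_iff.2 hper)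
    have hev : z =ᶠ[𝓝 0] fun _ => z 0 :=
      Filter.mem_of_superset (hU.mem_nhds h0U) hsub
    have h4 : HasDerivAt z 0 0 := (hasDerivAt_const (0 : ℝ) (z 0)).congr_of_eventuallyEq hev
    have h5 := (H.geo.dz 0).unique h4
    have h6 := H.geo.unit 0
    rw [h5] at h6
    simp at h6
  obtain ⟨a, ha⟩ : ∃ a, Per Γ z hz = AddSubgroup.closure {a} :=
    (AddSubgroup.dense_or_cyclic (Per Γ z hz)).resolve_left hnd
  have hmem : ∀ x, x ∈ Per Γ z hz ↔ ∃ m : ℤ, m • a = x := by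
    intro x
    rw [ha, AddSubgroup.mem_closure_singleton]
  obtain ⟨m, hm⟩ := (hmem ℓ).1 hℓ
  have hℓpos := H.pos
  have ha0 : a ≠ 0 := by
    rintro rfl
    rw [smul_zero] at hm
    linarith
  have hm' : (m : ℝ) * a = ℓ := by
    rw [← hm, zsmul_eq_mul]
  have hℓ0mem : |a| ∈ Per Γ z hz := by
    rw [hmem]
    rcases abs_cases a with ⟨h1, _⟩ | ⟨h1, _⟩
    · exact ⟨1, by rw [one_zsmul, h1]⟩
    · exact ⟨-1, by rw [neg_one_zsmul, h1]⟩
  have hℓ0 : 0 < |a| := abs_pos.2 ha0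
  obtain ⟨k, hk, hkper⟩ := hℓ0mem
  have hn : ℓ = ((m.natAbs : ℕ) : ℝ) * |a| := by
    have h1 : ((m.natAbs : ℕ) : ℝ) = |(m : ℝ)| := by
      rw [← Int.cast_abs, Int.abs_eq_natAbs, Int.cast_natCast]
    rw [h1, ← abs_mul, hm', abs_of_pos hℓpos]
  have hn1 : 1 ≤ m.natAbs := by
    rcases Nat.eq_zero_or_pos m.natAbs with h1 | h1
    · rw [h1, Nat.cast_zero, zero_mul] at hn
      linarith
    · exact h1
  have hpow : ∀ n : ℕ, ∀ t, z (t + n * |a|) = mob (k ^ n) (z t) := by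
    intro n
    induction n with
    | zero =>
      intro t
      rw [Nat.cast_zero, zero_mul, add_zero, pow_zero, mob_one _ (hz t)]
    | succ n ih =>
      intro t
      rw [pow_succ', mob_mul _ _ _ (hz t), ← ih t, ← hkper]
      congr 1
      push_cast
      ring
  have heq : ∀ w ∈ UH, mob h w = mob (k ^ m.natAbs) w := by
    have h1 : mob h (z 0) = mob (k ^ m.natAbs) (z 0) := by
      rw [← hpow m.natAbs 0, ← hn, H.per 0]
    have h2 : mob ((k ^ m.natAbs)⁻¹ * h) (z 0) = z 0 := by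
      rw [mob_mul _ _ _ (hz 0), h1, mob_inv_mob _ _ (hz 0)]
    have h3 : (k ^ m.natAbs)⁻¹ * h ∈ Γ := Γ.mul_mem (Γ.inv_mem (Γ.pow_mem hk _)) H.mem
    intro w hw
    have h4 := S.free _ h3 (z 0) (hz 0) h2 w hw
    rw [mob_mul _ _ _ hw] at h4
    have h5 := mob_mob_inv (k ^ m.natAbs) (mob h w) (mob_mem _ _ hw)
    rw [h4] at h5
    exact h5.symm
  refine ⟨k, |a|, m.natAbs, hn1, ⟨H.geo, H.flat, hk, hℓ0, hkper, ?_⟩, ?_, hn, heq⟩
  · by_contra hcon
    push Not at hcon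
    obtain ⟨w, hw, hne⟩ := H.nt
    apply hne
    rw [heq w hw]
    have : ∀ n : ℕ, mob (k ^ n) w = w := by
      intro n
      induction n with
      | zero => rw [pow_zero, mob_one _ hw]
      | succ n ih => rw [pow_succ', mob_mul _ _ _ hw, ih, hcon w hw]
    exact this _
  · intro l hl b hb
    obtain ⟨n, hn'⟩ := (hmem b).1 ⟨l, hl, hb⟩
    rw [zsmul_eq_mul] at hn'
    rcases abs_cases a with ⟨h1, _⟩ | ⟨h1, _⟩
    · exact ⟨n, by rw [h1, hn']⟩
    · exact ⟨-n, by rw [h1, ← hn']; push_cast; ring⟩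

end Pool.H110K
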