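import Pool.Agent.H110K.Defs
import Pool.Agent.H110K.P_mobius_basic
import Pool.Agent.H110K.P_near_tools
import Pool.Agent.H110K.P_pull_basic
import Pool.Agent.H110K.P_surf_pull
import Pool.Agent.H110K.P_geo_congr
import Pool.Agent.H110K.P_good_of_surf
import Pool.Agent.H110K.P_disc

set_option autoImplicit false

open Complex Set Filter Topology MeasureTheory
open scoped Real ContDiff

namespace Pool.H110K



theorem len_min (Γ : Subgroup SL2) (φ : ℂ → ℝ) (S : Surf Γ φ) :
    ∃ lm : ℝ, 0 < lm ∧ ∀ (z v : ℝ → ℂ) (h : SL2) (ℓ : ℝ), CG Γ φ z v h ℓ → lm ≤ ℓ := by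
  obtain ⟨B, hB⟩ := good_of_surf Γ φ S
  have hgood : Good φ B := by
    refine (geo_congr (pull φ 1) φ ?_ 0 0).2.2 B (hB 1)
    intro z hz
    have := mobius_basic 1 1 z hz
    unfold pull
    rw [this.2.2.2.2.2.1, this.2.2.2.2.2.2.1, norm_one, Real.log_one]
    ring
  obtain ⟨ε0, hε0, hdisc⟩ := disc Γ φ S
  obtain ⟨E, hE⟩ : ∃ E, E = Real.exp B := ⟨_, rfl⟩
  have hE0 : 0 < E := by rw [hE]; exact Real.exp_pos _
  refine ⟨min (1 / E) (ε0 / (E * Real.exp 1)), by positivity, ?_⟩
  intro z v h ℓ hC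
  by_contra hlt
  push Not at hlt
  obtain ⟨h1, h2⟩ := lt_min_iff.1 hlt
  have hv : ∀ t, ‖v t‖ ≤ E * (z t).im := by
    intro t
    have him : 0 < (z t).im := hC.geo.mem t
    have hu := hC.geo.unit t
    have h3 : ‖v t‖ = Real.exp (-φ (z t)) := by
      rw [Real.exp_neg]
      exact eq_inv_of_mul_eq_one_right hu
    have h4 := (abs_le.1 (hgood.g0 (z t) (hC.geo.mem t))).1
    rw [h3, hE]
    calc Real.exp (-φ (z t)) ≤ Real.exp (B + Real.log (z t).im) :=
          Real.exp_le_exp.2 (by linarith)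
      _ = Real.exp B * (z t).im := by rw [Real.exp_add, Real.exp_log him]
  have hdim : ∀ t, HasDerivAt (fun s => (z s).im) (v t).im t := fun t =>
    (Complex.imCLM.hasFDerivAt.comp_hasDerivAt t (hC.geo.dz t))
  have hdF : ∀ t, HasDerivAt (fun s => (z s).im * Real.exp (-(E * s)))
      ((v t).im * Real.exp (-(E * t)) + (z t).im * (Real.exp (-(E * t)) * (-(E * 1)))) t := by
    intro t
    exact (hdim t).mul (((hasDerivAt_id t).const_mul E).neg.exp)
  have hanti : Antitone (fun s => (z s).im * Real.exp (-(E * s))) := by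
    apply antitone_of_deriv_nonpos (fun t => (hdF t).differentiableAt)
    intro t
    rw [(hdF t).deriv]
    have h5 : (v t).im ≤ E * (z t).im :=
      (le_abs_self _).trans ((Complex.abs_im_le_norm _).trans (hv t))
    have h6 := mul_nonneg (sub_nonneg.2 h5) (Real.exp_pos (-(E * t))).le
    nlinarith
  have him : ∀ s, 0 ≤ s → (z s).im ≤ (z 0).im * Real.exp (E * s) := by
    intro s hs
    have h7 := hanti hs
    simp only [mul_zero, neg_zero, Real.exp_zero, mul_one] at h7
    calc (z s).im = (z s).im * Real.exp (-(E * s)) * Real.exp (E * s) := by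
          rw [mul_assoc, ← Real.exp_add]; simp
      _ ≤ (z 0).im * Real.exp (E * s) := by gcongr
  have hz0 : 0 < (z 0).im := hC.geo.mem 0
  have hexp : ∀ s ∈ Icc 0 ℓ, Real.exp (E * s) ≤ Real.exp 1 := by
    intro s hs
    apply Real.exp_le_exp.2
    have : E * s ≤ E * (1 / E) := by
      gcongr
      exact hs.2.trans h1.le
    rw [mul_one_div_cancel hE0.ne'] at this
    exact this
  have hdist : ‖z ℓ - z 0‖ ≤ E * ((z 0).im * Real.exp 1) * (ℓ - 0) := by
    have h8 := (convex_Icc (0 : ℝ) ℓ).norm_image_sub_le_of_norm_hasDerivWithin_le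
      (f := z) (f' := v) (C := E * ((z 0).im * Real.exp 1))
      (fun x _ => (hC.geo.dz x).hasDerivWithinAt)
      (fun x hx => (hv x).trans (by
        have := (him x hx.1).trans (mul_le_mul_of_nonneg_left (hexp x hx) hz0.le)
        gcongr))
      (left_mem_Icc.2 hC.pos.le) (right_mem_Icc.2 hC.pos.le)
    rwa [Real.norm_of_nonneg (by linarith [hC.pos])] at h8
  have hfin : ‖mob h (z 0) - z 0‖ ≤ ε0 * (z 0).im := by
    rw [← hC.per 0, zero_add]
    refine hdist.trans ?_
    rw [sub_zero]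
    have h9 : ℓ * (E * Real.exp 1) < ε0 := by
      rwa [lt_div_iff₀ (by positivity)] at h2
    nlinarith
  obtain ⟨w, hw, hne⟩ := hC.nt
  exact hne (hdisc h hC.mem (z 0) (hC.geo.mem 0) hfin w hw)

end Pool.H110K
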