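import Pool.Agent.H110K.Defs

set_option autoImplicit false

open Complex Set Filter Topology MeasureTheory
open scoped Real ContDiff

namespace Pool.H110K



theorem cells_lip (φ : ℂ → ℝ) (hφ : ContDiffOn ℝ ∞ φ UH) (K : Set ℂ) (hK : IsCompact K)
    (hKU : K ⊆ UH) :
    ∃ c : ℝ, 0 < c ∧ c ≤ 1 ∧ ∃ C0 : ℝ, 0 ≤ C0 ∧ ∀ p ∈ K, Metric.closedBall p c ⊆ UH ∧
      ∀ x ∈ Metric.closedBall p c, ∀ y ∈ Metric.closedBall p c,
        ‖fderiv ℝ φ y - fderiv ℝ φ x‖ ≤ C0 * ‖y - x‖ := by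
  have hUo : IsOpen UH := isOpen_lt continuous_const Complex.continuous_im
  obtain ⟨δ, hδ, hsub⟩ := hK.exists_cthickening_subset_open hUo hKU
  have hcomp : IsCompact (Metric.cthickening δ K) := hK.cthickening
  have hd1 : ContDiffOn ℝ ∞ (fderiv ℝ φ) UH := hφ.fderiv_of_isOpen hUo (by simp)
  have hd2c : ContinuousOn (fderiv ℝ (fderiv ℝ φ)) UH :=
    hd1.continuousOn_fderiv_of_isOpen hUo (by simp)
  have hcn : ContinuousOn (fun z => ‖fderiv ℝ (fderiv ℝ φ) z‖) (Metric.cthickening δ K) :=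
    ContinuousOn.norm (E := ℂ →L[ℝ] ℂ →L[ℝ] ℝ) (f := fderiv ℝ (fderiv ℝ φ)) (hd2c.mono hsub)
  obtain ⟨C0, hC0⟩ := hcomp.exists_bound_of_continuousOn hcn
  refine ⟨min δ 1, lt_min hδ one_pos, min_le_right _ _, |C0|, abs_nonneg _, ?_⟩
  intro p hp
  have hball : Metric.closedBall p (min δ 1) ⊆ Metric.cthickening δ K :=
    (Metric.closedBall_subset_closedBall (min_le_left _ _)).trans
      (Metric.closedBall_subset_cthickening hp δ)
  refine ⟨hball.trans hsub, ?_⟩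
  intro x hx y hy
  apply Convex.norm_image_sub_le_of_norm_fderiv_le (𝕜 := ℝ)
    (s := Metric.closedBall p (min δ 1)) _ _ (convex_closedBall _ _) hx hy
  · intro z hz
    exact (hd1.differentiableOn (by simp)).differentiableAt (hUo.mem_nhds (hsub (hball hz)))
  · intro z hz
    have h3 := hC0 z (hball hz)
    rw [Real.norm_eq_abs] at h3
    exact (le_abs_self _).trans (h3.trans (le_abs_self _))

theorem cells_polar (a : ℂ) (x : ℝ) : a = (‖a‖ : ℂ) *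
    Complex.exp (I * ((Complex.arg (a * Complex.exp (-(I * (x:ℂ)))) + x : ℝ) : ℂ)) := by
  have h := Complex.norm_mul_exp_arg_mul_I (a * Complex.exp (-(I * (x:ℂ))))
  have hn : ‖a * Complex.exp (-(I * (x:ℂ)))‖ = ‖a‖ := by
    rw [norm_mul]
    have h1 : -(I * (x:ℂ)) = ((-x : ℝ) : ℂ) * I := by
      push_cast
      ring
    rw [h1, Complex.norm_exp_ofReal_mul_I, mul_one]
  rw [hn] at h
  calc a = a * Complex.exp (-(I * (x:ℂ))) * Complex.exp (I * x) := by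
        rw [mul_assoc, ← Complex.exp_add, neg_add_cancel, Complex.exp_zero, mul_one]
    _ = (‖a‖ : ℂ) * Complex.exp ((Complex.arg (a * Complex.exp (-(I * (x:ℂ)))) : ℂ) * I) *
        Complex.exp (I * x) := by rw [h]
    _ = _ := by
        rw [mul_assoc, ← Complex.exp_add]
        congr 2
        push_cast
        ring

theorem cells_qf (φ : ℂ → ℝ) (p r a b : ℂ) (x x' θ θ' : ℝ)
    (ha : Real.exp (φ p) * ‖a‖ = 1) (hb : Real.exp (φ r) * ‖b‖ = 1)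
    (hθ : θ = Complex.arg (a * Complex.exp (-(I * (x:ℂ)))))
    (hθ' : θ' = Complex.arg (b * Complex.exp (-(I * (x':ℂ))))) :
    qf φ p r a b =
      Complex.exp (I * ((θ' - θ + (x' - x) - Lam φ p (r - p) : ℝ) : ℂ)) := by
  have h1 := cells_polar a x
  have h2 := cells_polar b x'
  rw [← hθ] at h1
  rw [← hθ'] at h2
  have hna : (‖a‖ : ℂ) ≠ 0 := by
    intro h0
    have h3 : ‖a‖ = 0 := by exact_mod_cast h0
    rw [h3, mul_zero] at ha
    exact zero_ne_one ha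
  have hea : Complex.exp (φ p : ℂ) * (‖a‖ : ℂ) = 1 := by
    have := congrArg (fun t : ℝ => (t : ℂ)) ha
    simpa using this
  have heb : Complex.exp (φ r : ℂ) * (‖b‖ : ℂ) = 1 := by
    have := congrArg (fun t : ℝ => (t : ℂ)) hb
    simpa using this
  have hexp : ((Real.exp (φ r - φ p) : ℝ) : ℂ) * ((‖b‖ : ℂ) / (‖a‖ : ℂ)) = 1 := by
    rw [Complex.ofReal_exp, Complex.ofReal_sub, Complex.exp_sub]
    have h4 : Complex.exp (φ p : ℂ) ≠ 0 := Complex.exp_ne_zero _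
    rw [div_mul_div_comm, heb, hea, div_one]
  unfold qf
  calc b / a * ((Real.exp (φ r - φ p) : ℝ) : ℂ) *
      Complex.exp (-(I * ((Lam φ p (r - p) : ℝ) : ℂ)))
      = ((‖b‖ : ℂ) * Complex.exp (I * ((θ' + x' : ℝ) : ℂ))) /
        ((‖a‖ : ℂ) * Complex.exp (I * ((θ + x : ℝ) : ℂ))) *
        ((Real.exp (φ r - φ p) : ℝ) : ℂ) *
        Complex.exp (-(I * ((Lam φ p (r - p) : ℝ) : ℂ))) := by rw [← h1, ← h2]
    _ = (((Real.exp (φ r - φ p) : ℝ) : ℂ) * ((‖b‖ : ℂ) / (‖a‖ : ℂ))) *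
        (Complex.exp (I * ((θ' + x' : ℝ) : ℂ)) / Complex.exp (I * ((θ + x : ℝ) : ℂ)) *
        Complex.exp (-(I * ((Lam φ p (r - p) : ℝ) : ℂ)))) := by
          rw [mul_div_mul_comm]
          ring
    _ = Complex.exp (I * ((θ' + x' : ℝ) : ℂ)) / Complex.exp (I * ((θ + x : ℝ) : ℂ)) *
        Complex.exp (-(I * ((Lam φ p (r - p) : ℝ) : ℂ))) := by rw [hexp, one_mul]
    _ = _ := by
        rw [← Complex.exp_sub, ← Complex.exp_add]
        congr 1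
        push_cast
        ring

theorem cells_floor (x s : ℝ) (hs : 0 < s) (hx : 0 ≤ x) :
    0 ≤ x - (⌊x / s⌋₊ : ℝ) * s ∧ x - (⌊x / s⌋₊ : ℝ) * s ≤ s := by
  have h1 := Nat.floor_le (div_nonneg hx hs.le)
  have h2 := Nat.lt_floor_add_one (x / s)
  rw [le_div_iff₀ hs] at h1
  rw [div_lt_iff₀ hs] at h2
  constructor
  · linarith
  · linarith

theorem cells_idx (x s X : ℝ) (hs : 0 < s) (hX : x ≤ X) : ⌊x / s⌋₊ < ⌊X / s⌋₊ + 1 :=
  Nat.lt_succ_of_le (Nat.floor_le_floor (div_le_div_of_nonneg_right hX hs.le))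

theorem cells_code (m i i' x x' : ℕ) (hi : i < m) (hi' : i' < m) (h : i + m * x = i' + m * x') :
    i = i' ∧ x = x' := by
  have hm : 0 < m := by omega
  have h1 : (i + m * x) % m = i := by
    rw [Nat.add_mul_mod_self_left, Nat.mod_eq_of_lt hi]
  have h2 : (i' + m * x') % m = i' := by
    rw [Nat.add_mul_mod_self_left, Nat.mod_eq_of_lt hi']
  have h3 : i = i' := by rw [← h1, ← h2, h]
  refine ⟨h3, ?_⟩
  rw [h3] at h
  exact Nat.eq_of_mul_eq_mul_left hm (Nat.add_left_cancel h)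

theorem cells_lt (m i x M : ℕ) (hi : i < m) (hx : x < M) : i + m * x < m * M := by
  calc i + m * x < m + m * x := by omega
    _ = m * (x + 1) := by ring
    _ ≤ m * M := Nat.mul_le_mul_left m hx

theorem cells_lam (φ : ℂ → ℝ) (hφ : ContDiffOn ℝ ∞ φ UH) (c C0 : ℝ) (p : ℂ) (hC0 : 0 ≤ C0)
    (hball : Metric.closedBall p c ⊆ UH)
    (hlip : ∀ x ∈ Metric.closedBall p c, ∀ y ∈ Metric.closedBall p c,
        ‖fderiv ℝ φ y - fderiv ℝ φ x‖ ≤ C0 * ‖y - x‖) (δ : ℝ) (hδ0 : 0 ≤ δ) (hδ : δ ≤ c)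
    (V p0 : ℂ) (hV : ‖V‖ ≤ δ) (hp0 : ‖p - p0‖ ≤ δ) :
    |fderiv ℝ φ p0 (I * V) - Lam φ p V| ≤ 2 * C0 * δ ^ 2 := by
  have hUo : IsOpen UH := isOpen_lt continuous_const Complex.continuous_im
  have hmem : ∀ σ ∈ Icc (0:ℝ) 1, ‖(σ : ℂ) * V‖ ≤ δ := by
    intro σ hσ
    rw [norm_mul, Complex.norm_real, Real.norm_eq_abs, abs_of_nonneg hσ.1]
    calc σ * ‖V‖ ≤ 1 * δ := mul_le_mul hσ.2 hV (norm_nonneg _) zero_le_one
      _ = δ := one_mul δ
  have hmem2 : ∀ σ ∈ Icc (0:ℝ) 1, p + (σ : ℂ) * V ∈ Metric.closedBall p c := by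
    intro σ hσ
    rw [mem_closedBall_iff_norm, add_sub_cancel_left]
    exact (hmem σ hσ).trans hδ
  have hp0m : p0 ∈ Metric.closedBall p c := by
    rw [mem_closedBall_iff_norm, norm_sub_rev]
    exact hp0.trans hδ
  have hcont : ContinuousOn (fun σ : ℝ => fderiv ℝ φ (p + (σ : ℂ) * V) (I * V)) (Icc 0 1) := by
    have hf : ContinuousOn (fderiv ℝ φ) UH := hφ.continuousOn_fderiv_of_isOpen hUo (by simp)
    have hl : ContinuousOn (fun σ : ℝ => p + (σ : ℂ) * V) (Icc 0 1) := by fun_prop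
    exact (hf.comp hl (fun σ hσ => hball (hmem2 σ hσ))).clm_apply continuousOn_const
  have hint : IntervalIntegrable (fun σ : ℝ => fderiv ℝ φ (p + (σ : ℂ) * V) (I * V)) volume 0 1 :=
    (by rw [← uIcc_of_le (zero_le_one (α := ℝ))] at hcont; exact hcont.intervalIntegrable)
  have heq : fderiv ℝ φ p0 (I * V) - Lam φ p V =
      ∫ σ in (0:ℝ)..1, (fderiv ℝ φ p0 (I * V) - fderiv ℝ φ (p + (σ : ℂ) * V) (I * V)) := by
    rw [intervalIntegral.integral_sub intervalIntegrable_const hint]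
    rw [intervalIntegral.integral_const, sub_zero, one_smul]
    rfl
  rw [heq, ← Real.norm_eq_abs]
  have hb := intervalIntegral.norm_integral_le_of_norm_le_const (a := (0:ℝ)) (b := 1)
    (f := fun σ : ℝ => (fderiv ℝ φ p0 (I * V) - fderiv ℝ φ (p + (σ : ℂ) * V) (I * V)))
    (C := 2 * C0 * δ ^ 2) (by
      intro σ hσ
      rw [uIoc_of_le zero_le_one] at hσ
      have hσ' : σ ∈ Icc (0:ℝ) 1 := ⟨hσ.1.le, hσ.2⟩
      have h1 : fderiv ℝ φ p0 (I * V) - fderiv ℝ φ (p + (σ : ℂ) * V) (I * V) =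
          (fderiv ℝ φ p0 - fderiv ℝ φ (p + (σ : ℂ) * V)) (I * V) := by
        rfl
      rw [h1]
      refine (ContinuousLinearMap.le_opNorm _ _).trans ?_
      have h2 := hlip _ (hmem2 σ hσ') p0 hp0m
      have h3 : ‖p0 - (p + (σ : ℂ) * V)‖ ≤ 2 * δ := by
        have h4 : p0 - (p + (σ : ℂ) * V) = -(p - p0) - (σ : ℂ) * V := by ring
        rw [h4]
        refine (norm_sub_le _ _).trans ?_
        rw [norm_neg]
        linarith [hmem σ hσ']
      have h5 : ‖I * V‖ ≤ δ := by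
        rw [norm_mul, Complex.norm_I, one_mul]
        exact hV
      calc ‖fderiv ℝ φ p0 - fderiv ℝ φ (p + (σ : ℂ) * V)‖ * ‖I * V‖
          ≤ (C0 * (2 * δ)) * δ := mul_le_mul (h2.trans (mul_le_mul_of_nonneg_left h3 hC0)) h5
            (norm_nonneg _) (by positivity)
        _ = 2 * C0 * δ ^ 2 := by ring)
  rw [sub_zero, abs_one, mul_one] at hb
  exact hb

theorem cells (φ : ℂ → ℝ) (hφ : ContDiffOn ℝ ∞ φ UH) (K : Set ℂ) (hK : IsCompact K) (hKU : K ⊆ UH) :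
    ∃ C : ℝ, 1 ≤ C ∧ ∃ c : ℝ, 0 < c ∧ ∀ δ1 δ2 : ℝ, 0 < δ1 → δ1 ≤ c → 0 < δ2 → δ2 ≤ 1 →
      ∃ n : ℕ, (n : ℝ) ≤ C / (δ1 ^ 2 * δ2) ∧ ∃ f : ℂ → ℂ → ℕ,
        (∀ p ∈ K, ∀ a, Real.exp (φ p) * ‖a‖ = 1 → f p a < n) ∧
        ∀ p ∈ K, ∀ r ∈ K, ∀ a b : ℂ, Real.exp (φ p) * ‖a‖ = 1 → Real.exp (φ r) * ‖b‖ = 1 →
          f p a = f r b → ‖r - p‖ ≤ δ1 ∧ ‖qf φ p r a b - 1‖ ≤ δ2 + C * δ1 ^ 2 := by
  obtain ⟨c, hc0, hc1, C0, hC0, hball⟩ := cells_lip φ hφ K hK hKU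
  obtain ⟨R, hR0, hR⟩ : ∃ R : ℝ, 0 ≤ R ∧ ∀ p ∈ K, ‖p‖ ≤ R := by
    obtain ⟨R, hR⟩ := hK.isBounded.exists_norm_le
    exact ⟨|R|, abs_nonneg R, fun p hp => (hR p hp).trans (le_abs_self R)⟩
  refine ⟨8 * (4 * R + 1) ^ 2 + 2 * C0 + 1, by nlinarith [sq_nonneg (4 * R + 1)], c, hc0, ?_⟩
  intro δ1 δ2 h1 h1c h2 h2c
  have hs : 0 < δ1 / 2 := by linarith
  obtain ⟨s, hsd⟩ : ∃ s, s = δ1 / 2 := ⟨_, rfl⟩
  rw [← hsd] at hs
  obtain ⟨m, hm⟩ : ∃ m, m = ⌊(2 * R) / s⌋₊ + 1 := ⟨_, rfl⟩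
  obtain ⟨m2, hm2⟩ : ∃ m2, m2 = ⌊(2 * π) / δ2⌋₊ + 1 := ⟨_, rfl⟩
  obtain ⟨ii, hii⟩ : ∃ ii : ℂ → ℕ, ∀ p, ii p = ⌊(p.re + R) / s⌋₊ := ⟨_, fun _ => rfl⟩
  obtain ⟨jj, hjj⟩ : ∃ jj : ℂ → ℕ, ∀ p, jj p = ⌊(p.im + R) / s⌋₊ := ⟨_, fun _ => rfl⟩
  obtain ⟨gp, hgp⟩ : ∃ gp : ℕ → ℕ → ℂ, ∀ i j, gp i j = ⟨-R + i * s, -R + j * s⟩ :=
    ⟨_, fun _ _ => rfl⟩
  obtain ⟨xx, hxx⟩ : ∃ xx : ℂ → ℝ, ∀ p, xx p =
      fderiv ℝ φ (gp (ii p) (jj p)) (I * (p - gp (ii p) (jj p))) := ⟨_, fun _ => rfl⟩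
  obtain ⟨th, hth⟩ : ∃ th : ℂ → ℂ → ℝ, ∀ p a, th p a =
      Complex.arg (a * Complex.exp (-(I * ((xx p : ℝ) : ℂ)))) := ⟨_, fun _ _ => rfl⟩
  obtain ⟨kk, hkk⟩ : ∃ kk : ℂ → ℂ → ℕ, ∀ p a, kk p a = ⌊(th p a + π) / δ2⌋₊ :=
    ⟨_, fun _ _ => rfl⟩
  have hre : ∀ p ∈ K, 0 ≤ p.re + R ∧ p.re + R ≤ 2 * R := by
    intro p hp
    have h3 := (Complex.abs_re_le_norm p).trans (hR p hp)
    rw [abs_le] at h3
    constructor <;> linarith
  have him : ∀ p ∈ K, 0 ≤ p.im + R ∧ p.im + R ≤ 2 * R := by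
    intro p hp
    have h3 := (Complex.abs_im_le_norm p).trans (hR p hp)
    rw [abs_le] at h3
    constructor <;> linarith
  have hiim : ∀ p ∈ K, ii p < m := by
    intro p hp
    rw [hii, hm]
    exact cells_idx _ _ _ hs (hre p hp).2
  have hjjm : ∀ p ∈ K, jj p < m := by
    intro p hp
    rw [hjj, hm]
    exact cells_idx _ _ _ hs (him p hp).2
  have hthr : ∀ p a, 0 ≤ th p a + π ∧ th p a + π ≤ 2 * π := by
    intro p a
    have h3 := Complex.neg_pi_lt_arg (a * Complex.exp (-(I * ((xx p : ℝ) : ℂ))))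
    have h4 := Complex.arg_le_pi (a * Complex.exp (-(I * ((xx p : ℝ) : ℂ))))
    rw [← hth] at h3 h4
    constructor <;> linarith
  have hkkm : ∀ p a, kk p a < m2 := by
    intro p a
    rw [hkk, hm2]
    exact cells_idx _ _ _ h2 (hthr p a).2
  have hgpd : ∀ p ∈ K, ‖p - gp (ii p) (jj p)‖ ≤ δ1 := by
    intro p hp
    refine (Complex.norm_le_abs_re_add_abs_im _).trans ?_
    rw [Complex.sub_re, Complex.sub_im, hgp]
    show |p.re - (-R + (ii p : ℝ) * s)| + |p.im - (-R + (jj p : ℝ) * s)| ≤ δ1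
    have h3 := cells_floor (p.re + R) s hs (hre p hp).1
    have h4 := cells_floor (p.im + R) s hs (him p hp).1
    rw [← hii] at h3
    rw [← hjj] at h4
    have h5 : p.re - (-R + (ii p : ℝ) * s) = p.re + R - (ii p : ℝ) * s := by ring
    have h6 : p.im - (-R + (jj p : ℝ) * s) = p.im + R - (jj p : ℝ) * s := by ring
    rw [h5, h6, abs_of_nonneg h3.1, abs_of_nonneg h4.1]
    linarith [h3.2, h4.2]
  refine ⟨m * (m * m2), ?_, fun p a => ii p + m * (jj p + m * kk p a), ?_, ?_⟩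
  · -- the number of cells
    have h3 : (m : ℝ) ≤ (4 * R + 1) / δ1 := by
      rw [hm, le_div_iff₀ h1]
      push_cast
      have h4 : (⌊(2 * R) / s⌋₊ : ℝ) ≤ (2 * R) / s := Nat.floor_le (by positivity)
      have h5 : (2 * R) / s * δ1 = 4 * R := by
        rw [hsd]
        field_simp
        ring
      have h6 : (⌊(2 * R) / s⌋₊ : ℝ) * δ1 ≤ (2 * R) / s * δ1 :=
        mul_le_mul_of_nonneg_right h4 h1.le
      have h7 : δ1 ≤ 1 := h1c.trans hc1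
      nlinarith
    have h8 : (m2 : ℝ) ≤ 8 / δ2 := by
      rw [hm2, le_div_iff₀ h2]
      push_cast
      have h4 : (⌊(2 * π) / δ2⌋₊ : ℝ) ≤ (2 * π) / δ2 := Nat.floor_le (by positivity)
      have h5 : (2 * π) / δ2 * δ2 = 2 * π := by
        field_simp
      have h6 : (⌊(2 * π) / δ2⌋₊ : ℝ) * δ2 ≤ (2 * π) / δ2 * δ2 :=
        mul_le_mul_of_nonneg_right h4 h2.le
      have h7 : π < 3.15 := Real.pi_lt_d2
      nlinarith
    have hm0 : (0:ℝ) ≤ m := Nat.cast_nonneg _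
    have hm20 : (0:ℝ) ≤ m2 := Nat.cast_nonneg _
    push_cast
    have h9 : (0:ℝ) ≤ (4 * R + 1) / δ1 := by positivity
    calc (m : ℝ) * (m * m2) ≤ ((4 * R + 1) / δ1) * (((4 * R + 1) / δ1) * (8 / δ2)) :=
          mul_le_mul h3 (mul_le_mul h3 h8 hm20 h9) (by positivity) h9
      _ = (8 * (4 * R + 1) ^ 2) / (δ1 ^ 2 * δ2) := by
          field_simp
      _ ≤ (8 * (4 * R + 1) ^ 2 + 2 * C0 + 1) / (δ1 ^ 2 * δ2) :=
          div_le_div_of_nonneg_right (by linarith) (by positivity)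
  · intro p hp a _
    exact cells_lt m _ _ _ (hiim p hp) (cells_lt m _ _ _ (hjjm p hp) (hkkm p a))
  · intro p hp r hr a b ha hb hf
    obtain ⟨hi, hf2⟩ := cells_code m _ _ _ _ (hiim p hp) (hiim r hr) hf
    obtain ⟨hj, hk⟩ := cells_code m _ _ _ _ (hjjm p hp) (hjjm r hr) hf2
    have hV : ‖r - p‖ ≤ δ1 := by
      refine (Complex.norm_le_abs_re_add_abs_im _).trans ?_
      rw [Complex.sub_re, Complex.sub_im]
      have h3 := cells_floor (p.re + R) s hs (hre p hp).1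
      have h4 := cells_floor (p.im + R) s hs (him p hp).1
      have h5 := cells_floor (r.re + R) s hs (hre r hr).1
      have h6 := cells_floor (r.im + R) s hs (him r hr).1
      rw [← hii] at h3 h5
      rw [← hjj] at h4 h6
      rw [← hi] at h5
      rw [← hj] at h6
      have h7 : |r.re - p.re| ≤ s := by
        rw [abs_le]
        constructor <;> linarith [h3.1, h3.2, h5.1, h5.2]
      have h8 : |r.im - p.im| ≤ s := by
        rw [abs_le]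
        constructor <;> linarith [h4.1, h4.2, h6.1, h6.2]
      linarith
    refine ⟨hV, ?_⟩
    have hq := cells_qf φ p r a b (xx p) (xx r) (th p a) (th r b) ha hb (hth p a) (hth r b)
    rw [hq]
    refine (Real.norm_exp_I_mul_ofReal_sub_one_le).trans ?_
    rw [Real.norm_eq_abs]
    have h3 := cells_floor (th p a + π) δ2 h2 (hthr p a).1
    have h4 := cells_floor (th r b + π) δ2 h2 (hthr r b).1
    rw [← hkk] at h3 h4
    rw [← hk] at h4
    have h5 : |th r b - th p a| ≤ δ2 := by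
      rw [abs_le]
      constructor <;> linarith [h3.1, h3.2, h4.1, h4.2]
    have h6 : xx r - xx p = fderiv ℝ φ (gp (ii p) (jj p)) (I * (r - p)) := by
      rw [hxx, hxx, ← hi, ← hj, ← map_sub]
      congr 1
      ring
    rw [h6]
    have h7 := cells_lam φ hφ c C0 p hC0 (hball p hp).1 (hball p hp).2 δ1 h1.le h1c (r - p)
      (gp (ii p) (jj p)) hV (hgpd p hp)
    have h8 : th r b - th p a + fderiv ℝ φ (gp (ii p) (jj p)) (I * (r - p)) - Lam φ p (r - p) =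
        (th r b - th p a) +
          (fderiv ℝ φ (gp (ii p) (jj p)) (I * (r - p)) - Lam φ p (r - p)) := by ring
    rw [h8]
    refine (abs_add_le _ _).trans ?_
    have h9 : 2 * C0 * δ1 ^ 2 ≤ (8 * (4 * R + 1) ^ 2 + 2 * C0 + 1) * δ1 ^ 2 := by
      apply mul_le_mul_of_nonneg_right _ (sq_nonneg _)
      nlinarith [sq_nonneg (4 * R + 1)]
    linarith

end Pool.H110K
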