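import Pool.Agent.H110K.Defs
import Pool.Agent.H110K.P_mobius_basic
import Pool.Agent.H110K.P_K2

set_option autoImplicit false

open Complex Set Filter Topology MeasureTheory
open scoped Real ContDiff

namespace Pool.H110K



theorem overlap_cnj (Γ : Subgroup SL2) (φ : ℂ → ℝ) (S : Surf Γ φ) (lm : ℝ) (hlm : 0 < lm) :
    ∃ e4 : ℝ, 0 < e4 ∧
    ∀ (z v : ℝ → ℂ) (h : SL2) (ℓ : ℝ) (z' v' : ℝ → ℂ) (h' : SL2) (ℓ' : ℝ),
      CG Γ φ z v h ℓ → CG Γ φ z' v' h' ℓ' → Prm Γ z' ℓ' →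
      ∀ T : ℝ, lm ≤ T → 2 * T / 3 < ℓ → ℓ ≤ T → 2 * T / 3 < ℓ' → ℓ' ≤ T →
      ∀ ε : ℝ, 0 < ε → ε ≤ e4 →
      (∀ t, 0 ≤ t → t ≤ 2 * T → ‖z' t - z t‖ ≤ ε * (z t).im) →
      ∀ p ∈ UH, mob h p = mob h' p := by
  obtain ⟨C, hC, e3, he3, K⟩ := K2 Γ φ S
  have hC0 : 0 < C := by linarith
  refine ⟨min e3 (lm / (4 * C)), lt_min he3 (by positivity), ?_⟩
  intro z v h ℓ z' v' h' ℓ' hcg hcg' hprm T hT hl1 hl2 hl1' hl2' ε hε hε4 hclose p hp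
  have hεe3 : ε ≤ e3 := hε4.trans (min_le_left _ _)
  have hεlm : ε ≤ lm / (4 * C) := hε4.trans (min_le_right _ _)
  obtain ⟨-, a, ha, hper⟩ := K z v h ℓ z' v' h' ℓ' hcg hcg' T hl2 hl2' ε hε hεe3 hclose
  have hCε : C * ε ≤ lm / 4 := by
    calc C * ε ≤ C * (lm / (4 * C)) := mul_le_mul_of_nonneg_left hεlm hC0.le
      _ = lm / 4 := by field_simp
  have ha' := abs_le.1 (ha.trans hCε)
  have hT0 : 0 < T := by linarith
  obtain ⟨n, hn⟩ := hprm h hcg.mem (ℓ + a) (fun t => by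
    rw [← add_assoc]; exact hper t)
  have hℓ'0 : 0 < ℓ' := hcg'.pos
  have hn1 : 0 < n := by
    by_contra hc
    push Not at hc
    have h1 : (n : ℝ) ≤ 0 := by exact_mod_cast hc
    have h2 : (n : ℝ) * ℓ' ≤ 0 := mul_nonpos_of_nonpos_of_nonneg h1 hℓ'0.le
    rw [← hn] at h2
    linarith [ha'.1]
  have hn2 : n < 2 := by
    by_contra hc
    push Not at hc
    have h1 : (2 : ℝ) ≤ n := by exact_mod_cast hc
    have h2 : 2 * ℓ' ≤ (n : ℝ) * ℓ' := mul_le_mul_of_nonneg_right h1 hℓ'0.le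
    rw [← hn] at h2
    linarith [ha'.2]
  have hn3 : n = 1 := by omega
  rw [hn3, Int.cast_one, one_mul] at hn
  have hz0 : z' 0 ∈ UH := hcg'.geo.mem 0
  have h1 : mob h (z' 0) = mob h' (z' 0) := by
    rw [← hper 0, ← hcg'.per 0, add_assoc, hn]
  have hfix : mob (h'⁻¹ * h) (z' 0) = z' 0 := by
    have e1 := (mobius_basic h'⁻¹ h (z' 0) hz0).2.2.2.1
    have e2 := (mobius_basic h' 1 (z' 0) hz0).2.2.2.2.2.2.2.1
    rw [e1, h1, e2]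
  have hfree := S.free (h'⁻¹ * h) (Γ.mul_mem (Γ.inv_mem hcg'.mem) hcg.mem) (z' 0) hz0 hfix p hp
  have e1 := (mobius_basic h'⁻¹ h p hp).2.2.2.1
  have hmem : mob h p ∈ UH := (mobius_basic h 1 p hp).2.2.1
  have e3' := (mobius_basic h' 1 (mob h p) hmem).2.2.2.2.2.2.2.2
  rw [e1] at hfree
  rw [hfree] at e3'
  exact e3'.symm

end Pool.H110K
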