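import Pool.Agent.H110K.Defs

set_option autoImplicit false

open Complex Set Filter Topology MeasureTheory
open scoped Real ContDiff

namespace Pool.H110K



theorem boot (C c0 : ℝ) (hC : 1 ≤ C) (hc0 : 0 < c0) : ∃ κ0 : ℝ, 0 < κ0 ∧
    ∀ (ξ q : ℝ → ℂ) (T κ : ℝ), 1 ≤ T → 0 < κ → κ ≤ κ0 → Continuous ξ → Continuous q →
      (∀ t, 0 ≤ t → t ≤ 2 * T → ‖ξ t‖ ≤ c0 →
        (∃ ξ' : ℂ, HasDerivAt ξ ξ' t ∧ ‖ξ'‖ ≤ C * (‖ξ t‖ ^ 2 + ‖q t - 1‖)) ∧
        (∃ q' : ℂ, HasDerivAt q q' t ∧ ‖q'‖ ≤ C * ‖ξ t‖ ^ 3)) →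
      ‖ξ 0‖ ≤ C * κ / T → ‖q 0 - 1‖ ≤ κ / T ^ 2 →
      ∀ t, 0 ≤ t → t ≤ 2 * T → ‖ξ t‖ ≤ 10 * C * κ / T := by
  have hC0 : 0 < C := by linarith
  refine ⟨min (c0 / (10 * C)) (1 / (2000 * C ^ 4)), by positivity, ?_⟩
  intro ξ q T κ hT hκ hκ0 hξc hqc hder hξ0 hq0
  have hT0 : 0 < T := by linarith
  have h1 : 10 * C * κ ≤ c0 := by
    have := hκ0.trans (min_le_left _ _)
    rw [le_div_iff₀ (by positivity)] at this
    linarith
  have h2 : 2000 * C ^ 4 * κ ≤ 1 := by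
    have := hκ0.trans (min_le_right _ _)
    rw [le_div_iff₀ (by positivity)] at this
    linarith
  have hC3 : 1 ≤ C ^ 3 := one_le_pow₀ hC
  have hC4 : C ^ 3 ≤ C ^ 4 := pow_le_pow_right₀ hC (by norm_num)
  have h3 : 200 * C ^ 3 * κ ≤ 1 := by nlinarith [mul_le_mul_of_nonneg_right hC4 hκ.le]
  have hκ1 : κ ≤ 1 := by nlinarith
  set R := 10 * C * κ / T with hR
  have hR0 : 0 < R := by positivity
  have hRc : R ≤ c0 := by
    refine le_trans ?_ h1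
    rw [hR, div_le_iff₀ hT0]
    have : 0 ≤ 10 * C * κ := by positivity
    nlinarith
  -- the main estimate
  have main : ∀ t, 0 ≤ t → t ≤ 2 * T → (∀ s ∈ Icc (0 : ℝ) t, ‖ξ s‖ ≤ R) → ‖ξ t‖ < R := by
    intro t ht0 htT hs
    have hd : ∀ s ∈ Icc (0 : ℝ) t, (HasDerivAt ξ (deriv ξ s) s ∧
        ‖deriv ξ s‖ ≤ C * (‖ξ s‖ ^ 2 + ‖q s - 1‖)) ∧
        (HasDerivAt q (deriv q s) s ∧ ‖deriv q s‖ ≤ C * ‖ξ s‖ ^ 3) := by
      intro s hst
      obtain ⟨⟨a, ha, ha'⟩, ⟨b, hb, hb'⟩⟩ := hder s hst.1 (hst.2.trans htT) ((hs s hst).trans hRc)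
      exact ⟨⟨ha.deriv.symm ▸ ha, ha.deriv.symm ▸ ha'⟩, ⟨hb.deriv.symm ▸ hb, hb.deriv.symm ▸ hb'⟩⟩
    have hq1 : ∀ s ∈ Icc (0 : ℝ) t, ‖q s - 1‖ ≤ 2 * (κ / T ^ 2) := by
      intro s hst
      have hmv := Convex.norm_image_sub_le_of_norm_hasDerivWithin_le (f := q) (f' := deriv q)
        (C := C * R ^ 3) (s := Icc (0 : ℝ) s) (x := 0) (y := s)
        (fun x hx => (hd x ⟨hx.1, hx.2.trans hst.2⟩).2.1.hasDerivWithinAt)
        (fun x hx => (hd x ⟨hx.1, hx.2.trans hst.2⟩).2.2.trans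
          (mul_le_mul_of_nonneg_left (pow_le_pow_left₀ (norm_nonneg _)
            (hs x ⟨hx.1, hx.2.trans hst.2⟩) 3) hC0.le))
        (convex_Icc 0 s) ⟨le_rfl, hst.1⟩ ⟨hst.1, le_rfl⟩
      rw [sub_zero, Real.norm_of_nonneg hst.1] at hmv
      have e1 : q s - 1 = (q s - q 0) + (q 0 - 1) := by ring
      have hsT : s ≤ 2 * T := hst.2.trans htT
      have h4 : C * R ^ 3 * s ≤ κ / T ^ 2 := by
        calc C * R ^ 3 * s ≤ C * R ^ 3 * (2 * T) :=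
              mul_le_mul_of_nonneg_left hsT (by positivity)
          _ = (2000 * C ^ 4 * κ) * κ * (κ / T ^ 2) := by
              rw [hR]; field_simp; ring
          _ ≤ 1 * (κ / T ^ 2) := by
              apply mul_le_mul_of_nonneg_right _ (by positivity)
              nlinarith
          _ = κ / T ^ 2 := one_mul _
      calc ‖q s - 1‖ = ‖(q s - q 0) + (q 0 - 1)‖ := by rw [← e1]
        _ ≤ ‖q s - q 0‖ + ‖q 0 - 1‖ := norm_add_le _ _
        _ ≤ κ / T ^ 2 + κ / T ^ 2 := add_le_add (hmv.trans h4) hq0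
        _ = 2 * (κ / T ^ 2) := by ring
    have hmv := Convex.norm_image_sub_le_of_norm_hasDerivWithin_le (f := ξ) (f' := deriv ξ)
      (C := C * (R ^ 2 + 2 * (κ / T ^ 2))) (s := Icc (0 : ℝ) t) (x := 0) (y := t)
      (fun x hx => (hd x hx).1.1.hasDerivWithinAt)
      (fun x hx => (hd x hx).1.2.trans (mul_le_mul_of_nonneg_left
        (add_le_add (pow_le_pow_left₀ (norm_nonneg _) (hs x hx) 2) (hq1 x hx)) hC0.le))
      (convex_Icc 0 t) ⟨le_rfl, ht0⟩ ⟨ht0, le_rfl⟩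
    rw [sub_zero, Real.norm_of_nonneg ht0] at hmv
    have h5 : C * (R ^ 2 + 2 * (κ / T ^ 2)) * t ≤ 5 * (C * κ / T) := by
      calc C * (R ^ 2 + 2 * (κ / T ^ 2)) * t ≤ C * (R ^ 2 + 2 * (κ / T ^ 2)) * (2 * T) :=
            mul_le_mul_of_nonneg_left htT (by positivity)
        _ = (200 * C ^ 3 * κ) * (κ / T) + 4 * (C * κ / T) := by
            rw [hR]; field_simp; ring
        _ ≤ 1 * (κ / T) + 4 * (C * κ / T) := by
            have : 0 ≤ κ / T := by positivity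
            nlinarith
        _ ≤ C * κ / T + 4 * (C * κ / T) := by
            have h6 : κ / T ≤ C * κ / T := by
              apply div_le_div_of_nonneg_right _ hT0.le
              nlinarith
            linarith
        _ = 5 * (C * κ / T) := by ring
    have e2 : ξ t = (ξ t - ξ 0) + ξ 0 := by ring
    have h7 : 0 < C * κ / T := by positivity
    have h8 : R = 10 * (C * κ / T) := by rw [hR]; ring
    calc ‖ξ t‖ = ‖(ξ t - ξ 0) + ξ 0‖ := by rw [← e2]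
      _ ≤ ‖ξ t - ξ 0‖ + ‖ξ 0‖ := norm_add_le _ _
      _ ≤ 5 * (C * κ / T) + C * κ / T := add_le_add (hmv.trans h5) hξ0
      _ < R := by rw [h8]; linarith
  -- bootstrap
  have hnc : Continuous fun t => ‖ξ t‖ := hξc.norm
  have h00 : ‖ξ 0‖ < R := by
    have h7 : 0 < C * κ / T := by positivity
    have h8 : R = 10 * (C * κ / T) := by rw [hR]; ring
    rw [h8]; linarith
  intro t1 ht10 ht1T
  by_contra hcon
  push Not at hcon
  let Z : Set ℝ := {t | t ∈ Icc (0 : ℝ) t1 ∧ ‖ξ t‖ = R}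
  have hivt : ∀ s, 0 ≤ s → s ≤ t1 → R ≤ ‖ξ s‖ → ∃ z ∈ Icc (0 : ℝ) s, ‖ξ z‖ = R := by
    intro s hs0 _ hsR
    have := intermediate_value_Icc hs0 hnc.continuousOn ⟨h00.le, hsR⟩
    obtain ⟨z, hz, hz'⟩ := this
    exact ⟨z, hz, hz'⟩
  have hZne : Z.Nonempty := by
    obtain ⟨z, hz, hz'⟩ := hivt t1 ht10 le_rfl hcon.le
    exact ⟨z, hz, hz'⟩
  have hZc : IsCompact Z := by
    have : Z = Icc (0 : ℝ) t1 ∩ (fun t => ‖ξ t‖) ⁻¹' {R} := by
      ext t; rfl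
    rw [this]
    exact isCompact_Icc.inter_right (isClosed_singleton.preimage hnc)
  obtain ⟨ts, hts, hleast⟩ := hZc.exists_isLeast hZne
  have hbelow : ∀ s ∈ Icc (0 : ℝ) ts, ‖ξ s‖ ≤ R := by
    intro s hs
    by_contra hgt
    push Not at hgt
    obtain ⟨z, hz, hz'⟩ := hivt s hs.1 (hs.2.trans hts.1.2) hgt.le
    have h9 : ts ≤ z := hleast ⟨⟨hz.1, hz.2.trans (hs.2.trans hts.1.2)⟩, hz'⟩
    have h10 : s = ts := le_antisymm hs.2 (h9.trans hz.2)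
    rw [h10, hts.2] at hgt
    exact lt_irrefl _ hgt
  have := main ts hts.1.1 (hts.1.2.trans ht1T) hbelow
  rw [hts.2] at this
  exact lt_irrefl _ this

end Pool.H110K
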