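import Pool.Agent.H110K.Defs

set_option autoImplicit false

open Complex Set Filter Topology MeasureTheory
open scoped Real ContDiff

namespace Pool.H110K



/-- complex linearity -/
theorem glin (g : ℂ →L[ℝ] ℝ) (V : ℂ) : ((g V : ℝ) : ℂ) - I * ((g (I * V) : ℝ) : ℂ) =
    (((g 1 : ℝ) : ℂ) - I * ((g I : ℝ) : ℂ)) * V := by
  have h1 : g V = V.re * g 1 + V.im * g I := by
    have : V = V.re • (1 : ℂ) + V.im • I := by
      apply Complex.ext <;> simp
    conv_lhs => rw [this]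
    rw [map_add, map_smul, map_smul]
    simp
  have h2 : g (I * V) = -V.im * g 1 + V.re * g I := by
    have : I * V = (-V.im) • (1 : ℂ) + V.re • I := by
      apply Complex.ext <;> simp
    conv_lhs => rw [this]
    rw [map_add, map_smul, map_smul]
    simp
  rw [h1, h2]
  apply Complex.ext
  · simp; ring
  · simp; ring

theorem xi_deriv (B : ℝ) : ∃ c0 : ℝ, 0 < c0 ∧ ∃ C : ℝ, 1 ≤ C ∧ ∀ φ : ℂ → ℝ, Good φ B →
    ∀ z v w u : ℝ → ℂ, IsGeo φ z v → IsGeo φ w u → ∀ t : ℝ, ‖w t - z t‖ ≤ c0 * (z t).im →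
      ∃ ξ' : ℂ, HasDerivAt (fun s => (w s - z s) / v s) ξ' t ∧
        ‖ξ'‖ ≤ C * (‖(w t - z t) / v t‖ ^ 2 + ‖qf φ (z t) (w t) (v t) (u t) - 1‖) := by
  by_cases hB : 1 ≤ B
  swap
  · exact ⟨1, one_pos, 1, le_rfl, fun φ hφ => absurd hφ.one_le hB⟩
  have hB0 : 0 < B := by linarith
  refine ⟨1 / (4 * B), by positivity, 3 + (16 * B ^ 2 + 2 * B) * Real.exp (2 * B), ?_, ?_⟩
  · have : 0 ≤ (16 * B ^ 2 + 2 * B) * Real.exp (2 * B) := by positivity
    linarith
  intro φ hφ z v w u hz hw t ht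
  have hy0 : 0 < (z t).im := hz.mem t
  have hv0 : v t ≠ 0 := by
    intro h
    have := hz.unit t
    rw [h] at this
    simp at this
  have hder := ((hw.dz t).sub (hz.dz t)).div (hz.dv t) hv0
  generalize hzz : z t = p at *
  generalize hww : w t = r at *
  generalize hvv : v t = V at *
  generalize huu : u t = U at *
  simp only [Pi.sub_apply, hzz, hww] at hder
  obtain ⟨Δ, hΔ⟩ : ∃ Δ, Δ = r - p := ⟨_, rfl⟩
  rw [← hΔ] at ht hder ⊢
  have hrp : r = p + Δ := by rw [hΔ]; ring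
  obtain ⟨y, hy⟩ : ∃ y, y = p.im := ⟨_, rfl⟩
  rw [← hy] at ht hy0
  obtain ⟨g, hg⟩ : ∃ g, g = fderiv ℝ φ p := ⟨_, rfl⟩
  rw [← hg] at hder
  refine ⟨U / V - 1 + (((g Δ : ℝ) : ℂ) - I * ((g (I * Δ) : ℝ) : ℂ)), ?_, ?_⟩
  · have e : U / V - 1 + (((g Δ : ℝ) : ℂ) - I * ((g (I * Δ) : ℝ) : ℂ)) =
        ((U - V) * V - Δ * (-(((g V : ℝ) : ℂ) - I * ((g (I * V) : ℝ) : ℂ)) * V)) / V ^ 2 := by
      rw [glin, glin]
      field_simp
      ring
    rw [e]
    exact hder
  · -- smallness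
    obtain ⟨δ, hδ⟩ : ∃ δ, δ = ‖Δ‖ / y := ⟨_, rfl⟩
    have hδ0 : 0 ≤ δ := by rw [hδ]; positivity
    have hΔδ : ‖Δ‖ = δ * y := by rw [hδ]; field_simp
    have hδB : 4 * B * δ ≤ 1 := by
      rw [hΔδ] at ht
      have h1 : δ ≤ 1 / (4 * B) := le_of_mul_le_mul_right ht hy0
      rw [le_div_iff₀ (by positivity)] at h1
      linarith
    have hδ4 : δ ≤ 1 / 4 := by nlinarith
    have hpUH : p ∈ UH := by
      show 0 < p.im
      rw [← hy]; exact hy0
    have hball : ∀ x ∈ Metric.closedBall p ‖Δ‖, ‖x - p‖ ≤ y / 2 := by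
      intro x hx
      rw [mem_closedBall_iff_norm] at hx
      nlinarith
    have hballUH : ∀ x ∈ Metric.closedBall p ‖Δ‖, x ∈ UH := by
      intro x hx
      have h1 := hball x hx
      have h2 := Complex.abs_im_le_norm (x - p)
      rw [Complex.sub_im, ← hy] at h2
      have h3 := (abs_le.1 (h2.trans h1)).1
      show 0 < x.im
      linarith
    have hUHopen : IsOpen UH := isOpen_lt continuous_const Complex.continuous_im
    have hDb : ∀ x ∈ Metric.closedBall p ‖Δ‖, ‖fderiv ℝ φ x - g‖ ≤ B * δ / y := by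
      intro x hx
      have h1 := hφ.g2 p hpUH x (by rw [← hy]; exact hball x hx)
      rw [← hg, ← hy] at h1
      rw [mem_closedBall_iff_norm] at hx
      have h2 : ‖fderiv ℝ φ x - g‖ * y ^ 2 ≤ B * (δ * y) := by
        rw [← hΔδ]
        exact h1.trans (mul_le_mul_of_nonneg_left hx hB0.le)
      rw [le_div_iff₀ hy0]
      have h3 : (‖fderiv ℝ φ x - g‖ * y) * y ≤ (B * δ) * y := by nlinarith
      exact le_of_mul_le_mul_right h3 hy0
    have hdiff : ∀ x ∈ UH, DifferentiableAt ℝ φ x := fun x hx =>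
      (hφ.smooth.contDiffAt (hUHopen.mem_nhds hx)).differentiableAt (by simp)
    have hcontD : ContinuousOn (fderiv ℝ φ) UH :=
      hφ.smooth.continuousOn_fderiv_of_isOpen hUHopen (by simp)
    -- Taylor
    have hT1 : |φ r - φ p - g Δ| ≤ B * δ ^ 2 := by
      have h1 := (convex_closedBall p ‖Δ‖).norm_image_sub_le_of_norm_hasFDerivWithin_le'
        (f := φ) (f' := fderiv ℝ φ) (φ := g) (C := B * δ / y)
        (fun x hx => (hdiff x (hballUH x hx)).hasFDerivAt.hasFDerivWithinAt) hDb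
        (x := p) (y := r) (Metric.mem_closedBall_self (norm_nonneg _))
        (by rw [mem_closedBall_iff_norm, ← hΔ])
      rw [← hΔ, Real.norm_eq_abs] at h1
      refine h1.trans (le_of_eq ?_)
      rw [hΔδ]; field_simp
    have hseg : ∀ σ ∈ Set.Icc (0:ℝ) 1, p + (σ : ℂ) * Δ ∈ Metric.closedBall p ‖Δ‖ := by
      intro σ hσ
      rw [mem_closedBall_iff_norm]
      simp only [add_sub_cancel_left, norm_mul, Complex.norm_real, Real.norm_eq_abs,
        abs_of_nonneg hσ.1]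
      exact mul_le_of_le_one_left (norm_nonneg _) hσ.2
    have hT2 : |Lam φ p Δ - g (I * Δ)| ≤ B * δ ^ 2 := by
      have hint : IntervalIntegrable (fun σ : ℝ => fderiv ℝ φ (p + (σ : ℂ) * Δ) (I * Δ))
          volume 0 1 := by
        apply ContinuousOn.intervalIntegrable
        rw [Set.uIcc_of_le zero_le_one]
        apply ContinuousOn.clm_apply
        · apply hcontD.comp
          · fun_prop
          · intro σ hσ
            exact hballUH _ (hseg σ hσ)
        · exact continuousOn_const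
      have h1 : Lam φ p Δ - g (I * Δ) =
          ∫ σ in (0:ℝ)..1, (fderiv ℝ φ (p + (σ : ℂ) * Δ) (I * Δ) - g (I * Δ)) := by
        rw [intervalIntegral.integral_sub hint (by simp)]
        simp [Lam]
      rw [h1, ← Real.norm_eq_abs]
      have h2 := intervalIntegral.norm_integral_le_of_norm_le_const
        (f := fun σ : ℝ => (fderiv ℝ φ (p + (σ : ℂ) * Δ) (I * Δ) - g (I * Δ)))
        (a := 0) (b := 1) (C := B * δ ^ 2) ?_
      · simpa using h2
      · intro σ hσ
        rw [Set.uIoc_of_le zero_le_one] at hσ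
        have h3 := hDb _ (hseg σ ⟨hσ.1.le, hσ.2⟩)
        rw [← sub_apply]
        refine (ContinuousLinearMap.le_opNorm _ _).trans ?_
        have h4 : ‖I * Δ‖ = δ * y := by simp [hΔδ]
        rw [h4]
        calc ‖fderiv ℝ φ (p + (σ : ℂ) * Δ) - g‖ * (δ * y) ≤ (B * δ / y) * (δ * y) :=
              mul_le_mul_of_nonneg_right h3 (by positivity)
          _ = B * δ ^ 2 := by field_simp
    have hgn : ‖g‖ * y ≤ B := by
      have := hφ.g1 p hpUH
      rwa [← hg, ← hy] at this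
    have ha1 : |g Δ| ≤ B * δ := by
      rw [← Real.norm_eq_abs]
      refine (g.le_opNorm _).trans ?_
      rw [hΔδ]
      nlinarith
    have ha2 : |g (I * Δ)| ≤ B * δ := by
      rw [← Real.norm_eq_abs]
      refine (g.le_opNorm _).trans ?_
      have h4 : ‖I * Δ‖ = δ * y := by simp [hΔδ]
      rw [h4]
      nlinarith
    -- the formula for u / v
    obtain ⟨q, hq⟩ : ∃ q, q = qf φ p r V U := ⟨_, rfl⟩
    rw [← hq]
    obtain ⟨a, ha⟩ : ∃ a : ℂ, a = ((g Δ : ℝ) : ℂ) - I * ((g (I * Δ) : ℝ) : ℂ) := ⟨_, rfl⟩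
    rw [← ha]
    obtain ⟨E, hE⟩ : ∃ E : ℂ, E = -((φ r - φ p - g Δ : ℝ) : ℂ) +
      I * ((Lam φ p Δ - g (I * Δ) : ℝ) : ℂ) := ⟨_, rfl⟩
    have hEn : ‖E‖ ≤ 2 * B * δ ^ 2 := by
      rw [hE]
      refine (norm_add_le _ _).trans ?_
      rw [norm_neg, norm_mul, Complex.norm_I, one_mul, Complex.norm_real, Complex.norm_real,
        Real.norm_eq_abs, Real.norm_eq_abs]
      linarith
    have han : ‖a‖ ≤ 2 * B * δ := by
      rw [ha]
      refine (norm_sub_le _ _).trans ?_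
      rw [norm_mul, Complex.norm_I, one_mul, Complex.norm_real, Complex.norm_real,
        Real.norm_eq_abs, Real.norm_eq_abs]
      linarith
    have hUV : U / V = q * Complex.exp (-a + E) := by
      have h1 : -a + E = -(((φ r - φ p : ℝ) : ℂ) + -(I * ((Lam φ p Δ : ℝ) : ℂ))) := by
        rw [ha, hE]
        push_cast
        ring
      rw [h1, Complex.exp_neg, Complex.exp_add, hq, qf, ← hΔ, ← Complex.ofReal_exp]
      have h2 : ((Real.exp (φ r - φ p) : ℝ) : ℂ) ≠ 0 := by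
        exact_mod_cast (Real.exp_pos _).ne'
      have h3 := Complex.exp_ne_zero (-(I * ((Lam φ p Δ : ℝ) : ℂ)))
      field_simp
    have hsplit : U / V - 1 + a = (q - 1) * Complex.exp (-a + E) +
        (Complex.exp (-a + E) - 1 - (-a + E)) + E := by
      rw [hUV]; ring
    have hx1 : ‖-a + E‖ ≤ 4 * B * δ := by
      refine (norm_add_le _ _).trans ?_
      rw [norm_neg]
      nlinarith [mul_nonneg hB0.le hδ0]
    have hx2 : ‖-a + E‖ ≤ 1 := hx1.trans hδB
    have hexp : ‖Complex.exp (-a + E)‖ ≤ 3 := by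
      rw [Complex.norm_exp]
      have h1 : (-a + E).re ≤ 1 := (Complex.re_le_norm _).trans hx2
      have h2 := Real.exp_le_exp.2 h1
      have h3 := Real.exp_one_lt_d9
      linarith
    have hexp2 := Complex.norm_exp_sub_one_sub_id_le hx2
    have hVn : ‖V‖ ≤ Real.exp B * y := by
      have h1 := hz.unit t
      rw [hzz, hvv] at h1
      have h2 := hφ.g0 p hpUH
      rw [← hy] at h2
      have h3 := (abs_le.1 h2).1
      have h4 : ‖V‖ = Real.exp (-φ p) := by
        rw [Real.exp_neg]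
        field_simp
        linarith
      rw [h4]
      calc Real.exp (-φ p) ≤ Real.exp (B + Real.log y) := Real.exp_le_exp.2 (by linarith)
        _ = Real.exp B * y := by rw [Real.exp_add, Real.exp_log hy0]
    have hδξ : δ ≤ Real.exp B * ‖Δ / V‖ := by
      rw [norm_div, hδ, mul_div_assoc', div_le_div_iff₀ hy0 (norm_pos_iff.2 hv0)]
      nlinarith [norm_nonneg Δ]
    have hδξ2 : δ ^ 2 ≤ Real.exp (2 * B) * ‖Δ / V‖ ^ 2 := by
      calc δ ^ 2 ≤ (Real.exp B * ‖Δ / V‖) ^ 2 := pow_le_pow_left₀ hδ0 hδξ 2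
        _ = _ := by rw [mul_pow, ← Real.exp_nat_mul]; norm_num
    rw [hsplit]
    have hn1 : ‖(q - 1) * Complex.exp (-a + E)‖ ≤ 3 * ‖q - 1‖ := by
      rw [norm_mul]
      nlinarith [norm_nonneg (q - 1)]
    have hn2 : ‖Complex.exp (-a + E) - 1 - (-a + E)‖ ≤ 16 * B ^ 2 * δ ^ 2 := by
      refine hexp2.trans ?_
      calc ‖-a + E‖ ^ 2 ≤ (4 * B * δ) ^ 2 := pow_le_pow_left₀ (norm_nonneg _) hx1 2
        _ = _ := by ring
    have hfin := (norm_add_le ((q - 1) * Complex.exp (-a + E) +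
        (Complex.exp (-a + E) - 1 - (-a + E))) E).trans
        (add_le_add_left (norm_add_le ((q - 1) * Complex.exp (-a + E))
        (Complex.exp (-a + E) - 1 - (-a + E))) ‖E‖)
    refine hfin.trans ?_
    have h10 : (16 * B ^ 2 + 2 * B) * δ ^ 2 ≤
        (16 * B ^ 2 + 2 * B) * (Real.exp (2 * B) * ‖Δ / V‖ ^ 2) :=
      mul_le_mul_of_nonneg_left hδξ2 (by positivity)
    have h11 : 0 ≤ (16 * B ^ 2 + 2 * B) * Real.exp (2 * B) * ‖q - 1‖ := by positivity
    have h12 : 0 ≤ 3 * ‖Δ / V‖ ^ 2 := by positivity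
    nlinarith

end Pool.H110K
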