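import Pool.Agent.H110K.Defs
import Pool.Agent.H110K.P_qder
import Pool.Agent.H110K.P_qf_norm
import Pool.Agent.H110K.P_Gf_bound
import Pool.Agent.H110K.P_xi_deriv
import Pool.Agent.H110K.P_boot

set_option autoImplicit false

open Complex Set Filter Topology MeasureTheory
open scoped Real ContDiff

namespace Pool.H110K



theorem stA_speed {B : ℝ} {φ : ℂ → ℝ} (hG : Good φ B) {z v : ℝ → ℂ} (hz : IsGeo φ z v) (t : ℝ) :
    ‖v t‖ ≤ Real.exp B * (z t).im ∧ (z t).im ≤ Real.exp B * ‖v t‖ := by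
  have hy : 0 < (z t).im := hz.mem t
  have h0 := abs_le.1 (hG.g0 (z t) (hz.mem t))
  have hu := hz.unit t
  have hv : ‖v t‖ = Real.exp (-(φ (z t))) := by
    rw [Real.exp_neg]
    exact eq_inv_of_mul_eq_one_right hu
  have hlog : Real.exp (Real.log (z t).im) = (z t).im := Real.exp_log hy
  constructor
  · rw [hv]
    calc Real.exp (-(φ (z t))) ≤ Real.exp (B + Real.log (z t).im) :=
          Real.exp_le_exp.2 (by linarith [h0.1])
      _ = Real.exp B * (z t).im := by rw [Real.exp_add, hlog]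
  · rw [hv]
    calc (z t).im = Real.exp (Real.log (z t).im) := hlog.symm
      _ ≤ Real.exp (B + -(φ (z t))) := Real.exp_le_exp.2 (by linarith [h0.2])
      _ = Real.exp B * Real.exp (-(φ (z t))) := Real.exp_add _ _

theorem stepA (B : ℝ) : ∃ κ0 : ℝ, 0 < κ0 ∧ ∃ K : ℝ, 1 ≤ K ∧ ∀ φ : ℂ → ℝ, Good φ B →
    ∀ z v w u : ℝ → ℂ, IsGeo φ z v → IsGeo φ w u → (∀ t, lap φ (z t) = 0) →
    ∀ T κ : ℝ, 1 ≤ T → 0 < κ → κ ≤ κ0 → ‖w 0 - z 0‖ ≤ κ / T * (z 0).im →
      ‖qf φ (z 0) (w 0) (v 0) (u 0) - 1‖ ≤ κ / T ^ 2 →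
      ∀ t, 0 ≤ t → t ≤ 2 * T → ‖w t - z t‖ ≤ K * κ / T * (z t).im := by
  obtain ⟨c0, hc0, C1, hC1, hxi⟩ := xi_deriv B
  set E : ℝ := Real.exp B with hE
  have hEpos : 0 < E := Real.exp_pos B
  set C : ℝ := max C1 (max (6 * E ^ 4 * B) E) with hC
  have hCC1 : C1 ≤ C := le_max_left _ _
  have hC1' : 1 ≤ C := le_trans hC1 hCC1
  have hCB : 6 * E ^ 4 * B ≤ C := le_trans (le_max_left _ _) (le_max_right _ _)
  have hCE : E ≤ C := le_trans (le_max_right _ _) (le_max_right _ _)
  set c0' : ℝ := min (c0 / E) (1 / (2 * E)) with hc0'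
  have hc0pos : 0 < c0' := lt_min (by positivity) (by positivity)
  obtain ⟨κ0, hκ0, hboot⟩ := boot C c0' hC1' hc0pos
  refine ⟨κ0, hκ0, max 1 (10 * C * E), le_max_left _ _, ?_⟩
  intro φ hG z v w u hz hw hlap T κ hT hκ hκκ0 hw0 hq0 t ht0 htT
  have hv0 : ∀ s, v s ≠ 0 := by
    intro s h
    have := hz.unit s
    rw [h, norm_zero, mul_zero] at this
    exact zero_ne_one this
  have hvpos : ∀ s, 0 < ‖v s‖ := fun s => norm_pos_iff.2 (hv0 s)
  have hy : ∀ s, 0 < (z s).im := fun s => hz.mem s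
  have hxin : ∀ s, ‖(w s - z s) / v s‖ * ‖v s‖ = ‖w s - z s‖ := by
    intro s
    rw [norm_div, div_mul_cancel₀ _ (hvpos s).ne']
  have hup : ∀ s, ‖w s - z s‖ ≤ E * ‖(w s - z s) / v s‖ * (z s).im := by
    intro s
    rw [← hxin s]
    have h1 := (stA_speed hG hz s).1
    have h2 : 0 ≤ ‖(w s - z s) / v s‖ := norm_nonneg _
    calc ‖(w s - z s) / v s‖ * ‖v s‖ ≤ ‖(w s - z s) / v s‖ * (E * (z s).im) :=
          mul_le_mul_of_nonneg_left h1 h2
      _ = E * ‖(w s - z s) / v s‖ * (z s).im := by ring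
  have hqder : ∀ s, HasDerivAt (fun s => qf φ (z s) (w s) (v s) (u s))
      (I * ((Gf φ (z s) (w s - z s) (v s) (((1 : ℝ) : ℂ) * u s - v s) : ℝ) : ℂ)
        * qf φ (z s) (w s) (v s) (u s)) s := by
    intro s
    exact qder φ hG.smooth z v w u hz hw id (fun _ => 1) (fun t => hasDerivAt_id t)
      continuous_const s
  have hcq : Continuous (fun s => qf φ (z s) (w s) (v s) (u s)) :=
    continuous_iff_continuousAt.2 fun s => (hqder s).continuousAt
  have hcz : Continuous z := continuous_iff_continuousAt.2 fun s => (hz.dz s).continuousAt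
  have hcw : Continuous w := continuous_iff_continuousAt.2 fun s => (hw.dz s).continuousAt
  have hcv : Continuous v := continuous_iff_continuousAt.2 fun s => (hz.dv s).continuousAt
  have hcxi : Continuous (fun s => (w s - z s) / v s) := (hcw.sub hcz).div hcv hv0
  have hTpos : 0 < T := by linarith
  have hres := hboot (fun s => (w s - z s) / v s) (fun s => qf φ (z s) (w s) (v s) (u s)) T κ hT
    hκ hκκ0 hcxi hcq (by
      intro s hs0 hsT hs
      have hs1 : ‖(w s - z s) / v s‖ ≤ c0' := hs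
      have hξ0 : 0 ≤ ‖(w s - z s) / v s‖ := norm_nonneg _
      have hEs1 : E * ‖(w s - z s) / v s‖ ≤ c0 := by
        have : ‖(w s - z s) / v s‖ ≤ c0 / E := le_trans hs1 (min_le_left _ _)
        rw [le_div_iff₀ hEpos] at this
        linarith
      have hEs2 : E * ‖(w s - z s) / v s‖ ≤ 1 / 2 := by
        have : ‖(w s - z s) / v s‖ ≤ 1 / (2 * E) := le_trans hs1 (min_le_right _ _)
        rw [le_div_iff₀ (by positivity)] at this
        linarith
      constructor
      · obtain ⟨ξ', h1, h2⟩ := hxi φ hG z v w u hz hw s (le_trans (hup s)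
          (mul_le_mul_of_nonneg_right hEs1 (hy s).le))
        refine ⟨ξ', h1, le_trans h2 ?_⟩
        exact mul_le_mul_of_nonneg_right hCC1 (by positivity)
      · refine ⟨_, hqder s, ?_⟩
        have hqn : ‖qf φ (z s) (w s) (v s) (u s)‖ = 1 := qf_norm φ _ _ _ _ (hz.unit s) (hw.unit s)
        rw [norm_mul, norm_mul, hqn, Complex.norm_I, one_mul, mul_one, Complex.norm_real,
          Real.norm_eq_abs]
        have hwim : (w s).im ≤ 3 / 2 * (z s).im := by
          have h1 : (w s - z s).im ≤ ‖w s - z s‖ := le_trans (le_abs_self _)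
            (Complex.abs_im_le_norm _)
          have h2 := hup s
          have h3 : E * ‖(w s - z s) / v s‖ * (z s).im ≤ 1 / 2 * (z s).im :=
            mul_le_mul_of_nonneg_right hEs2 (hy s).le
          rw [Complex.sub_im] at h1
          linarith
        have hvn := (stA_speed hG hz s).1
        have hun := (stA_speed hG hw s).1
        have hEy : 0 < E * (z s).im := mul_pos hEpos (hy s)
        have hG1 := Gf_bound φ B hG (z s) (w s - z s) (v s) (((1 : ℝ) : ℂ) * u s - v s) (hz.mem s)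
          (hlap s) (E * ‖(w s - z s) / v s‖) (3 * E) (by positivity) hEs2 (hup s)
          (by rw [← hE] at hvn; nlinarith)
          (by
            have h1 : ‖((1 : ℝ) : ℂ) * u s - v s‖ ≤ ‖u s‖ + ‖v s‖ := by
              rw [Complex.ofReal_one, one_mul]
              exact norm_sub_le _ _
            have h2 : E * (w s).im ≤ E * (3 / 2 * (z s).im) :=
              mul_le_mul_of_nonneg_left hwim hEpos.le
            rw [← hE] at hvn hun
            nlinarith)
        refine le_trans hG1 ?_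
        have h5 : 2 * (3 * E) * B * (E * ‖(w s - z s) / v s‖) ^ 3 =
          (6 * E ^ 4 * B) * ‖(w s - z s) / v s‖ ^ 3 := by ring
        rw [h5]
        exact mul_le_mul_of_nonneg_right hCB (by positivity))
    (by
      show ‖(w 0 - z 0) / v 0‖ ≤ C * κ / T
      have h1 := (stA_speed hG hz 0).2
      rw [← hE] at h1
      rw [norm_div, div_le_iff₀ (hvpos 0)]
      calc ‖w 0 - z 0‖ ≤ κ / T * (z 0).im := hw0
        _ ≤ κ / T * (E * ‖v 0‖) := mul_le_mul_of_nonneg_left h1 (by positivity)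
        _ = (E * κ / T) * ‖v 0‖ := by ring
        _ ≤ (C * κ / T) * ‖v 0‖ := by
          apply mul_le_mul_of_nonneg_right _ (norm_nonneg _)
          apply div_le_div_of_nonneg_right _ hTpos.le
          exact mul_le_mul_of_nonneg_right hCE hκ.le)
    hq0 t ht0 htT
  have hres' : ‖(w t - z t) / v t‖ ≤ 10 * C * κ / T := hres
  calc ‖w t - z t‖ ≤ E * ‖(w t - z t) / v t‖ * (z t).im := hup t
    _ ≤ E * (10 * C * κ / T) * (z t).im := by
      apply mul_le_mul_of_nonneg_right _ (hy t).le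
      exact mul_le_mul_of_nonneg_left hres' hEpos.le
    _ = (10 * C * E) * κ / T * (z t).im := by ring
    _ ≤ max 1 (10 * C * E) * κ / T * (z t).im := by
      apply mul_le_mul_of_nonneg_right _ (hy t).le
      apply div_le_div_of_nonneg_right _ hTpos.le
      exact mul_le_mul_of_nonneg_right (le_max_right _ _) hκ.le

end Pool.H110K
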