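import Pool.Agent.H110K.Defs
import Pool.Agent.H110K.P_mobius_basic
import Pool.Agent.H110K.P_hasDerivAt_mob
import Pool.Agent.H110K.P_near_tools
import Pool.Agent.H110K.P_pull_basic
import Pool.Agent.H110K.P_surf_pull
import Pool.Agent.H110K.P_geo_congr
import Pool.Agent.H110K.P_geo_shift
import Pool.Agent.H110K.P_geo_move
import Pool.Agent.H110K.P_good_of_surf
import Pool.Agent.H110K.P_stepA
import Pool.Agent.H110K.P_overlap_cnj
import Pool.Agent.H110K.P_overlap_shift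
import Pool.Agent.H110K.P_cells

set_option autoImplicit false

open Complex Set Filter Topology MeasureTheory
open scoped Real ContDiff

namespace Pool.H110K



lemma sc_mem (M : SL2) {z : ℂ} (hz : z ∈ UH) : mob M z ∈ UH := (mobius_basic M 1 z hz).2.2.1

lemma sc_mul (M N : SL2) {z : ℂ} (hz : z ∈ UH) : mob (M * N) z = mob M (mob N z) :=
  (mobius_basic M N z hz).2.2.2.1

lemma sc_one {z : ℂ} (hz : z ∈ UH) : mob (1 : SL2) z = z := (mobius_basic 1 1 z hz).2.2.2.2.2.1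

lemma sc_done {z : ℂ} (hz : z ∈ UH) : den (1 : SL2) z = 1 := (mobius_basic 1 1 z hz).2.2.2.2.2.2.1

lemma sc_inv (M : SL2) {z : ℂ} (hz : z ∈ UH) : mob M⁻¹ (mob M z) = z :=
  (mobius_basic M 1 z hz).2.2.2.2.2.2.2.1

lemma sc_inv' (M : SL2) {z : ℂ} (hz : z ∈ UH) : mob M (mob M⁻¹ z) = z :=
  (mobius_basic M 1 z hz).2.2.2.2.2.2.2.2

lemma sc_inj (M : SL2) {z w : ℂ} (hz : z ∈ UH) (hw : w ∈ UH) (h : mob M z = mob M w) : z = w := by
  rw [← sc_inv M hz, h, sc_inv M hw]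

lemma sc_cnj (g h : SL2) {z : ℂ} (hz : z ∈ UH) : mob (g * h * g⁻¹) (mob g z) = mob g (mob h z) := by
  rw [sc_mul _ _ (sc_mem g hz), sc_inv g hz, sc_mul _ _ hz]

lemma sc_CG {Γ : Subgroup SL2} {φ : ℂ → ℝ} (S : Surf Γ φ) {g : SL2} (hg : g ∈ Γ) {z v : ℝ → ℂ}
    {h : SL2} {ℓ : ℝ} (H : CG Γ φ z v h ℓ) (s : ℝ) :
    CG Γ φ (fun t => mob g (z (t + s))) (fun t => v (t + s) / (den g (z (t + s))) ^ 2)
      (g * h * g⁻¹) ℓ where
  geo := (geo_move Γ φ S g hg _ _ (geo_shift φ z v H.geo s)).1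
  flat := fun t => (geo_move Γ φ S g hg _ _ H.geo).2 _ (H.geo.mem _) (H.flat _)
  mem := Γ.mul_mem (Γ.mul_mem hg H.mem) (Γ.inv_mem hg)
  pos := H.pos
  per := by
    intro t
    have h1 : t + ℓ + s = (t + s) + ℓ := by ring
    show mob g (z (t + ℓ + s)) = mob (g * h * g⁻¹) (mob g (z (t + s)))
    rw [h1, H.per, sc_cnj g h (H.geo.mem _)]
  nt := by
    obtain ⟨w, hw, hne⟩ := H.nt
    refine ⟨mob g w, sc_mem g hw, fun e => hne ?_⟩
    rw [sc_cnj g h hw] at e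
    exact sc_inj g (sc_mem h hw) hw e

lemma sc_Prm {Γ : Subgroup SL2} {g : SL2} (hg : g ∈ Γ) {z : ℝ → ℂ} (hz : ∀ t, z t ∈ UH)
    {ℓ : ℝ} (H : Prm Γ z ℓ) (s : ℝ) : Prm Γ (fun t => mob g (z (t + s))) ℓ := by
  intro k hk a ha
  apply H (g⁻¹ * k * g) (Γ.mul_mem (Γ.mul_mem (Γ.inv_mem hg) hk) hg) a
  intro t
  have h1 := ha (t - s)
  have e1 : t - s + a + s = t + a := by ring
  have e2 : t - s + s = t := by ring
  simp only [e1, e2] at h1
  rw [sc_mul _ _ (hz t), sc_mul _ _ (sc_mem g (hz t)), ← h1, sc_inv g (hz _)]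

theorem same_cell (Γ : Subgroup SL2) (φ : ℂ → ℝ) (S : Surf Γ φ) (lm : ℝ) (hlm : 0 < lm) :
    ∃ C : ℝ, 1 ≤ C ∧ ∃ κ1 : ℝ, 0 < κ1 ∧ ∀ κ : ℝ, 0 < κ → κ ≤ κ1 → ∀ T : ℝ, lm ≤ T →
      ∃ n : ℕ, (n : ℝ) ≤ C * (max T 1) ^ 4 / κ ^ 3 ∧
      ∃ F : (ℝ → ℂ) → (ℝ → ℂ) → ℝ → ℕ,
        (∀ z v, IsGeo φ z v → ∀ s, F z v s < n) ∧
        (∀ z v h ℓ, CG Γ φ z v h ℓ → Prm Γ z ℓ → 2 * T / 3 < ℓ → ℓ ≤ T →
          ∀ z' v' h' ℓ', CG Γ φ z' v' h' ℓ' → Prm Γ z' ℓ' → 2 * T / 3 < ℓ' → ℓ' ≤ T →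
          ∀ s s' : ℝ, F z v s = F z' v' s' → Cnj Γ h h') ∧
        (∀ z v h ℓ, CG Γ φ z v h ℓ → Prm Γ z ℓ → 2 * T / 3 < ℓ → ℓ ≤ T →
          ∀ s s' : ℝ, F z v s = F z v s' →
            ∃ a : ℝ, |a| ≤ C * κ / (max T 1) ∧ ∃ m : ℤ, s' - s + a = m * ℓ) := by
  classical
  -- constants
  obtain ⟨B, hB⟩ := good_of_surf Γ φ S
  have hgood : Good φ B := by
    have h1 := hB 1
    refine (geo_congr (pull φ 1) φ ?_ (fun _ => 0) (fun _ => 0)).2.2 B h1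
    intro z hz
    unfold pull
    rw [sc_one hz, sc_done hz]; simp
  obtain ⟨κ0, hκ0, K, hK1, hA⟩ := stepA B
  obtain ⟨Kc, hKc, hKcU, hcov⟩ := S.cocompact
  have hKne : Kc.Nonempty := by
    obtain ⟨h, _, hh⟩ := hcov Complex.I (by show (0:ℝ) < Complex.I.im; simp)
    exact ⟨_, hh⟩
  obtain ⟨q0, hq0, hq0min⟩ := hKc.exists_isMinOn hKne Complex.continuous_im.continuousOn
  have hy0 : 0 < q0.im := hKcU hq0
  have hy0le : ∀ p ∈ Kc, q0.im ≤ p.im := fun p hp => hq0min hp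
  obtain ⟨Cc, hCc, c, hc, hcells⟩ := cells φ S.smooth Kc hKc hKcU
  obtain ⟨e4, he4, hcnj⟩ := overlap_cnj Γ φ S lm hlm
  obtain ⟨C5, hC5, e5, he5, hshift⟩ := overlap_shift Γ φ S lm hlm
  have hK0 : 0 < K := by linarith
  have hCc0 : 0 < Cc := by linarith
  set c1 : ℝ := min q0.im (min c 1) with hc1
  have hc1pos : 0 < c1 := lt_min hy0 (lt_min hc one_pos)
  have hc1y : c1 ≤ q0.im := min_le_left _ _
  have hc1c : c1 ≤ c := (min_le_right _ _).trans (min_le_left _ _)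
  have hc11 : c1 ≤ 1 := (min_le_right _ _).trans (min_le_right _ _)
  set κ1 : ℝ := min (min κ0 (1 / (2 * Cc))) (min (min (e4 / K) (e5 / K)) 1) with hκ1
  have hκ1pos : 0 < κ1 := by
    refine lt_min (lt_min hκ0 (by positivity)) (lt_min (lt_min (by positivity) (by positivity)) one_pos)
  refine ⟨1 + 2 * Cc / c1 ^ 2 + C5 * K, ?_, κ1, hκ1pos, ?_⟩
  · have h1 : 0 ≤ 2 * Cc / c1 ^ 2 := by positivity
    have h2 : 0 ≤ C5 * K := by positivity
    linarith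
  intro κ hκ hκle T hT
  have b1 : κ ≤ κ0 := hκle.trans ((min_le_left _ _).trans (min_le_left _ _))
  have b2 : κ ≤ 1 / (2 * Cc) := hκle.trans ((min_le_left _ _).trans (min_le_right _ _))
  have b3 : κ ≤ e4 / K := hκle.trans ((min_le_right _ _).trans ((min_le_left _ _).trans (min_le_left _ _)))
  have b4 : κ ≤ e5 / K := hκle.trans ((min_le_right _ _).trans ((min_le_left _ _).trans (min_le_right _ _)))
  have b5 : κ ≤ 1 := hκle.trans ((min_le_right _ _).trans (min_le_right _ _))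
  set T1 : ℝ := max T 1 with hT1
  have hT11 : 1 ≤ T1 := le_max_right _ _
  have hTT1 : T ≤ T1 := le_max_left _ _
  have hT10 : 0 < T1 := by linarith
  set δ1 : ℝ := c1 * κ / T1 with hδ1
  set δ2 : ℝ := κ / (2 * T1 ^ 2) with hδ2
  have hδ1pos : 0 < δ1 := by positivity
  have hδ2pos : 0 < δ2 := by positivity
  have hκT : κ / T1 ≤ κ := div_le_self hκ.le hT11
  have hδ1c : δ1 ≤ c := by
    rw [hδ1, mul_div_assoc]
    calc c1 * (κ / T1) ≤ c1 * 1 := by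
          apply mul_le_mul_of_nonneg_left _ hc1pos.le; linarith
      _ ≤ c := by linarith
  have hδ2one : δ2 ≤ 1 := by
    rw [hδ2, div_le_one (by positivity)]
    nlinarith
  have hδ1y : ∀ p ∈ Kc, δ1 ≤ κ / T1 * p.im := by
    intro p hp
    have h1 := hy0le p hp
    rw [hδ1]
    calc c1 * κ / T1 = κ / T1 * c1 := by ring
      _ ≤ κ / T1 * p.im := by
        apply mul_le_mul_of_nonneg_left _ (by positivity); linarith
  have hq : δ2 + Cc * δ1 ^ 2 ≤ κ / T1 ^ 2 := by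
    have h1 : Cc * δ1 ^ 2 ≤ κ / (2 * T1 ^ 2) := by
      rw [hδ1, le_div_iff₀ (by positivity)]
      have h2 : Cc * (c1 * κ / T1) ^ 2 * (2 * T1 ^ 2) = (2 * Cc * κ) * (c1 ^ 2 * κ) := by
        field_simp
      rw [h2]
      have h3 : 2 * Cc * κ ≤ 1 := by
        rw [le_div_iff₀ (by positivity)] at b2; linarith
      have h4 : c1 ^ 2 * κ ≤ κ := by
        have : c1 ^ 2 ≤ 1 := pow_le_one₀ hc1pos.le hc11
        nlinarith
      have h5 : 0 ≤ c1 ^ 2 * κ := by positivity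
      nlinarith
    have h6 : κ / T1 ^ 2 = κ / (2 * T1 ^ 2) + κ / (2 * T1 ^ 2) := by field_simp; ring
    rw [h6]
    linarith
  obtain ⟨n, hn, f, hf1, hf2⟩ := hcells δ1 δ2 hδ1pos hδ1c hδ2pos hδ2one
  -- the selector
  have hsel : ∀ p : ℂ, ∃ g : SL2, p ∈ UH → g ∈ Γ ∧ mob g p ∈ Kc := by
    intro p
    by_cases hp : p ∈ UH
    · obtain ⟨h, h1, h2⟩ := hcov p hp
      exact ⟨h, fun _ => ⟨h1, h2⟩⟩
    · exact ⟨1, fun h => absurd h hp⟩
  choose gs hgs using hsel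
  set ε : ℝ := K * κ / T1 with hε
  have hεpos : 0 < ε := by positivity
  have hεK : ε ≤ K * κ := div_le_self (by positivity) hT11
  have hε4 : ε ≤ e4 := by
    rw [le_div_iff₀ hK0] at b3; linarith
  have hε5 : ε ≤ e5 := by
    rw [le_div_iff₀ hK0] at b4; linarith
  -- the key estimate
  have key : ∀ z v h ℓ, CG Γ φ z v h ℓ → ∀ z' v' h' ℓ', CG Γ φ z' v' h' ℓ' → ∀ s s' : ℝ,
      f (mob (gs (z s)) (z s)) (v s / (den (gs (z s)) (z s)) ^ 2) =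
        f (mob (gs (z' s')) (z' s')) (v' s' / (den (gs (z' s')) (z' s')) ^ 2) →
      ∀ t, 0 ≤ t → t ≤ 2 * T →
        ‖mob (gs (z' s')) (z' (t + s')) - mob (gs (z s)) (z (t + s))‖ ≤
          ε * (mob (gs (z s)) (z (t + s))).im := by
    intro z v h ℓ H z' v' h' ℓ' H' s s' hF t ht0 ht1
    have hg := hgs (z s) (H.geo.mem s)
    have hg' := hgs (z' s') (H'.geo.mem s')
    have G1 := sc_CG S hg.1 H s
    have G2 := sc_CG S hg'.1 H' s'
    have u1 := G1.geo.unit 0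
    have u2 := G2.geo.unit 0
    simp only [zero_add] at u1 u2
    obtain ⟨d1, d2⟩ := hf2 _ hg.2 _ hg'.2 _ _ u1 u2 hF
    have h3 := hA φ hgood _ _ _ _ G1.geo G2.geo G1.flat T1 κ hT11 hκ b1 (by
        simp only [zero_add]
        exact d1.trans (hδ1y _ hg.2)) (by
        simp only [zero_add]
        exact d2.trans hq) t ht0 (by linarith)
    exact h3
  refine ⟨n, ?_, fun z v s => f (mob (gs (z s)) (z s)) (v s / (den (gs (z s)) (z s)) ^ 2), ?_, ?_, ?_⟩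
  · have h1 : Cc / (δ1 ^ 2 * δ2) = (2 * Cc / c1 ^ 2) * T1 ^ 4 / κ ^ 3 := by
      rw [hδ1, hδ2]; field_simp
    rw [h1] at hn
    refine hn.trans ?_
    apply div_le_div_of_nonneg_right _ (by positivity)
    apply mul_le_mul_of_nonneg_right _ (by positivity)
    have h2 : 0 ≤ C5 * K := by positivity
    linarith
  · intro z v hgeo s
    have hg := hgs (z s) (hgeo.mem s)
    apply hf1 _ hg.2
    exact (geo_move Γ φ S _ hg.1 _ _ hgeo).1.unit s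
  · intro z v h ℓ H P hℓ1 hℓ2 z' v' h' ℓ' H' P' hℓ1' hℓ2' s s' hF
    have hg := hgs (z s) (H.geo.mem s)
    have hg' := hgs (z' s') (H'.geo.mem s')
    have h1 := key z v h ℓ H z' v' h' ℓ' H' s s' hF
    have h2 := hcnj _ _ _ _ _ _ _ _ (sc_CG S hg.1 H s) (sc_CG S hg'.1 H' s')
      (sc_Prm hg'.1 H'.geo.mem P' s') T hT hℓ1 hℓ2 hℓ1' hℓ2' ε hεpos hε4 h1
    refine ⟨(gs (z' s'))⁻¹ * gs (z s), Γ.mul_mem (Γ.inv_mem hg'.1) hg.1, ?_⟩
    intro w hw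
    have h3 := h2 (mob (gs (z s)) w) (sc_mem _ hw)
    rw [sc_cnj _ _ hw] at h3
    have hgw : mob (gs (z s)) w ∈ UH := sc_mem _ hw
    have hgw' : mob (gs (z' s'))⁻¹ (mob (gs (z s)) w) ∈ UH := sc_mem _ hgw
    rw [sc_mul _ _ hgw, sc_mul _ _ hgw'] at h3
    rw [sc_mul _ _ hw, sc_mul _ _ (sc_mem h hw), h3, sc_inv _ (sc_mem h' hgw')]
  · intro z v h ℓ H P hℓ1 hℓ2 s s' hF
    have hg := hgs (z s) (H.geo.mem s)
    have hg' := hgs (z s') (H.geo.mem s')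
    have h1 := key z v h ℓ H z v h ℓ H s s' hF
    obtain ⟨a, ha, m, hm⟩ := hshift _ _ _ _ (sc_CG S hg.1 H s) (sc_Prm hg.1 H.geo.mem P s) T hT
      hℓ1 hℓ2 (gs (z s') * (gs (z s))⁻¹) (Γ.mul_mem hg'.1 (Γ.inv_mem hg.1)) (s' - s) ε hεpos hε5
      (by
        intro t ht0 ht1
        have h2 := h1 t ht0 ht1
        have e1 : t + (s' - s) + s = t + s' := by ring
        show ‖mob (gs (z s') * (gs (z s))⁻¹) (mob (gs (z s)) (z (t + (s' - s) + s))) -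
          mob (gs (z s)) (z (t + s))‖ ≤ ε * (mob (gs (z s)) (z (t + s))).im
        rw [e1, sc_mul _ _ (sc_mem _ (H.geo.mem _)), sc_inv _ (H.geo.mem _)]
        exact h2)
    refine ⟨a, ha.trans ?_, m, hm⟩
    rw [hε]
    have h2 : 0 ≤ 2 * Cc / c1 ^ 2 := by positivity
    calc C5 * (K * κ / T1) = (C5 * K) * (κ / T1) := by ring
      _ ≤ (1 + 2 * Cc / c1 ^ 2 + C5 * K) * (κ / T1) := by
        apply mul_le_mul_of_nonneg_right _ (by positivity); linarith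
      _ = _ := by ring

end Pool.H110K
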