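import Pool.Agent.H110K.Defs
import Pool.Agent.H110K.P_same_cell

set_option autoImplicit false

open Complex Set Filter Topology MeasureTheory
open scoped Real ContDiff

namespace Pool.H110K



theorem window (Γ : Subgroup SL2) (φ : ℂ → ℝ) (S : Surf Γ φ) (lm : ℝ) (hlm : 0 < lm) :
    ∃ C : ℝ, 0 < C ∧ ∀ T : ℝ, lm ≤ T → ∀ (n : ℕ) (z v : Fin n → ℝ → ℂ) (h : Fin n → SL2)
      (ℓ : Fin n → ℝ), (∀ i, CG Γ φ (z i) (v i) (h i) (ℓ i)) → (∀ i, Prm Γ (z i) (ℓ i)) →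
      (∀ i, 2 * T / 3 < ℓ i ∧ ℓ i ≤ T) → (∀ i j, i ≠ j → ¬ Cnj Γ (h i) (h j)) →
      (n : ℝ) ≤ C * T ^ 2 := by
  obtain ⟨C1, hC1, κ1, hκ1, H⟩ := same_cell Γ φ S lm hlm
  have hC10 : 0 < C1 := by linarith
  obtain ⟨κ, hκ0, hκ, hκ2⟩ : ∃ κ : ℝ, 0 < κ ∧ κ ≤ κ1 ∧ 12 * C1 * κ ≤ lm := by
    refine ⟨min κ1 (lm/(12*C1)), lt_min hκ1 (by positivity), min_le_left _ _, ?_⟩
    have h1 : min κ1 (lm/(12*C1)) ≤ lm/(12*C1) := min_le_right _ _
    rw [le_div_iff₀ (by positivity)] at h1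
    linarith
  obtain ⟨X, hX1, hX2⟩ : ∃ X : ℝ, 1 ≤ X ∧ 1 ≤ X * lm := by
    refine ⟨max 1 (1/lm), le_max_left _ _, ?_⟩
    calc (1:ℝ) = (1/lm) * lm := by field_simp
      _ ≤ _ := mul_le_mul_of_nonneg_right (le_max_right 1 (1/lm)) hlm.le
  have hX0 : 0 < X := by linarith
  refine ⟨4 * C1^2 * X^3/κ^2, by positivity, ?_⟩
  intro T hT n z v h ℓ hcg hprm hℓ hcnj
  obtain ⟨N, hN, F, hF1, hF2, hF3⟩ := H κ hκ0 hκ T hT
  obtain ⟨T1, hT1⟩ : ∃ T1, T1 = max T 1 := ⟨_, rfl⟩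
  rw [← hT1] at hN hF3
  have hTpos : 0 < T := lt_of_lt_of_le hlm hT
  have hT1a : 1 ≤ T1 := by rw [hT1]; exact le_max_right _ _
  have hT10 : 0 < T1 := by linarith
  have hT1c : T1 ≤ X * T := by
    rw [hT1]
    refine max_le ?_ ?_
    · nlinarith
    · have : X * lm ≤ X * T := mul_le_mul_of_nonneg_left hT hX0.le
      linarith
  obtain ⟨η, hη⟩ : ∃ η, η = 2 * C1 * κ/T1 := ⟨_, rfl⟩
  have hη0 : 0 < η := by rw [hη]; positivity
  have hηT : 6 * η ≤ T := by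
    have h1 : 2*C1*κ/T1 ≤ 2*C1*κ := div_le_self (by positivity) hT1a
    rw [hη]
    linarith
  obtain ⟨J, hJ⟩ : ∃ J : ℕ, J = ⌊(2*T/3)/η⌋₊ := ⟨_, rfl⟩
  have hJ1 : (J:ℝ) * η ≤ 2*T/3 := by
    have h1 := Nat.floor_le (show 0 ≤ (2*T/3)/η by positivity)
    rw [← hJ] at h1
    rwa [le_div_iff₀ hη0] at h1
  have hJ2 : T ≤ 2 * η * J := by
    have h1 := Nat.lt_floor_add_one ((2*T/3)/η)
    rw [← hJ, div_lt_iff₀ hη0] at h1
    linarith
  have hinj : Function.Injective (fun p : Fin n × Fin J =>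
      (⟨F (z p.1) (v p.1) (((p.2:ℕ):ℝ) * η), hF1 _ _ (hcg p.1).geo _⟩ : Fin N)) := by
    rintro ⟨i, j⟩ ⟨i', j'⟩ heq
    simp only [Fin.mk.injEq] at heq
    have hii : i = i' := by
      by_contra hne
      exact hcnj i i' hne (hF2 _ _ _ _ (hcg i) (hprm i) (hℓ i).1 (hℓ i).2 _ _ _ _ (hcg i')
        (hprm i') (hℓ i').1 (hℓ i').2 _ _ heq)
    subst hii
    obtain ⟨a, ha, m, hm⟩ := hF3 _ _ _ _ (hcg i) (hprm i) (hℓ i).1 (hℓ i).2 _ _ heq
    have ha' : |a| ≤ η/2 := by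
      refine ha.trans (le_of_eq ?_)
      rw [hη]
      ring
    have hj : ((j:ℕ):ℝ) + 1 ≤ J := by
      have h2 : (j:ℕ) + 1 ≤ J := j.2
      exact_mod_cast h2
    have hj' : ((j':ℕ):ℝ) + 1 ≤ J := by
      have h2 : (j':ℕ) + 1 ≤ J := j'.2
      exact_mod_cast h2
    have hj0 : (0:ℝ) ≤ ((j:ℕ):ℝ) := Nat.cast_nonneg _
    have hj0' : (0:ℝ) ≤ ((j':ℕ):ℝ) := Nat.cast_nonneg _
    have e1 : (((j:ℕ):ℝ) + 1) * η ≤ J * η := mul_le_mul_of_nonneg_right hj hη0.le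
    have e2 : (((j':ℕ):ℝ) + 1) * η ≤ J * η := mul_le_mul_of_nonneg_right hj' hη0.le
    have e3 : 0 ≤ ((j:ℕ):ℝ) * η := by positivity
    have e4 : 0 ≤ ((j':ℕ):ℝ) * η := by positivity
    have hℓ1 := (hℓ i).1
    have hℓ0 : 0 < ℓ i := by linarith
    have h5 : |(m:ℝ) * ℓ i| < ℓ i := by
      rw [← hm, abs_lt]
      have h6 := abs_le.1 ha'
      constructor
      · linarith [h6.1]
      · linarith [h6.2]
    have hm0 : m = 0 := by
      rw [abs_mul, abs_of_pos hℓ0] at h5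
      have h6 : |(m:ℝ)| < 1 := by
        by_contra hcon
        push Not at hcon
        have h7 := mul_le_mul_of_nonneg_right hcon hℓ0.le
        linarith
      have h7 : |m| < 1 := by exact_mod_cast h6
      exact Int.abs_lt_one_iff.1 h7
    rw [hm0, Int.cast_zero, zero_mul] at hm
    have h8 : |((j':ℕ):ℝ) - ((j:ℕ):ℝ)| < 1 := by
      have h9 : (((j':ℕ):ℝ) - ((j:ℕ):ℝ)) * η = -a := by linarith
      have h10 : |((j':ℕ):ℝ) - ((j:ℕ):ℝ)| * η = |a| := by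
        rw [← abs_neg a, ← h9, abs_mul, abs_of_pos hη0]
      by_contra hcon
      push Not at hcon
      have h11 := mul_le_mul_of_nonneg_right hcon hη0.le
      linarith
    have h12 : |((j':ℕ):ℤ) - ((j:ℕ):ℤ)| < 1 := by exact_mod_cast h8
    have h13 := Int.abs_lt_one_iff.1 h12
    have h14 : (j:ℕ) = (j':ℕ) := by omega
    have h15 : j = j' := Fin.ext h14
    rw [h15]
  have hcard := Fintype.card_le_of_injective _ hinj
  rw [Fintype.card_prod, Fintype.card_fin, Fintype.card_fin, Fintype.card_fin] at hcard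
  have hcard' : (n:ℝ) * J ≤ N := by exact_mod_cast hcard
  refine le_of_mul_le_mul_right ?_ hTpos
  have hn0 : (0:ℝ) ≤ n := Nat.cast_nonneg _
  calc (n:ℝ) * T ≤ n * (2 * η * J) := mul_le_mul_of_nonneg_left hJ2 hn0
    _ = 2 * η * (n * J) := by ring
    _ ≤ 2 * η * (C1 * T1 ^ 4 / κ ^ 3) :=
        mul_le_mul_of_nonneg_left (hcard'.trans hN) (by positivity)
    _ = 4 * C1 ^ 2 / κ ^ 2 * T1 ^ 3 := by
        rw [hη]
        field_simp
        ring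
    _ ≤ 4 * C1 ^ 2 / κ ^ 2 * (X * T) ^ 3 :=
        mul_le_mul_of_nonneg_left (pow_le_pow_left₀ hT10.le hT1c 3) (by positivity)
    _ = 4 * C1^2 * X^3/κ^2 * T ^ 2 * T := by ring

end Pool.H110K
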