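import Pool.Agent.H110K.Defs
import Pool.Agent.H110K.P_len_min
import Pool.Agent.H110K.P_window

set_option autoImplicit false

open Complex Set Filter Topology MeasureTheory
open scoped Real ContDiff

namespace Pool.H110K



theorem primes_count (Γ : Subgroup SL2) (φ : ℂ → ℝ) (S : Surf Γ φ) :
    ∃ C : ℝ, 0 < C ∧ ∀ T : ℝ, 0 < T → ∀ (ι : Type) [Fintype ι] (z v : ι → ℝ → ℂ) (h : ι → SL2)
      (ℓ : ι → ℝ), (∀ i, CG Γ φ (z i) (v i) (h i) (ℓ i)) → (∀ i, Prm Γ (z i) (ℓ i)) →
      (∀ i, ℓ i ≤ T) → (∀ i j, i ≠ j → ¬ Cnj Γ (h i) (h j)) →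
      (Fintype.card ι : ℝ) ≤ C * T ^ 2 := by
  classical
  obtain ⟨lm, hlm, hmin⟩ := len_min Γ φ S
  obtain ⟨C, hC, hwin⟩ := window Γ φ S lm hlm
  refine ⟨2 * C, by positivity, ?_⟩
  have key : ∀ (J : ℕ) (T : ℝ), 0 < T → T < lm * (3 / 2) ^ J →
      ∀ (ι : Type) [Fintype ι] (z v : ι → ℝ → ℂ) (h : ι → SL2)
      (ℓ : ι → ℝ), (∀ i, CG Γ φ (z i) (v i) (h i) (ℓ i)) → (∀ i, Prm Γ (z i) (ℓ i)) →
      (∀ i, ℓ i ≤ T) → (∀ i j, i ≠ j → ¬ Cnj Γ (h i) (h j)) →
      (Fintype.card ι : ℝ) ≤ 2 * C * T ^ 2 := by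
    intro J
    induction J with
    | zero =>
      intro T hT hJ ι _ z v h ℓ hcg hp hle hcn
      have hemp : IsEmpty ι := by
        refine ⟨fun i => ?_⟩
        have h1 := hmin _ _ _ _ (hcg i)
        have h2 := hle i
        rw [pow_zero, mul_one] at hJ
        linarith
      rw [Fintype.card_eq_zero, Nat.cast_zero]
      positivity
    | succ J ih =>
      intro T hT hJ ι _ z v h ℓ hcg hp hle hcn
      by_cases hTl : T < lm
      · have hemp : IsEmpty ι := by
          refine ⟨fun i => ?_⟩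
          have h1 := hmin _ _ _ _ (hcg i)
          have h2 := hle i
          linarith
        rw [Fintype.card_eq_zero, Nat.cast_zero]
        positivity
      · have hTl' : lm ≤ T := not_lt.1 hTl
        have hsum : Fintype.card ι = Fintype.card {i // ℓ i ≤ 2 * T / 3} +
            Fintype.card {i // ¬ ℓ i ≤ 2 * T / 3} := by
          rw [← Fintype.card_sum]
          exact (Fintype.card_congr (Equiv.sumCompl (fun i => ℓ i ≤ 2 * T / 3))).symm
        have h1 : (Fintype.card {i // ℓ i ≤ 2 * T / 3} : ℝ) ≤ 2 * C * (2 * T / 3) ^ 2 := by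
          refine ih (2 * T / 3) (by positivity) ?_ {i // ℓ i ≤ 2 * T / 3} (fun i => z i.1)
            (fun i => v i.1) (fun i => h i.1) (fun i => ℓ i.1) (fun i => hcg i.1)
            (fun i => hp i.1) (fun i => i.2)
            (fun i j hij => hcn i.1 j.1 (fun e => hij (Subtype.ext e)))
          rw [pow_succ] at hJ
          linarith
        have h2 : (Fintype.card {i // ¬ ℓ i ≤ 2 * T / 3} : ℝ) ≤ C * T ^ 2 := by
          set e := (Fintype.equivFin {i // ¬ ℓ i ≤ 2 * T / 3}).symm with he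
          exact hwin T hTl' _ (fun i => z (e i).1) (fun i => v (e i).1) (fun i => h (e i).1)
            (fun i => ℓ (e i).1) (fun i => hcg _) (fun i => hp _)
            (fun i => ⟨not_le.1 (e i).2, hle _⟩)
            (fun i j hij => hcn _ _ (fun e' => hij (e.injective (Subtype.ext e'))))
        have h3 : 0 < C * T ^ 2 := by positivity
        rw [hsum]
        push_cast
        nlinarith [h1, h2, h3]
  intro T hT ι _ z v h ℓ hcg hp hle hcn
  obtain ⟨J, hJ⟩ := pow_unbounded_of_one_lt (T / lm) (by norm_num : (1 : ℝ) < 3 / 2)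
  refine key J T hT ?_ ι z v h ℓ hcg hp hle hcn
  rw [div_lt_iff₀ hlm] at hJ
  linarith

end Pool.H110K
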