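import Pool.Agent.H110K.Defs
import Pool.Agent.H110K.P_mobius_basic
import Pool.Agent.H110K.P_len_min
import Pool.Agent.H110K.P_exists_prime
import Pool.Agent.H110K.P_primes_count

set_option autoImplicit false

open Complex Set Filter Topology MeasureTheory
open scoped Real ContDiff

namespace Pool.H110K



theorem conj_pow (a b g : SL2) (H : ∀ z ∈ UH, mob b (mob g z) = mob g (mob a z)) (n : ℕ) :
    ∀ z ∈ UH, mob (b ^ n) (mob g z) = mob g (mob (a ^ n) z) := by
  induction n with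
  | zero =>
    intro z hz
    have hg : mob g z ∈ UH := (mobius_basic g 1 z hz).2.2.1
    rw [pow_zero, pow_zero, (mobius_basic 1 1 (mob g z) hg).2.2.2.2.2.1,
      (mobius_basic 1 1 z hz).2.2.2.2.2.1]
  | succ n ih =>
    intro z hz
    have hg : mob g z ∈ UH := (mobius_basic g 1 z hz).2.2.1
    have ha : mob a z ∈ UH := (mobius_basic a 1 z hz).2.2.1
    rw [pow_succ, pow_succ, (mobius_basic (b ^ n) b (mob g z) hg).2.2.2.1,
      (mobius_basic (a ^ n) a z hz).2.2.2.1, H z hz, ih _ ha]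

theorem all_count (Γ : Subgroup SL2) (φ : ℂ → ℝ) (S : Surf Γ φ) :
    ∃ C : ℝ, 0 < C ∧ ∀ T : ℝ, 0 < T → ∀ (ι : Type) [Fintype ι] (z v : ι → ℝ → ℂ) (h : ι → SL2)
      (ℓ : ι → ℝ), (∀ i, CG Γ φ (z i) (v i) (h i) (ℓ i)) →
      (∀ i, ℓ i ≤ T) → (∀ i j, i ≠ j → ¬ Cnj Γ (h i) (h j)) →
      (Fintype.card ι : ℝ) ≤ C * T ^ 2 := by
  classical
  obtain ⟨C, hC, hcount⟩ := primes_count Γ φ S
  refine ⟨2 * C, by positivity, ?_⟩
  intro T hT ι _ z v h ℓ hcg hℓT hncj
  have hex := fun i => exists_prime Γ φ S (z i) (v i) (h i) (ℓ i) (hcg i)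
  choose k ℓ0 m hm1 hk hprm hℓ hmob using hex
  have hfib : ∀ n : ℕ, 1 ≤ n →
      ((Finset.univ.filter fun i => m i = n).card : ℝ) ≤ C * (T / n) ^ 2 := by
    intro n hn
    have hn0 : (0 : ℝ) < n := by exact_mod_cast hn
    have h1 := hcount (T / n) (by positivity) {i // m i = n} (fun i => z i) (fun i => v i)
      (fun i => k i) (fun i => ℓ0 i) (fun i => hk i) (fun i => hprm i) ?_ ?_
    · rw [Fintype.card_subtype] at h1
      exact h1
    · rintro ⟨i, hi⟩
      show ℓ0 i ≤ T / n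
      rw [le_div_iff₀ hn0, mul_comm]
      have h2 := hℓ i
      rw [hi] at h2
      rw [← h2]
      exact hℓT i
    · rintro ⟨i, hi⟩ ⟨j, hj⟩ hij hc
      have hij' : i ≠ j := fun h => hij (Subtype.ext h)
      apply hncj i j hij'
      obtain ⟨g, hg, H⟩ := hc
      refine ⟨g, hg, ?_⟩
      intro w hw
      have hgw : mob g w ∈ UH := (mobius_basic g 1 w hw).2.2.1
      rw [hmob j _ hgw, hmob i _ hw, hi, hj]
      exact conj_pow (k i) (k j) g H n w hw
  have hcard : Fintype.card ι = ∑ n ∈ Finset.Ioo 0 (Finset.univ.sup m + 1),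
      (Finset.univ.filter fun i => m i = n).card := by
    rw [← Finset.card_univ]
    apply Finset.card_eq_sum_card_fiberwise
    intro i _
    show m i ∈ (Finset.Ioo 0 (Finset.univ.sup m + 1) : Set ℕ)
    rw [Finset.mem_coe, Finset.mem_Ioo]
    have h1 : m i ≤ Finset.univ.sup m := Finset.le_sup (Finset.mem_univ i)
    have h2 := hm1 i
    omega
  rw [hcard, Nat.cast_sum]
  calc ∑ n ∈ Finset.Ioo 0 (Finset.univ.sup m + 1), ((Finset.univ.filter fun i => m i = n).card : ℝ)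
      ≤ ∑ n ∈ Finset.Ioo 0 (Finset.univ.sup m + 1), C * T ^ 2 * ((n : ℝ) ^ 2)⁻¹ := by
        apply Finset.sum_le_sum
        intro n hn
        rw [Finset.mem_Ioo] at hn
        refine (hfib n (by omega)).trans (le_of_eq ?_)
        rw [div_pow]
        ring
    _ = C * T ^ 2 * ∑ n ∈ Finset.Ioo 0 (Finset.univ.sup m + 1), ((n : ℝ) ^ 2)⁻¹ := by
        rw [Finset.mul_sum]
    _ ≤ C * T ^ 2 * (2 / ((0 : ℕ) + 1)) := by
        apply mul_le_mul_of_nonneg_left _ (by positivity)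
        exact sum_Ioo_inv_sq_le 0 _
    _ = 2 * C * T ^ 2 := by
        rw [Nat.cast_zero]
        ring

end Pool.H110K
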