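import Pool.Agent.H110K.Defs
import Pool.Agent.H110K.P_mobius_basic

set_option autoImplicit false

open Complex Set Filter Topology MeasureTheory
open scoped Real ContDiff

namespace Pool.H110K

theorem coe_smul_mob (g : SL2) (z : UpperHalfPlane) :
    ((g • z : UpperHalfPlane) : ℂ) = mob g z ∧ (g • z : UpperHalfPlane).im = z.im / ‖den g z‖ ^ 2 ∧
      (z : ℂ) ∈ UH := by
  have h1 : ((g • z : UpperHalfPlane) : ℂ) = mob g z := by
    rw [UpperHalfPlane.coe_specialLinearGroup_apply]
    simp [mob, den]
  have hz : (z : ℂ) ∈ UH := z.im_pos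
  refine ⟨h1, ?_, hz⟩
  have := (mobius_basic g 1 z hz).2.1
  rw [← h1] at this
  exact this

end Pool.H110K
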