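import Pool.Agent.H110K.Defs

set_option autoImplicit false

open Complex Set Filter Topology MeasureTheory
open scoped Real ContDiff

namespace Pool.H110K



theorem finite_of_card_bound {α : Type} (A : Set α) (M : ℝ)
    (h : ∀ s : Finset α, (↑s : Set α) ⊆ A → (s.card : ℝ) ≤ M) :
    A.Finite ∧ (A.ncard : ℝ) ≤ M := by
  classical
  have hfin : A.Finite := by
    by_contra hinf
    obtain ⟨n, hn⟩ := exists_nat_gt M
    obtain ⟨t, ht, hcard⟩ := Set.Infinite.exists_subset_card_eq hinf n
    have h1 := h t ht
    rw [hcard] at h1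
    linarith
  refine ⟨hfin, ?_⟩
  have h1 := h hfin.toFinset (by simp)
  rwa [Set.ncard_eq_toFinset_card A hfin]

end Pool.H110K
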