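import Pool.Agent.H110K.Defs
import Pool.Agent.H110K.P_mobius_basic
import Pool.Agent.H110K.P_coe_smul_mob

set_option autoImplicit false

open Complex Set Filter Topology MeasureTheory
open scoped Real ContDiff

namespace Pool.H110K



theorem lh_coe (g : SL2) (z : UpperHalfPlane) : ((g • z : UpperHalfPlane) : ℂ) = mob g z :=
  (coe_smul_mob g z).1

theorem lh_mem (z : UpperHalfPlane) : (z : ℂ) ∈ UH := (coe_smul_mob 1 z).2.2

theorem lh_cont {X : Type*} [TopologicalSpace X] (g : SL2) (f : X → UpperHalfPlane)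
    (hf : Continuous f) : Continuous (fun x => g • f x) := by
  rw [UpperHalfPlane.isEmbedding_coe.continuous_iff]
  have e : (fun z : UpperHalfPlane => (z : ℂ)) ∘ (fun x => g • f x) = fun x => mob g (f x) := by
    funext x; exact lh_coe g (f x)
  show Continuous ((fun z : UpperHalfPlane => (z : ℂ)) ∘ (fun x => g • f x))
  rw [e]
  have hfc : Continuous (fun x => ((f x : UpperHalfPlane) : ℂ)) :=
    UpperHalfPlane.continuous_coe.comp hf
  unfold mob den
  refine Continuous.div ?_ ?_ ?_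
  · exact (continuous_const.mul hfc).add continuous_const
  · exact (continuous_const.mul hfc).add continuous_const
  · intro x
    exact (mobius_basic g 1 (f x) (lh_mem _)).1

theorem lh_mk (Γ : Subgroup SL2) (h : SL2) (hh : h ∈ Γ) (z : UpperHalfPlane) :
    Quotient.mk (MulAction.orbitRel Γ UpperHalfPlane) (h • z)
      = Quotient.mk (MulAction.orbitRel Γ UpperHalfPlane) z :=
  Quotient.sound ⟨⟨h, hh⟩, rfl⟩

theorem lh_pos (A B s : ℝ) (hA : 0 < A) (hB : 0 < B) (h0 : 0 ≤ s) (h1 : s ≤ 1) :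
    0 < (1 - s) * A + s * B := by
  rcases h0.lt_or_eq with h | h
  · have h2 : 0 ≤ (1 - s) * A := mul_nonneg (by linarith) hA.le
    have h3 := mul_pos h hB
    linarith
  · rw [← h]; linarith

theorem loops_homotopic (Γ : Subgroup SL2) (h h' P : SL2) (lam : ℝ) (hl : 0 < lam)
    (hh : h ∈ Γ) (hh' : h' ∈ Γ)
    (hP : ∀ z ∈ UH, mob h (mob P z) = mob P ((lam : ℂ) * z)) (hc : Cnj Γ h h')
    (z z' : ℝ → UpperHalfPlane) (hz : Continuous z) (hz' : Continuous z')
    (p1 : ∀ t, z (t + 1) = h • z t) (p2 : ∀ t, z' (t + 1) = h' • z' t)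
    (c c' : C(AddCircle (1:ℝ), Quotient (MulAction.orbitRel Γ UpperHalfPlane)))
    (hcz : ∀ t : ℝ, c (t : AddCircle (1:ℝ)) = Quotient.mk (MulAction.orbitRel Γ UpperHalfPlane) (z t))
    (hcz' : ∀ t : ℝ, c' (t : AddCircle (1:ℝ))
      = Quotient.mk (MulAction.orbitRel Γ UpperHalfPlane) (z' t)) :
    ContinuousMap.Homotopic c c' := by
  obtain ⟨g, hgΓ, hg⟩ := hc
  -- a lift of the second loop with the same period element
  have p3 : ∀ t, g⁻¹ • z' (t + 1) = h • (g⁻¹ • z' t) := by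
    intro t
    have h1 : h' • (g • (g⁻¹ • z' t)) = g • (h • (g⁻¹ • z' t)) := by
      apply UpperHalfPlane.coe_injective
      rw [lh_coe, lh_coe g, lh_coe g, lh_coe h]
      exact hg _ (lh_mem _)
    rw [smul_inv_smul] at h1
    rw [p2, h1, inv_smul_smul]
  -- coordinates in which the period element is a dilation
  have key : ∀ w : ℝ → UpperHalfPlane, (∀ t, w (t + 1) = h • w t) →
      ∀ t, ((P⁻¹ • w (t + 1) : UpperHalfPlane) : ℂ) = (lam : ℂ) * ((P⁻¹ • w t : UpperHalfPlane) : ℂ) := by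
    intro w hw t
    have h1 : ((lam : ℂ) * ((P⁻¹ • w t : UpperHalfPlane) : ℂ)) ∈ UH := by
      have h2 : 0 < ((P⁻¹ • w t : UpperHalfPlane) : ℂ).im := lh_mem (P⁻¹ • w t)
      show 0 < ((lam : ℂ) * ((P⁻¹ • w t : UpperHalfPlane) : ℂ)).im
      rw [Complex.im_ofReal_mul]
      exact mul_pos hl h2
    have h3 := hP _ (lh_mem (P⁻¹ • w t))
    have h4 : mob P ((P⁻¹ • w t : UpperHalfPlane) : ℂ) = (w t : ℂ) := by
      rw [← lh_coe, smul_inv_smul]
    rw [h4, ← lh_coe, ← hw] at h3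
    rw [lh_coe, h3]
    exact (mobius_basic P 1 _ h1).2.2.2.2.2.2.2.1
  have hq1 : ∀ t, ((P⁻¹ • z (t + 1) : UpperHalfPlane) : ℂ)
      = (lam : ℂ) * ((P⁻¹ • z t : UpperHalfPlane) : ℂ) := key z p1
  have hq2 : ∀ t, ((P⁻¹ • (g⁻¹ • z' (t + 1)) : UpperHalfPlane) : ℂ)
      = (lam : ℂ) * ((P⁻¹ • (g⁻¹ • z' t) : UpperHalfPlane) : ℂ) := key (fun t => g⁻¹ • z' t) p3
  have hpos : ∀ (p : unitInterval × ℝ), 0 < (((1 - (p.1 : ℝ) : ℝ) : ℂ) * ((P⁻¹ • z p.2 : UpperHalfPlane) : ℂ)
      + (((p.1 : ℝ) : ℝ) : ℂ) * ((P⁻¹ • (g⁻¹ • z' p.2) : UpperHalfPlane) : ℂ)).im := by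
    rintro ⟨⟨s, hs0, hs1⟩, t⟩
    rw [Complex.add_im, Complex.im_ofReal_mul, Complex.im_ofReal_mul]
    have a1 : 0 < ((P⁻¹ • z t : UpperHalfPlane) : ℂ).im := lh_mem _
    have a2 : 0 < ((P⁻¹ • (g⁻¹ • z' t) : UpperHalfPlane) : ℂ).im := lh_mem _
    exact lh_pos _ _ s a1 a2 hs0 hs1
  let G : unitInterval × ℝ → UpperHalfPlane := fun p => UpperHalfPlane.mk _ (hpos p)
  have hG : ∀ p, ((G p : UpperHalfPlane) : ℂ)
      = (((1 - (p.1 : ℝ) : ℝ) : ℂ) * ((P⁻¹ • z p.2 : UpperHalfPlane) : ℂ)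
      + (((p.1 : ℝ) : ℝ) : ℂ) * ((P⁻¹ • (g⁻¹ • z' p.2) : UpperHalfPlane) : ℂ)) := fun p => rfl
  have hGc : Continuous G := by
    refine Continuous.upperHalfPlaneMk ?_ hpos
    have c1 : Continuous (fun p : unitInterval × ℝ => ((P⁻¹ • z p.2 : UpperHalfPlane) : ℂ)) :=
      UpperHalfPlane.continuous_coe.comp (lh_cont P⁻¹ _ (hz.comp continuous_snd))
    have c2 : Continuous (fun p : unitInterval × ℝ =>
        ((P⁻¹ • (g⁻¹ • z' p.2) : UpperHalfPlane) : ℂ)) :=
      UpperHalfPlane.continuous_coe.comp (lh_cont P⁻¹ _ (lh_cont g⁻¹ _ (hz'.comp continuous_snd)))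
    have c3 : Continuous (fun p : unitInterval × ℝ => (p.1 : ℝ)) :=
      continuous_subtype_val.comp continuous_fst
    exact ((Complex.continuous_ofReal.comp (continuous_const.sub c3)).mul c1).add
      ((Complex.continuous_ofReal.comp c3).mul c2)
  have hGper : ∀ (s : unitInterval) (t : ℝ), P • G (s, t + 1) = h • (P • G (s, t)) := by
    intro s t
    apply UpperHalfPlane.coe_injective
    rw [lh_coe, lh_coe h, lh_coe P, hP _ (lh_mem _)]
    congr 1
    rw [hG, hG]
    show _ * ((P⁻¹ • z (t + 1) : UpperHalfPlane) : ℂ) + _ * ((P⁻¹ • (g⁻¹ • z' (t + 1)) : UpperHalfPlane) : ℂ) = _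
    rw [hq1, hq2]
    ring
  let f : unitInterval → ℝ → Quotient (MulAction.orbitRel Γ UpperHalfPlane) := fun s t =>
    Quotient.mk (MulAction.orbitRel Γ UpperHalfPlane) (P • G (s, t))
  have hper : ∀ s, Function.Periodic (f s) 1 := by
    intro s t
    show Quotient.mk _ (P • G (s, t + 1)) = Quotient.mk _ (P • G (s, t))
    rw [hGper, lh_mk Γ h hh]
  have hfc : Continuous (fun p : unitInterval × ℝ => f p.1 p.2) := by
    have h1 : Continuous (fun p : unitInterval × ℝ => P • G p) := lh_cont P G hGc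
    have h2 : Continuous (Quotient.mk (MulAction.orbitRel Γ UpperHalfPlane)) :=
      continuous_quot_mk
    exact h2.comp h1
  let F : unitInterval × AddCircle (1:ℝ) → Quotient (MulAction.orbitRel Γ UpperHalfPlane) :=
    fun p => (hper p.1).lift p.2
  have hFv : ∀ (s : unitInterval) (t : ℝ), F (s, (t : AddCircle (1:ℝ))) = f s t := by
    intro s t
    exact Function.Periodic.lift_coe (hper s) t
  have hFc : Continuous F := by
    have hq : IsOpenQuotientMap (Prod.map (id : unitInterval → unitInterval)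
        (QuotientAddGroup.mk : ℝ → AddCircle (1:ℝ))) :=
      IsOpenQuotientMap.id.prodMap QuotientAddGroup.isOpenQuotientMap_mk
    rw [← hq.continuous_comp_iff]
    refine hfc.congr fun p => ?_
    exact (hFv p.1 p.2).symm
  refine ⟨⟨⟨F, hFc⟩, ?_, ?_⟩⟩
  · intro a
    induction a using QuotientAddGroup.induction_on with
    | H t =>
      show F (0, (t : AddCircle (1:ℝ))) = c (t : AddCircle (1:ℝ))
      rw [hFv, hcz]
      show Quotient.mk _ (P • G (0, t)) = _
      congr 1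
      have : G (0, t) = P⁻¹ • z t := by
        apply UpperHalfPlane.coe_injective
        rw [hG]; simp
      rw [this, smul_inv_smul]
  · intro a
    induction a using QuotientAddGroup.induction_on with
    | H t =>
      show F (1, (t : AddCircle (1:ℝ))) = c' (t : AddCircle (1:ℝ))
      rw [hFv, hcz']
      show Quotient.mk _ (P • G (1, t)) = _
      have : G (1, t) = P⁻¹ • (g⁻¹ • z' t) := by
        apply UpperHalfPlane.coe_injective
        rw [hG]; simp
      rw [this, smul_inv_smul, lh_mk Γ g⁻¹ (Γ.inv_mem hgΓ)]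

end Pool.H110K
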