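import Pool.Agent.H110K.Defs
import Pool.Agent.H110K.P_mobius_basic
import Pool.Agent.H110K.P_coe_smul_mob

set_option autoImplicit false

open Complex Set Filter Topology MeasureTheory
open scoped Real ContDiff

namespace Pool.H110K



theorem pe_neg (g : SL2) (x : UpperHalfPlane) : (-g) • x = g • x := by
  apply UpperHalfPlane.ext
  rw [(coe_smul_mob (-g) x).1, (coe_smul_mob g x).1]
  unfold mob den
  have e : ∀ i j, ((-g) i j : ℝ) = -(g i j) := fun i j => by simp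
  rw [e, e, e, e, ← neg_div_neg_eq]
  push_cast
  congr 1 <;> ring

theorem pe_same (Γ : Subgroup SL2)
    (hfree : ∀ γ ∈ Γ, ∀ z : UpperHalfPlane, γ • z = z → γ = 1 ∨ γ = -1)
    (γ γ' : Γ) (x : UpperHalfPlane) (h : γ • x = γ' • x) (y : UpperHalfPlane) :
    γ • y = γ' • y := by
  have h1 : ((γ⁻¹ * γ' : Γ) : SL2) • x = x := by
    change (γ⁻¹ * γ' : Γ) • x = x
    rw [mul_smul, ← h, inv_smul_smul]
  have h2 := hfree _ (γ⁻¹ * γ' : Γ).2 x h1
  have h3 : (γ⁻¹ * γ' : Γ) • y = y := by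
    change ((γ⁻¹ * γ' : Γ) : SL2) • y = y
    rcases h2 with h2 | h2
    · rw [h2, one_smul]
    · rw [h2, pe_neg, one_smul]
  rw [mul_smul, inv_smul_eq_iff] at h3
  exact h3.symm

theorem period_element (Γ : Subgroup SL2) [ProperlyDiscontinuousSMul Γ UpperHalfPlane]
    (hfree : ∀ γ ∈ Γ, ∀ z : UpperHalfPlane, γ • z = z → γ = 1 ∨ γ = -1)
    (z : ℝ → UpperHalfPlane) (hz : Continuous z) (ℓ : ℝ)
    (h : ∀ t, (Quotient.mk (MulAction.orbitRel Γ UpperHalfPlane) (z (t + ℓ)))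
      = Quotient.mk (MulAction.orbitRel Γ UpperHalfPlane) (z t)) :
    ∃ γ ∈ Γ, ∀ t, z (t + ℓ) = γ • z t := by
  obtain ⟨A, hA⟩ : ∃ A : Γ → Set ℝ, A = fun γ => {t | γ • z t = z (t + ℓ)} := ⟨_, rfl⟩
  have hmem : ∀ (γ : Γ) (t : ℝ), t ∈ A γ ↔ γ • z t = z (t + ℓ) := by
    intro γ t
    rw [hA]
    rfl
  have hzℓ : Continuous (fun t => z (t + ℓ)) := hz.comp (continuous_id.add continuous_const)
  have hclosed : ∀ γ, IsClosed (A γ) := by
    intro γ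
    have h1 : Continuous (fun t => γ • z t) := by
      have h2 : Continuous (fun x : UpperHalfPlane => (γ : SL2) • x) :=
        continuous_const_smul (γ : SL2)
      exact h2.comp hz
    have h3 : A γ = {t | γ • z t = z (t + ℓ)} := by
      rw [hA]
    rw [h3]
    exact isClosed_eq h1 hzℓ
  have hex : ∀ t, ∃ γ, t ∈ A γ := by
    intro t
    have h1 := Quotient.exact (h t)
    have h2 : z (t + ℓ) ∈ MulAction.orbit Γ (z t) := h1
    obtain ⟨γ, hγ⟩ := h2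
    exact ⟨γ, (hmem γ t).2 hγ⟩
  have hsame : ∀ γ γ' t s, t ∈ A γ → t ∈ A γ' → s ∈ A γ' → s ∈ A γ := by
    intro γ γ' t s h1 h2 h3
    rw [hmem] at h1 h2 h3 ⊢
    rw [pe_same Γ hfree γ γ' (z t) (h1.trans h2.symm) (z s)]
    exact h3
  obtain ⟨γ0, hγ0⟩ := hex 0
  have hopen : IsOpen (A γ0) := by
    rw [isOpen_iff_mem_nhds]
    intro t0 ht0
    have hK : IsCompact (z '' Icc (t0 - 1) (t0 + 1)) := isCompact_Icc.image hz
    have hL : IsCompact ((fun t => z (t + ℓ)) '' Icc (t0 - 1) (t0 + 1)) :=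
      isCompact_Icc.image hzℓ
    have hfin := ProperlyDiscontinuousSMul.finite_disjoint_inter_image (Γ := Γ) hK hL
    have hU : ∀ γ ∈ {γ : Γ | ((γ • ·) '' (z '' Icc (t0 - 1) (t0 + 1)) ∩
        ((fun t => z (t + ℓ)) '' Icc (t0 - 1) (t0 + 1))).Nonempty},
        {t | t ∈ A γ → t0 ∈ A γ} ∈ 𝓝 t0 := by
      intro γ _
      by_cases hγ : t0 ∈ A γ
      · exact Filter.Eventually.of_forall fun t _ => hγ
      · have h1 : (A γ)ᶜ ∈ 𝓝 t0 := (hclosed γ).isOpen_compl.mem_nhds hγ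
        filter_upwards [h1] with t ht ht'
        exact absurd ht' ht
    have hU2 := (Filter.biInter_mem hfin).2 hU
    have hU3 : Icc (t0 - 1) (t0 + 1) ∈ 𝓝 t0 := Icc_mem_nhds (by linarith) (by linarith)
    filter_upwards [hU2, hU3] with t ht1 ht2
    obtain ⟨γ, hγ⟩ := hex t
    have hγF : γ ∈ {γ : Γ | ((γ • ·) '' (z '' Icc (t0 - 1) (t0 + 1)) ∩
        ((fun t => z (t + ℓ)) '' Icc (t0 - 1) (t0 + 1))).Nonempty} := by
      refine ⟨z (t + ℓ), ⟨z t, ⟨t, ht2, rfl⟩, (hmem γ t).1 hγ⟩, ⟨t, ht2, rfl⟩⟩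
    have h2 := (Set.mem_iInter₂.1 ht1) γ hγF
    have h3 : t0 ∈ A γ := h2 hγ
    exact hsame γ0 γ t0 t ht0 h3 hγ
  have huniv : A γ0 = univ := IsClopen.eq_univ ⟨hclosed γ0, hopen⟩ ⟨0, hγ0⟩
  refine ⟨γ0, γ0.2, fun t => ?_⟩
  have h1 : t ∈ A γ0 := by
    rw [huniv]
    exact mem_univ t
  exact ((hmem γ0 t).1 h1).symm

end Pool.H110K
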