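import Pool.Agent.H110K.Defs
import Pool.Agent.H110K.P_mobius_basic
import Pool.Agent.H110K.P_coe_smul_mob

set_option autoImplicit false

open Complex Set Filter Topology MeasureTheory
open scoped Real ContDiff

namespace Pool.H110K



theorem surf_of_quotient (Γ : Subgroup SL2) [ProperlyDiscontinuousSMul Γ UpperHalfPlane]
    [CompactSpace (Quotient (MulAction.orbitRel Γ UpperHalfPlane))]
    (hfree : ∀ γ ∈ Γ, ∀ z : UpperHalfPlane, γ • z = z → γ = 1 ∨ γ = -1)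
    (φ : ℂ → ℝ) (hφ : ContDiffOn ℝ ∞ φ {z : ℂ | 0 < z.im})
    (hinv : ∀ γ ∈ Γ, ∀ z : UpperHalfPlane,
      φ ((γ • z : UpperHalfPlane) : ℂ) + Real.log (γ • z : UpperHalfPlane).im
        = φ (z : ℂ) + Real.log z.im)
    (hK : ∀ z : UpperHalfPlane, 0 ≤ lap φ (z : ℂ)) : Surf Γ φ := by
  have hcts : ContinuousConstSMul Γ UpperHalfPlane :=
    ⟨fun γ => continuous_const_smul (γ : SL2)⟩
  refine ⟨?_, ?_, ?_, hφ, ?_, ?_⟩
  · have hex : ∀ z : UpperHalfPlane, ∃ V : Set UpperHalfPlane, IsCompact V ∧ V ∈ 𝓝 z :=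
      fun z => exists_compact_mem_nhds z
    choose V hVc hVn using hex
    have hopen := isOpenMap_quotient_mk'_mul (Γ := Γ) (T := UpperHalfPlane)
    obtain ⟨t, ht⟩ := (isCompact_univ (X := Quotient (MulAction.orbitRel Γ UpperHalfPlane))).elim_finite_subcover
      (fun z : UpperHalfPlane => (fun w => (Quotient.mk (MulAction.orbitRel Γ UpperHalfPlane) w)) ''
        interior (V z)) (fun z => hopen _ isOpen_interior) (by
        intro x _
        obtain ⟨z, rfl⟩ := Quotient.exists_rep x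
        exact Set.mem_iUnion.2 ⟨z, z, mem_interior_iff_mem_nhds.2 (hVn z), rfl⟩)
    refine ⟨UpperHalfPlane.coe '' (⋃ z ∈ t, V z),
      (t.isCompact_biUnion fun z _ => hVc z).image UpperHalfPlane.continuous_coe, ?_, ?_⟩
    · rintro _ ⟨z, _, rfl⟩
      exact z.coe_im_pos
    · intro w hw
      have h1 := ht (Set.mem_univ (Quotient.mk (MulAction.orbitRel Γ UpperHalfPlane) ⟨w, hw⟩))
      rw [Set.mem_iUnion₂] at h1
      obtain ⟨z, hz, k, hk, hkw⟩ := h1
      have h2 : (MulAction.orbitRel Γ UpperHalfPlane) k ⟨w, hw⟩ := Quotient.exact hkw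
      rw [MulAction.orbitRel_apply] at h2
      obtain ⟨γ, hγ⟩ := h2
      refine ⟨(γ : SL2), γ.2, k, Set.mem_iUnion₂.2 ⟨z, hz, interior_subset hk⟩, ?_⟩
      rw [← hγ]
      exact (coe_smul_mob (γ : SL2) ⟨w, hw⟩).1
  · intro K hKc hKU
    have hKc' : IsCompact (UpperHalfPlane.coe ⁻¹' K) := by
      rw [UpperHalfPlane.isEmbedding_coe.isInducing.isCompact_preimage_iff]
      · exact hKc
      · intro z hz
        exact ⟨⟨z, hKU hz⟩, rfl⟩
    have hfin := ProperlyDiscontinuousSMul.finite_disjoint_inter_image (Γ := Γ) hKc' hKc'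
    refine (hfin.image Subtype.val).subset ?_
    rintro h ⟨hh, x, ⟨z, hz, rfl⟩, hx⟩
    refine ⟨⟨h, hh⟩, ⟨(⟨h, hh⟩ : Γ) • (⟨z, hKU hz⟩ : UpperHalfPlane), ⟨⟨z, hKU hz⟩, hz, rfl⟩, ?_⟩, rfl⟩
    show ((h • (⟨z, hKU hz⟩ : UpperHalfPlane) : UpperHalfPlane) : ℂ) ∈ K
    rw [(coe_smul_mob h ⟨z, hKU hz⟩).1]
    exact hx
  · intro h hh z hz hhz w hw
    have h1 : h • (⟨z, hz⟩ : UpperHalfPlane) = ⟨z, hz⟩ := by
      apply UpperHalfPlane.coe_injective
      rw [(coe_smul_mob h ⟨z, hz⟩).1]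
      exact hhz
    rcases hfree h hh _ h1 with h2 | h2
    · rw [h2]
      exact (mobius_basic 1 1 w hw).2.2.2.2.2.1
    · rw [h2]
      have e00 : ((-1 : SL2) 0 0 : ℝ) = -1 := by simp
      have e01 : ((-1 : SL2) 0 1 : ℝ) = 0 := by simp
      have e10 : ((-1 : SL2) 1 0 : ℝ) = 0 := by simp
      have e11 : ((-1 : SL2) 1 1 : ℝ) = -1 := by simp
      unfold mob den
      rw [e00, e01, e10, e11]
      push_cast
      ring
  · intro h hh z hz
    have h1 := hinv h hh ⟨z, hz⟩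
    obtain ⟨h2, h3, -⟩ := coe_smul_mob h ⟨z, hz⟩
    rw [h2, h3] at h1
    have h4 : 0 < (⟨z, hz⟩ : UpperHalfPlane).im := hz
    have h5 : den h z ≠ 0 := (mobius_basic h 1 z hz).1
    have h6 : (0 : ℝ) < ‖den h z‖ := norm_pos_iff.2 h5
    rw [Real.log_div h4.ne' (pow_ne_zero 2 h6.ne'), Real.log_pow] at h1
    push_cast at h1
    linarith
  · intro z hz
    exact hK ⟨z, hz⟩

end Pool.H110K
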