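import Pool.Agent.H110K.Defs
import Pool.Agent.H110K.P_mobius_basic
import Pool.Agent.H110K.P_hyperbolic
import Pool.Agent.H110K.P_all_count
import Pool.Agent.H110K.P_coe_smul_mob
import Pool.Agent.H110K.P_surf_of_quotient
import Pool.Agent.H110K.P_period_element
import Pool.Agent.H110K.P_loops_homotopic
import Pool.Agent.H110K.P_finite_of_card_bound

set_option autoImplicit false

open Complex Set Filter Topology MeasureTheory
open scoped Real ContDiff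

namespace Pool.H110K



theorem kn_data (Γ : Subgroup SL2) [ProperlyDiscontinuousSMul Γ UpperHalfPlane]
    (hfree : ∀ γ ∈ Γ, ∀ z : UpperHalfPlane, γ • z = z → γ = 1 ∨ γ = -1)
    (φ : ℂ → ℝ) (c : C(AddCircle (1:ℝ), Quotient (MulAction.orbitRel Γ UpperHalfPlane)))
    (ℓ : ℝ) (hl0 : 0 < ℓ) (z : ℝ → UpperHalfPlane) (v : ℝ → ℂ)
    (hgeo : IsGeo φ (fun t => (z t : ℂ)) v)
    (hc : ∀ t : ℝ, c (t : AddCircle (1:ℝ))
            = Quotient.mk (MulAction.orbitRel Γ UpperHalfPlane) (z (ℓ * t))) :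
    ∃ γ ∈ Γ, Continuous z ∧ ∀ t, z (t + ℓ) = γ • z t := by
  have hz : Continuous z := by
    rw [UpperHalfPlane.isEmbedding_coe.continuous_iff]
    exact continuous_iff_continuousAt.2 fun t => (hgeo.dz t).continuousAt
  have hper : ∀ t, (Quotient.mk (MulAction.orbitRel Γ UpperHalfPlane) (z (t + ℓ)))
      = Quotient.mk (MulAction.orbitRel Γ UpperHalfPlane) (z t) := by
    intro t
    have h1 := hc (t / ℓ + 1)
    have h2 := hc (t / ℓ)
    have h3 : (((t / ℓ + 1 : ℝ)) : AddCircle (1:ℝ)) = ((t / ℓ : ℝ) : AddCircle (1:ℝ)) :=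
      AddCircle.coe_add_period 1 (t / ℓ)
    rw [h3, h2] at h1
    have e1 : ℓ * (t / ℓ) = t := by field_simp
    have e2 : ℓ * (t / ℓ + 1) = t + ℓ := by field_simp
    rw [e1, e2] at h1
    exact h1.symm
  obtain ⟨γ, hγ, h⟩ := period_element Γ hfree z hz ℓ hper
  exact ⟨γ, hγ, hz, h⟩

theorem knieper (Γ : Subgroup SL2) [ProperlyDiscontinuousSMul Γ UpperHalfPlane]
    [CompactSpace (Quotient (MulAction.orbitRel Γ UpperHalfPlane))]
    (hfree : ∀ γ ∈ Γ, ∀ z : UpperHalfPlane, γ • z = z → γ = 1 ∨ γ = -1)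
    (φ : ℂ → ℝ) (hφ : ContDiffOn ℝ ∞ φ {z : ℂ | 0 < z.im})
    (hinv : ∀ γ ∈ Γ, ∀ z : UpperHalfPlane,
      φ ((γ • z : UpperHalfPlane) : ℂ) + Real.log (γ • z : UpperHalfPlane).im
        = φ (z : ℂ) + Real.log z.im)
    (hK : ∀ z : UpperHalfPlane, 0 ≤ lap φ (z : ℂ)) :
    ∃ C : ℝ, 0 < C ∧ ∀ T : ℝ, 1 ≤ T → ∀ A : Set (Set
      (C(AddCircle (1:ℝ), Quotient (MulAction.orbitRel Γ UpperHalfPlane)))),
      (∀ X ∈ A, ∃ c : C(AddCircle (1:ℝ), Quotient (MulAction.orbitRel Γ UpperHalfPlane)),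
        X = {c' | ContinuousMap.Homotopic c' c} ∧ ∃ ℓ : ℝ, 0 < ℓ ∧ ℓ ≤ T ∧
        ∃ (z : ℝ → UpperHalfPlane) (v : ℝ → ℂ), IsGeo φ (fun t => (z t : ℂ)) v ∧
          (∀ t, lap φ (z t : ℂ) = 0) ∧ ∀ t : ℝ, c (t : AddCircle (1:ℝ))
            = Quotient.mk (MulAction.orbitRel Γ UpperHalfPlane) (z (ℓ * t))) →
      A.Finite ∧ (A.ncard : ℝ) ≤ C * T ^ 2 := by
  classical
  have S := surf_of_quotient Γ hfree φ hφ hinv hK
  obtain ⟨C, hC, hcount⟩ := all_count Γ φ S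
  refine ⟨C + 1, by positivity, fun T hT A hA => ?_⟩
  refine finite_of_card_bound A _ fun s hs => ?_
  have hd : ∀ X : {X // X ∈ s}, ∃ (c : C(AddCircle (1:ℝ), Quotient (MulAction.orbitRel Γ UpperHalfPlane)))
      (ℓ : ℝ) (z : ℝ → UpperHalfPlane) (v : ℝ → ℂ) (γ : SL2),
      X.1 = {c' | ContinuousMap.Homotopic c' c} ∧ 0 < ℓ ∧ ℓ ≤ T ∧
      IsGeo φ (fun t => (z t : ℂ)) v ∧ (∀ t, lap φ (z t : ℂ) = 0) ∧
      (∀ t : ℝ, c (t : AddCircle (1:ℝ))
            = Quotient.mk (MulAction.orbitRel Γ UpperHalfPlane) (z (ℓ * t))) ∧ γ ∈ Γ ∧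
      Continuous z ∧ ∀ t, z (t + ℓ) = γ • z t := by
    rintro ⟨X, hX⟩
    obtain ⟨c, hXc, ℓ, hl0, hlT, z, v, hgeo, hflat, hc⟩ := hA X (hs hX)
    obtain ⟨γ, hγ, hz, hper⟩ := kn_data Γ hfree φ c ℓ hl0 z v hgeo hc
    exact ⟨c, ℓ, z, v, γ, hXc, hl0, hlT, hgeo, hflat, hc, hγ, hz, hper⟩
  choose c ℓ z v γ hXc hl0 hlT hgeo hflat hc hγ hz hper using hd
  have hcont : ∀ X, Continuous fun t : ℝ => z X (ℓ X * t) := fun X =>
    (hz X).comp (continuous_const.mul continuous_id)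
  have hp1 : ∀ X (t : ℝ), z X (ℓ X * (t + 1)) = γ X • z X (ℓ X * t) := by
    intro X t
    rw [← hper X (ℓ X * t)]
    congr 1
    ring
  have hsame : ∀ X Y : {X // X ∈ s}, ContinuousMap.Homotopic (c X) (c Y) → X = Y := by
    intro X Y h
    apply Subtype.ext
    rw [hXc X, hXc Y]
    ext c'
    exact ⟨fun h' => h'.trans h, fun h' => h'.trans h.symm⟩
  set p : {X // X ∈ s} → Prop := fun X => ∃ w ∈ UH, mob (γ X) w ≠ w with hp
  have h1 : (Fintype.card {X // p X} : ℝ) ≤ C * T ^ 2 := by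
    refine hcount T (by linarith) {X // p X} (fun X t => (z X.1 t : ℂ)) (fun X => v X.1)
      (fun X => γ X.1) (fun X => ℓ X.1) ?_ (fun X => hlT X.1) ?_
    · intro X
      refine ⟨hgeo X.1, hflat X.1, hγ X.1, hl0 X.1, fun t => ?_, X.2⟩
      show ((z X.1 (t + ℓ X.1) : UpperHalfPlane) : ℂ) = mob (γ X.1) (z X.1 t)
      rw [hper X.1 t]
      exact (coe_smul_mob (γ X.1) (z X.1 t)).1
    · intro X Y hXY hcnj
      obtain ⟨P, lam, hlam, _, hP⟩ := hyperbolic Γ φ S (γ X.1) (hγ X.1) X.2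
      apply hXY
      apply Subtype.ext
      apply hsame
      exact loops_homotopic Γ (γ X.1) (γ Y.1) P lam hlam (hγ X.1) (hγ Y.1) hP hcnj
        (fun t => z X.1 (ℓ X.1 * t)) (fun t => z Y.1 (ℓ Y.1 * t)) (hcont X.1) (hcont Y.1)
        (hp1 X.1) (hp1 Y.1) (c X.1) (c Y.1) (hc X.1) (hc Y.1)
  have h2 : Fintype.card {X // ¬ p X} ≤ 1 := by
    rw [Fintype.card_le_one_iff]
    intro X Y
    apply Subtype.ext
    apply hsame
    have hX : ∀ w ∈ UH, mob (γ X.1) w = w := by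
      intro w hw
      by_contra h
      exact X.2 ⟨w, hw, h⟩
    have hY : ∀ w ∈ UH, mob (γ Y.1) w = w := by
      intro w hw
      by_contra h
      exact Y.2 ⟨w, hw, h⟩
    have hone : ∀ w ∈ UH, mob (1 : SL2) w = w := fun w hw => (mobius_basic 1 1 w hw).2.2.2.2.2.1
    refine loops_homotopic Γ (γ X.1) (γ Y.1) 1 1 one_pos (hγ X.1) (hγ Y.1) ?_ ?_
        (fun t => z X.1 (ℓ X.1 * t)) (fun t => z Y.1 (ℓ Y.1 * t)) (hcont X.1) (hcont Y.1)
        (hp1 X.1) (hp1 Y.1) (c X.1) (c Y.1) (hc X.1) (hc Y.1)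
    · intro w hw
      rw [hone w hw, hX w hw]
      push_cast
      rw [one_mul, hone w hw]
    · refine ⟨1, Γ.one_mem, fun w hw => ?_⟩
      rw [hone w hw, hX w hw, hone w hw, hY w hw]
  have h3 : Fintype.card {X // X ∈ s} = Fintype.card {X // p X} + Fintype.card {X // ¬ p X} := by
    rw [← Fintype.card_sum]
    exact Fintype.card_congr (Equiv.sumCompl p).symm
  have h4 : s.card = Fintype.card {X // X ∈ s} := (Fintype.card_coe s).symm
  have h5 : (s.card : ℝ) ≤ C * T ^ 2 + 1 := by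
    rw [h4, h3]
    push_cast
    have : (Fintype.card {X // ¬ p X} : ℝ) ≤ 1 := by exact_mod_cast h2
    linarith
  have h6 : (1 : ℝ) ≤ T ^ 2 := one_le_pow₀ hT
  calc (s.card : ℝ) ≤ C * T ^ 2 + 1 := h5
    _ ≤ (C + 1) * T ^ 2 := by linarith

end Pool.H110K
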