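import Pool.Agent.H110K.Defs
import Pool.Agent.H110K.P_mobius_basic
import Pool.Agent.H110K.P_hasDerivAt_mob
import Pool.Agent.H110K.P_near_tools
import Pool.Agent.H110K.P_geo_shift
import Pool.Agent.H110K.P_geo_move
import Pool.Agent.H110K.P_K1
import Pool.Agent.H110K.P_overlap_cnj

set_option autoImplicit false

open Complex Set Filter Topology MeasureTheory
open scoped Real ContDiff

namespace Pool.H110K



theorem os_iter (h : SL2) (ℓ : ℝ) (x : ℝ → ℂ) (hx : ∀ t, x t ∈ UH)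
    (hper : ∀ t, x (t + ℓ) = mob h (x t)) (m : ℤ) : ∀ t, x (t + m * ℓ) = mob (h ^ m) (x t) := by
  induction m using Int.induction_on with
  | zero =>
    intro t
    rw [zpow_zero, (mobius_basic 1 1 (x t) (hx t)).2.2.2.2.2.1]
    simp
  | succ m ih =>
    intro t
    have e1 : t + ((m : ℤ) + 1 : ℤ) * ℓ = (t + ((m : ℤ) : ℝ) * ℓ) + ℓ := by push_cast; ring
    rw [e1, hper, ih t, add_comm (m : ℤ) 1, zpow_add, zpow_one,
      (mobius_basic h (h ^ (m : ℤ)) (x t) (hx t)).2.2.2.1]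
  | pred m ih =>
    intro t
    have e1 : t + ((-(m : ℤ) - 1 : ℤ) : ℝ) * ℓ + ℓ = t + ((-(m : ℤ) : ℤ) : ℝ) * ℓ := by
      push_cast; ring
    have e2 : mob h (x (t + ((-(m : ℤ) - 1 : ℤ) : ℝ) * ℓ)) = mob (h ^ (-(m : ℤ))) (x t) := by
      rw [← hper, e1, ih t]
    have e3 : x (t + ((-(m : ℤ) - 1 : ℤ) : ℝ) * ℓ) = mob h⁻¹ (mob (h ^ (-(m : ℤ))) (x t)) := by
      rw [← e2, (mobius_basic h h _ (hx _)).2.2.2.2.2.2.2.1]
    rw [e3, ← (mobius_basic h⁻¹ (h ^ (-(m : ℤ))) (x t) (hx t)).2.2.2.1, ← zpow_neg_one,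
      ← zpow_add]
    congr 2
    ring

theorem overlap_shift (Γ : Subgroup SL2) (φ : ℂ → ℝ) (S : Surf Γ φ) (lm : ℝ) (hlm : 0 < lm) :
    ∃ C : ℝ, 1 ≤ C ∧ ∃ e5 : ℝ, 0 < e5 ∧
    ∀ (z v : ℝ → ℂ) (h : SL2) (ℓ : ℝ), CG Γ φ z v h ℓ → Prm Γ z ℓ →
      ∀ T : ℝ, lm ≤ T → 2 * T / 3 < ℓ → ℓ ≤ T → ∀ g ∈ Γ, ∀ b : ℝ,
      ∀ ε : ℝ, 0 < ε → ε ≤ e5 →
      (∀ t, 0 ≤ t → t ≤ 2 * T → ‖mob g (z (t + b)) - z t‖ ≤ ε * (z t).im) →
      ∃ a : ℝ, |a| ≤ C * ε ∧ ∃ n : ℤ, b + a = n * ℓ := by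
  obtain ⟨C, hC, e2, he2, hK1⟩ := K1 Γ φ S
  obtain ⟨e4, he4, hov⟩ := overlap_cnj Γ φ S lm hlm
  refine ⟨4 * C, by linarith, min (min e4 (e2 / 4)) (1 / 4), by positivity, ?_⟩
  intro z v h ℓ hcg hprm T hT h1 h2 g hg b ε hε hεe hclose
  have hεe4 : ε ≤ e4 := hεe.trans ((min_le_left _ _).trans (min_le_left _ _))
  have hεe2 : ε ≤ e2 / 4 := hεe.trans ((min_le_left _ _).trans (min_le_right _ _))
  have hε4 : ε ≤ 1 / 4 := hεe.trans (min_le_right _ _)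
  have hzm : ∀ t, z t ∈ UH := hcg.geo.mem
  have hgm : ∀ w ∈ UH, mob g w ∈ UH := fun w hw => (mobius_basic g g w hw).2.2.1
  have hmul : ∀ (M N : SL2), ∀ w ∈ UH, mob (M * N) w = mob M (mob N w) :=
    fun M N w hw => (mobius_basic M N w hw).2.2.2.1
  have hinv1 : ∀ (M : SL2), ∀ w ∈ UH, mob M⁻¹ (mob M w) = w :=
    fun M w hw => (mobius_basic M M w hw).2.2.2.2.2.2.2.1
  have hmem : ∀ (M : SL2), ∀ w ∈ UH, mob M w ∈ UH := fun M w hw => (mobius_basic M M w hw).2.2.1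
  have hcj : ∀ (k : SL2), ∀ w ∈ UH, mob (g * k * g⁻¹) (mob g w) = mob g (mob k w) := by
    intro k w hw
    rw [hmul _ _ _ (hgm w hw), hinv1 g w hw, hmul _ _ _ hw]
  set Z : ℝ → ℂ := fun t => mob g (z (t + b)) with hZ
  have hgeoZ := (geo_move Γ φ S g hg _ _ (geo_shift φ z v hcg.geo b)).1
  have hCG' : CG Γ φ Z (fun t => v (t + b) / (den g (z (t + b))) ^ 2) (g * h * g⁻¹) ℓ := by
    refine ⟨hgeoZ, ?_, ?_, hcg.pos, ?_, ?_⟩
    · intro t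
      exact (geo_move Γ φ S g hg _ _ hcg.geo).2 _ (hzm _) (hcg.flat _)
    · exact Γ.mul_mem (Γ.mul_mem hg hcg.mem) (Γ.inv_mem hg)
    · intro t
      show mob g (z (t + ℓ + b)) = mob (g * h * g⁻¹) (mob g (z (t + b)))
      rw [hcj h _ (hzm _), ← hcg.per]
      congr 2
      ring
    · obtain ⟨w, hw, hne⟩ := hcg.nt
      refine ⟨mob g w, hgm w hw, ?_⟩
      rw [hcj h w hw]
      intro heq
      apply hne
      rw [← hinv1 g _ (hmem h w hw), heq, hinv1 g w hw]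
  have hPrm' : Prm Γ Z ℓ := by
    intro k hk a ha
    apply hprm (g⁻¹ * k * g) (Γ.mul_mem (Γ.mul_mem (Γ.inv_mem hg) hk) hg) a
    intro t
    have e1 := ha (t - b)
    simp only [hZ] at e1
    rw [show t - b + a + b = t + a by ring, show t - b + b = t by ring] at e1
    rw [hmul _ _ _ (hzm t), hmul _ _ _ (hgm _ (hzm t)), ← e1, hinv1 g _ (hzm _)]
  have hcomm := hov z v h ℓ Z _ (g * h * g⁻¹) ℓ hcg hCG' hPrm' T hT h1 h2 h1 h2 ε hε hεe4 hclose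
  have hgh : ∀ p ∈ UH, mob g (mob h p) = mob h (mob g p) := by
    intro p hp
    rw [hcomm _ (hgm p hp), hcj h p hp]
  have hZm : ∀ t, Z t ∈ UH := fun t => hgm _ (hzm _)
  have hZper : ∀ t, Z (t + ℓ) = mob h (Z t) := by
    intro t
    rw [hCG'.per t, hcomm _ (hZm t)]
  have hall : ∀ t, ‖mob g (z (t + b)) - z t‖ ≤ (4 * ε) * (z t).im := by
    intro t
    have hℓ := hcg.pos
    obtain ⟨m, hm, -⟩ := existsUnique_add_zsmul_mem_Ico hℓ t 0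
    rw [zero_add, zsmul_eq_mul] at hm
    set t0 : ℝ := t + m * ℓ with ht0
    have et : t = t0 + ((-m : ℤ) : ℝ) * ℓ := by rw [ht0]; push_cast; ring
    have hz0 : z t = mob (h ^ (-m)) (z t0) := by
      conv_lhs => rw [et]
      exact os_iter h ℓ z hzm hcg.per (-m) t0
    have hZ0 : Z t = mob (h ^ (-m)) (Z t0) := by
      conv_lhs => rw [et]
      exact os_iter h ℓ Z hZm hZper (-m) t0
    have hc0 := hclose t0 hm.1 (by linarith [hm.2])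
    have h5 := near_tools.1 (h ^ (-m)) (z t0) (Z t0) ε (hzm _) (hZm _) hε.le hε4 hc0
    show ‖Z t - z t‖ ≤ _
    rw [hZ0, hz0]
    exact h5
  obtain ⟨a, ha1, ha2⟩ := hK1 z v h ℓ hcg g hg b hgh (4 * ε) (by linarith) (by linarith) hall
  refine ⟨a, by linarith, ?_⟩
  apply hprm g⁻¹ (Γ.inv_mem hg) (b + a)
  intro t
  conv_rhs => rw [← ha2 t]
  rw [hinv1 g _ (hzm _), add_assoc]

end Pool.H110K
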